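import Mathlib

/-!
# A shuffle algebra of functions on lists

For a kernel `f : P → P → K` we define an associative product on the functions `List P → K`:
`(a * b) (x₁, ..., xₙ)` is the sum over all splittings of the list into two sublists `I`, `J` of
`± a(I) b(J) ∏ f(i, j)`.
-/

set_option autoImplicit false
set_option linter.dupNamespace false
set_option linter.unusedSectionVars false

namespace Pool.Agent.V11175.Sh

open List

variable {P K : Type} [CommRing K]

/-- multiply by a multiplicative function -/
def mo (m : P → K) (a : List P → K) : List P → K := fun l => (l.map m).prod * a l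

/-- put the first variable equal to `x` -/
def ev (x : P) (a : List P → K) : List P → K := fun l => a (x :: l)

/-- the shuffle product -/
def mulAux (f : P → P → K) : List P → (List P → K) → (List P → K) → K
  | [], a, b => a [] * b []
  | x :: c, a, b =>
      mulAux f c (ev x a) (mo (f x) b) + mulAux f c (mo (fun y => -f y x) a) (ev x b)

def mulF (f : P → P → K) (a b : List P → K) : List P → K := fun c => mulAux f c a b

def oneF : List P → K
  | [] => 1
  | _ :: _ => 0

variable (f : P → P → K)

omit [CommRing K] in
lemma fext {a b : List P → K} (h0 : a [] = b []) (h : ∀ x, ev x a = ev x b) : a = b := by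
  funext l
  cases l with
  | nil => exact h0
  | cons x l => exact congrFun (h x) l

lemma ev_add (x : P) (a b : List P → K) : ev x (a + b) = ev x a + ev x b := rfl
lemma ev_smul (x : P) (r : K) (b : List P → K) : ev x (r • b) = r • ev x b := rfl
lemma ev_zero (x : P) : ev x (0 : List P → K) = 0 := rfl

lemma mo_add (m : P → K) (a b : List P → K) : mo m (a + b) = mo m a + mo m b := by
  funext l; simp [mo, mul_add]
lemma mo_smul (m : P → K) (r : K) (b : List P → K) : mo m (r • b) = r • mo m b := by
  funext l; simp [mo]; ring
lemma mo_zero (m : P → K) : mo m (0 : List P → K) = 0 := by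
  funext l; simp [mo]
lemma mo_one (m : P → K) : mo m (oneF : List P → K) = oneF := by
  funext l; cases l <;> simp [mo, oneF]
lemma ev_one (x : P) : ev x (oneF : List P → K) = 0 := rfl
lemma mo_mo (m m' : P → K) (a : List P → K) : mo m (mo m' a) = mo (fun x => m x * m' x) a := by
  funext l
  simp only [mo, ← mul_assoc]
  congr 1
  induction l with
  | nil => simp
  | cons x l ih => simp only [List.map_cons, List.prod_cons]; rw [← ih]; ring
lemma mo_comm (m m' : P → K) (a : List P → K) : mo m (mo m' a) = mo m' (mo m a) := by
  rw [mo_mo, mo_mo]; congr 1; funext x; ring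
lemma ev_mo (x : P) (m : P → K) (a : List P → K) : ev x (mo m a) = m x • mo m (ev x a) := by
  funext l; simp [mo, ev, mul_assoc]

lemma mulAux_add_left (c : List P) : ∀ a a' b : List P → K,
    mulAux f c (a + a') b = mulAux f c a b + mulAux f c a' b := by
  induction c with
  | nil => intro a a' b; simp [mulAux, add_mul]
  | cons x c ih => intro a a' b; simp only [mulAux, ev_add, mo_add, ih]; ring

lemma mulAux_add_right (c : List P) : ∀ a b b' : List P → K,
    mulAux f c a (b + b') = mulAux f c a b + mulAux f c a b' := by
  induction c with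
  | nil => intro a a' b; simp [mulAux, mul_add]
  | cons x c ih => intro a a' b; simp only [mulAux, ev_add, mo_add, ih]; ring

lemma mulAux_smul_left (c : List P) : ∀ (r : K) (a b : List P → K),
    mulAux f c (r • a) b = r * mulAux f c a b := by
  induction c with
  | nil => intro r a b; simp [mulAux, mul_assoc]
  | cons x c ih => intro r a b; simp only [mulAux, ev_smul, mo_smul, ih]; ring

lemma mulAux_smul_right (c : List P) : ∀ (r : K) (a b : List P → K),
    mulAux f c a (r • b) = r * mulAux f c a b := by
  induction c with
  | nil => intro r a b; simp [mulAux]; ring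
  | cons x c ih => intro r a b; simp only [mulAux, ev_smul, mo_smul, ih]; ring

lemma mulF_add_left (a a' b : List P → K) : mulF f (a + a') b = mulF f a b + mulF f a' b := by
  funext c; exact mulAux_add_left f c a a' b
lemma mulF_add_right (a b b' : List P → K) : mulF f a (b + b') = mulF f a b + mulF f a b' := by
  funext c; exact mulAux_add_right f c a b b'
lemma mulF_smul_left (r : K) (a b : List P → K) : mulF f (r • a) b = r • mulF f a b := by
  funext c; exact mulAux_smul_left f c r a b
lemma mulF_smul_right (r : K) (a b : List P → K) : mulF f a (r • b) = r • mulF f a b := by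
  funext c; exact mulAux_smul_right f c r a b
lemma mulF_zero_left (b : List P → K) : mulF f 0 b = 0 := by
  have := mulF_smul_left f 0 0 b; simpa using this
lemma mulF_zero_right (a : List P → K) : mulF f a 0 = 0 := by
  have := mulF_smul_right f 0 a 0; simpa using this

lemma ev_mulF (x : P) (a b : List P → K) :
    ev x (mulF f a b) = mulF f (ev x a) (mo (f x) b) + mulF f (mo (fun y => -f y x) a) (ev x b) := rfl

lemma mo_mulF (m : P → K) (a b : List P → K) : mo m (mulF f a b) = mulF f (mo m a) (mo m b) := by
  funext c
  induction c generalizing a b with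
  | nil => simp [mo, mulF, mulAux]
  | cons x c ih =>
    have h1 : mo m (mulF f a b) (x :: c) = ev x (mo m (mulF f a b)) c := rfl
    have h2 : mulF f (mo m a) (mo m b) (x :: c) = ev x (mulF f (mo m a) (mo m b)) c := rfl
    rw [h1, h2, ev_mo, ev_mulF, ev_mulF, mo_add, ev_mo, ev_mo, mulF_smul_left, mulF_smul_right,
      mo_comm (f x) m b, mo_comm _ m a]
    simp only [Pi.smul_apply, Pi.add_apply, ih, smul_eq_mul]
    ring

lemma mulF_assoc (a b d : List P → K) : mulF f (mulF f a b) d = mulF f a (mulF f b d) := by
  funext c
  induction c generalizing a b d with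
  | nil => simp [mulF, mulAux, mul_assoc]
  | cons x c ih =>
    have h1 : ∀ u v : List P → K, mulF f u v (x :: c) = ev x (mulF f u v) c := fun _ _ => rfl
    rw [h1, h1, ev_mulF, ev_mulF, ev_mulF, ev_mulF, mo_mulF, mo_mulF, mulF_add_left, mulF_add_right]
    simp only [Pi.add_apply, ih]
    ring

lemma one_mulF (b : List P → K) : mulF f oneF b = b := by
  funext c
  induction c generalizing b with
  | nil => simp [mulF, mulAux, oneF]
  | cons x c ih =>
    have h1 : ∀ u v : List P → K, mulF f u v (x :: c) = ev x (mulF f u v) c := fun _ _ => rfl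
    rw [h1, ev_mulF, ev_one, mo_one, mulF_zero_left]
    simp only [Pi.add_apply, ih]
    simp [ev]

lemma mulF_one (b : List P → K) : mulF f b oneF = b := by
  funext c
  induction c generalizing b with
  | nil => simp [mulF, mulAux, oneF]
  | cons x c ih =>
    have h1 : ∀ u v : List P → K, mulF f u v (x :: c) = ev x (mulF f u v) c := fun _ _ => rfl
    rw [h1, ev_mulF, ev_one, mo_one, mulF_zero_right]
    simp only [Pi.add_apply, ih]
    simp [ev]

/-- the shuffle algebra with kernel `f` -/
def Sh {P K : Type} (_f : P → P → K) : Type := List P → K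

namespace Sh

variable {f}

/-- the additive structure -/
@[reducible] def acg : AddCommGroup (Sh f) := inferInstanceAs (AddCommGroup (List P → K))

instance : Ring (Sh f) :=
  { acg with
    mul := mulF f
    one := (oneF : List P → K)
    left_distrib := mulF_add_right f
    right_distrib := mulF_add_left f
    zero_mul := mulF_zero_left f
    mul_zero := mulF_zero_right f
    mul_assoc := mulF_assoc f
    one_mul := one_mulF f
    mul_one := mulF_one f }

instance : Module K (Sh f) := inferInstanceAs (Module K (List P → K))

instance : Algebra K (Sh f) :=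
  Algebra.ofModule (fun r a b => mulF_smul_left f r a b) (fun r a b => mulF_smul_right f r a b)

/-- the value of an element of the shuffle algebra at a list -/
def ap (a : Sh f) (l : List P) : K := a l

lemma ext' {a b : Sh f} (h : ∀ l : List P, ap a l = ap b l) : a = b := funext h

lemma mul_def (a b : Sh f) (l : List P) : ap (a * b) l = mulF f (ap a) (ap b) l := rfl

/-- evaluation of the first variable -/
def E (x : P) : Sh f →ₗ[K] Sh f where
  toFun := ev x
  map_add' := ev_add x
  map_smul' := ev_smul x

/-- multiplication by a multiplicative function -/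
def M (m : P → K) : Sh f →ₐ[K] Sh f :=
  AlgHom.ofLinearMap
    { toFun := mo m
      map_add' := mo_add m
      map_smul' := mo_smul m }
    (mo_one m) (mo_mulF f m)

lemma E_apply (x : P) (a : Sh f) (l : List P) : ap (E x a) l = ap a (x :: l) := rfl
lemma M_apply (m : P → K) (a : Sh f) (l : List P) : ap (M m a) l = (l.map m).prod * ap a l := rfl

lemma E_mul (x : P) (a b : Sh f) : E x (a * b) = E x a * M (f x) b + M (fun y => -f y x) a * E x b :=
  rfl

lemma E_one (x : P) : E x (1 : Sh f) = 0 := rfl

lemma E_M (x : P) (m : P → K) (a : Sh f) : E x (M m a) = m x • M m (E x a) := ev_mo x m a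

lemma M_M (m m' : P → K) (a : Sh f) : M m (M m' a) = M (fun x => m x * m' x) a := mo_mo m m' a

lemma M_comm (m m' : P → K) (a : Sh f) : M m (M m' a) = M m' (M m a) := mo_comm m m' a

lemma add_apply (a b : Sh f) (l : List P) : ap (a + b) l = ap a l + ap b l := rfl
lemma sub_apply (a b : Sh f) (l : List P) : ap (a - b) l = ap a l - ap b l := rfl
lemma neg_apply (a : Sh f) (l : List P) : ap (-a) l = - ap a l := rfl
lemma smul_apply (r : K) (a : Sh f) (l : List P) : ap (r • a) l = r * ap a l := rfl
lemma zero_apply (l : List P) : ap (0 : Sh f) l = 0 := rfl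
lemma one_apply_nil : ap (1 : Sh f) [] = 1 := rfl
lemma one_apply_cons (x : P) (l : List P) : ap (1 : Sh f) (x :: l) = 0 := rfl

lemma M_one' (a : Sh f) : M (fun _ => 1) a = a := by
  refine ext' fun l => ?_
  rw [M_apply]; simp

lemma sum_apply {ι : Type*} (s : Finset ι) (g : ι → Sh f) (l : List P) :
    ap (∑ i ∈ s, g i) l = ∑ i ∈ s, ap (g i) l := by
  classical
  induction s using Finset.induction_on with
  | empty => simp [zero_apply]
  | insert a s ha ih => rw [Finset.sum_insert ha, Finset.sum_insert ha, add_apply, ih]

/-- the function supported on one-element lists -/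
def tF (g : P → K) : List P → K
  | [x] => g x
  | _ => 0

/-- the letter attached to a function of one point -/
def t (g : P → K) : Sh f := tF g

lemma t_nil (g : P → K) : ap (t g : Sh f) [] = 0 := rfl
lemma t_single (g : P → K) (x : P) : ap (t g : Sh f) [x] = g x := rfl
lemma t_cons2 (g : P → K) (x y : P) (l : List P) : ap (t g : Sh f) (x :: y :: l) = 0 := rfl

lemma E_t (x : P) (g : P → K) : E x (t g : Sh f) = g x • (1 : Sh f) := by
  refine ext' fun l => ?_
  rw [E_apply, smul_apply]
  cases l with
  | nil => rw [t_single, one_apply_nil, mul_one]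
  | cons y l => rw [t_cons2, one_apply_cons, mul_zero]

lemma ext_t {a b : Sh f} (h0 : ap a [] = ap b []) (h : ∀ x, E x a = E x b) : a = b := by
  refine ext' fun l => ?_
  cases l with
  | nil => exact h0
  | cons x l => rw [← E_apply, ← E_apply, h]

lemma M_nil (m : P → K) (a : Sh f) : ap (M m a) [] = ap a [] := by
  rw [M_apply]; simp

lemma M_t (m g : P → K) : M m (t g : Sh f) = t (fun x => m x * g x) := by
  refine ext_t ?_ fun x => ?_
  · rw [M_nil, t_nil, t_nil]
  · rw [E_M, E_t, E_t, map_smul, map_one, smul_smul]

lemma t_add (g h : P → K) : (t (fun x => g x + h x) : Sh f) = t g + t h := by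
  refine ext_t ?_ fun x => ?_
  · rw [add_apply, t_nil, t_nil, t_nil, add_zero]
  · rw [map_add, E_t, E_t, E_t, add_smul]

lemma t_sub (g h : P → K) : (t (fun x => g x - h x) : Sh f) = t g - t h := by
  refine ext_t ?_ fun x => ?_
  · rw [sub_apply, t_nil, t_nil, t_nil, sub_zero]
  · rw [map_sub, E_t, E_t, E_t, sub_smul]

lemma t_neg (g : P → K) : (t (fun x => - g x) : Sh f) = - t g := by
  refine ext_t ?_ fun x => ?_
  · rw [neg_apply, t_nil, t_nil, neg_zero]
  · rw [map_neg, E_t, E_t, neg_smul]

lemma t_smul (r : K) (g : P → K) : (t (fun x => r * g x) : Sh f) = r • t g := by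
  refine ext_t ?_ fun x => ?_
  · rw [smul_apply, t_nil, t_nil, mul_zero]
  · rw [map_smul, E_t, E_t, smul_smul]

lemma t_zero : (t (fun _ => 0) : Sh f) = 0 := by
  refine ext_t rfl fun x => ?_
  rw [E_t, zero_smul, map_zero]

lemma M_neg_t (m g : P → K) : M (fun y => -m y) (t g : Sh f) = - t (fun y => m y * g y) := by
  rw [M_t, ← t_neg]; congr 1; funext y; ring

lemma E_tmul (x : P) (g : P → K) (a : Sh f) :
    E x (t g * a) = g x • M (f x) a - t (fun y => f y x * g y) * E x a := by
  rw [E_mul, E_t, M_neg_t, smul_mul_assoc, one_mul, neg_mul, sub_eq_add_neg]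

/-- homogeneous of degree `n`: vanishes on lists of length different from `n` -/
def Len (n : ℕ) (a : Sh f) : Prop := ∀ l : List P, l.length ≠ n → ap a l = 0

lemma Len.M {n : ℕ} {a : Sh f} (h : Len n a) (m : P → K) : Len n (M m a) := by
  intro l hl; rw [M_apply, h l hl, mul_zero]

lemma Len.E {n : ℕ} {a : Sh f} (h : Len (n + 1) a) (x : P) : Len n (E x a) := by
  intro l hl; rw [E_apply, h]; simpa using hl

lemma Len.E_zero {a : Sh f} (h : Len 0 a) (x : P) : Sh.E x a = 0 := by
  refine ext' fun l => ?_
  rw [E_apply, h _ (by simp)]; rfl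

lemma Len.add {n : ℕ} {a b : Sh f} (ha : Len n a) (hb : Len n b) : Len n (a + b) := by
  intro l hl; rw [add_apply, ha l hl, hb l hl, add_zero]
lemma Len.neg {n : ℕ} {a : Sh f} (ha : Len n a) : Len n (-a) := by
  intro l hl; rw [neg_apply, ha l hl, neg_zero]
lemma Len.sub {n : ℕ} {a b : Sh f} (ha : Len n a) (hb : Len n b) : Len n (a - b) := by
  intro l hl; rw [sub_apply, ha l hl, hb l hl, sub_zero]
lemma Len.smul {n : ℕ} {a : Sh f} (r : K) (ha : Len n a) : Len n (r • a) := by
  intro l hl; rw [smul_apply, ha l hl, mul_zero]
lemma Len.zero {n : ℕ} : Len n (0 : Sh f) := fun _ _ => rfl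

lemma Len.one : Len 0 (1 : Sh f) := by
  intro l hl
  cases l with
  | nil => exact absurd rfl hl
  | cons x l => rfl

lemma Len.t (g : P → K) : Len 1 (t g : Sh f) := by
  intro l hl
  match l with
  | [] => rfl
  | [x] => exact absurd rfl hl
  | x :: y :: l => rfl

lemma Len.mul {n m : ℕ} {a b : Sh f} (ha : Len n a) (hb : Len m b) : Len (n + m) (a * b) := by
  intro l
  induction l generalizing a b n m with
  | nil =>
    intro hl
    have h1 : ap (a * b) ([] : List P) = ap a [] * ap b [] := rfl
    rw [h1]
    by_cases hn : n = 0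
    · have hm : m ≠ 0 := by
        rintro rfl; subst hn; exact hl rfl
      rw [hb [] (by simpa using hm.symm), mul_zero]
    · rw [ha [] (by simpa using Ne.symm hn), zero_mul]
  | cons x l ih =>
    intro hl
    rw [← E_apply, E_mul, add_apply]
    have h1 : ap (Sh.E x a * Sh.M (f x) b) l = 0 := by
      cases n with
      | zero => rw [ha.E_zero, zero_mul]; rfl
      | succ n =>
        apply ih (ha.E x) (hb.M _)
        intro h; apply hl; simp [h]; omega
    have h2 : ap (Sh.M (fun y => -f y x) a * Sh.E x b) l = 0 := by
      cases m with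
      | zero => rw [hb.E_zero, mul_zero]; rfl
      | succ m =>
        apply ih (ha.M _) (hb.E x)
        intro h; apply hl; simp [h]; omega
    rw [h1, h2, add_zero]

lemma Len.ext2 {a b : Sh f} (ha : Len 2 a) (hb : Len 2 b) (h : ∀ x y, ap a [x, y] = ap b [x, y]) :
    a = b := by
  refine ext' fun l => ?_
  by_cases hl : l.length = 2
  · obtain ⟨x, y, rfl⟩ := List.length_eq_two.1 hl
    exact h x y
  · rw [ha l hl, hb l hl]

lemma Len.ext3 {a b : Sh f} (ha : Len 3 a) (hb : Len 3 b)
    (h : ∀ x y z, ap a [x, y, z] = ap b [x, y, z]) : a = b := by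
  refine ext' fun l => ?_
  by_cases hl : l.length = 3
  · obtain ⟨x, y, z, rfl⟩ := List.length_eq_three.1 hl
    exact h x y z
  · rw [ha l hl, hb l hl]

lemma tt_apply (g h : P → K) (x y : P) :
    ap (t g * t h : Sh f) [x, y] = g x * h y * f x y - g y * h x * f y x := by
  rw [← E_apply, E_tmul, sub_apply, smul_apply, M_apply, E_t, mul_smul_comm, mul_one, smul_apply,
    t_single, t_single]
  simp only [List.map_cons, List.map_nil, List.prod_cons, List.prod_nil]
  ring

lemma E_tt (x : P) (h k : P → K) : E x (t h * t k : Sh f) =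
    h x • t (fun y => f x y * k y) - k x • t (fun y => f y x * h y) := by
  rw [E_tmul, M_t, E_t, mul_smul_comm, mul_one]

lemma ttt_apply (g h k : P → K) (x y z : P) :
    ap (t g * (t h * t k) : Sh f) [x, y, z] =
      g x * f x y * f x z * (h y * k z * f y z - h z * k y * f z y)
      - g y * f y x * f y z * (h x * k z * f x z - h z * k x * f z x)
      + g z * f z x * f z y * (h x * k y * f x y - h y * k x * f y x) := by
  have e : ∀ (g' : P → K), t g' * E x (t h * t k : Sh f) =
      h x • (t g' * t (fun y => f x y * k y)) - k x • (t g' * t (fun y => f y x * h y)) := by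
    intro g'
    rw [E_tt, mul_sub, mul_smul_comm, mul_smul_comm]
  rw [← E_apply, E_tmul, e, sub_apply, smul_apply, M_apply, tt_apply, sub_apply, smul_apply,
    smul_apply, tt_apply, tt_apply]
  simp only [List.map_cons, List.map_nil, List.prod_cons, List.prod_nil]
  ring

/-- the front-alternating elements -/
def Anti (a : Sh f) : Prop := ∀ x y, E x (E y a) = - E y (E x a)

lemma Anti.M {a : Sh f} (h : Anti a) (m : P → K) : Anti (M m a) := by
  intro x y
  rw [E_M, map_smul, E_M, h x y, E_M, map_smul, E_M, map_neg, smul_neg, smul_neg, smul_comm]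

lemma anti_one : Anti (1 : Sh f) := by
  intro x y; rw [E_one, E_one, map_zero, map_zero, neg_zero]

lemma anti_t (g : P → K) : Anti (t g : Sh f) := by
  intro x y
  rw [E_t, E_t, map_smul, map_smul, E_one, E_one]; simp

lemma Anti.add {a b : Sh f} (ha : Anti a) (hb : Anti b) : Anti (a + b) := by
  intro x y
  rw [map_add, map_add, map_add, map_add, ha x y, hb x y]; abel
lemma Anti.smul {a : Sh f} (r : K) (ha : Anti a) : Anti (r • a) := by
  intro x y
  rw [map_smul, map_smul, map_smul, map_smul, ha x y, smul_neg]

lemma Anti.mul {a b : Sh f} (ha : Anti a) (hb : Anti b) : Anti (a * b) := by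
  intro x y
  rw [E_mul, E_mul, map_add, map_add, E_mul, E_mul, E_mul, E_mul, ha x y, E_M, E_M, E_M, E_M, hb x y,
    M_comm (f x) (f y), M_comm (fun z => -f z x) (fun z => -f z y)]
  simp only [smul_mul_assoc, mul_smul_comm, neg_mul, mul_neg, neg_smul]
  abel

end Sh

/-- change of points and rings -/
lemma mulF_nat {P' K' : Type} [CommRing K'] (φ : K →+* K') (π : P → P') (f' : P' → P' → K')
    (hf : ∀ x y, f' (π x) (π y) = φ (f x y)) (c : List P) :
    ∀ (a b : List P → K) (a' b' : List P' → K'), (∀ l, a' (l.map π) = φ (a l)) →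
      (∀ l, b' (l.map π) = φ (b l)) → mulF f' a' b' (c.map π) = φ (mulF f a b c) := by
  induction c with
  | nil =>
    intro a b a' b' ha hb
    have h1 := ha []
    have h2 := hb []
    simp only [List.map_nil] at h1 h2
    simp [mulF, mulAux, h1, h2]
  | cons x c ih =>
    intro a b a' b' ha hb
    have e1 : mulF f' a' b' ((x :: c).map π) =
        mulF f' (ev (π x) a') (mo (f' (π x)) b') (c.map π) +
        mulF f' (mo (fun y => -f' y (π x)) a') (ev (π x) b') (c.map π) := rfl
    have e2 : mulF f a b (x :: c) =
        mulF f (ev x a) (mo (f x) b) c + mulF f (mo (fun y => -f y x) a) (ev x b) c := rfl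
    have hmo : ∀ (m : P → K) (m' : P' → K') (u : List P → K) (u' : List P' → K'),
        (∀ y, m' (π y) = φ (m y)) → (∀ l, u' (l.map π) = φ (u l)) →
        ∀ l, mo m' u' (l.map π) = φ (mo m u l) := by
      intro m m' u u' hm hu l
      simp only [mo, map_mul, hu, List.map_map]
      congr 1
      rw [map_list_prod, List.map_map]
      congr 1
      apply List.map_congr_left
      intro y _
      exact hm y
    rw [e1, e2, map_add]
    rw [ih (ev x a) (mo (f x) b) (ev (π x) a') (mo (f' (π x)) b') (fun l => ha (x :: l))
      (hmo _ _ _ _ (fun y => hf x y) hb)]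
    rw [ih (mo (fun y => -f y x) a) (ev x b) (mo (fun y => -f' y (π x)) a') (ev (π x) b')
      (hmo _ _ _ _ (fun y => by rw [hf, map_neg]) ha) (fun l => hb (x :: l))]

end Pool.Agent.V11175.Sh
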