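import Mathlib
import Pool.Agent.V11175.Sh1

/-!
# Monotone triangles and the shuffle algebra with kernel `1 - x + x y`
-/

set_option autoImplicit false
set_option linter.dupNamespace false
set_option linter.unusedSectionVars false

namespace Pool.Agent.V11175.Sh

open List Finset

/-- the kernel -/
def fa {K : Type} [CommRing K] : K → K → K := fun x y => 1 - x + x * y

/-- the shuffle algebra of the kernel `fa` -/
abbrev A (K : Type) [CommRing K] : Type := Sh (fa (K := K))

namespace A

open Sh

variable {K : Type} [CommRing K]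

/-- the letters -/
def tt (k : ℕ) : A K := t (fun x => x ^ k)

def D : A K →ₐ[K] A K := M (fun x => x - 1)
def S : A K →ₐ[K] A K := M (fun x => x)

/-- the derivation: first variable equal to one -/
def d : A K →ₗ[K] A K := E 1

/-- the sign automorphism -/
def sg : A K →ₐ[K] A K := M (fun _ => -1)

lemma D_tt (k : ℕ) : D (tt k : A K) = tt (k + 1) - tt k := by
  simp only [tt, D]; rw [M_t, ← t_sub]; congr 1; funext x; ring

lemma S_tt (k : ℕ) : S (tt k : A K) = tt (k + 1) := by
  simp only [tt, S]; rw [M_t]; congr 1; funext x; ring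

lemma sg_tt (k : ℕ) : sg (tt k : A K) = - tt k := by
  simp only [tt, sg]; rw [M_t, ← t_neg]; congr 1; funext x; ring

lemma d_tt (k : ℕ) : d (tt k : A K) = 1 := by
  rw [tt, d, E_t]; simp

lemma d_one : d (1 : A K) = 0 := rfl

lemma d_mul (a b : A K) : d (a * b) = d a * S b + sg a * d b := by
  rw [d, E_mul]
  have h1 : (fa (K := K) 1) = fun x => x := by funext x; simp [fa]
  have h2 : (fun y : K => - fa y 1) = fun _ => -1 := by funext x; simp [fa]
  rw [h1, h2]; rfl

lemma d_ttmul (k : ℕ) (b : A K) : d (tt k * b) = S b - tt k * d b := by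
  rw [d_mul, d_tt, sg_tt, one_mul, neg_mul, sub_eq_add_neg]

lemma d_D (a : A K) : d (D a) = 0 := by
  rw [d, D, E_M]; simp

lemma N (a : ℕ) : (tt a * tt (a + 1) : A K) = tt a * tt a + tt (a + 1) * tt (a + 1) := by
  unfold tt
  apply Len.ext2 ((Len.t _).mul (Len.t _)) (((Len.t _).mul (Len.t _)).add ((Len.t _).mul (Len.t _)))
  intro x y
  rw [Sh.add_apply, tt_apply, tt_apply, tt_apply]
  simp only [fa]
  ring

lemma C (a b : ℕ) : (tt a * (tt a * tt b) + tt a * (tt b * tt a) + tt b * (tt a * tt a) : A K) = 0 := by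
  unfold tt
  apply Len.ext3 _ Len.zero
  · intro x y z
    rw [Sh.add_apply, Sh.add_apply, ttt_apply, ttt_apply, ttt_apply, Sh.zero_apply]
    simp only [fa]
    ring
  · exact ((((Len.t _).mul ((Len.t _).mul (Len.t _))).add ((Len.t _).mul ((Len.t _).mul (Len.t _)))).add
      ((Len.t _).mul ((Len.t _).mul (Len.t _))))

lemma cube (a : ℕ) : (tt a * (tt a * tt a) : A K) = 0 := by
  unfold tt
  apply Len.ext3 _ Len.zero
  · intro x y z
    rw [ttt_apply, Sh.zero_apply]
    simp only [fa]
    ring
  · exact (Len.t _).mul ((Len.t _).mul (Len.t _))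

lemma Q (a b : ℕ) : (tt a * tt b + tt b * tt a - tt a * tt (b + 1) - tt b * tt (a + 1)
    + tt (a + 1) * tt (b + 1) + tt (b + 1) * tt (a + 1) : A K) = 0 := by
  unfold tt
  apply Len.ext2 _ Len.zero
  · intro x y
    rw [Sh.add_apply, Sh.add_apply, Sh.sub_apply, Sh.sub_apply, Sh.add_apply, tt_apply, tt_apply, tt_apply, tt_apply,
      tt_apply, tt_apply, Sh.zero_apply]
    simp only [fa]
    ring
  · have h : ∀ g h : K → K, Len 2 (t g * t h : A K) := fun g h => (Len.t _).mul (Len.t _)
    exact (((((h _ _).add (h _ _)).sub (h _ _)).sub (h _ _)).add (h _ _)).add (h _ _)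

/-- `D (t_b)² = - t_{b+1} t_b` -/
lemma D_sq (b : ℕ) : (tt (b + 1) - tt b) * (tt (b + 1) - tt b) = - (tt (b + 1) * tt b : A K) := by
  have h := N (K := K) b
  have : (tt (b + 1) - tt b) * (tt (b + 1) - tt b) =
      tt (b + 1) * tt (b + 1) + tt b * tt b - tt b * tt (b + 1) - (tt (b + 1) * tt b : A K) := by
    noncomm_ring
  rw [this, h]; abel

/-- the word of a tuple -/
def word {n : ℕ} (k : Fin n → ℕ) : A K := (List.ofFn fun i => tt (k i)).prod

lemma word_cons {n : ℕ} (a : ℕ) (k : Fin n → ℕ) :
    (word (Fin.cons a k : Fin (n + 1) → ℕ) : A K) = tt a * word k := by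
  simp [word, List.ofFn_succ]

lemma word_zero (k : Fin 0 → ℕ) : (word k : A K) = 1 := by simp [word]

/-- strictly increasing tuples interlacing with `k` -/
def I {n : ℕ} (k : Fin (n + 1) → ℕ) : Finset (Fin n → ℕ) :=
  (Finset.Icc (fun j : Fin n => k j.castSucc) (fun j => k j.succ)).filter StrictMono

def G {n : ℕ} (k : Fin (n + 1) → ℕ) : A K := ∑ l ∈ I k, word l

lemma sum_Icc_cons {B : Type*} [AddCommMonoid B] {n : ℕ} (u v : Fin (n + 1) → ℕ)
    (g : (Fin (n + 1) → ℕ) → B) :
    ∑ l ∈ Finset.Icc u v, g l = ∑ x ∈ Finset.Icc (u 0) (v 0),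
      ∑ l' ∈ Finset.Icc (Fin.tail u) (Fin.tail v), g (Fin.cons x l' : Fin (n + 1) → ℕ) := by
  rw [← Finset.sum_product']
  refine Finset.sum_bij' (fun l _ => (l 0, Fin.tail l)) (fun p _ => (Fin.cons p.1 p.2 : Fin (n + 1) → ℕ))
    ?_ ?_ ?_ ?_ ?_
  · intro l hl
    rw [Finset.mem_Icc] at hl
    rw [Finset.mem_product, Finset.mem_Icc, Finset.mem_Icc]
    exact ⟨⟨hl.1 0, hl.2 0⟩, fun i => hl.1 i.succ, fun i => hl.2 i.succ⟩
  · intro p hp
    rw [Finset.mem_product, Finset.mem_Icc, Finset.mem_Icc] at hp
    rw [Finset.mem_Icc]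
    refine ⟨fun i => ?_, fun i => ?_⟩
    · refine Fin.cases ?_ (fun i => ?_) i
      · exact hp.1.1
      · exact hp.2.1 i
    · refine Fin.cases ?_ (fun i => ?_) i
      · exact hp.1.2
      · exact hp.2.2 i
  · intro l _; exact Fin.cons_self_tail l
  · intro p _; simp
  · intro l _; simp

lemma strictMono_cons {n : ℕ} (x : ℕ) (l : Fin n → ℕ) :
    StrictMono (Fin.cons x l : Fin (n + 1) → ℕ) ↔ (∀ i, x < l i) ∧ StrictMono l := by
  constructor
  · intro h
    refine ⟨fun i => ?_, fun i j hij => ?_⟩
    · have := h (Fin.succ_pos i)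
      simpa using this
    · have := h (Fin.succ_lt_succ_iff.2 hij)
      simpa using this
  · rintro ⟨h1, h2⟩ i j hij
    revert hij
    refine Fin.cases ?_ (fun i => ?_) i
    · refine Fin.cases (fun h => absurd h (lt_irrefl _)) (fun j _ => ?_) j
      simpa using h1 j
    · refine Fin.cases (fun h => absurd h (by simp)) (fun j h => ?_) j
      simpa using h2 (Fin.succ_lt_succ_iff.1 h)

lemma G_rec {n : ℕ} (k : Fin (n + 2) → ℕ) : (G k : A K) =
    ∑ x ∈ Finset.Icc (k 0) (k 1), ∑ l' ∈ Finset.Icc (fun j : Fin n => k j.succ.castSucc)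
      (fun j => k j.succ.succ), if StrictMono (Fin.cons x l' : Fin (n + 1) → ℕ) then tt x * word l' else 0 := by
  rw [G, I, Finset.sum_filter, sum_Icc_cons]
  refine Finset.sum_congr rfl fun x _ => ?_
  refine Finset.sum_congr rfl fun l' _ => ?_
  rw [word_cons]

lemma G_step {n : ℕ} (k : Fin (n + 3) → ℕ) (hk : StrictMono k) : (G k : A K) =
    (∑ x ∈ Finset.Icc (k 0) (k 1), tt x) * G (Fin.tail k) -
      tt (k 1) * tt (k 1) * G (Fin.tail (Fin.tail k)) := by
  have h01 : k 0 < k 1 := hk (by simp)
  rw [G_rec]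
  have hge : ∀ l' ∈ Finset.Icc (fun j : Fin (n + 1) => k j.succ.castSucc) (fun j => k j.succ.succ),
      ∀ i, k 1 ≤ l' i ∧ (i ≠ 0 → k 1 < l' i) := by
    intro l' hl' i
    rw [Finset.mem_Icc] at hl'
    have h1 := hl'.1 i
    simp only at h1
    constructor
    · refine le_trans (hk.monotone ?_) h1
      rw [Fin.le_def, Fin.val_one, Fin.val_castSucc, Fin.val_succ]; omega
    · intro hi
      refine lt_of_lt_of_le (hk ?_) h1
      rw [Fin.lt_def, Fin.val_one, Fin.val_castSucc, Fin.val_succ]
      have : (0 : ℕ) < i.val := by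
        rcases Nat.eq_zero_or_pos i.val with h | h
        · exact absurd (Fin.ext (by simpa using h)) hi
        · exact h
      omega
  have step : ∀ x ∈ Finset.Icc (k 0) (k 1), ∀ l' ∈ Finset.Icc (fun j : Fin (n + 1) => k j.succ.castSucc)
      (fun j => k j.succ.succ),
      (if StrictMono (Fin.cons x l' : Fin (n + 2) → ℕ) then (tt x * word l' : A K) else 0) =
      (if StrictMono l' then tt x * word l' else 0) -
        (if x = k 1 then (if l' 0 = k 1 ∧ StrictMono l' then tt (k 1) * word l' else 0) else 0) := by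
    intro x hx l' hl'
    rw [Finset.mem_Icc] at hx
    have hg := hge l' hl'
    by_cases hs : StrictMono l'
    · by_cases hx1 : x = k 1
      · by_cases h0 : l' 0 = k 1
        · rw [if_neg, if_pos hs, if_pos hx1, if_pos ⟨h0, hs⟩, hx1, sub_self]
          rw [strictMono_cons]
          rintro ⟨h, -⟩
          have := h 0
          omega
        · rw [if_pos, if_pos hs, if_pos hx1, if_neg (fun h => h0 h.1), sub_zero]
          rw [strictMono_cons]
          refine ⟨fun i => ?_, hs⟩
          by_cases hi : i = 0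
          · have := (hg i).1
            subst hi
            omega
          · have := (hg i).2 hi
            omega
      · rw [if_pos, if_pos hs, if_neg hx1, sub_zero]
        rw [strictMono_cons]
        refine ⟨fun i => ?_, hs⟩
        have := (hg i).1
        omega
    · rw [if_neg, if_neg hs, if_neg (show ¬ (l' 0 = k 1 ∧ StrictMono l') from fun h => hs h.2)]
      · simp
      · rw [strictMono_cons]; exact fun h => hs h.2
  rw [Finset.sum_congr rfl fun x hx => Finset.sum_congr rfl fun l' hl' => step x hx l' hl']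
  simp only [Finset.sum_sub_distrib]
  congr 1
  · rw [Finset.sum_mul]
    refine Finset.sum_congr rfl fun x _ => ?_
    rw [G, I, Finset.sum_filter, Finset.mul_sum]
    refine Finset.sum_congr rfl fun l' _ => ?_
    rw [mul_ite, mul_zero]
  · rw [Finset.sum_comm]
    have e1 : ∀ l' : Fin (n + 1) → ℕ, (∑ x ∈ Finset.Icc (k 0) (k 1),
        if x = k 1 then (if l' 0 = k 1 ∧ StrictMono l' then (tt (k 1) * word l' : A K) else 0) else 0) =
        if l' 0 = k 1 ∧ StrictMono l' then tt (k 1) * word l' else 0 := by
      intro l'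
      rw [Finset.sum_ite_eq' , if_pos]
      rw [Finset.mem_Icc]; omega
    rw [Finset.sum_congr rfl fun l' _ => e1 l', sum_Icc_cons]
    have e2 : ∀ y ∈ Finset.Icc (k (Fin.castSucc (Fin.succ 0))) (k (Fin.succ (Fin.succ (0 : Fin (n + 1))))),
        (∑ l'' ∈ Finset.Icc (Fin.tail fun j : Fin (n + 1) => k j.succ.castSucc)
          (Fin.tail fun j => k j.succ.succ),
          if (Fin.cons y l'' : Fin (n + 1) → ℕ) 0 = k 1 ∧ StrictMono (Fin.cons y l'' : Fin (n + 1) → ℕ) then
            (tt (k 1) * word (Fin.cons y l'' : Fin (n + 1) → ℕ) : A K) else 0) =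
        if y = k 1 then tt (k 1) * tt (k 1) * G (Fin.tail (Fin.tail k)) else 0 := by
      intro y hy
      by_cases h : y = k 1
      · rw [if_pos h]
        rw [G, I, Finset.sum_filter, Finset.mul_sum]
        refine Finset.sum_congr rfl fun l'' hl'' => ?_
        rw [word_cons, h, mul_ite, mul_zero]
        have hiff : ((Fin.cons (k 1) l'' : Fin (n + 1) → ℕ) 0 = k 1 ∧
            StrictMono (Fin.cons (k 1) l'' : Fin (n + 1) → ℕ)) ↔ StrictMono l'' := by
          rw [strictMono_cons]
          constructor
          · exact fun h => h.2.2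
          · intro h'
            refine ⟨by simp, fun i => ?_, h'⟩
            rw [Finset.mem_Icc] at hl''
            have h1 := hl''.1 i
            simp only [Fin.tail] at h1
            refine lt_of_lt_of_le (hk ?_) h1
            rw [Fin.lt_def]; simp
        simp only [hiff, mul_assoc]
      · rw [if_neg h]
        refine Finset.sum_eq_zero fun l'' _ => ?_
        rw [if_neg]
        rintro ⟨h', -⟩
        exact h (by simpa using h')
    rw [Finset.sum_congr rfl e2, Finset.sum_ite_eq', if_pos]
    rw [Finset.mem_Icc]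
    refine ⟨le_of_eq ?_, hk.monotone ?_⟩
    · rfl
    · rw [Fin.le_def, Fin.val_succ, Fin.val_succ, Fin.val_one]; omega

lemma D_sum (a b : ℕ) (hab : a ≤ b) : D (∑ x ∈ Finset.Icc a b, tt x : A K) = tt (b + 1) - tt a := by
  induction b, hab using Nat.le_induction with
  | base => rw [Finset.Icc_self, Finset.sum_singleton, D_tt]
  | succ b hb ih =>
    rw [← Finset.insert_Icc_right_eq_Icc_add_one (by omega), Finset.sum_insert (by simp), map_add, ih,
      D_tt]
    abel

/-- recursion for the derivative of a word -/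
lemma d_word_rec (a b : ℕ) (w : A K) : d (tt a * (tt b * w)) =
    (tt (b + 1) - tt a) * d (tt b * w) + tt (b + 1) * tt b * d w := by
  rw [d_ttmul, map_mul, S_tt]
  have h : S w = d (tt b * w) + tt b * d w := by rw [d_ttmul]; abel
  rw [h]
  noncomm_ring

theorem d_word {n : ℕ} : ∀ (k : Fin (n + 1) → ℕ), StrictMono k → d (word k : A K) = D (G k) := by
  induction n using Nat.strong_induction_on with
  | _ n ih =>
    intro k hk
    match n, k, hk, ih with
    | 0, k, hk, _ =>
      have h1 : (word k : A K) = tt (k 0) := by simp [word]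
      have h2 : (G k : A K) = 1 := by
        rw [G, I, Finset.sum_filter]
        have : Finset.Icc (fun j : Fin 0 => k j.castSucc) (fun j => k j.succ) = {fun j => j.elim0} := by
          ext l
          simp only [Finset.mem_Icc, Finset.mem_singleton]
          constructor
          · intro _; exact Subsingleton.elim _ _
          · intro _; exact ⟨fun j => j.elim0, fun j => j.elim0⟩
        rw [this, Finset.sum_singleton, if_pos, word_zero]
        intro i; exact i.elim0
      rw [h1, h2, d_tt, map_one]
    | 1, k, hk, _ =>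
      have h01 : k 0 < k 1 := hk (by simp)
      have h1 : (word k : A K) = tt (k 0) * (tt (k 1) * 1) := by
        simp [word, List.ofFn_succ]
      have h2 : (G k : A K) = ∑ x ∈ Finset.Icc (k 0) (k 1), tt x := by
        rw [G_rec]
        refine Finset.sum_congr rfl fun x _ => ?_
        have : Finset.Icc (fun j : Fin 0 => k j.succ.castSucc) (fun j => k j.succ.succ) =
            {fun j => j.elim0} := by
          ext l
          simp only [Finset.mem_Icc, Finset.mem_singleton]
          constructor
          · intro _; exact Subsingleton.elim _ _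
          · intro _; exact ⟨fun j => j.elim0, fun j => j.elim0⟩
        rw [this, Finset.sum_singleton, if_pos, word_zero, mul_one]
        rw [strictMono_cons]
        exact ⟨fun i => i.elim0, fun i => i.elim0⟩
      rw [h1, h2, D_sum _ _ h01.le, d_word_rec, d_one, mul_one, d_tt]
      simp
    | n + 2, k, hk, ih =>
      have h01 : k 0 < k 1 := hk (by simp)
      have hk' : StrictMono (Fin.tail k) := fun i j hij => hk (Fin.succ_lt_succ_iff.2 hij)
      have hk'' : StrictMono (Fin.tail (Fin.tail k)) := fun i j hij => hk' (Fin.succ_lt_succ_iff.2 hij)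
      have e2 : (word (Fin.tail k) : A K) = tt (k 1) * word (Fin.tail (Fin.tail k)) := by
        conv_lhs => rw [← Fin.cons_self_tail (Fin.tail k), word_cons]
        rfl
      have e1 : (word k : A K) = tt (k 0) * (tt (k 1) * word (Fin.tail (Fin.tail k))) := by
        conv_lhs => rw [← Fin.cons_self_tail k, word_cons, e2]
      rw [e1, d_word_rec, ← e2, ih (n + 1) (by omega) _ hk', ih n (by omega) _ hk'', G_step k hk,
        map_sub, map_mul, D_sum _ _ h01.le, map_mul, map_mul, D_tt, D_sq]
      noncomm_ring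

end A

end Pool.Agent.V11175.Sh
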