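import Mathlib
import Pool.Agent.V11175.Sh2

/-!
# The evaluation functional and the monotone triangle polynomial
-/

set_option autoImplicit false
set_option linter.dupNamespace false
set_option linter.unusedSectionVars false

namespace Pool.Agent.V11175.Sh

open List Finset

/-- The number of monotone triangles with bottom row `k`, by removing the bottom row: the row above a strictly
increasing row `k` is a strictly increasing row `l` with `k j ≤ l j ≤ k (j + 1)`. -/
noncomputable def mt : (n : ℕ) → (Fin n → ℤ) → ℕ
  | 0, _ => 1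
  | n + 1, k => ∑ l ∈ (Finset.Icc (fun j : Fin n => k j.castSucc) (fun j => k j.succ)).filter StrictMono,
      mt n l

namespace A

open Sh MvPolynomial

/-- the base ring -/
abbrev R : Type := MvPolynomial ℕ ℚ

/-- natural elements -/
def Nat' (w : A R) : Prop := ∀ (φ : R →ₐ[ℚ] R) (c : List R), ap w (c.map φ) = φ (ap w c)

lemma Nat'.mul {a b : A R} (ha : Nat' a) (hb : Nat' b) : Nat' (a * b) := by
  intro φ c
  exact mulF_nat fa (φ : R →+* R) φ fa (fun x y => by simp [fa]) c (ap a) (ap b) (ap a) (ap b)
    (fun l => ha φ l) (fun l => hb φ l)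

lemma Nat'.add {a b : A R} (ha : Nat' a) (hb : Nat' b) : Nat' (a + b) := by
  intro φ c
  rw [Sh.add_apply, Sh.add_apply, ha, hb, map_add]

lemma Nat'.neg {a : A R} (ha : Nat' a) : Nat' (-a) := by
  intro φ c
  rw [Sh.neg_apply, Sh.neg_apply, ha, map_neg]

lemma Nat'.sub {a b : A R} (ha : Nat' a) (hb : Nat' b) : Nat' (a - b) := by
  intro φ c
  rw [Sh.sub_apply, Sh.sub_apply, ha, hb, map_sub]

lemma nat_zero : Nat' 0 := by
  intro φ c
  rw [Sh.zero_apply, Sh.zero_apply, map_zero]

lemma nat_one : Nat' 1 := by
  intro φ c
  cases c with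
  | nil => rw [List.map_nil, one_apply_nil, map_one]
  | cons x c => rw [List.map_cons, one_apply_cons, one_apply_cons, map_zero]

lemma nat_tt (k : ℕ) : Nat' (tt k) := by
  intro φ c
  unfold tt
  match c with
  | [] => rw [List.map_nil, t_nil, map_zero]
  | [x] => rw [List.map_cons, List.map_nil, t_single, t_single, map_pow]
  | x :: y :: c => rw [List.map_cons, List.map_cons, t_cons2, t_cons2, map_zero]

lemma nat_word {n : ℕ} (k : Fin n → ℕ) : Nat' (word k) := by
  induction n with
  | zero => rw [word_zero]; exact nat_one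
  | succ n ih =>
    rw [← Fin.cons_self_tail k, word_cons]
    exact (nat_tt _).mul (ih _)

/-- the evaluation points -/
noncomputable def pts : ℕ → List R
  | 0 => []
  | m + 1 => (1 + X m) :: pts m

noncomputable def ones : ℕ → (ℕ →₀ ℕ)
  | 0 => 0
  | m + 1 => ones m + Finsupp.single m 1

noncomputable def ex : ℕ → (ℕ →₀ ℕ)
  | 0 => 0
  | m + 1 => ones m + ex m

/-- the evaluation functional -/
noncomputable def al (m : ℕ) (w : A R) : ℚ := coeff (ex m) (ap w (pts m))

lemma al_add (m : ℕ) (a b : A R) : al m (a + b) = al m a + al m b := by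
  rw [al, Sh.add_apply, coeff_add]; rfl
lemma al_sub (m : ℕ) (a b : A R) : al m (a - b) = al m a - al m b := by
  rw [al, Sh.sub_apply, coeff_sub]; rfl
lemma al_neg (m : ℕ) (a : A R) : al m (-a) = - al m a := by
  rw [al, Sh.neg_apply, coeff_neg]; rfl
lemma al_zero (m : ℕ) : al m 0 = 0 := by
  rw [al, Sh.zero_apply, coeff_zero]
lemma al_sum {ι : Type*} (m : ℕ) (s : Finset ι) (g : ι → A R) : al m (∑ i ∈ s, g i) = ∑ i ∈ s, al m (g i) := by
  rw [al, Sh.sum_apply, coeff_sum]; rfl

lemma al_one : al 0 1 = 1 := by
  rw [al]
  change coeff 0 (ap (1 : A R) []) = 1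
  rw [one_apply_nil]; simp

/-- kill the variable `m` -/
noncomputable def kill (m : ℕ) : R →ₐ[ℚ] R := aeval (fun i => if i = m then 0 else X i)

lemma coeff_kill (m : ℕ) (p : R) (e : ℕ →₀ ℕ) (he : e m = 0) : coeff e (kill m p) = coeff e p := by
  induction p using MvPolynomial.induction_on' with
  | monomial u a =>
    rw [kill, aeval_monomial]
    by_cases hu : u m = 0
    · have : (u.prod fun i k => (if i = m then (0 : R) else X i) ^ k) = u.prod fun i k => X i ^ k := by
        apply Finsupp.prod_congr
        intro i hi
        rw [if_neg]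
        rintro rfl
        rw [Finsupp.mem_support_iff] at hi
        exact hi hu
      rw [this, algebraMap_eq, ← monomial_eq]
    · have : (u.prod fun i k => (if i = m then (0 : R) else X i) ^ k) = 0 := by
        rw [Finsupp.prod]
        apply Finset.prod_eq_zero (i := m)
        · rw [Finsupp.mem_support_iff]; exact hu
        · rw [if_pos rfl, zero_pow hu]
      rw [this, mul_zero, coeff_zero, coeff_monomial, if_neg]
      rintro rfl
      exact hu he
  | add p q hp hq => rw [map_add, coeff_add, coeff_add, hp, hq]

lemma kill_pts (m n : ℕ) (h : n ≤ m) : (pts n).map (kill m) = pts n := by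
  induction n with
  | zero => rfl
  | succ n ih =>
    rw [pts, List.map_cons, ih (by omega)]
    congr 1
    rw [map_add, map_one, kill, aeval_X, if_neg (by omega)]

lemma ones_apply (m i : ℕ) : ones m i = if i < m then 1 else 0 := by
  induction m with
  | zero => simp [ones]
  | succ m ih =>
    rw [ones, Finsupp.add_apply, ih, Finsupp.single_apply]
    split_ifs <;> omega

lemma ex_apply_ge (m i : ℕ) (h : m ≤ i + 1) : ex m i = 0 := by
  induction m with
  | zero => simp [ex]
  | succ m ih =>
    rw [ex, Finsupp.add_apply, ih (by omega), ones_apply, if_neg (by omega)]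

lemma prod_pts (m : ℕ) : ((pts m).map (fun x => x - 1)).prod = monomial (ones m) (1 : ℚ) := by
  induction m with
  | zero => simp [pts, ones]
  | succ m ih =>
    rw [pts, List.map_cons, List.prod_cons, ih, ones]
    rw [add_sub_cancel_left, X, monomial_mul, one_mul, add_comm]

/-- the basic reduction -/
theorem al_step (m : ℕ) {w v : A R} (hw : Nat' w) (h : d w = D v) : al (m + 1) w = al m v := by
  rw [al, al, pts, ex]
  rw [← coeff_kill m _ (ones m + ex m) (by
    rw [Finsupp.add_apply, ones_apply, if_neg (lt_irrefl _), ex_apply_ge _ _ (by omega)])]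
  rw [← hw (kill m), List.map_cons, kill_pts m m le_rfl]
  have h1 : kill m (1 + X m) = 1 := by
    rw [map_add, map_one, kill, aeval_X, if_pos rfl, add_zero]
  rw [h1, ← E_apply]
  change coeff (ones m + ex m) (ap (d w) (pts m)) = _
  rw [h, D, M_apply, prod_pts, coeff_monomial_mul, one_mul]

/-- the evaluation of a word -/
noncomputable def alpha {n : ℕ} (k : Fin n → ℕ) : ℚ := al n (word k)

theorem alpha_eq_mt {n : ℕ} (k : Fin n → ℕ) (hk : StrictMono k) :
    alpha k = (mt n (fun i => (k i : ℤ)) : ℚ) := by
  induction n with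
  | zero =>
    rw [alpha, word_zero, al_one, mt]; simp
  | succ n ih =>
    rw [alpha, al_step n (nat_word k) (d_word k hk), G, al_sum, mt, Nat.cast_sum, I]
    refine Finset.sum_bij' (fun l _ => fun i => (l i : ℤ)) (fun l _ => fun i => (l i).toNat)
      ?_ ?_ ?_ ?_ ?_
    · intro l hl
      rw [Finset.mem_filter, Finset.mem_Icc] at hl ⊢
      refine ⟨⟨fun i => ?_, fun i => ?_⟩, fun i j hij => ?_⟩
      · have := hl.1.1 i
        simp only at this ⊢
        exact_mod_cast this
      · have := hl.1.2 i
        simp only at this ⊢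
        exact_mod_cast this
      · have := hl.2 hij
        simp only at this ⊢
        exact_mod_cast this
    · intro l hl
      rw [Finset.mem_filter, Finset.mem_Icc] at hl ⊢
      have h0 : ∀ i, 0 ≤ l i := fun i => le_trans (by simp) (hl.1.1 i)
      refine ⟨⟨fun i => ?_, fun i => ?_⟩, fun i j hij => ?_⟩
      · have := hl.1.1 i
        simp only at this ⊢
        omega
      · have := hl.1.2 i
        simp only at this ⊢
        omega
      · have := hl.2 hij
        have h1 := h0 i
        have h2 := h0 j
        simp only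
        omega
    · intro l hl; funext i; simp
    · intro l hl
      rw [Finset.mem_filter, Finset.mem_Icc] at hl
      have h0 : ∀ i, 0 ≤ l i := fun i => le_trans (by simp) (hl.1.1 i)
      funext i
      simp [h0 i]
    · intro l hl
      rw [Finset.mem_filter, Finset.mem_Icc] at hl
      exact ih l hl.2

end A

end Pool.Agent.V11175.Sh
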