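import Mathlib
import Pool.Agent.V11175.Sh3

/-!
# The monotone triangle polynomial
-/

set_option autoImplicit false
set_option linter.dupNamespace false
set_option linter.unusedSectionVars false

namespace Pool.Agent.V11175.Sh

open List Finset

namespace A

open Sh MvPolynomial

/-- polynomial functions on natural tuples -/
def PF {n : ℕ} (g : (Fin n → ℕ) → ℚ) : Prop :=
  ∃ P : MvPolynomial (Fin n) ℚ, ∀ k, g k = eval (fun i => (k i : ℚ)) P

lemma PF.add {n : ℕ} {g h : (Fin n → ℕ) → ℚ} (hg : PF g) (hh : PF h) : PF (fun k => g k + h k) := by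
  obtain ⟨P, hP⟩ := hg
  obtain ⟨Q, hQ⟩ := hh
  exact ⟨P + Q, fun k => by simp only [hP, hQ, map_add]⟩
lemma PF.mul {n : ℕ} {g h : (Fin n → ℕ) → ℚ} (hg : PF g) (hh : PF h) : PF (fun k => g k * h k) := by
  obtain ⟨P, hP⟩ := hg
  obtain ⟨Q, hQ⟩ := hh
  exact ⟨P * Q, fun k => by simp only [hP, hQ, map_mul]⟩
lemma PF.const {n : ℕ} (c : ℚ) : PF (fun _ : Fin n → ℕ => c) := ⟨MvPolynomial.C c, fun k => by simp⟩
lemma PF.var {n : ℕ} (i : Fin n) : PF (fun k : Fin n → ℕ => (k i : ℚ)) := ⟨X i, fun k => by simp⟩
lemma PF.sum {n : ℕ} {ι : Type*} (s : Finset ι) (g : ι → (Fin n → ℕ) → ℚ) (h : ∀ i ∈ s, PF (g i)) :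
    PF (fun k => ∑ i ∈ s, g i k) := by
  classical
  induction s using Finset.induction_on with
  | empty => simpa using PF.const (n := n) 0
  | insert a s ha ih =>
    simp only [Finset.sum_insert ha]
    exact (h a (Finset.mem_insert_self a s)).add (ih fun i hi => h i (Finset.mem_insert_of_mem hi))

lemma PF.choose {n : ℕ} (i : Fin n) (r : ℕ) : PF (fun k : Fin n → ℕ => ((k i).choose r : ℚ)) := by
  induction r with
  | zero => simpa using PF.const (n := n) 1
  | succ r ih =>
    have e : (fun k : Fin n → ℕ => ((k i).choose (r + 1) : ℚ)) =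
        fun k => (((k i).choose r : ℚ) * ((k i : ℚ) + (-(r : ℚ)))) * ((r : ℚ) + 1)⁻¹ := by
      funext k
      rw [eq_mul_inv_iff_mul_eq₀ (by positivity)]
      have h := Nat.choose_succ_right_eq (k i) r
      by_cases hr : r ≤ k i
      · have h' : (((k i).choose (r + 1) * (r + 1) : ℕ) : ℚ) = (((k i).choose r * (k i - r) : ℕ) : ℚ) := by
          rw [h]
        push_cast [Nat.cast_sub hr] at h'
        rw [h']; ring
      · rw [Nat.choose_eq_zero_of_lt (by omega : k i < r), Nat.choose_eq_zero_of_lt (by omega)]
        simp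
    rw [e]
    exact (ih.mul ((PF.var i).add (PF.const _))).mul (PF.const _)

/-- families of elements of `R` whose coefficients are polynomial functions -/
def PR {n : ℕ} (g : (Fin n → ℕ) → R) : Prop := ∀ e, PF (fun k => coeff e (g k))

lemma PR.add {n : ℕ} {g h : (Fin n → ℕ) → R} (hg : PR g) (hh : PR h) : PR (fun k => g k + h k) := by
  intro e
  simp only [coeff_add]
  exact (hg e).add (hh e)
lemma PR.mul {n : ℕ} {g h : (Fin n → ℕ) → R} (hg : PR g) (hh : PR h) : PR (fun k => g k * h k) := by
  classical
  intro e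
  simp only [coeff_mul]
  exact PF.sum _ _ fun x _ => (hg _).mul (hh _)
lemma PR.const {n : ℕ} (c : R) : PR (fun _ : Fin n → ℕ => c) := fun e => PF.const _

lemma coeff_one_add_X_pow (j N : ℕ) (e : ℕ →₀ ℕ) : coeff e ((1 + X j) ^ N : R) =
    if e = Finsupp.single j (e j) then (N.choose (e j) : ℚ) else 0 := by
  rw [add_comm, add_pow, coeff_sum]
  have h : ∀ m ∈ Finset.range (N + 1), coeff e ((X j : R) ^ m * 1 ^ (N - m) * (N.choose m : R)) =
      if Finsupp.single j m = e then (N.choose m : ℚ) else 0 := by
    intro m _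
    have : ((X j : R) ^ m * 1 ^ (N - m) * (N.choose m : R)) = monomial (Finsupp.single j m) (N.choose m : ℚ) := by
      rw [one_pow, mul_one, X_pow_eq_monomial]
      have : (N.choose m : R) = MvPolynomial.C (N.choose m : ℚ) := by simp
      rw [this, mul_comm, C_mul_monomial, mul_one]
    rw [this, coeff_monomial]
  rw [Finset.sum_congr rfl h]
  by_cases he : e = Finsupp.single j (e j)
  · rw [if_pos he]
    have h2 : ∀ m ∈ Finset.range (N + 1), (if Finsupp.single j m = e then (N.choose m : ℚ) else 0) =
        if m = e j then (N.choose (e j) : ℚ) else 0 := by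
      intro m _
      by_cases hm : m = e j
      · rw [if_pos hm, if_pos (by rw [hm, ← he]), hm]
      · rw [if_neg hm, if_neg]
        intro h'
        apply hm
        rw [← h']; simp
    rw [Finset.sum_congr rfl h2, Finset.sum_ite_eq']
    split_ifs with h3
    · rfl
    · rw [Nat.choose_eq_zero_of_lt]
      · simp
      · rw [Finset.mem_range] at h3; omega
  · rw [if_neg he]
    apply Finset.sum_eq_zero
    intro m _
    rw [if_neg]
    rintro rfl
    apply he
    simp

lemma pr_pt {n : ℕ} (j : ℕ) (i : Fin n) : PR (fun k : Fin n → ℕ => ((1 + X j) ^ (k i) : R)) := by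
  intro e
  simp only [coeff_one_add_X_pow]
  by_cases he : e = Finsupp.single j (e j)
  · simp only [if_pos he]
    exact PF.choose i _
  · simp only [if_neg he]
    exact PF.const 0

def Good (n : ℕ) (x : R) : Prop := ∀ i : Fin n, PR (fun k : Fin n → ℕ => x ^ (k i))

lemma pr_mulF {n : ℕ} (c : List R) : ∀ (a b : (Fin n → ℕ) → List R → R),
    (∀ x ∈ c, Good n x) →
    (∀ l : List R, (∀ x ∈ l, Good n x) → PR (fun k => a k l)) →
    (∀ l : List R, (∀ x ∈ l, Good n x) → PR (fun k => b k l)) →
    PR (fun k => mulF fa (a k) (b k) c) := by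
  induction c with
  | nil =>
    intro a b _ ha hb
    exact (ha [] (by simp)).mul (hb [] (by simp))
  | cons x c ih =>
    intro a b hc ha hb
    have e2 : (fun k => mulF fa (a k) (b k) (x :: c)) = fun k =>
        mulF fa (ev x (a k)) (mo (fa x) (b k)) c + mulF fa (mo (fun y => -fa y x) (a k)) (ev x (b k)) c := rfl
    rw [e2]
    have hx : Good n x := hc x (by simp)
    have hc' : ∀ y ∈ c, Good n y := fun y hy => hc y (by simp [hy])
    apply PR.add
    · apply ih (fun k => ev x (a k)) (fun k => mo (fa x) (b k)) hc'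
      · intro l hl
        exact ha (x :: l) (by simpa using ⟨hx, hl⟩)
      · intro l hl
        exact (PR.const _).mul (hb l hl)
    · apply ih (fun k => mo (fun y => -fa y x) (a k)) (fun k => ev x (b k)) hc'
      · intro l hl
        exact (PR.const _).mul (ha l hl)
      · intro l hl
        exact hb (x :: l) (by simpa using ⟨hx, hl⟩)

lemma pr_tt {n : ℕ} (i : Fin n) (l : List R) (hl : ∀ x ∈ l, Good n x) :
    PR (fun k => ap (tt (k i) : A R) l) := by
  match l, hl with
  | [], _ => exact PR.const 0
  | [x], hl => exact hl x (by simp) i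
  | x :: y :: c, _ => exact PR.const 0

lemma pr_word {n : ℕ} (L : List (Fin n)) : ∀ (l : List R), (∀ x ∈ l, Good n x) →
    PR (fun k => ap ((L.map fun i => (tt (k i) : A R)).prod) l) := by
  induction L with
  | nil => intro l _; exact PR.const _
  | cons i L ih =>
    intro l hl
    simp only [List.map_cons, List.prod_cons]
    exact pr_mulF l (fun k => ap (A.tt (k i))) (fun k => ap ((L.map fun i => (A.tt (k i) : A R)).prod)) hl
      (fun l hl => pr_tt i l hl) ih

lemma good_pts (n m : ℕ) : ∀ x ∈ pts m, Good n x := by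
  induction m with
  | zero => simp [pts]
  | succ m ih =>
    intro x hx
    rw [pts, List.mem_cons] at hx
    rcases hx with rfl | hx
    · exact fun i => pr_pt m i
    · exact ih x hx

theorem alpha_poly (n : ℕ) : PF (fun k : Fin n → ℕ => alpha k) := by
  have h := pr_word (List.finRange n) (pts n) (good_pts n n) (ex n)
  have e : ∀ k : Fin n → ℕ, alpha k = coeff (ex n) (ap (((List.finRange n).map fun i => (tt (k i) : A R)).prod) (pts n)) := by
    intro k
    rw [alpha, al, A.word, List.ofFn_eq_map]
  simp only [e]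
  exact h

/-- a polynomial along a line -/
noncomputable def line {n : ℕ} (P : MvPolynomial (Fin n) ℚ) (u v : Fin n → ℚ) : Polynomial ℚ :=
  aeval (fun i => Polynomial.C (u i) + Polynomial.C (v i) * Polynomial.X) P

lemma line_eval {n : ℕ} (P : MvPolynomial (Fin n) ℚ) (u v : Fin n → ℚ) (s : ℚ) :
    (line P u v).eval s = eval (fun i => u i + v i * s) P := by
  rw [line]
  have : (aeval (fun i => Polynomial.C (u i) + Polynomial.C (v i) * Polynomial.X) P : Polynomial ℚ).eval s =
      (Polynomial.aeval s) (aeval (fun i => Polynomial.C (u i) + Polynomial.C (v i) * Polynomial.X) P) := by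
    rw [Polynomial.coe_aeval_eq_eval]
  rw [this, ← AlgHom.comp_apply, comp_aeval]
  rw [aeval_def, eval₂_eq_eval_map]
  congr 1
  · simp
  · exact MvPolynomial.map_id P

lemma eq_of_large (p q : Polynomial ℚ) (N : ℕ) (h : ∀ s : ℕ, N ≤ s → p.eval (s : ℚ) = q.eval (s : ℚ)) : p = q := by
  apply Polynomial.eq_of_infinite_eval_eq
  apply Set.Infinite.mono (s := (fun s : ℕ => (s : ℚ)) '' Set.Ici N)
  · rintro _ ⟨s, hs, rfl⟩
    exact h s hs
  · exact (Set.Ici_infinite N).image (Nat.cast_injective.injOn)

/-- `P` is the monotone triangle polynomial -/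
def IsMT (n : ℕ) (P : MvPolynomial (Fin n) ℚ) : Prop :=
  ∀ k : Fin n → ℤ, StrictMono k → eval (fun i => (k i : ℚ)) P = (mt n k : ℚ)

theorem alpha_unique {n : ℕ} (P : MvPolynomial (Fin n) ℚ) (hP : IsMT n P) (k : Fin n → ℕ) :
    eval (fun i => (k i : ℚ)) P = alpha k := by
  obtain ⟨P₀, h₀⟩ := alpha_poly n
  simp only at h₀
  have key : line P (fun i => (k i : ℚ)) (fun i => (i.val : ℚ)) =
      line P₀ (fun i => (k i : ℚ)) (fun i => (i.val : ℚ)) := by
    apply eq_of_large _ _ (∑ i, k i + 1)
    intro s hs
    rw [line_eval, line_eval]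
    have hmono : StrictMono (fun i : Fin n => k i + i.val * s) := by
      intro i j hij
      have h1 : k i ≤ ∑ i, k i := Finset.single_le_sum (fun _ _ => Nat.zero_le _) (Finset.mem_univ i)
      have h2 : (i.val + 1) * s ≤ j.val * s := Nat.mul_le_mul_right s hij
      have h3 : (i.val + 1) * s = i.val * s + s := by ring
      simp only
      omega
    have e1 := hP (fun i => ((k i + i.val * s : ℕ) : ℤ)) (fun i j hij => by
      have := hmono hij
      simp only at this ⊢
      exact_mod_cast this)
    have e2 := alpha_eq_mt _ hmono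
    rw [← e2, h₀] at e1
    push_cast at e1
    exact e1
  have h1 := congrArg (Polynomial.eval 0) key
  rw [line_eval, line_eval] at h1
  simp only [mul_zero, add_zero] at h1
  rw [h1]
  exact (h₀ k).symm

lemma mt_shift (n : ℕ) : ∀ (k : Fin n → ℤ) (s : ℤ), mt n (fun i => k i + s) = mt n k := by
  induction n with
  | zero => intro k s; rfl
  | succ n ih =>
    intro k s
    rw [mt, mt]
    refine Finset.sum_bij' (fun l _ => fun i => l i - s) (fun l _ => fun i => l i + s) ?_ ?_ ?_ ?_ ?_
    · intro l hl
      rw [Finset.mem_filter, Finset.mem_Icc] at hl ⊢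
      refine ⟨⟨fun i => ?_, fun i => ?_⟩, fun i j hij => ?_⟩
      · have := hl.1.1 i
        simp only at this ⊢
        omega
      · have := hl.1.2 i
        simp only at this ⊢
        omega
      · have := hl.2 hij
        simp only at this ⊢
        omega
    · intro l hl
      rw [Finset.mem_filter, Finset.mem_Icc] at hl ⊢
      refine ⟨⟨fun i => ?_, fun i => ?_⟩, fun i j hij => ?_⟩
      · have := hl.1.1 i
        simp only at this ⊢
        omega
      · have := hl.1.2 i
        simp only at this ⊢
        omega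
      · have := hl.2 hij
        simp only at this ⊢
        omega
    · intro l _; funext i; simp
    · intro l _; funext i; simp
    · intro l _
      have := ih (fun i => l i - s) s
      simpa using this

theorem exists_IsMT (n : ℕ) : ∃ P : MvPolynomial (Fin n) ℚ, IsMT n P := by
  obtain ⟨P₀, h₀⟩ := alpha_poly n
  simp only at h₀
  refine ⟨P₀, fun k hk => ?_⟩
  have key : line P₀ (fun i => (k i : ℚ)) (fun _ => 1) = Polynomial.C (mt n k : ℚ) := by
    apply eq_of_large _ _ (∑ i, (k i).natAbs)
    intro s hs
    rw [line_eval, Polynomial.eval_C]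
    have hnn : ∀ i, 0 ≤ k i + s := by
      intro i
      have h1 : (k i).natAbs ≤ ∑ i, (k i).natAbs :=
        Finset.single_le_sum (f := fun i => (k i).natAbs) (fun _ _ => Nat.zero_le _) (Finset.mem_univ i)
      omega
    have hcast : ∀ i, (((k i + s).toNat : ℕ) : ℤ) = k i + s := fun i => Int.toNat_of_nonneg (hnn i)
    have hmono : StrictMono (fun i : Fin n => (k i + s).toNat) := by
      intro i j hij
      have h1 := hk hij
      have h2 := hnn i
      simp only
      omega
    have e2 := alpha_eq_mt _ hmono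
    simp only [hcast, mt_shift] at e2
    rw [← e2, h₀]
    congr 2
    funext i
    have h3 : (((k i + s).toNat : ℕ) : ℚ) = (((k i + s).toNat : ℤ) : ℚ) := by norm_cast
    rw [h3, hcast]
    push_cast
    ring
  have h1 := congrArg (Polynomial.eval 0) key
  rw [line_eval, Polynomial.eval_C] at h1
  simpa using h1

theorem unique_IsMT {n : ℕ} (P Q : MvPolynomial (Fin n) ℚ) (hP : IsMT n P) (hQ : IsMT n Q) : P = Q := by
  apply MvPolynomial.funext_set (fun _ => Set.range (fun s : ℕ => (s : ℚ)))
  · intro i
    exact Set.infinite_range_of_injective Nat.cast_injective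
  · intro x hx
    have h : ∀ i, ∃ s : ℕ, (s : ℚ) = x i := fun i => hx i (Set.mem_univ i)
    choose k hk using h
    have e : x = fun i => (k i : ℚ) := by funext i; rw [hk]
    rw [e, alpha_unique P hP, alpha_unique Q hQ]

end A

end Pool.Agent.V11175.Sh
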