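import Mathlib
import Pool.Agent.V11175.Sh4

/-!
# Runs
-/

set_option autoImplicit false
set_option linter.dupNamespace false
set_option linter.unusedSectionVars false

namespace Pool.Agent.V11175.Sh

open List Finset

namespace A

open Sh

section

variable {K : Type} [CommRing K]

/-- the product `t_a t_{a+1} ... t_{a+m-1}` -/
def run : ℕ → ℕ → A K
  | _, 0 => 1
  | a, m + 1 => tt a * run (a + 1) m

lemma run_zero (a : ℕ) : (run a 0 : A K) = 1 := rfl
lemma run_succ (a m : ℕ) : (run a (m + 1) : A K) = tt a * run (a + 1) m := rfl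
lemma run_one (a : ℕ) : (run a 1 : A K) = tt a := by rw [run_succ, run_zero, mul_one]

lemma run_add (a m n : ℕ) : (run a (m + n) : A K) = run a m * run (a + m) n := by
  induction m generalizing a with
  | zero => simp [run_zero]
  | succ m ih =>
    rw [show m + 1 + n = (m + n) + 1 by ring, run_succ, run_succ, ih, mul_assoc,
      show a + 1 + m = a + (m + 1) by ring]

lemma run_succ' (a m : ℕ) : (run a (m + 1) : A K) = run a m * tt (a + m) := by
  rw [run_add, run_one]

lemma S_run (a m : ℕ) : S (run a m : A K) = run (a + 1) m := by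
  induction m generalizing a with
  | zero => simp [run_zero]
  | succ m ih => rw [run_succ, run_succ, map_mul, ih, S_tt]

lemma dd (a : ℕ) (w : A K) : d (tt a * (tt a * w)) = D (tt a) * d (tt (a + 1) * w) := by
  have h : d (tt a * w) = d (tt (a + 1) * w) + (tt (a + 1) - tt a) * d w := by
    rw [d_ttmul, d_ttmul]; noncomm_ring
  rw [d_word_rec, D_tt, h, mul_add, ← mul_assoc, D_sq]
  noncomm_ring

lemma d_run_mul (a m : ℕ) (w : A K) : d (tt a * (run a m * w)) = D (run a m) * d (tt (a + m) * w) := by
  induction m generalizing a with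
  | zero => simp [run_zero]
  | succ m ih =>
    rw [run_succ, mul_assoc, dd, ih, map_mul D, mul_assoc, show a + 1 + m = a + (m + 1) by ring]

lemma d_tt_run (a m : ℕ) : d (tt a * run a m : A K) = D (run a m) := by
  have h := d_run_mul (K := K) a m 1
  rw [mul_one, mul_one, d_tt, mul_one] at h
  exact h

/-- the sum of the words obtained by omitting one letter of a run -/
def V (a m : ℕ) : A K := ∑ i ∈ Finset.range m, run a i * run (a + i + 1) (m - 1 - i)

lemma V_zero (a : ℕ) : (V a 0 : A K) = 0 := by simp [V]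

lemma V_succ (a m : ℕ) : (V a (m + 1) : A K) = run (a + 1) m + tt a * V (a + 1) m := by
  rw [V, Finset.sum_range_succ', V, Finset.mul_sum, add_comm]
  congr 1
  · simp [run_zero]
  · refine Finset.sum_congr rfl fun i hi => ?_
    rw [Finset.mem_range] at hi
    rw [run_succ, mul_assoc, show a + (i + 1) + 1 = a + 1 + i + 1 by ring,
      show m + 1 - 1 - (i + 1) = m - 1 - i by omega]

lemma d_run (a m : ℕ) : d (run a m : A K) = D (V a m) := by
  induction m generalizing a with
  | zero => rw [run_zero, V_zero, d_one, map_zero]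
  | succ m ih =>
    have h := d_tt_run (K := K) (a + 1) m
    rw [d_ttmul, ih, S_run] at h
    rw [run_succ, d_ttmul, ih, V_succ, map_add, map_mul, D_tt, S_run, ← h]
    noncomm_ring

/-- `d (t_1 U_j) = D (U_j + ... )` -/
lemma d_U (a i m : ℕ) : d (tt a * (run a i * run (a + i + 1) m) : A K) =
    D (run a i * V (a + i) (m + 1)) := by
  rw [d_run_mul, ← run_succ, d_run, map_mul]

lemma sq1 (a : ℕ) : (tt a * (tt a * tt (a + 1)) : A K) = tt a * (tt (a + 1) * tt (a + 1)) := by
  rw [N, mul_add, cube, zero_add]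

lemma sq1' (a : ℕ) : (tt a * (tt (a + 1) * tt (a + 1)) : A K) = tt a * (tt a * tt (a + 1)) := (sq1 a).symm

lemma sq2 (a : ℕ) : (tt a * (tt a * (tt (a + 1) * tt (a + 1))) : A K) = 0 := by
  rw [sq1', ← mul_assoc, ← mul_assoc]
  have h := cube (K := K) a
  rw [← mul_assoc] at h
  rw [h, zero_mul]

lemma h3 (a : ℕ) : (tt a * (tt (a + 2) * tt (a + 1)) : A K) = tt (a + 1) * (tt a * tt (a + 1)) +
    tt a * (tt a * tt (a + 1)) - tt (a + 1) * (tt (a + 1) * tt (a + 2)) := by
  have h1 := Q (K := K) a (a + 1)
  have h2 := C (K := K) (a + 1) (a + 2)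
  have h3 := cube (K := K) (a + 1)
  have h4 := sq1 (K := K) a
  have key : (tt a * (tt (a + 2) * tt (a + 1)) - (tt (a + 1) * (tt a * tt (a + 1)) +
    tt a * (tt a * tt (a + 1)) - tt (a + 1) * (tt (a + 1) * tt (a + 2))) : A K) =
    - ((tt a * tt (a + 1) + tt (a + 1) * tt a - tt a * tt (a + 1 + 1) - tt (a + 1) * tt (a + 1)
    + tt (a + 1) * tt (a + 1 + 1) + tt (a + 1 + 1) * tt (a + 1)) * tt (a + 1))
    + (tt (a + 1) * (tt (a + 1) * tt (a + 2)) + tt (a + 1) * (tt (a + 2) * tt (a + 1)) +
        tt (a + 2) * (tt (a + 1) * tt (a + 1))) - tt (a + 1) * (tt (a + 1) * tt (a + 1))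
    + (tt a * (tt (a + 1) * tt (a + 1)) - tt a * (tt a * tt (a + 1))) := by
    rw [show a + 1 + 1 = a + 2 by ring]
    noncomm_ring
  have h5 := sub_eq_zero.2 h4.symm
  rw [h1, h2, h3, h5, zero_mul] at key
  rw [← sub_eq_zero, key]
  simp

/-- `R(1,i) R(i,n) = R(1,i-1) R(i-1,n)` -/
lemma run_shift (a i m : ℕ) : (run a (i + 2) * run (a + i + 1) (m + 1) : A K) =
    run a (i + 1) * run (a + i) (m + 2) := by
  rw [run_add a i 2, run_add a i 1, run_succ (a + i) 1, run_one, run_one, run_succ (a + i + 1) m,
    run_succ (a + i) (m + 1), run_succ (a + i + 1) m]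
  have h := sq1 (K := K) (a + i)
  calc (run a i * (tt (a + i) * tt (a + i + 1)) * (tt (a + i + 1) * run (a + i + 1 + 1) m) : A K)
      = run a i * (tt (a + i) * (tt (a + i + 1) * tt (a + i + 1))) * run (a + i + 1 + 1) m := by
        noncomm_ring
    _ = _ := by rw [← h]; noncomm_ring

lemma run_shift_all (a i m : ℕ) : (run a (i + 1) * run (a + i) (m + 1) : A K) = tt a * run a (i + m + 1) := by
  induction i generalizing m with
  | zero => rw [run_one]; simp
  | succ i ih =>
    rw [show a + (i + 1) = a + i + 1 by ring, show i + 1 + 1 = i + 2 by ring, run_shift, ih,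
      show i + (m + 1) + 1 = i + 1 + m + 1 by ring]

end

section

lemma nat_run (a m : ℕ) : Nat' (run a m) := by
  induction m generalizing a with
  | zero => exact nat_one
  | succ m ih => exact (nat_tt a).mul (ih _)

lemma nat_sum {ι : Type*} (s : Finset ι) (g : ι → A R) (h : ∀ i ∈ s, Nat' (g i)) : Nat' (∑ i ∈ s, g i) := by
  classical
  induction s using Finset.induction_on with
  | empty => simpa using nat_zero
  | insert a s ha ih =>
    rw [Finset.sum_insert ha]
    exact (h a (Finset.mem_insert_self a s)).add (ih fun i hi => h i (Finset.mem_insert_of_mem hi))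

lemma nat_V (a m : ℕ) : Nat' (V a m) := nat_sum _ _ fun i _ => (nat_run _ _).mul (nat_run _ _)

lemma al_congr {m n : ℕ} (h : m = n) (w : A R) : al m w = al n w := by rw [h]

/-- words as lists -/
noncomputable def wordL (L : List ℕ) : A R := (L.map tt).prod

lemma word_eq_wordL {n : ℕ} (k : Fin n → ℕ) : (word k : A R) = wordL (List.ofFn k) := by
  rw [word, wordL, List.map_ofFn]; rfl

lemma wordL_append (L L' : List ℕ) : wordL (L ++ L') = wordL L * wordL L' := by
  rw [wordL, wordL, wordL, List.map_append, List.prod_append]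

lemma wordL_range' (a m : ℕ) : wordL (List.range' a m) = run a m := by
  induction m generalizing a with
  | zero => rfl
  | succ m ih =>
    rw [List.range'_succ, wordL, List.map_cons, List.prod_cons, run_succ, ← ih (a + 1)]; rfl

lemma wordL_single (a : ℕ) : wordL [a] = tt a := by simp [wordL]

lemma alpha_of_list {n : ℕ} (k : Fin n → ℕ) (L : List ℕ) (h : List.ofFn k = L) :
    alpha k = al n (wordL L) := by
  rw [alpha, word_eq_wordL, h]

/-- `α(n+1; 1, 1, 2, ..., n) = α(n; 1, ..., n)`, for all starting points -/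
lemma al_tt_run (a m : ℕ) : al (m + 1) (tt a * run a m) = al m (run a m) :=
  al_step m ((nat_tt a).mul (nat_run a m)) (d_tt_run a m)

lemma al_run (a m : ℕ) : al (m + 1) (run a (m + 1)) =
    ∑ i ∈ Finset.range (m + 1), al m (run a i * run (a + i + 1) (m - i)) := by
  rw [al_step m (nat_run a (m + 1)) (d_run a (m + 1)), V, al_sum]
  simp

end

end A

end Pool.Agent.V11175.Sh
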