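import Mathlib

/-!
# Straightening in algebras with quadratic and cubic relations
-/

set_option autoImplicit false
set_option linter.dupNamespace false
set_option linter.unusedSectionVars false

namespace Pool.Agent.V11175.PBW

variable {A : Type*} [Ring A]

/-- the relations for the letters `t 0, ..., t N` -/
structure Rel (t : ℕ → A) (N : ℕ) : Prop where
  q : ∀ a b, a < N → b < N → t a * t b + t b * t a - t a * t (b + 1) - t b * t (a + 1)
    + t (a + 1) * t (b + 1) + t (b + 1) * t (a + 1) = 0
  n : ∀ a, a < N → t a * t (a + 1) = t a * t a + t (a + 1) * t (a + 1)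
  c : ∀ a b, a ≤ N → b ≤ N → t a * (t a * t b) + t a * (t b * t a) + t b * (t a * t a) = 0
  cube : ∀ a, a ≤ N → t a * (t a * t a) = 0

/-- the span of the ordered words of length `r` in the letters `t (N + 1 - d), ..., t N` -/
def Md (t : ℕ → A) (N : ℕ) : ℕ → ℤ → AddSubgroup A
  | 0, r => if r = 0 then AddSubgroup.zmultiples 1 else ⊥
  | d + 1, r => Md t N d r ⊔ ((Md t N d (r - 1)).map (AddMonoidHom.mulRight (t (N - d))) ⊔
      (Md t N d (r - 2)).map (AddMonoidHom.mulRight (t (N - d) * t (N - d))))

variable {t : ℕ → A} {N : ℕ}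

lemma mem_Md_succ {d : ℕ} {r : ℤ} {x : A} : x ∈ Md t N (d + 1) r ↔
    ∃ u0 ∈ Md t N d r, ∃ u1 ∈ Md t N d (r - 1), ∃ u2 ∈ Md t N d (r - 2),
      x = u0 + (u1 * t (N - d) + u2 * (t (N - d) * t (N - d))) := by
  rw [Md, AddSubgroup.mem_sup]
  constructor
  · rintro ⟨y, hy, z, hz, rfl⟩
    rw [AddSubgroup.mem_sup] at hz
    obtain ⟨z1, hz1, z2, hz2, rfl⟩ := hz
    rw [AddSubgroup.mem_map] at hz1 hz2
    obtain ⟨u1, hu1, rfl⟩ := hz1
    obtain ⟨u2, hu2, rfl⟩ := hz2
    exact ⟨y, hy, u1, hu1, u2, hu2, rfl⟩
  · rintro ⟨u0, h0, u1, h1, u2, h2, rfl⟩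
    refine ⟨u0, h0, _, ?_, rfl⟩
    rw [AddSubgroup.mem_sup]
    exact ⟨_, AddSubgroup.mem_map.2 ⟨u1, h1, rfl⟩, _, AddSubgroup.mem_map.2 ⟨u2, h2, rfl⟩, rfl⟩

lemma closure (h : Rel t N) (d : ℕ) (hd : d ≤ N + 1) : ∀ (r : ℤ) (x : A), x ∈ Md t N d r →
    ∀ a, N + 1 - d ≤ a → a ≤ N → x * t a ∈ Md t N d (r + 1) := by
  induction d with
  | zero => intro r x _ a h1 h2; omega
  | succ d ih =>
    have ih := ih (by omega)
    intro r x hx a ha1 ha2
    obtain ⟨u0, h0, u1, h1, u2, h2, rfl⟩ := mem_Md_succ.1 hx
    set s := N - d with hs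
    rw [mem_Md_succ]
    rw [← hs]
    have hcube := h.cube s (by omega)
    by_cases has : a = s
    · subst has
      refine ⟨0, zero_mem _, u0, by simpa using h0, u1, by
        rw [show r + 1 - 2 = r - 1 by ring]; exact h1, ?_⟩
      have : (u0 + (u1 * t s + u2 * (t s * t s))) * t s =
          0 + (u0 * t s + u1 * (t s * t s)) + u2 * (t s * (t s * t s)) := by noncomm_ring
      rw [this, hcube, mul_zero, add_zero]
    · -- decomposition of `t s * t a`
      have dec : ∀ a, s + 1 ≤ a → a ≤ N → ∃ x y : A,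
          (∀ (r : ℤ) (u : A), u ∈ Md t N d r → u * x ∈ Md t N d (r + 1)) ∧
          (∀ (r : ℤ) (u : A), u ∈ Md t N d r → u * y ∈ Md t N d (r + 2)) ∧
          t s * t a = t s * t s + x * t s + y := by
        have two : ∀ b c, s + 1 ≤ b → b ≤ N → s + 1 ≤ c → c ≤ N → ∀ (r : ℤ) (u : A), u ∈ Md t N d r →
            u * (t b * t c) ∈ Md t N d (r + 2) := by
          intro b c hb1 hb2 hc1 hc2 r u hu
          rw [← mul_assoc, show r + 2 = r + 1 + 1 by ring]
          exact ih _ _ (ih _ _ hu b (by omega) hb2) c (by omega) hc2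
        intro a ha
        induction a, ha using Nat.le_induction with
        | base =>
          intro haN
          refine ⟨0, t (s + 1) * t (s + 1), ?_, two _ _ le_rfl haN le_rfl haN, ?_⟩
          · intro r u _; simp [zero_mem]
          · rw [h.n s (by omega)]; simp
        | succ a ha iha =>
          intro haN
          obtain ⟨x, y, hx, hy, hxy⟩ := iha (by omega)
          refine ⟨x + t a, y - t a * t (s + 1) + t (s + 1) * t (a + 1) + t (a + 1) * t (s + 1), ?_, ?_, ?_⟩
          · intro r u hu
            rw [mul_add]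
            exact add_mem (hx r u hu) (ih _ _ hu a (by omega) (by omega))
          · intro r u hu
            rw [mul_add, mul_add, mul_sub]
            exact add_mem (add_mem (sub_mem (hy r u hu) (two _ _ (by omega) (by omega) (by omega) (by omega) r u hu))
              (two _ _ (by omega) (by omega) (by omega) (by omega) r u hu))
              (two _ _ (by omega) (by omega) (by omega) (by omega) r u hu)
          · have hq := h.q s a (by omega) (by omega)
            have : t s * t (a + 1) = t s * t a + t a * t s - t a * t (s + 1) + t (s + 1) * t (a + 1) +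
                t (a + 1) * t (s + 1) := by
              rw [← sub_eq_zero, ← neg_eq_zero, ← hq]; abel
            rw [this, hxy, add_mul]; abel
      obtain ⟨x, y, hx, hy, hxy⟩ := dec a (by omega) ha2
      refine ⟨u0 * t a + u1 * y, ?_, u1 * x - u2 * y, ?_, u1 - u2 * x - u2 * t a, ?_, ?_⟩
      · have := hy _ _ h1
        rw [show r - 1 + 2 = r + 1 by ring] at this
        exact add_mem (ih _ _ h0 a (by omega) ha2) this
      · have e1 := hx _ _ h1
        have e2 := hy _ _ h2
        rw [show r - 1 + 1 = r + 1 - 1 by ring] at e1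
        rw [show r - 2 + 2 = r + 1 - 1 by ring] at e2
        exact sub_mem e1 e2
      · have e2 := hx _ _ h2
        have e3 := ih _ _ h2 a (by omega) ha2
        rw [show r - 1 = r + 1 - 2 by ring] at h1
        rw [show r - 2 + 1 = r + 1 - 2 by ring] at e2 e3
        exact sub_mem (sub_mem h1 e2) e3
      · have hc := h.c s a (by omega) ha2
        have e1 : t s * (t s * t a) = - (t s * t a * t s) - t a * (t s * t s) := by
          rw [← sub_eq_zero]
          have : t s * (t s * t a) - (-(t s * t a * t s) - t a * (t s * t s)) =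
            t s * (t s * t a) + t s * (t a * t s) + t a * (t s * t s) := by noncomm_ring
          rw [this, hc]
        have e2 : t s * t a * t s = t s * (t s * t s) + x * (t s * t s) + y * t s := by
          rw [hxy]; noncomm_ring
        rw [hcube, zero_add] at e2
        calc (u0 + (u1 * t s + u2 * (t s * t s))) * t a
            = u0 * t a + u1 * (t s * t a) + u2 * (t s * (t s * t a)) := by noncomm_ring
          _ = _ := by rw [e1, e2, hxy]; noncomm_ring

lemma Md_eq_bot (d : ℕ) : ∀ r : ℤ, (2 * d < r ∨ r < 0) → Md t N d r = ⊥ := by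
  induction d with
  | zero =>
    intro r hr
    rw [Md, if_neg]
    rintro rfl
    simp at hr
  | succ d ih =>
    intro r hr
    push_cast at hr
    rw [Md, ih r (by omega), ih (r - 1) (by omega), ih (r - 2) (by omega)]
    simp

/-- the ordered word of maximal length -/
def top (t : ℕ → A) (N : ℕ) : ℕ → A
  | 0 => 1
  | d + 1 => top t N d * (t (N - d) * t (N - d))

lemma Md_top (d : ℕ) : ∀ x ∈ Md t N d (2 * d), ∃ c : ℤ, x = c • top t N d := by
  induction d with
  | zero =>
    intro x hx
    rw [Md] at hx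
    simp only [Nat.cast_zero, mul_zero, if_true] at hx
    obtain ⟨c, rfl⟩ := AddSubgroup.mem_zmultiples_iff.1 hx
    exact ⟨c, rfl⟩
  | succ d ih =>
    intro x hx
    obtain ⟨u0, h0, u1, h1, u2, h2, rfl⟩ := mem_Md_succ.1 hx
    rw [Md_eq_bot d _ (by push_cast; omega), AddSubgroup.mem_bot] at h0
    rw [Md_eq_bot d _ (by push_cast; omega), AddSubgroup.mem_bot] at h1
    rw [show (2 * ((d + 1 : ℕ) : ℤ) - 2) = 2 * d by push_cast; ring] at h2
    obtain ⟨c, rfl⟩ := ih u2 h2
    refine ⟨c, ?_⟩
    rw [h0, h1, top]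
    simp [mul_assoc]

lemma one_mem_Md (d : ℕ) : (1 : A) ∈ Md t N d 0 := by
  induction d with
  | zero => rw [Md, if_pos rfl]; exact AddSubgroup.mem_zmultiples 1
  | succ d ih =>
    rw [mem_Md_succ]
    exact ⟨1, ih, 0, zero_mem _, 0, zero_mem _, by simp⟩

lemma mul_prod_mem (h : Rel t N) (L : List ℕ) (hL : ∀ a ∈ L, a ≤ N) : ∀ (r : ℤ) (x : A),
    x ∈ Md t N (N + 1) r → x * (L.map t).prod ∈ Md t N (N + 1) (r + L.length) := by
  induction L with
  | nil => intro r x hx; simpa using hx
  | cons a L ih =>
    intro r x hx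
    rw [List.map_cons, List.prod_cons, ← mul_assoc, List.length_cons]
    push_cast
    rw [show r + ((L.length : ℤ) + 1) = r + 1 + L.length by ring]
    exact ih (fun b hb => hL b (by simp [hb])) _ _ (closure h (N + 1) le_rfl r x hx a (by omega) (hL a (by simp)))

/-- closure under multiplication by sums of differences of letters -/
lemma mul_mem (h : Rel t N) {r : ℤ} {x : A} (hx : x ∈ Md t N (N + 1) r) (a : ℕ) (ha : a ≤ N) :
    x * t a ∈ Md t N (N + 1) (r + 1) := closure h (N + 1) le_rfl r x hx a (by omega) ha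

end Pool.Agent.V11175.PBW
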