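import Mathlib
import Pool.Agent.V11175.Sh5
import Pool.Agent.V11175.Sh7

/-!
# The homogeneous shuffle algebra
-/

set_option autoImplicit false
set_option linter.dupNamespace false
set_option linter.unusedSectionVars false

namespace Pool.Agent.V11175.Sh

open List Finset

/-- the homogeneous kernel -/
def fh {K : Type} [CommRing K] : K × K → K × K → K := fun x y => x.2 * y.2 - x.1 * y.2 + x.1 * y.1

/-- the homogeneous shuffle algebra -/
abbrev H (K : Type) [CommRing K] : Type := Sh (fh (K := K))

namespace H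

open Sh

section

variable {K : Type} [CommRing K]

/-- the letters -/
def th (N a : ℕ) : H K := t (fun x => x.1 ^ a * x.2 ^ (N - a))

def D : H K →ₐ[K] H K := M (fun x => x.1 - x.2)
def S : H K →ₐ[K] H K := M (fun x => x.1)
def G : H K →ₐ[K] H K := M (fun x => x.2)
def Sm : H K →ₐ[K] H K := M (fun x => -x.1)
def Gm : H K →ₐ[K] H K := M (fun x => -x.2)
def e0 : H K →ₗ[K] H K := E (0, 1)
def e1 : H K →ₗ[K] H K := E (1, 1)
def ei : H K →ₗ[K] H K := E (1, 0)

lemma D_th (N a : ℕ) (h : a ≤ N) : D (th N a : H K) = th (N + 1) (a + 1) - th (N + 1) a := by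
  simp only [th, D]; rw [M_t, ← t_sub]; congr 1; funext x
  rw [show N + 1 - (a + 1) = N - a by omega, show N + 1 - a = N - a + 1 by omega]; ring
lemma S_th (N a : ℕ) : S (th N a : H K) = th (N + 1) (a + 1) := by
  simp only [th, S]; rw [M_t]; congr 1; funext x
  rw [show N + 1 - (a + 1) = N - a by omega]; ring
lemma G_th (N a : ℕ) (h : a ≤ N) : G (th N a : H K) = th (N + 1) a := by
  simp only [th, G]; rw [M_t]; congr 1; funext x
  rw [show N + 1 - a = N - a + 1 by omega]; ring

lemma DS (a : H K) : D (S a) = S (D a) := M_comm _ _ a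
lemma DG (a : H K) : D (G a) = G (D a) := M_comm _ _ a
lemma GS (a : H K) : G (S a) = S (G a) := M_comm _ _ a
lemma DSm (a : H K) : D (Sm a) = Sm (D a) := M_comm _ _ a
lemma GSm (a : H K) : G (Sm a) = Sm (G a) := M_comm _ _ a

lemma e0_mul (a b : H K) : e0 (a * b) = e0 a * G b + D a * e0 b := by
  rw [e0, E_mul]
  have h1 : (fh (K := K) (0, 1)) = fun x => x.2 := by funext x; simp [fh]
  have h2 : (fun y : K × K => - fh y (0, 1)) = fun x => x.1 - x.2 := by funext x; simp [fh]
  rw [h1, h2]; rfl
lemma ei_mul (a b : H K) : ei (a * b) = ei a * D b + Sm a * ei b := by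
  rw [ei, E_mul]
  have h1 : (fh (K := K) (1, 0)) = fun x => x.1 - x.2 := by funext x; simp [fh]; ring
  have h2 : (fun y : K × K => - fh y (1, 0)) = fun x => - x.1 := by funext x; simp [fh]
  rw [h1, h2]; rfl
lemma e1_mul (a b : H K) : e1 (a * b) = e1 a * S b + Gm a * e1 b := by
  rw [e1, E_mul]
  have h1 : (fh (K := K) (1, 1)) = fun x => x.1 := by funext x; simp [fh]
  have h2 : (fun y : K × K => - fh y (1, 1)) = fun x => - x.2 := by funext x; simp [fh]
  rw [h1, h2]; rfl

lemma e0_one : e0 (1 : H K) = 0 := rfl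
lemma e1_one : e1 (1 : H K) = 0 := rfl
lemma ei_one : ei (1 : H K) = 0 := rfl

lemma e0_D (a : H K) : e0 (D a) = - D (e0 a) := by rw [e0, D, E_M]; simp
lemma e0_S (a : H K) : e0 (S a) = 0 := by rw [e0, S, E_M]; simp
lemma e0_Sm (a : H K) : e0 (Sm a) = 0 := by rw [e0, Sm, E_M]; simp
lemma e0_G (a : H K) : e0 (G a) = G (e0 a) := by rw [e0, G, E_M]; simp
lemma ei_D (a : H K) : ei (D a) = D (ei a) := by rw [ei, D, E_M]; simp
lemma ei_S (a : H K) : ei (S a) = S (ei a) := by rw [ei, S, E_M]; simp
lemma ei_G (a : H K) : ei (G a) = 0 := by rw [ei, G, E_M]; simp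
lemma e1_D (a : H K) : e1 (D a) = 0 := by rw [e1, D, E_M]; simp
lemma e1_S (a : H K) : e1 (S a) = S (e1 a) := by rw [e1, S, E_M]; simp
lemma e1_G (a : H K) : e1 (G a) = G (e1 a) := by rw [e1, G, E_M]; simp

lemma e0_th0 (N : ℕ) : e0 (th N 0 : H K) = 1 := by rw [th, e0, E_t]; simp
lemma e0_th (N a : ℕ) (h : a ≠ 0) : e0 (th N a : H K) = 0 := by rw [th, e0, E_t]; simp [h]
lemma ei_thN (N : ℕ) : ei (th N N : H K) = 1 := by rw [th, ei, E_t]; simp
lemma ei_th (N a : ℕ) (h : a < N) : ei (th N a : H K) = 0 := by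
  rw [th, ei, E_t]
  have : N - a ≠ 0 := by omega
  simp [this]
lemma e1_th (N a : ℕ) : e1 (th N a : H K) = 1 := by rw [th, e1, E_t]; simp

/-- the relations -/
lemma rel (N : ℕ) : PBW.Rel (fun a => (th N a : H K)) N where
  q := by
    intro a b ha hb
    have h : ∀ g h : K × K → K, Len 2 (t g * t h : H K) := fun g h => (Len.t _).mul (Len.t _)
    obtain ⟨p, hp⟩ : ∃ p, N - a = p + 1 := ⟨N - a - 1, by omega⟩
    obtain ⟨q, hq⟩ : ∃ q, N - b = q + 1 := ⟨N - b - 1, by omega⟩
    have hp' : N - (a + 1) = p := by omega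
    have hq' : N - (b + 1) = q := by omega
    simp only [th, hp, hq, hp', hq']
    apply Len.ext2 _ Len.zero
    · intro x y
      rw [Sh.add_apply, Sh.add_apply, Sh.sub_apply, Sh.sub_apply, Sh.add_apply, tt_apply, tt_apply,
        tt_apply, tt_apply, tt_apply, tt_apply, Sh.zero_apply]
      simp only [fh]
      ring
    · exact (((((h _ _).add (h _ _)).sub (h _ _)).sub (h _ _)).add (h _ _)).add (h _ _)
  n := by
    intro a ha
    obtain ⟨p, hp⟩ : ∃ p, N - a = p + 1 := ⟨N - a - 1, by omega⟩
    have hp' : N - (a + 1) = p := by omega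
    simp only [th, hp, hp']
    apply Len.ext2 ((Len.t _).mul (Len.t _)) (((Len.t _).mul (Len.t _)).add ((Len.t _).mul (Len.t _)))
    intro x y
    rw [Sh.add_apply, tt_apply, tt_apply, tt_apply]
    simp only [fh]
    ring
  c := by
    intro a b _ _
    simp only [th]
    apply Len.ext3 _ Len.zero
    · intro x y z
      rw [Sh.add_apply, Sh.add_apply, ttt_apply, ttt_apply, ttt_apply, Sh.zero_apply]
      simp only [fh]
      ring
    · exact ((((Len.t _).mul ((Len.t _).mul (Len.t _))).add ((Len.t _).mul ((Len.t _).mul (Len.t _)))).add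
        ((Len.t _).mul ((Len.t _).mul (Len.t _))))
  cube := by
    intro a _
    simp only [th]
    apply Len.ext3 _ Len.zero
    · intro x y z
      rw [ttt_apply, Sh.zero_apply]
      simp only [fh]
      ring
    · exact (Len.t _).mul ((Len.t _).mul (Len.t _))

/-- the product of the letters `t_0, ..., t_{m-1}` of degree `m - 1` -/
def rho : ℕ → H K
  | 0 => 1
  | m + 1 => G (rho m) * th m m

/-- `t_{m-1}² ... t_0²` -/
def tau : ℕ → H K
  | 0 => 1
  | m + 1 => S (tau m) * (th m 0 * th m 0)

def Om (m : ℕ) : H K := rho m * rho m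

lemma rho_succ' (m : ℕ) : (rho (m + 1) : H K) = th m 0 * S (rho m) := by
  induction m with
  | zero => simp [rho]
  | succ m ih =>
    calc (rho (m + 1 + 1) : H K) = G (rho (m + 1)) * th (m + 1) (m + 1) := rfl
      _ = G (th m 0 * S (rho m)) * th (m + 1) (m + 1) := by rw [ih]
      _ = th (m + 1) 0 * (S (G (rho m)) * S (th m m)) := by
          rw [map_mul, G_th m 0 (by omega), GS, S_th, mul_assoc]
      _ = th (m + 1) 0 * S (G (rho m) * th m m) := by rw [map_mul S]
      _ = _ := rfl

lemma tau_succ' (m : ℕ) : (tau (m + 1) : H K) = th m m * th m m * G (tau m) := by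
  induction m with
  | zero => simp [tau]
  | succ m ih =>
    calc (tau (m + 1 + 1) : H K) = S (tau (m + 1)) * (th (m + 1) 0 * th (m + 1) 0) := rfl
      _ = S (th m m * th m m * G (tau m)) * (th (m + 1) 0 * th (m + 1) 0) := by rw [ih]
      _ = S (th m m) * S (th m m) * (G (S (tau m)) * (G (th m 0) * G (th m 0))) := by
          rw [map_mul, map_mul, GS, G_th m 0 (by omega)]; noncomm_ring
      _ = S (th m m) * S (th m m) * G (S (tau m) * (th m 0 * th m 0)) := by rw [map_mul G, map_mul G]
      _ = _ := by rw [S_th]; rfl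

lemma rho_eq (m : ℕ) : (rho (m + 1) : H K) = ((List.range (m + 1)).map (fun a => th m a)).prod := by
  induction m with
  | zero => simp [rho]
  | succ m ih =>
    rw [rho, ih, List.range_succ (n := m + 1), List.map_append, List.prod_append, map_list_prod, List.map_map]
    congr 1
    · congr 1
      apply List.map_congr_left
      intro a ha
      rw [List.mem_range] at ha
      exact G_th m a (by omega)
    · simp

lemma S_top (N : ℕ) (d : ℕ) (hd : d ≤ N + 1) :
    S (PBW.top (fun a => (th N a : H K)) N d) = PBW.top (fun a => (th (N + 1) a : H K)) (N + 1) d := by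
  induction d with
  | zero => simp [PBW.top]
  | succ d ih =>
    rw [PBW.top, PBW.top, map_mul, map_mul, ih (by omega), S_th,
      show N - d + 1 = N + 1 - d by omega]

lemma top_eq_tau (m : ℕ) : PBW.top (fun a => (th m a : H K)) m (m + 1) = tau (m + 1) := by
  induction m with
  | zero => simp [PBW.top, tau]
  | succ m ih =>
    rw [PBW.top, tau, ← ih, S_top m (m + 1) le_rfl]
    simp

/-- every word of length `2 m + 2` in the letters `t_0, ..., t_m` is a multiple of `tau (m + 1)` -/
lemma Om_mem (m : ℕ) : (Om (m + 1) : H K) ∈ PBW.Md (fun a => (th m a : H K)) m (m + 1) (2 * ((m + 1 : ℕ) : ℤ)) := by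
  have h := PBW.mul_prod_mem (rel (K := K) m) (List.range (m + 1) ++ List.range (m + 1))
    (by intro a ha; simp only [List.mem_append, List.mem_range, or_self] at ha; omega) 0 1
    (PBW.one_mem_Md _)
  rw [one_mul, List.map_append, List.prod_append, ← rho_eq] at h
  rw [Om]
  convert h using 1
  simp only [List.length_append, List.length_range]
  push_cast
  ring

end

end H

end Pool.Agent.V11175.Sh
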