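import Mathlib
import Pool.Agent.V11175.Sh8

/-!
# Comparison of words in the homogeneous shuffle algebra
-/

set_option autoImplicit false
set_option linter.dupNamespace false
set_option linter.unusedSectionVars false

namespace Pool.Agent.V11175.Sh

open List Finset

namespace H

open Sh MvPolynomial

/-- the base ring -/
abbrev R : Type := MvPolynomial ℕ ℚ

/-- natural elements -/
def Nat' (w : H R) : Prop := ∀ (φ : R →ₐ[ℚ] R) (c : List (R × R)), ap w (c.map (Prod.map φ φ)) = φ (ap w c)

lemma Nat'.mul {a b : H R} (ha : Nat' a) (hb : Nat' b) : Nat' (a * b) := by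
  intro φ c
  exact mulF_nat fh (φ : R →+* R) (Prod.map φ φ) fh (fun x y => by simp [fh]) c (ap a) (ap b) (ap a) (ap b)
    (fun l => ha φ l) (fun l => hb φ l)

lemma Nat'.add {a b : H R} (ha : Nat' a) (hb : Nat' b) : Nat' (a + b) := by
  intro φ c
  rw [Sh.add_apply, Sh.add_apply, ha, hb, map_add]

lemma Nat'.neg {a : H R} (ha : Nat' a) : Nat' (-a) := by
  intro φ c
  rw [Sh.neg_apply, Sh.neg_apply, ha, map_neg]

lemma Nat'.sub {a b : H R} (ha : Nat' a) (hb : Nat' b) : Nat' (a - b) := by
  rw [sub_eq_add_neg]; exact ha.add hb.neg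

lemma nat_zero : Nat' 0 := by
  intro φ c
  rw [Sh.zero_apply, Sh.zero_apply, map_zero]

lemma nat_one : Nat' 1 := by
  intro φ c
  cases c with
  | nil => rw [List.map_nil, one_apply_nil, map_one]
  | cons x c => rw [List.map_cons, one_apply_cons, one_apply_cons, map_zero]

lemma nat_th (N k : ℕ) : Nat' (th N k) := by
  intro φ c
  unfold th
  match c with
  | [] => rw [List.map_nil, t_nil, map_zero]
  | [x] => rw [List.map_cons, List.map_nil, t_single, t_single, map_mul, map_pow, map_pow]; rfl
  | x :: y :: c => rw [List.map_cons, List.map_cons, t_cons2, t_cons2, map_zero]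

lemma nat_M {m : R × R → R} (hm : ∀ (φ : R →ₐ[ℚ] R) x, m (Prod.map φ φ x) = φ (m x)) {a : H R}
    (ha : Nat' a) : Nat' (M m a) := by
  intro φ c
  rw [M_apply, M_apply, ha, map_mul, map_list_prod, List.map_map, List.map_map]
  congr 2
  apply List.map_congr_left
  intro x _
  exact hm φ x

lemma nat_D {a : H R} (ha : Nat' a) : Nat' (D a) := nat_M (fun φ x => by simp) ha
lemma nat_S {a : H R} (ha : Nat' a) : Nat' (S a) := nat_M (fun φ x => by simp) ha
lemma nat_G {a : H R} (ha : Nat' a) : Nat' (G a) := nat_M (fun φ x => by simp) ha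

/-- generic lists -/
noncomputable def gen : ℕ → List (R × R)
  | 0 => []
  | n + 1 => (X (2 * n), X (2 * n + 1)) :: gen n

lemma gen_spec : ∀ (n : ℕ) (c : List (R × R)), c.length = n → ∃ φ : R →ₐ[ℚ] R,
    (gen n).map (Prod.map φ φ) = c := by
  have key : ∀ (n : ℕ) (c : List (R × R)), c.length = n → ∃ v : ℕ → R, ∀ v' : ℕ → R,
      (∀ i < 2 * n, v' i = v i) → (gen n).map (Prod.map (aeval v') (aeval v')) = c := by
    intro n
    induction n with
    | zero =>
      intro c hc
      rw [List.length_eq_zero_iff] at hc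
      subst hc
      exact ⟨fun _ => 0, fun v' _ => rfl⟩
    | succ n ih =>
      intro c hc
      match c, hc with
      | x :: c, hc =>
        obtain ⟨v, hv⟩ := ih c (by simpa using hc)
        refine ⟨fun i => if i < 2 * n then v i else if i = 2 * n then x.1 else x.2, fun v' hv' => ?_⟩
        beta_reduce at hv'
        rw [gen, List.map_cons, hv v' (fun i hi => by rw [hv' i (by omega), if_pos hi])]
        congr 1
        apply Prod.ext
        · simp only [Prod.map_fst, aeval_X]
          rw [hv' _ (by omega), if_neg (by omega), if_pos rfl]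
        · simp only [Prod.map_snd, aeval_X]
          rw [hv' _ (by omega), if_neg (by omega), if_neg (by omega)]
  intro n c hc
  obtain ⟨v, hv⟩ := key n c hc
  exact ⟨aeval v, hv v fun _ _ => rfl⟩

lemma gen_length (n : ℕ) : (gen n).length = n := by
  induction n with
  | zero => rfl
  | succ n ih => rw [gen, List.length_cons, ih]

/-- multiplication by a generically nonzero multiplicative function is injective on natural elements -/
lemma inj {m : R × R → R} (hm : ∀ n : ℕ, m (X (2 * n), X (2 * n + 1)) ≠ 0) {a : H R} (ha : Nat' a)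
    (h : M m a = 0) : a = 0 := by
  refine Sh.ext' fun c => ?_
  rw [Sh.zero_apply]
  obtain ⟨φ, hφ⟩ := gen_spec c.length c rfl
  have h1 : ap (M m a) (gen c.length) = 0 := by rw [h, Sh.zero_apply]
  rw [M_apply] at h1
  have h2 : ∀ n, ((gen n).map m).prod ≠ 0 := by
    intro n
    induction n with
    | zero => simp [gen]
    | succ n ih => rw [gen, List.map_cons, List.prod_cons]; exact mul_ne_zero (hm n) ih
  have h3 := (mul_eq_zero.1 h1).resolve_left (h2 _)
  rw [← hφ, ha, h3, map_zero]

lemma X_ne (n : ℕ) : (X (2 * n) : R) ≠ 0 := X_ne_zero _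
lemma X_ne' (n : ℕ) : (X (2 * n + 1) : R) ≠ 0 := X_ne_zero _
lemma X_sub_ne (n : ℕ) : (X (2 * n) - X (2 * n + 1) : R) ≠ 0 := by
  intro h
  have h1 := X_injective (R := ℚ) (sub_eq_zero.1 h)
  omega

lemma inj_D {a : H R} (ha : Nat' a) (h : D a = 0) : a = 0 := inj X_sub_ne ha h
lemma inj_G {a : H R} (ha : Nat' a) (h : G a = 0) : a = 0 := inj X_ne' ha h
lemma inj_S {a : H R} (ha : Nat' a) (h : S a = 0) : a = 0 := inj X_ne ha h
lemma inj_Gm {a : H R} (ha : Nat' a) (h : Gm a = 0) : a = 0 :=
  inj (m := fun x => - x.2) (fun n => neg_ne_zero.2 (X_ne' n)) ha h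

lemma nat_tau (m : ℕ) : Nat' (tau m) := by
  induction m with
  | zero => exact nat_one
  | succ m ih => exact (nat_S ih).mul ((nat_th _ _).mul (nat_th _ _))

lemma nat_rho (m : ℕ) : Nat' (rho m) := by
  induction m with
  | zero => exact nat_one
  | succ m ih => exact (nat_G ih).mul (nat_th _ _)

lemma nat_Om (m : ℕ) : Nat' (Om m) := (nat_rho m).mul (nat_rho m)

/-- the product of `DSG` -/
lemma inj_DSG {a : H R} (ha : Nat' a) (h : D (S (G a)) = 0) : a = 0 :=
  inj_G ha (inj_S (nat_G ha) (inj_D (nat_S (nat_G ha)) h))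

section formulas

variable {K : Type} [CommRing K]

lemma Sm_len {n : ℕ} {a : H K} (ha : Len n a) : Sm a = (-1 : K) ^ n • S a := by
  refine Sh.ext' fun l => ?_
  rw [Sm, S, M_apply, Sh.smul_apply, M_apply]
  by_cases hl : l.length = n
  · subst hl
    have : ∀ l : List (K × K), (l.map (fun x => - x.1)).prod = (-1) ^ l.length * (l.map (fun x => x.1)).prod := by
      intro l
      induction l with
      | nil => simp
      | cons x l ih => rw [List.map_cons, List.prod_cons, ih, List.map_cons, List.prod_cons, List.length_cons]; ring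
    rw [this]; ring
  · rw [ha l hl]; ring

lemma len_th (N a : ℕ) : Len 1 (th N a : H K) := Len.t _

lemma len_rho (m : ℕ) : Len m (rho m : H K) := by
  induction m with
  | zero => exact Len.one
  | succ m ih => exact (ih.M _).mul (len_th _ _)

lemma e0_sq (m : ℕ) : e0 (th m 0 * th m 0 : H K) = S (th m 0) := by
  rw [e0_mul, e0_th0, one_mul, mul_one, G_th m 0 (by omega), D_th m 0 (by omega), S_th]; abel

lemma e0_sq' (m : ℕ) (h : m ≠ 0) : e0 (th m m * th m m : H K) = 0 := by
  rw [e0_mul, e0_th m m h]; simp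

lemma ei_sq (m : ℕ) : ei (th m m * th m m : H K) = - G (th m m) := by
  have h : Sm (th m m : H K) = - S (th m m) := by
    rw [Sm_len (len_th m m)]; simp
  rw [ei_mul, ei_thN, one_mul, mul_one, h, G_th m m (by omega), D_th m m (by omega), S_th]; abel

lemma D_sq (m : ℕ) : D (th m m : H K) * D (th m m) = - (th (m + 1) (m + 1) * th (m + 1) m) := by
  have h := (rel (K := K) (m + 1)).n m (by omega)
  rw [D_th m m le_rfl]
  have : (th (m + 1) (m + 1) - th (m + 1) m) * (th (m + 1) (m + 1) - th (m + 1) m) =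
      th (m + 1) (m + 1) * th (m + 1) (m + 1) + th (m + 1) m * th (m + 1) m - th (m + 1) m * th (m + 1) (m + 1)
        - (th (m + 1) (m + 1) * th (m + 1) m : H K) := by
    noncomm_ring
  rw [this, h]; abel

/-- `t_m D(t_{m-1}² ... t_0²) = (-1)^m t_m² ... t_1² t_0` -/
lemma lead (m : ℕ) : (th m m * D (tau m) : H K) = (-1 : K) ^ m • (S (tau m) * th m 0) := by
  induction m with
  | zero => simp [tau]
  | succ m ih =>
    calc (th (m + 1) (m + 1) * D (tau (m + 1)) : H K)
        = th (m + 1) (m + 1) * ((D (th m m) * D (th m m)) * G (D (tau m))) := by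
          rw [tau_succ', map_mul, map_mul, DG]
      _ = - (th (m + 1) (m + 1) * th (m + 1) (m + 1) * (G (th m m) * G (D (tau m)))) := by
          rw [D_sq, G_th m m le_rfl]; noncomm_ring
      _ = - (S (th m m) * S (th m m) * (G (th m m * D (tau m)))) := by rw [S_th, map_mul G]
      _ = (-1 : K) ^ (m + 1) • (S (th m m) * S (th m m) * (S (G (tau m)) * th (m + 1) 0)) := by
          rw [ih, map_smul, map_mul, GS, G_th m 0 (by omega), mul_smul_comm, pow_succ, mul_neg_one, neg_smul]
      _ = _ := by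
          rw [tau_succ', map_mul, map_mul]
          simp only [mul_assoc]

lemma e0_tau (m : ℕ) : e0 (tau (m + 1) : H K) = S (D (tau m) * th m 0) := by
  rw [tau, e0_mul, e0_S, zero_mul, zero_add, e0_sq, map_mul, DS]

lemma e0_ei_tau (m : ℕ) : e0 (ei (tau (m + 1) : H K)) = (-1 : K) ^ (m + 1) • D (S (G (tau m))) := by
  have h1 : ei (tau (m + 1) : H K) = - G (th m m * D (tau m)) := by
    rw [tau_succ', ei_mul, ei_G, mul_zero, add_zero, ei_sq, map_mul, DG]; noncomm_ring
  rw [h1, map_neg, e0_G]
  cases m with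
  | zero =>
    have : e0 (th 0 0 * D (tau 0) : H K) = 1 := by
      simp only [tau, map_one, mul_one]; exact e0_th0 0
    rw [this]; simp [tau]
  | succ m =>
    rw [e0_mul, e0_th _ _ (by omega), zero_mul, zero_add, e0_D, e0_tau, ← S_th m m, mul_neg, ← map_mul D,
      ← map_mul S, ← mul_assoc, lead, smul_mul_assoc, mul_assoc]
    rw [show S (tau m) * (th m 0 * th m 0) = (tau (m + 1) : H K) from rfl]
    rw [map_smul, map_smul, map_neg, map_smul, neg_neg]
    rw [← DG, ← GS, pow_succ, pow_succ]
    simp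

lemma ei_rho (m : ℕ) : ei (rho (m + 1) : H K) = (-1 : K) ^ m • S (G (rho m)) := by
  have hl : Len m (G (rho m) : H K) := (len_rho m).M _
  rw [rho, ei_mul, ei_G, zero_mul, zero_add, ei_thN, mul_one, Sm_len hl]

lemma e0_rho (m : ℕ) : e0 (rho (m + 1) : H K) = S (G (rho m)) := by
  rw [rho_succ', e0_mul, e0_th0, e0_S, mul_zero, add_zero, one_mul, GS]

lemma e0_ei_Om (m : ℕ) : e0 (ei (Om (m + 1) : H K)) = (-1 : K) ^ (m + 1) • D (S (G (Om m))) := by
  rw [Om, ei_mul, ei_rho, map_add, smul_mul_assoc, mul_smul_comm, map_smul, map_smul, e0_mul, e0_mul,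
    e0_S, e0_Sm, e0_D, e0_rho, Om, map_mul, map_mul, map_mul]
  rw [pow_succ]
  simp

end formulas

/-- `(t_0 ... t_{m-1})² = t_{m-1}² ... t_0²`, and this is not zero -/
theorem Om_eq_tau (m : ℕ) : (Om m : H R) = tau m ∧ (tau m : H R) ≠ 0 := by
  induction m with
  | zero =>
    refine ⟨by simp [Om, rho, tau], ?_⟩
    intro h
    have h1 : ap (tau 0 : H R) [] = 0 := by rw [h]; rfl
    have h2 : ap (tau 0 : H R) [] = 1 := rfl
    rw [h2] at h1
    exact one_ne_zero h1
  | succ m ih =>
    have hne : (-1 : R) ^ (m + 1) • D (S (G (tau m : H R))) ≠ 0 := by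
      intro h
      apply ih.2
      apply inj_DSG (nat_tau m)
      have h' := congrArg (fun z => (-1 : R) ^ (m + 1) • z) h
      simp only [smul_smul, ← mul_pow, smul_zero] at h'
      simpa using h'
    have hne2 : (tau (m + 1) : H R) ≠ 0 := by
      intro h
      apply hne
      rw [← e0_ei_tau, h, map_zero, map_zero]
    refine ⟨?_, hne2⟩
    obtain ⟨c, hc⟩ := PBW.Md_top (t := fun a => (th m a : H R)) (N := m) (m + 1) _ (Om_mem m)
    rw [top_eq_tau] at hc
    have h1 := e0_ei_Om (K := R) m
    rw [hc, map_zsmul, map_zsmul, e0_ei_tau, ih.1] at h1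
    -- c • z = z
    set z : H R := D (S (G (tau m : H R))) with hz
    have hz0 : z ≠ 0 := fun h => hne (by rw [h, smul_zero])
    have h2 : (c - 1) • ((-1 : R) ^ (m + 1) • z) = 0 := by rw [sub_smul, one_smul, h1, sub_self]
    have hc1 : c - 1 = 0 := by
      by_contra hcne
      apply hne
      refine Sh.ext' fun l => ?_
      have h3 : ap ((c - 1) • ((-1 : R) ^ (m + 1) • z)) l = 0 := by rw [h2]; rfl
      have h4 : ap ((c - 1) • ((-1 : R) ^ (m + 1) • z)) l = ((c - 1 : ℤ) : R) * ap ((-1 : R) ^ (m + 1) • z) l := by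
        rw [← Sh.smul_apply, Int.cast_smul_eq_zsmul]
      rw [h4] at h3
      exact (mul_eq_zero.1 h3).resolve_left (by exact_mod_cast hcne)
    have : c = 1 := by omega
    rw [hc, this, one_smul]

end H

end Pool.Agent.V11175.Sh
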