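import Mathlib
import Pool.Agent.V11175.Sh9

/-!
# Identities between words
-/

set_option autoImplicit false
set_option linter.dupNamespace false
set_option linter.unusedSectionVars false

namespace Pool.Agent.V11175.Sh

open List Finset

namespace H

open Sh MvPolynomial

/-- characterisation of `(t_0 ... t_m)²` -/
lemma char_Om (m : ℕ) (B : H R)
    (hB : B ∈ PBW.Md (fun a => (th m a : H R)) m (m + 1) (2 * ((m + 1 : ℕ) : ℤ)))
    (h : e0 (ei B) = (-1 : R) ^ (m + 1) • D (S (G (Om m)))) : B = Om (m + 1) := by
  obtain ⟨c, hc⟩ := PBW.Md_top (t := fun a => (th m a : H R)) (N := m) (m + 1) _ hB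
  rw [top_eq_tau] at hc
  rw [hc, map_zsmul, map_zsmul, e0_ei_tau, (Om_eq_tau m).1] at h
  have hne : (-1 : R) ^ (m + 1) • D (S (G (tau m : H R))) ≠ 0 := by
    intro h
    apply (Om_eq_tau m).2
    apply inj_DSG (nat_tau m)
    have h' := congrArg (fun z => (-1 : R) ^ (m + 1) • z) h
    simp only [smul_smul, ← mul_pow, smul_zero] at h'
    simpa using h'
  set z : H R := D (S (G (tau m : H R))) with hz
  have h2 : (c - 1) • ((-1 : R) ^ (m + 1) • z) = 0 := by rw [sub_smul, one_smul, h, sub_self]
  have hc1 : c - 1 = 0 := by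
    by_contra hcne
    apply hne
    refine Sh.ext' fun l => ?_
    have h3 : ap ((c - 1) • ((-1 : R) ^ (m + 1) • z)) l = 0 := by rw [h2]; rfl
    have h4 : ap ((c - 1) • ((-1 : R) ^ (m + 1) • z)) l = ((c - 1 : ℤ) : R) * ap ((-1 : R) ^ (m + 1) • z) l := by
      rw [← Sh.smul_apply, Int.cast_smul_eq_zsmul]
    rw [h4] at h3
    exact (mul_eq_zero.1 h3).resolve_left (by exact_mod_cast hcne)
  have : c = 1 := by omega
  rw [hc, this, one_smul, (Om_eq_tau (m + 1)).1]

lemma D_rho_mem (m : ℕ) (r : ℤ) (x : H R)
    (hx : x ∈ PBW.Md (fun a => (th (m + 1) a : H R)) (m + 1) (m + 2) r) :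
    x * D (rho (m + 1)) ∈ PBW.Md (fun a => (th (m + 1) a : H R)) (m + 1) (m + 2) (r + (m + 1 : ℕ)) := by
  have e : D (rho (m + 1) : H R) =
      ((List.range (m + 1)).map (fun a => (th (m + 1) (a + 1) - th (m + 1) a : H R))).prod := by
    rw [rho_eq, map_list_prod, List.map_map]
    congr 1
    apply List.map_congr_left
    intro a ha
    rw [List.mem_range] at ha
    exact D_th m a (by omega)
  rw [e]
  have key : ∀ (L : List ℕ), (∀ a ∈ L, a < m + 1) → ∀ (r : ℤ) (x : H R),
      x ∈ PBW.Md (fun a => (th (m + 1) a : H R)) (m + 1) (m + 2) r →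
      x * (L.map (fun a => (th (m + 1) (a + 1) - th (m + 1) a : H R))).prod ∈
        PBW.Md (fun a => (th (m + 1) a : H R)) (m + 1) (m + 2) (r + L.length) := by
    intro L
    induction L with
    | nil => intro _ r x hx; simpa using hx
    | cons a L ih =>
      intro hL r x hx
      have ha := hL a (by simp)
      rw [List.map_cons, List.prod_cons, ← mul_assoc, List.length_cons]
      push_cast
      rw [show r + ((L.length : ℤ) + 1) = r + 1 + L.length by ring]
      apply ih (fun b hb => hL b (by simp [hb]))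
      rw [mul_sub]
      exact sub_mem (PBW.mul_mem (rel (K := R) (m + 1)) hx (a + 1) (by omega))
        (PBW.mul_mem (rel (K := R) (m + 1)) hx a (by omega))
  have := key (List.range (m + 1)) (by intro a ha; simpa using ha) r x hx
  simpa using this

/-- `(t_0 ... t_m)² = D((t_0 ... t_{m-1})²) t_m²` -/
theorem Om_succ (m : ℕ) : (Om (m + 1) : H R) = D (Om m) * (th m m * th m m) := by
  induction m with
  | zero => simp [Om, rho]
  | succ m ih =>
    symm
    apply char_Om
    · have h1 := D_rho_mem m _ _ (D_rho_mem m 0 1 (PBW.one_mem_Md _))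
      rw [one_mul, ← map_mul] at h1
      have h2 := PBW.mul_mem (rel (K := R) (m + 1)) (PBW.mul_mem (rel (K := R) (m + 1)) h1 (m + 1) le_rfl) (m + 1) le_rfl
      rw [mul_assoc] at h2
      have hdeg : (0 + ((m + 1 : ℕ) : ℤ) + ((m + 1 : ℕ) : ℤ) + 1 + 1) = 2 * ((m + 1 + 1 : ℕ) : ℤ) := by
        push_cast; ring
      rw [hdeg] at h2
      exact h2
    · set t : H R := th (m + 1) (m + 1) with ht
      have ht' : t = S (th m m) := by rw [S_th]
      have e1 : ei (D (Om (m + 1)) * (t * t)) = D (ei (Om (m + 1)) * (t * t)) - Sm (D (Om (m + 1))) * G t := by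
        rw [ei_mul, ei_D, ei_sq, map_mul D (ei (Om (m + 1)))]
        noncomm_ring
      have e2 : e0 (Sm (D (Om (m + 1))) * G t) = 0 := by
        rw [e0_mul, e0_Sm, e0_G, ht, e0_th _ _ (by omega)]
        simp
      have e3 : e0 (ei (Om (m + 1)) * (t * t)) = e0 (ei (Om (m + 1))) * G (t * t) := by
        rw [e0_mul, ht, e0_sq' (m + 1) (by omega)]
        simp
      rw [e1, map_sub, e2, sub_zero, e0_D, e3, e0_ei_Om, ih, ht']
      rw [smul_mul_assoc, map_smul, pow_succ _ (m + 1), mul_neg_one, neg_smul]
      congr 2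
      simp only [map_mul, DS, DG, GS]

lemma sq1 (m : ℕ) : (th (m + 1) m * (th (m + 1) m * th (m + 1) (m + 1)) : H R) =
    th (m + 1) m * (th (m + 1) (m + 1) * th (m + 1) (m + 1)) := by
  have h := (rel (K := R) (m + 1)).n m (by omega)
  have h2 := (rel (K := R) (m + 1)).cube m (by omega)
  rw [h, mul_add, h2, zero_add]

/-- evaluation at zero -/
theorem e0_Om_mul (m : ℕ) : (e0 (Om (m + 1)) * th (m + 1) (m + 1) : H R) = S (Om (m + 1)) := by
  induction m with
  | zero =>
    have h : (Om 1 : H R) = th 0 0 * th 0 0 := by simp [Om, rho]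
    rw [zero_add, h, e0_sq, map_mul, S_th]
  | succ m ih =>
    have h1 : e0 (Om (m + 1 + 1) : H R) = - (D (e0 (Om (m + 1))) * (th (m + 2) (m + 1) * th (m + 2) (m + 1))) := by
      rw [Om_succ, e0_mul, e0_sq' (m + 1) (by omega), e0_D, mul_zero, add_zero, map_mul,
        G_th (m + 1) (m + 1) le_rfl, neg_mul]
    have h2 : S (Om (m + 1 + 1) : H R) = D (e0 (Om (m + 1))) * ((th (m + 2) (m + 2) - th (m + 2) (m + 1)) *
        (th (m + 2) (m + 2) * th (m + 2) (m + 2))) := by
      rw [Om_succ, map_mul, map_mul, S_th, ← DS, ← ih, map_mul, D_th (m + 1) (m + 1) le_rfl]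
      noncomm_ring
    have h3 := sq1 (m + 1)
    have h4 := (rel (K := R) (m + 2)).cube (m + 2) le_rfl
    rw [h1, h2]
    calc (-(D (e0 (Om (m + 1))) * (th (m + 2) (m + 1) * th (m + 2) (m + 1))) * th (m + 1 + 1) (m + 1 + 1) : H R)
        = -(D (e0 (Om (m + 1))) * (th (m + 1 + 1) (m + 1) * (th (m + 1 + 1) (m + 1) * th (m + 1 + 1) (m + 1 + 1)))) := by
          noncomm_ring
      _ = _ := by
          rw [h3, sub_mul, h4]; noncomm_ring

/-- the elements killed by evaluation at zero -/
noncomputable def NS : AddSubgroup (H R) where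
  carrier := {u | e0 u = 0 ∧ Nat' u}
  add_mem' := by
    rintro a b ⟨ha, ha'⟩ ⟨hb, hb'⟩
    exact ⟨by rw [map_add, ha, hb, add_zero], ha'.add hb'⟩
  zero_mem' := ⟨map_zero _, nat_zero⟩
  neg_mem' := by
    rintro a ⟨ha, ha'⟩
    exact ⟨by rw [map_neg, ha, neg_zero], ha'.neg⟩

lemma Md_le_NS (m d : ℕ) (hd : d ≤ m) : ∀ r : ℤ, PBW.Md (fun a => (th m a : H R)) m d r ≤ NS := by
  induction d with
  | zero =>
    intro r
    rw [PBW.Md]
    split_ifs
    · rw [AddSubgroup.zmultiples_le]
      exact ⟨e0_one, nat_one⟩
    · exact bot_le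
  | succ d ih =>
    intro r x hx
    obtain ⟨u0, h0, u1, h1, u2, h2, rfl⟩ := PBW.mem_Md_succ.1 hx
    have h0 := ih (by omega) _ h0
    have h1 := ih (by omega) _ h1
    have h2 := ih (by omega) _ h2
    have hmul : ∀ u : H R, u ∈ NS → u * th m (m - d) ∈ NS := by
      intro u hu
      refine ⟨?_, hu.2.mul (nat_th _ _)⟩
      rw [e0_mul, hu.1, e0_th _ _ (by omega)]; simp
    refine add_mem h0 (add_mem (hmul _ h1) ?_)
    rw [← mul_assoc]
    exact hmul _ (hmul _ h2)

/-- an element of the span of the words of length `2 m + 1` in `t_0, ..., t_m` which vanishes at zero is zero -/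
theorem U0 (m : ℕ) (F : H R) (hF : F ∈ PBW.Md (fun a => (th m a : H R)) m (m + 1) (2 * (m : ℤ) + 1))
    (h : e0 F = 0) : F = 0 := by
  obtain ⟨u0, h0, u1, h1, u2, h2, rfl⟩ := PBW.mem_Md_succ.1 hF
  rw [PBW.Md_eq_bot m _ (by omega), AddSubgroup.mem_bot] at h0
  have k1 := Md_le_NS m m le_rfl _ h1
  have k2 := Md_le_NS m m le_rfl _ h2
  simp only [Nat.sub_self] at h ⊢
  have e : D u1 + D u2 * S (th m 0) = 0 := by
    rw [h0, zero_add, map_add, e0_mul, e0_mul u2, k1.1, k2.1, e0_th0, e0_sq] at h
    simpa using h
  have e' : Gm (D u2) = 0 := by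
    have := congrArg e1 e
    rw [map_add, e1_mul, e1_D, e1_D, e1_S, e1_th, map_zero] at this
    simpa using this
  have hu2 : u2 = 0 := inj_D k2.2 (inj_Gm (nat_D k2.2) e')
  have hu1 : u1 = 0 := by
    rw [hu2] at e
    exact inj_D k1.2 (by simpa using e)
  rw [h0, hu1, hu2]; simp

/-- `t_0 (t_1 ... t_m)² = (t_0 ... t_{m-1})² t_m` -/
theorem shift (m : ℕ) : (th m 0 * S (Om m) : H R) = G (Om m) * th m m := by
  cases m with
  | zero => simp [Om, rho]
  | succ m =>
    rw [← sub_eq_zero]
    apply U0 (m + 1)
    · apply sub_mem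
      · have e : S (rho (m + 1) : H R) = (((List.range (m + 1)).map (fun a => a + 1)).map (fun a => th (m + 1) a)).prod := by
          rw [rho_eq, map_list_prod, List.map_map, List.map_map]
          congr 1
          apply List.map_congr_left
          intro a _
          exact S_th m a
        have h := PBW.mul_prod_mem (rel (K := R) (m + 1)) ((List.range (m + 1)).map (fun a => a + 1) ++
          (List.range (m + 1)).map (fun a => a + 1)) (by
            intro a ha
            simp only [List.mem_append, List.mem_map, List.mem_range, or_self] at ha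
            omega) _ _ (PBW.mul_mem (rel (K := R) (m + 1)) (PBW.one_mem_Md _) 0 (by omega))
        rw [one_mul, List.map_append, List.prod_append, ← e, ← map_mul] at h
        have hdeg : (0 + 1 + ((((List.range (m + 1)).map (fun a => a + 1) ++
            (List.range (m + 1)).map (fun a => a + 1)).length : ℕ) : ℤ)) = 2 * ((m + 1 : ℕ) : ℤ) + 1 := by
          simp only [List.length_append, List.length_map, List.length_range]
          push_cast
          ring
        rw [hdeg] at h
        exact h
      · have e : G (rho (m + 1) : H R) = ((List.range (m + 1)).map (fun a => th (m + 1) a)).prod := by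
          rw [rho_eq, map_list_prod, List.map_map]
          congr 1
          apply List.map_congr_left
          intro a ha
          rw [List.mem_range] at ha
          exact G_th m a (by omega)
        have h := PBW.mul_prod_mem (rel (K := R) (m + 1)) (List.range (m + 1) ++ List.range (m + 1)) (by
            intro a ha
            simp only [List.mem_append, List.mem_range, or_self] at ha
            omega) _ _ (PBW.one_mem_Md _)
        rw [one_mul, List.map_append, List.prod_append, ← e, ← map_mul] at h
        have h' := PBW.mul_mem (rel (K := R) (m + 1)) h (m + 1) le_rfl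
        have hdeg : (0 + (((List.range (m + 1) ++ List.range (m + 1)).length : ℕ) : ℤ) + 1) =
            2 * ((m + 1 : ℕ) : ℤ) + 1 := by
          simp only [List.length_append, List.length_range]
          push_cast
          ring
        rw [hdeg] at h'
        exact h'
    · rw [map_sub, e0_mul, e0_mul (G _), e0_th0, e0_S, e0_th _ _ (by omega), e0_G, mul_zero, mul_zero, add_zero,
        add_zero, one_mul, ← map_mul, e0_Om_mul, GS, sub_self]

/-- restriction to affine points -/
noncomputable def res : H R →+* A R where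
  toFun a := fun c => ap a (c.map (fun x => (x, 1)))
  map_one' := by
    refine Sh.ext' fun l => ?_
    cases l with
    | nil => rfl
    | cons x l => rfl
  map_mul' a b := by
    refine Sh.ext' fun l => ?_
    exact mulF_nat (fa (K := R)) (RingHom.id R) (fun x => ((x, 1) : R × R)) fh
      (fun x y => by simp [fh, fa]) l _ _ (ap a) (ap b) (fun l => rfl) (fun l => rfl)
  map_zero' := rfl
  map_add' a b := rfl

lemma res_apply (a : H R) (c : List R) : ap (res a) c = ap a (c.map (fun x => (x, 1))) := rfl

lemma res_th (N a : ℕ) : res (th N a) = A.tt a := by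
  refine Sh.ext' fun l => ?_
  rw [res_apply]
  unfold th A.tt
  match l with
  | [] => rfl
  | [x] => rw [List.map_cons, List.map_nil, t_single, t_single]; simp
  | x :: y :: l => rfl

lemma res_D (a : H R) : res (D a) = A.D (res a) := by
  refine Sh.ext' fun l => ?_
  rw [res_apply, D, A.D, M_apply, M_apply, res_apply, List.map_map]; rfl

lemma res_S (a : H R) : res (S a) = A.S (res a) := by
  refine Sh.ext' fun l => ?_
  rw [res_apply, S, A.S, M_apply, M_apply, res_apply, List.map_map]; rfl

lemma res_G (a : H R) : res (G a) = res a := by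
  refine Sh.ext' fun l => ?_
  rw [res_apply, G, M_apply, res_apply, List.map_map]
  have : ((fun x : R × R => x.2) ∘ fun x : R => (x, (1 : R))) = fun _ => 1 := rfl
  rw [this]; simp

lemma res_rho (m : ℕ) : res (rho m) = A.run 0 m := by
  induction m with
  | zero => exact map_one _
  | succ m ih => rw [rho, map_mul, res_G, ih, res_th, A.run_succ', zero_add]

end H

namespace A

open Sh MvPolynomial

/-- `t_{a+m-1}² ... t_a²` -/
noncomputable def tA : ℕ → ℕ → A R
  | _, 0 => 1
  | a, m + 1 => tA (a + 1) m * (tt a * tt a)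

lemma S_tA (a m : ℕ) : S (tA a m) = tA (a + 1) m := by
  induction m generalizing a with
  | zero => exact map_one _
  | succ m ih => rw [tA, map_mul, ih, map_mul, S_tt]; rfl

lemma DS (x : A R) : D (S x) = S (D x) := M_comm _ _ x

lemma res_tau (m : ℕ) : H.res (H.tau m) = tA 0 m := by
  induction m with
  | zero => exact map_one _
  | succ m ih => rw [H.tau, map_mul, H.res_S, ih, map_mul, H.res_th, S_tA]; rfl

/-- `(t_a ... t_{a+m-1})² = t_{a+m-1}² ... t_a²` -/
theorem run_sq (a m : ℕ) : (run a m * run a m : A R) = tA a m := by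
  induction a with
  | zero =>
    rw [← H.res_rho, ← map_mul, ← res_tau]
    congr 1
    exact (H.Om_eq_tau m).1
  | succ a ih => rw [← S_run, ← map_mul, ih, S_tA]

theorem run_sq_succ (a m : ℕ) : (run a (m + 1) * run a (m + 1) : A R) =
    D (run a m * run a m) * (tt (a + m) * tt (a + m)) := by
  induction a with
  | zero =>
    have h := congrArg H.res (H.Om_succ m)
    rw [H.Om, H.Om, map_mul H.res, map_mul H.res, H.res_D, map_mul H.res, map_mul H.res, H.res_rho,
      H.res_rho, H.res_th] at h
    rw [zero_add]; exact h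
  | succ a ih =>
    rw [← S_run, ← map_mul, ih, map_mul S, map_mul S, ← DS, map_mul S, S_run, S_tt,
      show a + m + 1 = a + 1 + m by ring]

theorem tt_run_sq (a m : ℕ) : (tt a * (run (a + 1) m * run (a + 1) m) : A R) =
    run a m * run a m * tt (a + m) := by
  induction a with
  | zero =>
    have h := congrArg H.res (H.shift m)
    rw [H.Om, map_mul H.res, map_mul H.res, H.res_S, H.res_G, map_mul H.res, H.res_rho, H.res_th, H.res_th,
      map_mul S, S_run] at h
    rw [zero_add, zero_add]; exact h
  | succ a ih =>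
    have h := congrArg S ih
    rw [map_mul S, map_mul S, map_mul S, map_mul S, S_run, S_run, S_tt, S_tt] at h
    rw [show a + 1 + m = a + m + 1 by ring]; exact h

end A

end Pool.Agent.V11175.Sh
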