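import Mathlib
import Pool.Agent.V11175.Sh5

/-!
# Monotone triangles as arrays
-/

set_option autoImplicit false
set_option linter.dupNamespace false
set_option linter.unusedSectionVars false

namespace Pool.Agent.V11175.MT

open Finset

/-- `a` is a monotone triangle with `n` rows and bottom row `k`.  Row `r` (`1 ≤ r ≤ n`) consists of the entries
`a r 0, ..., a r (r - 1)`; outside the triangle the array is zero (so that arrays correspond to triangles). -/
structure IsMonotoneTriangle (n : ℕ) (k : Fin n → ℤ) (a : ℕ → ℕ → ℤ) : Prop where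
  outside : ∀ r j, ¬ (j < r ∧ r ≤ n) → a r j = 0
  strict : ∀ r j, r ≤ n → j + 1 < r → a r j < a r (j + 1)
  interlace : ∀ r j, r + 1 ≤ n → j < r → a (r + 1) j ≤ a r j ∧ a r j ≤ a (r + 1) (j + 1)
  bottom : ∀ j : Fin n, a n j = k j

/-- the number of monotone triangles with bottom row `k` -/
noncomputable def numMT (n : ℕ) (k : Fin n → ℤ) : ℕ := Nat.card {a : ℕ → ℕ → ℤ // IsMonotoneTriangle n k a}

/-- `P` is the monotone triangle polynomial `α(n; k_1, ..., k_n)`: its value at every strictly increasing integer
tuple is the number of monotone triangles with this bottom row. -/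
def IsAlpha (n : ℕ) (P : MvPolynomial (Fin n) ℚ) : Prop :=
  ∀ k : Fin n → ℤ, StrictMono k → MvPolynomial.eval (fun i => (k i : ℚ)) P = (numMT n k : ℚ)

/-- the possible rows above the row `k` -/
noncomputable def F {n : ℕ} (k : Fin (n + 1) → ℤ) : Finset (Fin n → ℤ) :=
  (Finset.Icc (fun j : Fin n => k j.castSucc) (fun j => k j.succ)).filter StrictMono

/-- removing the bottom row -/
noncomputable def equivRow {n : ℕ} (k : Fin (n + 1) → ℤ) (hk : StrictMono k) :
    {a : ℕ → ℕ → ℤ // IsMonotoneTriangle (n + 1) k a} ≃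
      Σ l : {l // l ∈ F k}, {a : ℕ → ℕ → ℤ // IsMonotoneTriangle n l.1 a} where
  toFun a := ⟨⟨fun j => a.1 n j, by
      rw [F, Finset.mem_filter, Finset.mem_Icc]
      refine ⟨⟨fun j => ?_, fun j => ?_⟩, ?_⟩
      · have h1 := (a.2.interlace n j le_rfl j.2).1
        have h2 := a.2.bottom j.castSucc
        rw [Fin.val_castSucc] at h2
        rw [h2] at h1; exact h1
      · have h1 := (a.2.interlace n j le_rfl j.2).2
        have h2 := a.2.bottom j.succ
        rw [Fin.val_succ] at h2
        rw [h2] at h1; exact h1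
      · intro i j hij
        have key : ∀ m : ℕ, i.val + (m + 1) < n → a.1 n i.val < a.1 n (i.val + (m + 1)) := by
          intro m
          induction m with
          | zero => intro h; exact a.2.strict n i.val (by omega) h
          | succ m ih =>
            intro h
            exact (ih (by omega)).trans (a.2.strict n _ (by omega) (by omega))
        have h := key (j.val - i.val - 1) (by have := j.2; rw [Fin.lt_def] at hij; omega)
        rw [Fin.lt_def] at hij
        rw [show i.val + (j.val - i.val - 1 + 1) = j.val by omega] at h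
        exact h⟩,
    ⟨fun r j => if r ≤ n then a.1 r j else 0, {
      outside := fun r j h => by
        by_cases hr : r ≤ n
        · rw [if_pos hr]; exact a.2.outside r j (by omega)
        · rw [if_neg hr]
      strict := fun r j hr hj => by
        rw [if_pos hr, if_pos hr]; exact a.2.strict r j (by omega) hj
      interlace := fun r j hr hj => by
        rw [if_pos hr, if_pos (by omega), if_pos hr]; exact a.2.interlace r j (by omega) hj
      bottom := fun j => by rw [if_pos le_rfl] }⟩⟩
  invFun p := ⟨fun r j => if h : j < n + 1 ∧ r = n + 1 then k ⟨j, h.1⟩ else p.2.1 r j, {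
      outside := fun r j h => by
        rw [dif_neg (by omega)]
        exact p.2.2.outside r j (by omega)
      strict := fun r j hr hj => by
        by_cases h : r = n + 1
        · rw [dif_pos (by omega), dif_pos (by omega)]
          exact hk (by rw [Fin.lt_def]; simp)
        · rw [dif_neg (by omega), dif_neg (by omega)]
          exact p.2.2.strict r j (by omega) hj
      interlace := fun r j hr hj => by
        by_cases h : r = n
        · subst h
          have hl0 := Finset.mem_filter.1 p.1.2
          have hl := Finset.mem_Icc.1 hl0.1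
          rw [dif_pos (by omega), dif_neg (by omega), dif_pos (by omega)]
          have hb := p.2.2.bottom ⟨j, hj⟩
          simp only at hb
          rw [hb]
          exact ⟨hl.1 ⟨j, hj⟩, hl.2 ⟨j, hj⟩⟩
        · rw [dif_neg (by omega), dif_neg (by omega), dif_neg (by omega)]
          exact p.2.2.interlace r j (by omega) hj
      bottom := fun j => by
        rw [dif_pos ⟨j.2, rfl⟩] }⟩
  left_inv a := by
    apply Subtype.ext
    funext r j
    simp only
    split_ifs with h1 h2
    · obtain ⟨h1, rfl⟩ := h1
      exact (a.2.bottom ⟨j, h1⟩).symm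
    · rfl
    · exact (a.2.outside r j (by omega)).symm
  right_inv p := by
    obtain ⟨⟨l, hl⟩, ⟨a, ha⟩⟩ := p
    have e1 : (fun j : Fin n => if h : (j : ℕ) < n + 1 ∧ n = n + 1 then k ⟨j, h.1⟩ else a n j) = l := by
      funext j
      rw [dif_neg (by omega)]
      exact ha.bottom j
    have e2 : (fun r j => if r ≤ n then (if h : j < n + 1 ∧ r = n + 1 then k ⟨j, h.1⟩ else a r j) else 0) = a := by
      funext r j
      by_cases hr : r ≤ n
      · rw [if_pos hr, dif_neg (by omega)]
      · rw [if_neg hr]; exact (ha.outside r j (by omega)).symm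
    simp only
    refine Sigma.ext (Subtype.ext e1) ?_
    simp only
    have : ∀ (l' : Fin n → ℤ) (_ : l' = l) (a' : {a // IsMonotoneTriangle n l' a}), a'.1 = a →
        HEq a' (⟨a, ha⟩ : {a // IsMonotoneTriangle n l a}) := by
      rintro l' rfl a' h
      apply heq_of_eq
      exact Subtype.ext h
    exact this _ e1 _ e2

lemma finite_and_card (n : ℕ) : ∀ k : Fin n → ℤ, StrictMono k →
    Finite {a : ℕ → ℕ → ℤ // IsMonotoneTriangle n k a} ∧ numMT n k = Sh.mt n k := by
  induction n with
  | zero =>
    intro k _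
    have hu : ∀ a b : {a : ℕ → ℕ → ℤ // IsMonotoneTriangle 0 k a}, a = b := by
      intro a b
      apply Subtype.ext
      funext r j
      rw [a.2.outside r j (by omega), b.2.outside r j (by omega)]
    have hne : Nonempty {a : ℕ → ℕ → ℤ // IsMonotoneTriangle 0 k a} := by
      refine ⟨⟨fun _ _ => 0, ⟨fun _ _ _ => rfl, fun r j h1 h2 => by omega, fun r j h1 h2 => by omega,
        fun j => j.elim0⟩⟩⟩
    have : Subsingleton {a : ℕ → ℕ → ℤ // IsMonotoneTriangle 0 k a} := ⟨hu⟩
    refine ⟨inferInstance, ?_⟩
    rw [numMT, Sh.mt]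
    exact Nat.card_unique
  | succ n ih =>
    intro k hk
    have e := equivRow k hk
    have hF : ∀ l : {l // l ∈ F k}, StrictMono l.1 := fun l => (Finset.mem_filter.1 l.2).2
    have hfin : ∀ l : {l // l ∈ F k}, Finite {a : ℕ → ℕ → ℤ // IsMonotoneTriangle n l.1 a} :=
      fun l => (ih l.1 (hF l)).1
    refine ⟨Finite.of_equiv _ e.symm, ?_⟩
    rw [numMT, Nat.card_congr e, Nat.card_sigma, Sh.mt]
    have h1 : ∀ l : {l // l ∈ F k}, Nat.card {a : ℕ → ℕ → ℤ // IsMonotoneTriangle n l.1 a} = Sh.mt n l.1 :=
      fun l => (ih l.1 (hF l)).2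
    rw [Finset.sum_congr rfl fun l _ => h1 l]
    exact Finset.sum_coe_sort (F k) (fun l => Sh.mt n l)

lemma numMT_eq {n : ℕ} (k : Fin n → ℤ) (hk : StrictMono k) : numMT n k = Sh.mt n k := (finite_and_card n k hk).2

lemma isAlpha_iff {n : ℕ} (P : MvPolynomial (Fin n) ℚ) : IsAlpha n P ↔ Sh.A.IsMT n P := by
  constructor
  · intro h k hk; rw [h k hk, numMT_eq k hk]
  · intro h k hk; rw [h k hk, numMT_eq k hk]

/-- the monotone triangle polynomial exists and is unique -/
theorem existsUnique (n : ℕ) : ∃! P : MvPolynomial (Fin n) ℚ, IsAlpha n P := by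
  obtain ⟨P, hP⟩ := Sh.A.exists_IsMT n
  refine ⟨P, (isAlpha_iff P).2 hP, fun Q hQ => ?_⟩
  exact Sh.A.unique_IsMT Q P ((isAlpha_iff Q).1 hQ) hP

theorem eval_eq {n : ℕ} {P : MvPolynomial (Fin n) ℚ} (hP : IsAlpha n P) (k : Fin n → ℕ) :
    MvPolynomial.eval (fun i => (k i : ℚ)) P = Sh.A.alpha k :=
  Sh.A.alpha_unique P ((isAlpha_iff P).1 hP) k

theorem alpha_eq_num {n : ℕ} (k : Fin n → ℕ) (hk : StrictMono k) :
    Sh.A.alpha k = (numMT n (fun i => (k i : ℤ)) : ℚ) := by
  rw [Sh.A.alpha_eq_mt k hk, numMT_eq]
  intro i j hij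
  have := hk hij
  simp only
  exact_mod_cast this

end Pool.Agent.V11175.MT
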