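import Mathlib
import Pool.Agent.V11175.Sh6
import Pool.Agent.V11175.Sh10

/-!
# Evaluation of two-run words
-/

set_option autoImplicit false
set_option linter.dupNamespace false
set_option linter.unusedSectionVars false

namespace Pool.Agent.V11175.Sh

open List Finset

namespace A

open Sh MvPolynomial

lemma sg_run (a m : ℕ) : sg (run a m : A R) = (-1 : R) ^ m • run a m := by
  induction m generalizing a with
  | zero => simp [run_zero]
  | succ m ih => rw [run_succ, map_mul, ih, sg_tt, mul_smul_comm, neg_mul, pow_succ, mul_neg_one, neg_smul,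
      smul_neg]

lemma sg_sq (a m : ℕ) : sg (run a m * run a m : A R) = run a m * run a m := by
  rw [map_mul, sg_run, smul_mul_assoc, mul_smul_comm, smul_smul, ← mul_pow]
  simp

lemma sg_D (x : A R) : sg (D x) = D (sg x) := M_comm _ _ x

/-- the derivative of a two-run word -/
theorem d_run_run (a m p : ℕ) : d (run a (m + 1) * run a (m + 1 + p) : A R) = D (run a m * run a (m + 1 + p)) := by
  have e1 : (run a (m + 1) * run a (m + 1 + p) : A R) =
      D (run a m * run a m) * (tt (a + m) * run (a + m) (p + 1)) := by
    rw [run_add a (m + 1) p, ← mul_assoc, run_sq_succ, run_succ (a + m) p, mul_assoc, mul_assoc]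
    rfl
  rw [e1, d_mul, d_D, zero_mul, zero_add, sg_D, sg_sq, d_tt_run, ← map_mul, mul_assoc, ← run_add,
    show m + (p + 1) = m + 1 + p by ring]

theorem al_run_run (a b n : ℕ) (h : b ≤ n) : al (b + n) (run a b * run a n) = al n (run a n) := by
  induction b with
  | zero => rw [run_zero, one_mul, zero_add]
  | succ b ih =>
    obtain ⟨p, rfl⟩ : ∃ p, n = b + 1 + p := ⟨n - (b + 1), by omega⟩
    rw [← ih (by omega), show b + 1 + (b + 1 + p) = (b + (b + 1 + p)) + 1 by ring]
    exact al_step _ ((nat_run _ _).mul (nat_run _ _)) (d_run_run a b p)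

/-- moving a doubled block to the left -/
theorem run_mul_sq (a p k : ℕ) : (run a p * (run (a + p) k * run (a + p) k) : A R) =
    run a k * run a k * run (a + k) p := by
  induction p generalizing a with
  | zero => simp [run_zero]
  | succ p ih =>
    rw [run_succ, mul_assoc, show a + (p + 1) = a + 1 + p by ring, ih, ← mul_assoc, tt_run_sq, mul_assoc,
      run_succ (a + k) p, show a + 1 + k = a + k + 1 by ring]

/-- the list `a + m - 1, a + m - 1, ..., a, a` -/
def dbl : ℕ → ℕ → List ℕ
  | _, 0 => []
  | a, m + 1 => dbl (a + 1) m ++ [a, a]

lemma dbl_length (a m : ℕ) : (dbl a m).length = 2 * m := by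
  induction m generalizing a with
  | zero => rfl
  | succ m ih => rw [dbl, List.length_append, ih]; simp; ring

lemma dbl_getElem (a m j : ℕ) (hj : j < (dbl a m).length) : (dbl a m)[j] = a + m - 1 - j / 2 := by
  induction m generalizing a with
  | zero => simp [dbl] at hj
  | succ m ih =>
    have hj' := hj
    rw [dbl_length] at hj'
    simp only [dbl]
    by_cases h : j < 2 * m
    · rw [List.getElem_append_left (by rw [dbl_length]; exact h), ih]
      omega
    · rw [List.getElem_append_right (by rw [dbl_length]; omega)]
      have h2 : j - (dbl (a + 1) m).length = 0 ∨ j - (dbl (a + 1) m).length = 1 := by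
        rw [dbl_length]; omega
      rcases h2 with h2 | h2
      · simp only [h2, List.getElem_cons_zero]
        rw [dbl_length] at h2
        omega
      · simp only [h2, List.getElem_cons_succ, List.getElem_cons_zero]
        rw [dbl_length] at h2
        omega

lemma wordL_dbl (a m : ℕ) : wordL (dbl a m) = tA a m := by
  induction m generalizing a with
  | zero => rfl
  | succ m ih =>
    rw [dbl, wordL_append, ih, tA]
    simp [wordL]

end A

end Pool.Agent.V11175.Sh
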