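import Mathlib
import Pool.Agent.V11175.Sh11

/-!
# The words `(1, ..., c - 2, c, c + 1, c, c + 1, ..., n)`
-/

set_option autoImplicit false
set_option linter.dupNamespace false
set_option linter.unusedSectionVars false

namespace Pool.Agent.V11175.Sh

open List Finset

namespace A

open Sh MvPolynomial

/-- the sum of the words obtained from the run of length `r + M + 1` starting at `a` by omitting one of the letters
`a + 1, ..., a + r` -/
noncomputable def Zr (M : ℕ) : ℕ → ℕ → A R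
  | _, 0 => 0
  | a, r + 1 => tt a * (run (a + 2) (r + M) + Zr M (a + 1) r)

noncomputable def Yr (M a r : ℕ) : A R := (r : ℕ) • run a (r + M + 1) - tt a * Zr M a r

lemma Yr_zero (M a : ℕ) : Yr M a 0 = 0 := by simp [Yr, Zr]

lemma Yr_one (M a : ℕ) : Yr M a 1 = tt (a + 1) * run (a + 1) (M + 1) := by
  have h := N (K := R) a
  rw [Yr, Zr, Zr, one_smul, show 1 + M + 1 = M + 1 + 1 by ring, run_succ a, run_succ (a + 1) M, add_zero,
    zero_add, show a + 1 + 1 = a + 2 by ring, ← mul_assoc, ← mul_assoc, ← mul_assoc, ← sub_mul, h]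
  congr 1
  abel

lemma sq2Z (M a r : ℕ) : (tt a * (tt a * (tt (a + 1) * Zr M (a + 1) r)) : A R) = 0 := by
  cases r with
  | zero => simp [Zr]
  | succ r =>
    rw [Zr]
    have h := sq2 (K := R) a
    calc (tt a * (tt a * (tt (a + 1) * (tt (a + 1) * (run (a + 1 + 2) (r + M) + Zr M (a + 1 + 1) r)))) : A R)
        = tt a * (tt a * (tt (a + 1) * tt (a + 1))) * (run (a + 1 + 2) (r + M) + Zr M (a + 1 + 1) r) := by
          noncomm_ring
      _ = 0 := by rw [h, zero_mul]

lemma Yr_rec (M a r : ℕ) : Yr M a (r + 2) = (tt a + tt (a + 1)) * Yr M (a + 1) (r + 1) -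
    tt (a + 1) * tt (a + 1) * Yr M (a + 2) r := by
  have hN := N (K := R) a
  have h1 := sq1 (K := R) a
  have h2 := sq2Z M (a + 1) r
  have h3 := cube (K := R) (a + 1)
  set ρ : A R := run (a + 2) (r + M + 1) with hρ
  set q : A R := run (a + 3) (r + M) + Zr M (a + 2) r with hq
  have e1 : Yr M a (r + 2) = (r + 2 : ℕ) • (tt a * (tt (a + 1) * ρ)) - tt a * (tt a * (ρ + tt (a + 1) * q)) := by
    rw [Yr, Zr, show r + 2 + M + 1 = (r + M + 1) + 1 + 1 by ring, run_succ, run_succ, hρ,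
      show r + 1 + M = r + M + 1 by ring, Zr]
  have e2 : Yr M (a + 1) (r + 1) = (r + 1 : ℕ) • (tt (a + 1) * ρ) - tt (a + 1) * (tt (a + 1) * q) := by
    rw [Yr, Zr, show r + 1 + M + 1 = (r + M + 1) + 1 by ring, run_succ, hρ]
  have e3 : Yr M (a + 2) r = (r : ℕ) • ρ - tt (a + 2) * Zr M (a + 2) r := by
    rw [Yr]
  have h2' : (tt (a + 1) * tt (a + 1) * (tt (a + 2) * Zr M (a + 2) r) : A R) = 0 := by
    rw [mul_assoc]; exact h2
  have h4 : (tt (a + 1) * tt (a + 1) * ρ : A R) = tt a * (tt (a + 1) * ρ) - tt a * (tt a * ρ) := by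
    rw [← mul_assoc, ← mul_assoc, hN]; noncomm_ring
  have h5 : (tt a * (tt (a + 1) * (tt (a + 1) * q)) : A R) = tt a * (tt a * (tt (a + 1) * q)) := by
    have : (tt a * (tt (a + 1) * (tt (a + 1) * q)) : A R) = tt a * (tt (a + 1) * tt (a + 1)) * q := by noncomm_ring
    rw [this, ← h1]; noncomm_ring
  have h6 : (tt (a + 1) * (tt (a + 1) * (tt (a + 1) * q)) : A R) = 0 := by
    have : (tt (a + 1) * (tt (a + 1) * (tt (a + 1) * q)) : A R) = tt (a + 1) * (tt (a + 1) * tt (a + 1)) * q := by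
      noncomm_ring
    rw [this, h3, zero_mul]
  rw [e1, e2, e3, mul_sub, mul_sub, h2', add_mul, add_mul, h5, h6, mul_smul_comm, mul_smul_comm, mul_smul_comm,
    ← mul_assoc (tt (a + 1)) (tt (a + 1)) ρ, h4, mul_add, mul_add]
  simp only [add_smul, smul_sub, one_smul, two_smul]
  abel

/-- the word `t_c t_{c+1} t_c t_{c+1} ⋯` -/
noncomputable def Xr (M c : ℕ) : A R := run c 2 * run c (M + 2)

lemma d_Xr (M c : ℕ) : d (Xr M c) = D (tt c * run c (M + 2)) := by
  have h := d_run_run c 1 M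
  rw [run_one, show 1 + 1 + M = M + 2 by ring] at h
  exact h

lemma tt_Xr (M c : ℕ) : tt c * Xr M c = 0 := by
  have e : Xr M c = tt (c + 1) * tt (c + 1) * (tt c * tt c) * run (c + 2) M := by
    rw [Xr, show M + 2 = 2 + M by ring, run_add c 2 M, ← mul_assoc, run_sq]
    simp [tA]
  have h1 := sq1 (K := R) c
  have h2 := C (K := R) c (c + 1)
  have h3 := cube (K := R) c
  have h4 : (tt c * (tt c * (tt (c + 1) * (tt c * tt c))) : A R) =
      tt c * (tt c * (tt c * tt (c + 1)) + tt c * (tt (c + 1) * tt c) + tt (c + 1) * (tt c * tt c)) * tt c * 0 +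
      tt c * (tt c * (tt c * tt (c + 1)) + tt c * (tt (c + 1) * tt c) + tt (c + 1) * (tt c * tt c)) * 0
      + tt c * (tt c * (tt (c + 1) * (tt c * tt c))) := by
    noncomm_ring
  have h5 : (tt c * (tt c * (tt (c + 1) * (tt c * tt c))) : A R) = 0 := by
    have : (tt c * (tt c * (tt (c + 1) * (tt c * tt c))) : A R) =
        tt c * (tt c * (tt c * (tt c * tt (c + 1)) + tt c * (tt (c + 1) * tt c) + tt (c + 1) * (tt c * tt c)))
        - tt c * (tt c * tt c) * (tt c * tt (c + 1)) - tt c * (tt c * tt c) * (tt (c + 1) * tt c) := by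
      noncomm_ring
    rw [this, h2, h3]; simp
  rw [e]
  calc (tt c * (tt (c + 1) * tt (c + 1) * (tt c * tt c) * run (c + 2) M) : A R)
      = tt c * (tt (c + 1) * tt (c + 1)) * (tt c * tt c) * run (c + 2) M := by noncomm_ring
    _ = tt c * (tt c * (tt (c + 1) * (tt c * tt c))) * run (c + 2) M := by rw [← h1]; noncomm_ring
    _ = 0 := by rw [h5, zero_mul]

/-- the word `t_a ⋯ t_{a+r-1} t_{a+r+1} t_{a+r+2} t_{a+r+1} t_{a+r+2} ⋯` -/
noncomputable def Wr (M a r : ℕ) : A R := run a r * Xr M (a + r + 1)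

lemma Wr_succ (M a r : ℕ) : Wr M a (r + 1) = tt a * Wr M (a + 1) r := by
  rw [Wr, Wr, run_succ, mul_assoc, show a + (r + 1) + 1 = a + 1 + r + 1 by ring]

lemma S_Wr (M a r : ℕ) : S (Wr M a r) = Wr M (a + 1) r := by
  rw [Wr, Wr, Xr, Xr, map_mul, map_mul, S_run, S_run, S_run, show a + r + 1 + 1 = a + 1 + r + 1 by ring]

lemma Wr_key (M a r : ℕ) : D (Yr (M + 1) a (r + 2)) + tt a * D (Yr (M + 1) (a + 1) (r + 1)) =
    Wr M (a + 2) r := by
  induction r generalizing a with
  | zero =>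
    rw [Yr_rec, Yr_zero, mul_zero, sub_zero, map_mul, map_add, D_tt, D_tt, Wr, run_zero, one_mul,
      Yr_one, show M + 1 + 1 = M + 2 by ring, show a + 1 + 1 = a + 2 by ring, ← d_Xr]
    have h := d_ttmul (a + 2) (Xr M (a + 2))
    rw [tt_Xr, map_zero] at h
    have hS : S (Xr M (a + 2)) = Xr M (a + 2 + 0 + 1) := by
      rw [Xr, Xr, map_mul, S_run, S_run]
    rw [hS] at h
    rw [eq_comm, sub_eq_zero] at h
    rw [h]
    noncomm_ring
  | succ r ih =>
    have h := ih (a + 1)
    rw [Wr_succ, show a + 2 + 1 = a + 1 + 2 by ring, ← h, Yr_rec (M + 1) a (r + 1), map_sub, map_mul, map_mul, map_mul,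
      map_add, D_tt, D_tt, D_sq, show a + 1 + 1 = a + 2 by ring]
    noncomm_ring

theorem d_Wr (M a r : ℕ) : d (Wr M a r) = D (Yr (M + 1) a (r + 1)) := by
  induction r generalizing a with
  | zero =>
    rw [Wr, run_zero, one_mul, add_zero, d_Xr, Yr_one]
  | succ r ih =>
    rw [Wr_succ, d_ttmul, ih, S_Wr, ← Wr_key]
    noncomm_ring

lemma Zr_eq (M : ℕ) : ∀ r a : ℕ, Zr M a r =
    ∑ i ∈ Finset.range r, run a (i + 1) * run (a + i + 2) (r + M - (i + 1)) := by
  intro r
  induction r with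
  | zero => intro a; simp [Zr]
  | succ r ih =>
    intro a
    rw [Zr, ih, Finset.sum_range_succ', mul_add, add_comm, Finset.mul_sum, zero_add, run_one]
    congr 1
    · refine Finset.sum_congr rfl fun i _ => ?_
      rw [run_succ a (i + 1), mul_assoc, show a + (i + 1) + 2 = a + 1 + i + 2 by ring,
        show r + 1 + M - (i + 1 + 1) = r + M - (i + 1) by omega]
    · rw [add_zero, show r + 1 + M - 1 = r + M by omega]

/-- the numbers `α(N; a, ..., a + j - 1, a + j + 1, ..., a + N)` -/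
noncomputable def Ur (a N j : ℕ) : ℚ := al N (run a j * run (a + j + 1) (N - j))

lemma al_tt_U (a i m : ℕ) : al (i + m + 1) (tt a * (run a i * run (a + i + 1) m)) =
    ∑ j ∈ Finset.Ico i (i + m + 1), Ur a (i + m) j := by
  rw [al_step (i + m) ((nat_tt a).mul ((nat_run _ _).mul (nat_run _ _))) (d_U a i m), V, Finset.mul_sum, al_sum,
    Finset.sum_Ico_eq_sum_range, show i + m + 1 - i = m + 1 by omega]
  refine Finset.sum_congr rfl fun l hl => ?_
  rw [Finset.mem_range] at hl
  rw [Ur, ← mul_assoc, ← run_add, show a + (i + l) + 1 = a + i + l + 1 by ring,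
    show i + m - (i + l) = m + 1 - 1 - l by omega]

lemma al_nsmul (m r : ℕ) (w : A R) : al m (r • w) = (r : ℚ) * al m w := by
  induction r with
  | zero => simp [al_zero]
  | succ r ih => rw [succ_nsmul, al_add, ih]; push_cast; ring

lemma al_Yr (M a r : ℕ) : al (r + M + 1) (Yr M a r) =
    ∑ i ∈ Finset.range r, ∑ j ∈ Finset.range (i + 1), Ur a (r + M) j := by
  have e0 : al (r + M + 1) (tt a * Zr M a r) = ∑ i ∈ Finset.range r,
      al (r + M + 1) (tt a * (run a (i + 1) * run (a + i + 2) (r + M - (i + 1)))) := by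
    rw [Zr_eq, Finset.mul_sum, al_sum]
  rw [Yr, al_sub, al_nsmul, al_run, e0]
  have h : ∀ i ∈ Finset.range r, al (r + M + 1) (tt a * (run a (i + 1) * run (a + i + 2) (r + M - (i + 1)))) =
      ∑ j ∈ Finset.range (r + M + 1), Ur a (r + M) j - ∑ j ∈ Finset.range (i + 1), Ur a (r + M) j := by
    intro i hi
    rw [Finset.mem_range] at hi
    obtain ⟨m, hm⟩ : ∃ m, r + M = i + 1 + m := ⟨r + M - (i + 1), by omega⟩
    rw [hm, show i + 1 + m - (i + 1) = m by omega, show a + i + 2 = a + (i + 1) + 1 by ring, al_tt_U,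
      Finset.range_eq_Ico, Finset.range_eq_Ico, eq_sub_iff_add_eq, add_comm,
      Finset.sum_Ico_consecutive _ (Nat.zero_le _) (by omega)]
  rw [Finset.sum_congr rfl h, Finset.sum_sub_distrib, Finset.sum_const, Finset.card_range, nsmul_eq_mul]
  have h2 : ∑ i ∈ Finset.range (r + M + 1), al (r + M) (run a i * run (a + i + 1) (r + M - i)) =
      ∑ j ∈ Finset.range (r + M + 1), Ur a (r + M) j := rfl
  rw [h2]
  ring

/-- the value of `α` at `(1, ..., k - 3, k - 1, k, k - 1, k, ..., n)`, `r = k - 3`, `n = r + M + 3` -/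
theorem al_Wr (M a r : ℕ) : al (r + M + 4) (Wr M a r) =
    ∑ i ∈ Finset.range (r + 1), ∑ j ∈ Finset.range (i + 1), Ur a (r + M + 2) j := by
  have hn : Nat' (Wr M a r) := (nat_run _ _).mul ((nat_run _ _).mul (nat_run _ _))
  rw [show r + M + 4 = (r + M + 3) + 1 by ring, al_step _ hn (d_Wr M a r),
    al_congr (show r + M + 3 = r + 1 + (M + 1) + 1 by ring), al_Yr, show r + 1 + (M + 1) = r + M + 2 by ring]

end A

end Pool.Agent.V11175.Sh
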