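import Mathlib
import Pool.Agent.V11175.Sh5

/-!
# Rotation of the monotone triangle polynomial
-/

set_option autoImplicit false
set_option linter.dupNamespace false
set_option linter.unusedSectionVars false

namespace Pool.Agent.V11175.Sh

open List Finset

section FA

variable {P K : Type} [CommRing K]

/-- alternating in all adjacent positions -/
def FA (a : List P → K) : Prop := ∀ l x y l', a (l ++ x :: y :: l') = - a (l ++ y :: x :: l')

lemma FA.ev {a : List P → K} (h : FA a) (x : P) : FA (ev x a) := fun l y z l' => h (x :: l) y z l'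

lemma FA.mo {a : List P → K} (h : FA a) (m : P → K) : FA (mo m a) := by
  intro l x y l'
  simp only [Sh.mo, h l x y l', List.map_append, List.map_cons, List.prod_append, List.prod_cons]
  ring

lemma FA.mulF (f : P → P → K) (l : List P) : ∀ {a b : List P → K}, FA a → FA b → ∀ x y l',
    Sh.mulF f a b (l ++ x :: y :: l') = - Sh.mulF f a b (l ++ y :: x :: l') := by
  induction l with
  | nil =>
    intro a b ha hb x y l'
    have ha' : Sh.Anti (f := f) a := by
      intro x y
      refine Sh.ext' fun l => ?_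
      exact ha [] y x l
    have hb' : Sh.Anti (f := f) b := by
      intro x y
      refine Sh.ext' fun l => ?_
      exact hb [] y x l
    have h := congrArg (fun c : Sh f => Sh.ap c l') (Sh.Anti.mul ha' hb' y x)
    exact h
  | cons z l ih =>
    intro a b ha hb x y l'
    change Sh.mulF f (Sh.ev z a) (Sh.mo (f z) b) (l ++ x :: y :: l') +
      Sh.mulF f (Sh.mo (fun y => -f y z) a) (Sh.ev z b) (l ++ x :: y :: l') =
      - (Sh.mulF f (Sh.ev z a) (Sh.mo (f z) b) (l ++ y :: x :: l') +
      Sh.mulF f (Sh.mo (fun y => -f y z) a) (Sh.ev z b) (l ++ y :: x :: l'))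
    rw [ih (ha.ev z) (hb.mo _), ih (ha.mo _) (hb.ev z)]
    ring

lemma FA.mul {f : P → P → K} {a b : Sh f} (ha : FA (Sh.ap a)) (hb : FA (Sh.ap b)) : FA (Sh.ap (a * b)) :=
  fun l x y l' => FA.mulF f l ha hb x y l'

lemma FA.t (f : P → P → K) (g : P → K) : FA (Sh.ap (Sh.t g : Sh f)) := by
  intro l x y l'
  match l with
  | [] => rw [List.nil_append, List.nil_append, Sh.t_cons2, Sh.t_cons2, neg_zero]
  | [z] =>
    rw [List.singleton_append, List.singleton_append, Sh.t_cons2, Sh.t_cons2, neg_zero]
  | z :: z' :: l =>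
    rw [List.cons_append, List.cons_append, List.cons_append, List.cons_append, Sh.t_cons2, Sh.t_cons2, neg_zero]

lemma FA.one (f : P → P → K) : FA (Sh.ap (1 : Sh f)) := by
  intro l x y l'
  cases l with
  | nil => rw [List.nil_append, List.nil_append, Sh.one_apply_cons, Sh.one_apply_cons, neg_zero]
  | cons z l => rw [List.cons_append, List.cons_append, Sh.one_apply_cons, Sh.one_apply_cons, neg_zero]

lemma FA.move {a : List P → K} (h : FA a) (x : P) (l2 : List P) : ∀ l1 l3,
    a (l1 ++ x :: (l2 ++ l3)) = (-1) ^ l2.length * a (l1 ++ (l2 ++ x :: l3)) := by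
  induction l2 with
  | nil => intro l1 l3; simp
  | cons z l2 ih =>
    intro l1 l3
    have h1 := ih (l1 ++ [z]) l3
    rw [List.append_assoc, List.append_assoc, List.singleton_append, List.singleton_append] at h1
    rw [List.cons_append, h l1 x z, h1, List.length_cons, pow_succ, List.cons_append]
    ring

lemma FA.swap {a : List P → K} (h : FA a) (x y : P) (l1 l2 l3 : List P) :
    a (l1 ++ x :: (l2 ++ y :: l3)) = - a (l1 ++ y :: (l2 ++ x :: l3)) := by
  rw [h.move x l2 l1 (y :: l3), h.move y l2 l1 (x :: l3), ← List.append_assoc, h (l1 ++ l2) x y l3,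
    List.append_assoc]
  ring

/-- the wedge product with a one-point function -/
def T0 : (P → K) → (List P → K) → List P → K
  | _, _, [] => 0
  | h, w, x :: l => h x * w l - T0 h (ev x w) l

lemma T0_eq (h : P → K) (l : List P) : ∀ w : Sh (fun _ _ : P => (1 : K)),
    T0 h (Sh.ap w) l = Sh.ap (Sh.t h * w) l := by
  induction l with
  | nil =>
    intro w
    change (0 : K) = Sh.tF h [] * w []
    simp [Sh.tF]
  | cons x l ih =>
    intro w
    rw [← Sh.E_apply, Sh.E_tmul, Sh.sub_apply, Sh.smul_apply, Sh.M_one', T0]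
    simp only [one_mul]
    rw [← ih]
    rfl

lemma T0_add (h h' : P → K) (l : List P) : ∀ w : List P → K,
    T0 (fun y => h y + h' y) w l = T0 h w l + T0 h' w l := by
  induction l with
  | nil => intro w; simp [T0]
  | cons x l ih => intro w; simp only [T0, ih]; ring

lemma T0_const (c : K) (h : P → K) (l : List P) : ∀ w : List P → K,
    T0 (fun y => c * h y) w l = c * T0 h w l := by
  induction l with
  | nil => intro w; simp [T0]
  | cons x l ih => intro w; simp only [T0, ih]; ring

/-- a letter on the left as a wedge product -/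
lemma left_eq (f : P → P → K) (l : List P) : ∀ (h : P → K) (w : Sh f),
    Sh.ap (Sh.t (fun y => f y y * h y) * w) l =
      T0 (fun y => h y * (l.map (fun z => f y z)).prod) (Sh.ap w) l := by
  induction l with
  | nil =>
    intro h w
    change Sh.tF (fun y => f y y * h y) [] * w [] = _
    simp [T0, Sh.tF]
  | cons x l ih =>
    intro h w
    rw [← Sh.E_apply, Sh.E_tmul, Sh.sub_apply, Sh.smul_apply, Sh.M_apply, T0]
    have e1 : (fun y => f y x * (f y y * h y)) = fun y => f y y * (f y x * h y) := by
      funext y; ring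
    rw [e1, ih]
    have e2 : (fun y => h y * (List.map (fun z => f y z) (x :: l)).prod) =
        fun y => f y x * h y * (List.map (fun z => f y z) l).prod := by
      funext y; rw [List.map_cons, List.prod_cons]; ring
    rw [e2]
    have e3 : Sh.ap (Sh.E x w) = ev x (Sh.ap w) := rfl
    rw [e3]
    simp only [List.map_cons, List.prod_cons]
    ring

lemma prod_neg (g : P → K) (l : List P) : (List.map (fun y => -g y) l).prod =
    (-1) ^ l.length * (List.map g l).prod := by
  induction l with
  | nil => simp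
  | cons z l ih => simp only [List.map_cons, List.prod_cons, List.length_cons, ih]; ring

/-- a letter on the right as a wedge product -/
lemma right_eq (f : P → P → K) (l : List P) : ∀ (h : P → K) (w : Sh f),
    Sh.ap (w * Sh.t (fun y => f y y * h y)) l =
      - (-1) ^ l.length * T0 (fun y => h y * (l.map (fun z => f z y)).prod) (Sh.ap w) l := by
  induction l with
  | nil =>
    intro h w
    change w [] * Sh.tF (fun y => f y y * h y) [] = _
    simp [T0, Sh.tF]
  | cons x l ih =>
    intro h w
    rw [← Sh.E_apply, Sh.E_mul, Sh.add_apply, Sh.M_t, Sh.E_t, mul_smul_comm, mul_one, Sh.smul_apply, Sh.M_apply, T0]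
    have e1 : (fun y => f x y * (f y y * h y)) = fun y => f y y * (f x y * h y) := by
      funext y; ring
    rw [e1, ih]
    have e2 : (fun y => h y * (List.map (fun z => f z y) (x :: l)).prod) =
        fun y => f x y * h y * (List.map (fun z => f z y) l).prod := by
      funext y; rw [List.map_cons, List.prod_cons]; ring
    have e4 : (List.map (fun y => -f y x) l).prod = (-1) ^ l.length * (List.map (fun z => f z x) l).prod :=
      prod_neg (fun z => f z x) l
    rw [e2, e4, List.length_cons]
    have e3 : Sh.ap (Sh.E x w) = ev x (Sh.ap w) := rfl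
    rw [e3]
    simp only [List.map_cons, List.prod_cons]
    ring

end FA

namespace A

open Sh MvPolynomial

/-- a segment of the points -/
noncomputable def seg (a : ℕ) : ℕ → List R
  | 0 => []
  | m + 1 => (1 + X (a + m)) :: seg a m

lemma pts_seg (a m : ℕ) : pts (a + m) = seg a m ++ pts a := by
  induction m with
  | zero => rfl
  | succ m ih => rw [← add_assoc, pts, ih, seg, List.cons_append]

lemma pts_split (i p q : ℕ) : pts (i + 1 + p + 1 + q) =
    seg (i + 1 + p + 1) q ++ (1 + X (i + 1 + p)) :: (seg (i + 1) p ++ (1 + X i) :: pts i) := by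
  rw [pts_seg, pts, pts_seg, pts]

/-- exchange two variables -/
noncomputable def sw (i j : ℕ) : R →ₐ[ℚ] R := rename (Equiv.swap i j)

lemma sw_seg (i j a m : ℕ) (h : ∀ k, a ≤ k → k < a + m → k ≠ i ∧ k ≠ j) : (seg a m).map (sw i j) = seg a m := by
  induction m with
  | zero => rfl
  | succ m ih =>
    rw [seg, List.map_cons, ih (fun k h1 h2 => h k h1 (by omega)), map_add, map_one, sw, rename_X,
      Equiv.swap_apply_of_ne_of_ne (h _ (by omega) (by omega)).1 (h _ (by omega) (by omega)).2]

lemma pts_eq_seg (m : ℕ) : pts m = seg 0 m := by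
  have := pts_seg 0 m
  rw [zero_add] at this
  rw [this]; simp [pts]

lemma sw_pts (i j m : ℕ) (h : ∀ k, k < m → k ≠ i ∧ k ≠ j) : (pts m).map (sw i j) = pts m := by
  rw [pts_eq_seg]
  exact sw_seg i j 0 m (fun k _ h2 => h k (by omega))

lemma coeff_eq_zero_aux (p : A R) (hp : Nat' p) (hF : FA (Sh.ap p)) (i a b : ℕ) (e : ℕ →₀ ℕ)
    (he : e i = e (i + 1 + a)) : coeff e (ap p (pts (i + 1 + a + 1 + b))) = 0 := by
  set j := i + 1 + a with hj
  have h1 := hp (sw i j) (pts (j + 1 + b))
  have h2 : (pts (j + 1 + b)).map (sw i j) =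
      seg (j + 1) b ++ (1 + X i) :: (seg (i + 1) a ++ (1 + X j) :: pts i) := by
    rw [hj, pts_split, List.map_append, List.map_cons, List.map_append, List.map_cons,
      sw_seg _ _ _ _ (fun k h1 h2 => by omega), sw_seg _ _ _ _ (fun k h1 h2 => by omega),
      sw_pts _ _ _ (fun k h1 => by omega), map_add, map_add, map_one, sw, rename_X, rename_X,
      Equiv.swap_apply_left, Equiv.swap_apply_right]
  rw [h2, hF.swap, ← pts_split i a b, ← hj] at h1
  have h3 := congrArg (coeff (Finsupp.mapDomain (Equiv.swap i j) e)) h1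
  rw [sw, coeff_rename_mapDomain _ (Equiv.injective _)] at h3
  have h4 : Finsupp.mapDomain (Equiv.swap i j) e = e := by
    ext k
    rw [Finsupp.mapDomain_equiv_apply]
    by_cases hki : k = i
    · rw [hki]; simp [he]
    · by_cases hkj : k = j
      · rw [hkj]; simp [he]
      · rw [Equiv.symm_swap, Equiv.swap_apply_of_ne_of_ne hki hkj]
  rw [h4, coeff_neg] at h3
  linarith

/-- the exponent vector `ex m` has entries `m - 1 - i` -/
lemma ex_apply (m i : ℕ) : ex m i = m - 1 - i := by
  induction m with
  | zero => simp [ex]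
  | succ m ih =>
    rw [ex, Finsupp.add_apply, ih, ones_apply]
    split_ifs <;> omega

lemma coeff_lt (m : ℕ) (p : A R) (hp : Nat' p) (hF : FA (Sh.ap p)) (e : ℕ →₀ ℕ) (hle : e ≤ ex m)
    (hne : e ≠ ex m) : coeff e (ap p (pts m)) = 0 := by
  have h1 : ∃ i, e i < ex m i := by
    by_contra hcon
    push Not at hcon
    exact hne (le_antisymm hle hcon)
  -- the largest such index
  have h2 : ∃ i, e i < ex m i ∧ ∀ j, i < j → e j = ex m j := by
    have hb : ∀ i, e i < ex m i → i < m := by
      intro i hi
      rw [ex_apply] at hi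
      omega
    obtain ⟨i0, hi0⟩ := h1
    classical
    let s := (Finset.range m).filter (fun i => e i < ex m i)
    have hs : s.Nonempty := ⟨i0, by simp [s, hb i0 hi0, hi0]⟩
    refine ⟨s.max' hs, ?_, ?_⟩
    · have := s.max'_mem hs
      exact (Finset.mem_filter.1 this).2
    · intro j hj
      by_contra hcon
      have hj' : e j < ex m j := lt_of_le_of_ne (hle j) hcon
      have : j ∈ s := by simp [s, hb j hj', hj']
      have := s.le_max' j this
      omega
  obtain ⟨i, hi, hmax⟩ := h2
  rw [ex_apply] at hi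
  -- `j = m - 1 - e i`
  have hj := hmax (m - 1 - e i) (by omega)
  rw [ex_apply] at hj
  have hkey := coeff_eq_zero_aux p hp hF i (m - 1 - e i - (i + 1)) (e i) e (by
    rw [show i + 1 + (m - 1 - e i - (i + 1)) = m - 1 - e i by omega, hj]
    omega)
  rw [show i + 1 + (m - 1 - e i - (i + 1)) + 1 + e i = m by omega] at hkey
  exact hkey

/-- multipliers can be evaluated at the point `(1, ..., 1)` -/
theorem coeff_mul_alt (m : ℕ) (p : A R) (hp : Nat' p) (hF : FA (Sh.ap p)) (c : R) :
    coeff (ex m) (c * ap p (pts m)) = constantCoeff c * al m p := by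
  rw [coeff_mul, Finset.sum_eq_single (0, ex m)]
  · rfl
  · rintro ⟨a, b⟩ hab hne
    rw [Finset.HasAntidiagonal.mem_antidiagonal] at hab
    simp only at hab ⊢
    rw [coeff_lt m p hp hF b, mul_zero]
    · rw [← hab]; exact le_add_self
    · rintro rfl
      apply hne
      have : a = 0 := by simpa using hab
      rw [this]
  · intro h
    exact absurd (Finset.HasAntidiagonal.mem_antidiagonal.2 (zero_add _)) h

/-- the wedge product with the one-point function `y ↦ y ^ k` -/
noncomputable def wd (k : ℕ) (w : A R) : A R := fun l => T0 (fun y => y ^ k) (ap w) l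

lemma wd_apply (k : ℕ) (w : A R) (l : List R) : ap (wd k w) l = T0 (fun y => y ^ k) (ap w) l := rfl

lemma wd_FA (k : ℕ) (w : A R) (hw : FA (ap w)) : FA (ap (wd k w)) := by
  have h : ap (wd k w) = ap ((Sh.t (fun y => y ^ k) : Sh (fun _ _ : R => (1 : R))) *
      (show Sh (fun _ _ : R => (1 : R)) from w)) := by
    funext l
    exact T0_eq (fun y => y ^ k) l (show Sh (fun _ _ : R => (1 : R)) from w)
  rw [h]
  exact FA.mul (f := fun _ _ : R => (1 : R)) (FA.t _ _) hw

lemma wd_nat (k : ℕ) (w : A R) (hw : Nat' w) : Nat' (wd k w) := by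
  intro φ c
  have h : ∀ l, ap (wd k w) l = mulF (fun _ _ => 1) (Sh.tF (fun y => y ^ k)) (ap w) l :=
    fun l => T0_eq (fun y => y ^ k) l (show Sh (fun _ _ : R => (1 : R)) from w)
  rw [h, h]
  refine mulF_nat (fun _ _ => 1) (φ : R →+* R) φ (fun _ _ => 1) (fun x y => by simp) c _ _ _ _
    (fun l => ?_) (fun l => hw φ l)
  exact nat_tt k φ l

lemma coeff_T0 (m : ℕ) (w : A R) (hw : Nat' w) (hF : FA (ap w)) (H : Polynomial R) :
    coeff (ex m) (T0 (fun y => H.eval y) (ap w) (pts m)) =
      (H.map constantCoeff).sum (fun k c => c * al m (wd k w)) := by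
  induction H using Polynomial.induction_on' with
  | add p q hp hq =>
    have e : (fun y => (p + q).eval y) = fun y => p.eval y + q.eval y := by
      funext y; rw [Polynomial.eval_add]
    rw [e, T0_add, coeff_add, hp, hq, Polynomial.map_add, Polynomial.sum_add_index]
    · intro i; simp
    · intro i a b; ring
  | monomial k c =>
    have e : (fun y => (Polynomial.monomial k c).eval y) = fun y => c * y ^ k := by
      funext y; rw [Polynomial.eval_monomial]
    rw [e, T0_const, ← wd_apply, coeff_mul_alt m _ (wd_nat k w hw) (wd_FA k w hF), Polynomial.map_monomial,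
      Polynomial.sum_monomial_index]
    simp

lemma tt_u (k : ℕ) : (Sh.t (fun y => fa y y * y ^ k) : A R) = tt k - tt (k + 1) + tt (k + 2) := by
  unfold tt
  rw [← t_sub, ← t_add]
  congr 1
  funext y
  simp only [fa]
  ring

lemma prod1 (m : ℕ) : (((pts m).map (fun z => (1 - Polynomial.X + Polynomial.X * Polynomial.C z : Polynomial R))).prod).map
    (constantCoeff (σ := ℕ) (R := ℚ)) = 1 := by
  induction m with
  | zero => simp [pts]
  | succ m ih =>
    rw [pts, List.map_cons, List.prod_cons, Polynomial.map_mul, ih]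
    simp

lemma prod2 (m : ℕ) : (((pts m).map (fun z => (1 - Polynomial.C z + Polynomial.C z * Polynomial.X : Polynomial R))).prod).map
    (constantCoeff (σ := ℕ) (R := ℚ)) = Polynomial.X ^ m := by
  induction m with
  | zero => simp [pts]
  | succ m ih =>
    rw [pts, List.map_cons, List.prod_cons, Polynomial.map_mul, ih]
    simp
    ring

theorem rot_u (m k : ℕ) (w : A R) (hw : Nat' w) (hF : FA (ap w)) :
    al m (w * (tt k - tt (k + 1) + tt (k + 2))) =
      - (-1) ^ m * al m ((tt (k + m) - tt (k + m + 1) + tt (k + m + 2)) * w) := by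
  have hlen : (pts m).length = m := by
    clear hw hF
    induction m with
    | zero => rfl
    | succ m ih => rw [pts, List.length_cons, ih]
  rw [← tt_u, ← tt_u, al, al, right_eq, left_eq, hlen]
  have e1 : (fun y => y ^ k * (List.map (fun z => fa z y) (pts m)).prod) =
      fun y : R => Polynomial.eval y (Polynomial.X ^ k * ((pts m).map (fun z =>
        (1 - Polynomial.C z + Polynomial.C z * Polynomial.X : Polynomial R))).prod) := by
    funext y
    rw [Polynomial.eval_mul, Polynomial.eval_pow, Polynomial.eval_X, Polynomial.eval_list_prod, List.map_map]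
    congr 3
    funext z
    simp [fa]
  have e2 : (fun y => y ^ (k + m) * (List.map (fun z => fa y z) (pts m)).prod) =
      fun y : R => Polynomial.eval y (Polynomial.X ^ (k + m) * ((pts m).map (fun z =>
        (1 - Polynomial.X + Polynomial.X * Polynomial.C z : Polynomial R))).prod) := by
    funext y
    rw [Polynomial.eval_mul, Polynomial.eval_pow, Polynomial.eval_X, Polynomial.eval_list_prod, List.map_map]
    congr 3
    funext z
    simp [fa]
    ring
  have e3 : ∀ q : R, coeff (ex m) (-(-1) ^ m * q) = -(-1) ^ m * coeff (ex m) q := by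
    intro q
    have : (-(-1) ^ m * q : R) = MvPolynomial.C (-(-1) ^ m : ℚ) * q := by simp
    rw [this, coeff_C_mul]
  rw [e1, e2, e3, coeff_T0 m w hw hF, coeff_T0 m w hw hF, Polynomial.map_mul, Polynomial.map_mul, prod1, prod2,
    Polynomial.map_pow, Polynomial.map_pow, Polynomial.map_X, mul_one, pow_add]

lemma FA_word {n : ℕ} (k : Fin n → ℕ) : FA (ap (word k : A R)) := by
  induction n with
  | zero => rw [word_zero]; exact FA.one _
  | succ n ih =>
    rw [← Fin.cons_self_tail k, word_cons]
    exact (FA.t _ _).mul (ih _)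

lemma word_snoc {n : ℕ} (k : Fin n → ℕ) (j : ℕ) :
    (word (Fin.snoc k j : Fin (n + 1) → ℕ) : A R) = word k * tt j := by
  rw [word, word, List.ofFn_succ']
  simp

lemma eval_snoc {n : ℕ} (P : MvPolynomial (Fin (n + 1)) ℚ) (k : Fin n → ℕ) (j : ℕ) :
    eval (fun i => ((Fin.snoc k j : Fin (n + 1) → ℕ) i : ℚ)) P =
      (line P (Fin.snoc (fun i => (k i : ℚ)) 0) (Fin.snoc (fun _ => (0 : ℚ)) 1)).eval (j : ℚ) := by
  rw [line_eval]
  congr 2
  funext i
  refine Fin.lastCases ?_ (fun i => ?_) i <;> simp

lemma eval_cons {n : ℕ} (P : MvPolynomial (Fin (n + 1)) ℚ) (k : Fin n → ℕ) (j a : ℕ) :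
    eval (fun i => ((Fin.cons (j + a) k : Fin (n + 1) → ℕ) i : ℚ)) P =
      (line P (Fin.cons (a : ℚ) (fun i => (k i : ℚ))) (Fin.cons (1 : ℚ) (fun _ => (0 : ℚ)))).eval (j : ℚ) := by
  rw [line_eval]
  congr 2
  funext i
  refine Fin.cases ?_ (fun i => ?_) i
  · simp; ring
  · simp

lemma poly_zero (p : Polynomial ℚ) (h : ∀ j : ℕ, p.eval (j : ℚ) - p.eval ((j + 1 : ℕ) : ℚ) + p.eval ((j + 2 : ℕ) : ℚ) = 0)
    (j : ℕ) : p.eval (j : ℚ) = 0 := by
  have h3 : ∀ j : ℕ, p.eval ((j + 3 : ℕ) : ℚ) = - p.eval (j : ℚ) := by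
    intro j
    have h1 := h j
    have h2 := h (j + 1)
    rw [show j + 1 + 1 = j + 2 by ring, show j + 1 + 2 = j + 3 by ring] at h2
    linarith
  have h6 : ∀ i : ℕ, p.eval ((6 * i : ℕ) : ℚ) = p.eval 0 := by
    intro i
    induction i with
    | zero => simp
    | succ i ih =>
      rw [show 6 * (i + 1) = 6 * i + 3 + 3 by ring, h3, h3, ih, neg_neg]
  have hc : p.comp (Polynomial.C 6 * Polynomial.X) = Polynomial.C (p.eval 0) := by
    apply eq_of_large _ _ 0
    intro s _
    rw [Polynomial.eval_comp, Polynomial.eval_C, ← h6 s]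
    simp
  have hconst : ∀ y : ℚ, p.eval y = p.eval 0 := by
    intro y
    have := congrArg (Polynomial.eval (y / 6)) hc
    rw [Polynomial.eval_comp, Polynomial.eval_C] at this
    rw [← this]
    simp only [Polynomial.eval_mul, Polynomial.eval_C, Polynomial.eval_X]
    congr 1
    ring
  have h0 := h 0
  rw [hconst ((0 : ℕ) : ℚ), hconst ((0 + 1 : ℕ) : ℚ), hconst ((0 + 2 : ℕ) : ℚ)] at h0
  rw [hconst]
  linarith

/-- rotation of the monotone triangle polynomial (natural arguments) -/
theorem alpha_rot {n : ℕ} (k : Fin n → ℕ) (j : ℕ) :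
    alpha (Fin.snoc k j : Fin (n + 1) → ℕ) = (-1) ^ n * alpha (Fin.cons (j + (n + 1)) k : Fin (n + 1) → ℕ) := by
  obtain ⟨P, hP⟩ := alpha_poly (n + 1)
  simp only at hP
  set p1 := line P (Fin.snoc (fun i => (k i : ℚ)) 0) (Fin.snoc (fun _ => (0 : ℚ)) 1) with hp1
  set p2 := line P (Fin.cons ((n + 1 : ℕ) : ℚ) (fun i => (k i : ℚ))) (Fin.cons (1 : ℚ) (fun _ => (0 : ℚ))) with hp2
  have h1 : ∀ j : ℕ, p1.eval (j : ℚ) = alpha (Fin.snoc k j : Fin (n + 1) → ℕ) := by
    intro j; rw [hP, eval_snoc]
  have h2 : ∀ j : ℕ, p2.eval (j : ℚ) = alpha (Fin.cons (j + (n + 1)) k : Fin (n + 1) → ℕ) := by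
    intro j; rw [hP, eval_cons]
  have h := poly_zero (p1 - Polynomial.C ((-1) ^ n) * p2) (fun j => by
    simp only [Polynomial.eval_sub, Polynomial.eval_mul, Polynomial.eval_C, h1, h2]
    have hr := rot_u (n + 1) j (word k) (nat_word k) (FA_word k)
    have e : ∀ j : ℕ, alpha (Fin.snoc k j : Fin (n + 1) → ℕ) = al (n + 1) (word k * tt j) := by
      intro j; rw [alpha, word_snoc]
    have e' : ∀ j : ℕ, alpha (Fin.cons (j + (n + 1)) k : Fin (n + 1) → ℕ) = al (n + 1) (tt (j + (n + 1)) * word k) := by
      intro j; rw [alpha, word_cons]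
    rw [e, e, e, e', e', e']
    rw [mul_add, mul_sub, al_add, al_sub, add_mul, sub_mul, al_add, al_sub] at hr
    rw [show j + 1 + (n + 1) = j + (n + 1) + 1 by ring, show j + 2 + (n + 1) = j + (n + 1) + 2 by ring]
    rw [pow_succ] at hr
    linear_combination hr) j
  simp only [Polynomial.eval_sub, Polynomial.eval_mul, Polynomial.eval_C, h1, h2] at h
  linarith

/-- substitution in the monotone triangle polynomial -/
lemma eval_aeval {n : ℕ} (P : MvPolynomial (Fin n) ℚ) (g : Fin n → MvPolynomial (Fin n) ℚ) (y : Fin n → ℚ) :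
    eval y (aeval g P : MvPolynomial (Fin n) ℚ) = eval (fun i => eval y (g i)) P := by
  have h : (eval y).comp (aeval g : MvPolynomial (Fin n) ℚ →ₐ[ℚ] MvPolynomial (Fin n) ℚ).toRingHom =
      eval (fun i => eval y (g i)) := by
    apply MvPolynomial.ringHom_ext
    · intro r; simp
    · intro i; simp
  exact congrArg (fun f : MvPolynomial (Fin n) ℚ →+* ℚ => f P) h

/-- translation invariance -/
theorem eval_shift {n : ℕ} (P : MvPolynomial (Fin n) ℚ) (hP : IsMT n P) (k : Fin n → ℤ) (s : ℤ) :
    eval (fun i => ((k i + s : ℤ) : ℚ)) P = eval (fun i => (k i : ℚ)) P := by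
  have h : aeval (fun i => X i + MvPolynomial.C (s : ℚ)) P = P := by
    apply unique_IsMT _ _ _ hP
    intro k hk
    rw [eval_aeval, ← mt_shift n k s, ← hP (fun i => k i + s) (fun i j hij => by
      have := hk hij
      simp only; omega)]
    simp
  have h2 := eval_aeval P (fun i => X i + MvPolynomial.C (s : ℚ)) (fun i => (k i : ℚ))
  rw [h] at h2
  rw [h2]
  simp

lemma mt_reflect (n : ℕ) : ∀ (k : Fin n → ℤ), mt n (fun i => - k i.rev) = mt n k := by
  induction n with
  | zero => intro k; rfl
  | succ n ih =>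
    intro k
    rw [mt, mt]
    refine Finset.sum_bij' (fun l _ => fun i => - l i.rev) (fun l _ => fun i => - l i.rev) ?_ ?_ ?_ ?_ ?_
    · intro l hl
      rw [Finset.mem_filter, Finset.mem_Icc] at hl ⊢
      refine ⟨⟨fun i => ?_, fun i => ?_⟩, fun i j hij => ?_⟩
      · have := hl.1.2 i.rev
        simp only [Fin.rev_succ, Fin.rev_rev] at this ⊢
        omega
      · have := hl.1.1 i.rev
        simp only [Fin.rev_castSucc, Fin.rev_rev] at this ⊢
        omega
      · have := hl.2 (Fin.rev_lt_rev.2 hij)
        simp only at this ⊢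
        omega
    · intro l hl
      rw [Finset.mem_filter, Finset.mem_Icc] at hl ⊢
      refine ⟨⟨fun i => ?_, fun i => ?_⟩, fun i j hij => ?_⟩
      · have := hl.1.2 i.rev
        simp only [Fin.rev_castSucc, Fin.rev_succ, Fin.rev_rev] at this ⊢
        omega
      · have := hl.1.1 i.rev
        simp only [Fin.rev_castSucc, Fin.rev_succ, Fin.rev_rev] at this ⊢
        omega
      · have := hl.2 (Fin.rev_lt_rev.2 hij)
        simp only at this ⊢
        omega
    · intro l _; funext i; simp
    · intro l _; funext i; simp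
    · intro l _
      exact (ih l).symm

/-- reflection invariance -/
theorem eval_reflect {n : ℕ} (P : MvPolynomial (Fin n) ℚ) (hP : IsMT n P) (k : Fin n → ℤ) :
    eval (fun i => ((- k i.rev : ℤ) : ℚ)) P = eval (fun i => (k i : ℚ)) P := by
  have h : aeval (fun i : Fin n => - X i.rev) P = P := by
    apply unique_IsMT _ _ _ hP
    intro k hk
    rw [eval_aeval, ← mt_reflect n k, ← hP (fun i => - k i.rev) (fun i j hij => by
      have := hk (Fin.rev_lt_rev.2 hij)
      simp only; omega)]
    simp
  have h2 := eval_aeval P (fun i : Fin n => - X i.rev) (fun i => (k i : ℚ))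
  rw [h] at h2
  rw [h2]
  simp

/-- rotation, for integer arguments -/
theorem eval_rot {n : ℕ} (P : MvPolynomial (Fin (n + 1)) ℚ) (hP : IsMT (n + 1) P) (k : Fin n → ℤ) (j : ℤ) :
    eval (fun i => (((Fin.snoc k j : Fin (n + 1) → ℤ) i : ℤ) : ℚ)) P =
      (-1) ^ n * eval (fun i => (((Fin.cons (j + (n + 1)) k : Fin (n + 1) → ℤ) i : ℤ) : ℚ)) P := by
  -- a large translation
  obtain ⟨s, hs, hj⟩ : ∃ s : ℕ, (∀ i, 0 ≤ k i + s) ∧ 0 ≤ j + s := by
    refine ⟨∑ i, (k i).natAbs + j.natAbs, fun i => ?_, ?_⟩
    · have h1 : (k i).natAbs ≤ ∑ i, (k i).natAbs :=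
        Finset.single_le_sum (f := fun i => (k i).natAbs) (fun _ _ => Nat.zero_le _) (Finset.mem_univ i)
      omega
    · omega
  have hk' : ∀ i, (((k i + s).toNat : ℕ) : ℤ) = k i + s := fun i => Int.toNat_of_nonneg (hs i)
  have hj' : (((j + s).toNat : ℕ) : ℤ) = j + s := Int.toNat_of_nonneg hj
  have h := alpha_rot (fun i => (k i + s).toNat) (j + s).toNat
  rw [← alpha_unique P hP, ← alpha_unique P hP] at h
  rw [← eval_shift P hP _ s, ← eval_shift P hP (Fin.cons (j + (n + 1)) k : Fin (n + 1) → ℤ) s]
  convert h using 3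
  · funext i
    refine Fin.lastCases ?_ (fun i => ?_) i
    · simp only [Fin.snoc_last]
      exact_mod_cast hj'.symm
    · simp only [Fin.snoc_castSucc]
      exact_mod_cast (hk' i).symm
  · congr 1
    funext i
    refine Fin.cases ?_ (fun i => ?_) i
    · simp only [Fin.cons_zero]
      have : ((((j + s).toNat + (n + 1) : ℕ)) : ℤ) = j + (n + 1) + s := by push_cast; rw [hj']; ring
      exact_mod_cast this.symm
    · simp only [Fin.cons_succ]
      exact_mod_cast (hk' i).symm

end A

end Pool.Agent.V11175.Sh
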