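import Mathlib
import Pool.Agent.V11175.Sh12
import Pool.Agent.V11175.Sh11

/-!
# A letter times the square of a run
-/

set_option autoImplicit false
set_option linter.dupNamespace false
set_option linter.unusedSectionVars false

namespace Pool.Agent.V11175.Sh

open List Finset

namespace A

open Sh MvPolynomial

lemma tA_add (a q m : ℕ) : tA a (q + m) = tA (a + q) m * tA a q := by
  induction q generalizing a with
  | zero => rw [zero_add, add_zero, tA, mul_one]
  | succ q ih =>
    rw [show q + 1 + m = (q + m) + 1 by ring, tA, ih, tA, mul_assoc, show a + 1 + q = a + (q + 1) by ring]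

lemma tt_tA (a m : ℕ) : tt a * tA (a + 1) m = tA a m * tt (a + m) := by
  rw [← run_sq, ← run_sq]; exact tt_run_sq a m

lemma C' (a b : ℕ) : (tt b * (tt a * tt a) : A R) = - (tt a * (tt a * tt b)) - tt a * (tt b * tt a) := by
  have h := C (K := R) a b
  rw [← sub_eq_zero]
  rw [← h]
  abel

lemma C'' (a b : ℕ) : (tt a * (tt a * tt b) : A R) = - (tt b * (tt a * tt a)) - tt a * (tt b * tt a) := by
  have h := C (K := R) a b
  rw [← sub_eq_zero]
  rw [← h]
  abel

/-- a letter in the range of the run annihilates the square of the run from the left -/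
theorem tt_mul_tA (a q p : ℕ) : tt (a + q) * tA a (q + (p + 1)) = 0 := by
  set b := a + q with hb
  have h0 : tt b * (tA (b + 1) p * (tt b * tt b)) = 0 := by
    rw [← mul_assoc, tt_tA]
    cases p with
    | zero =>
      rw [tA, one_mul, add_zero]; exact cube b
    | succ p =>
      have h1 : tA b (p + 1) * tt b = 0 := by
        rw [tA, mul_assoc, mul_assoc, cube, mul_zero]
      rw [mul_assoc, C', mul_sub, mul_neg, ← mul_assoc, ← mul_assoc (tA b (p + 1)), h1]
      simp
  rw [tA_add, tA, ← mul_assoc, ← hb, h0, zero_mul]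

/-- a letter in the range of the run annihilates the square of the run from the right -/
theorem tA_mul_tt (a q p : ℕ) : tA a (q + (p + 1)) * tt (a + q) = 0 := by
  set b := a + q with hb
  have h0 : tt b * (tt b * (tA a q * tt b)) = 0 := by
    rw [hb, ← tt_tA, ← hb]
    cases q with
    | zero => rw [tA, mul_one, hb, add_zero]; exact cube a
    | succ q =>
      have h1 : tt b * tA (a + 1) (q + 1) = 0 := by
        have := tA_add (a + 1) q 1
        rw [this, tA, tA, one_mul, show a + 1 + q = b by rw [hb]; ring, ← mul_assoc, cube, zero_mul]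
      have e : tt b * (tt b * (tt a * tA (a + 1) (q + 1))) = tt b * (tt b * tt a) * tA (a + 1) (q + 1) := by
        noncomm_ring
      have e2 : (-(tt a * (tt b * tt b)) - tt b * (tt a * tt b)) * tA (a + 1) (q + 1) =
          -(tt a * (tt b * (tt b * tA (a + 1) (q + 1)))) - tt b * (tt a * (tt b * tA (a + 1) (q + 1))) := by
        noncomm_ring
      rw [e, C'' b a, e2, h1]
      simp
  rw [tA_add, tA, ← hb]
  calc tA (b + 1) p * (tt b * tt b) * tA a q * tt b = tA (b + 1) p * (tt b * (tt b * (tA a q * tt b))) := by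
        noncomm_ring
    _ = 0 := by rw [h0, mul_zero]

theorem tt_mul_sq {a m b : ℕ} (h1 : a ≤ b) (h2 : b < a + m) : tt b * (run a m * run a m : A R) = 0 := by
  obtain ⟨q, rfl⟩ : ∃ q, b = a + q := ⟨b - a, by omega⟩
  obtain ⟨p, rfl⟩ : ∃ p, m = q + (p + 1) := ⟨m - q - 1, by omega⟩
  rw [run_sq]; exact tt_mul_tA a q p

theorem sq_mul_tt {a m b : ℕ} (h1 : a ≤ b) (h2 : b < a + m) : (run a m * run a m : A R) * tt b = 0 := by
  obtain ⟨q, rfl⟩ : ∃ q, b = a + q := ⟨b - a, by omega⟩
  obtain ⟨p, rfl⟩ : ∃ p, m = q + (p + 1) := ⟨m - q - 1, by omega⟩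
  rw [run_sq]; exact tA_mul_tt a q p

/-- differences in the first letter -/
lemma al_diff (m k : ℕ) (w v : A R) (hw : Nat' w) (h : d w = D v) :
    al (m + 1) (tt (k + 1) * w) - al (m + 1) (tt k * w) = - al m (tt k * v) := by
  rw [← al_sub, ← sub_mul]
  have hd : d ((tt (k + 1) - tt k) * w) = D (- (tt k * v)) := by
    rw [sub_mul, map_sub, d_ttmul, d_ttmul, h, map_neg, map_mul, D_tt]
    noncomm_ring
  rw [al_step m (((nat_tt _).sub (nat_tt _)).mul hw) hd, al_neg]

/-- rotation -/
lemma al_rot (L : List ℕ) (j : ℕ) : al (L.length + 1) (wordL L * tt j) =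
    (-1) ^ L.length * al (L.length + 1) (tt (j + (L.length + 1)) * wordL L) := by
  have h := alpha_rot (fun i : Fin L.length => L.get i) j
  rw [alpha, alpha, word_snoc, word_cons, word_eq_wordL] at h
  have e : List.ofFn (fun i : Fin L.length => L.get i) = L := List.ofFn_get L
  rw [e] at h
  exact h

noncomputable def Wn (n i k : ℕ) : ℚ := al (n + i + 1) (tt k * (run 1 i * run 1 n))

lemma Wn_diff (n i k : ℕ) (h : i < n) : Wn n (i + 1) (k + 1) - Wn n (i + 1) k = - Wn n i k := by
  obtain ⟨p, rfl⟩ : ∃ p, n = i + 1 + p := ⟨n - (i + 1), by omega⟩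
  exact al_diff _ k _ _ ((nat_run _ _).mul (nat_run _ _)) (d_run_run 1 i p)

lemma Wn_zero_left (n k : ℕ) (h1 : 1 ≤ k) (h2 : k ≤ n) : Wn n n k = 0 := by
  rw [Wn, tt_mul_sq h1 (by omega), al_zero]

lemma Wn_zero_right (n x : ℕ) (h : x < n) : Wn n n (2 * n + 2 + x) = 0 := by
  have hL : (List.range' 1 n ++ List.range' 1 n).length = 2 * n := by simp; ring
  have h1 := al_rot (List.range' 1 n ++ List.range' 1 n) (x + 1)
  rw [wordL_append, wordL_range', hL, sq_mul_tt (by omega) (by omega), al_zero, pow_mul, neg_one_sq, one_pow,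
    one_mul] at h1
  rw [Wn, al_congr (show n + n + 1 = 2 * n + 1 by ring), show 2 * n + 2 + x = x + 1 + (2 * n + 1) by ring, ← h1]

lemma antidiff : ∀ (n : ℕ) (e : ℕ → ℕ → ℚ), (∀ i < n, ∀ x, e (i + 1) (x + 1) - e (i + 1) x = e i x) →
    (∀ x, e 0 x = 0) → (∀ x < n, e n x = 0) → ∀ x, e n x = 0 := by
  intro n
  induction n with
  | zero => intro e _ h0 _ x; exact h0 x
  | succ n ih =>
    intro e h1 h0 h2
    have h3 : ∀ x, e n x = 0 := by
      apply ih e (fun i hi => h1 i (by omega)) h0
      intro x hx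
      rw [← h1 n (by omega) x, h2 (x + 1) (by omega), h2 x (by omega), sub_zero]
    intro x
    induction x with
    | zero => exact h2 0 (by omega)
    | succ x ihx =>
      have := h1 n (by omega) x
      rw [h3, ihx, sub_zero] at this
      exact this

/-- the values of `Wn n n` -/
theorem Wn_values (n : ℕ) (B : ℕ → ℚ)
    (hB : ∀ y, al (n + 1) (tt (1 + y) * run 1 n) = ∑ j ∈ Finset.range (n + 1), (-1) ^ j * (y.choose j : ℚ) * B j)
    (x : ℕ) : (-1) ^ n * Wn n n (1 + x) = ∑ j ∈ Finset.range (n + 1), (-1) ^ j * (x.choose (n + j) : ℚ) * B j := by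
  have key := antidiff n (fun i x => (-1) ^ i * Wn n i (1 + x) -
    ∑ j ∈ Finset.range (n + 1), (-1) ^ j * (x.choose (i + j) : ℚ) * B j) ?_ ?_ ?_ x
  · linarith
  · intro i hi x
    have h1 := Wn_diff n i (1 + x) hi
    have h2 : ∑ j ∈ Finset.range (n + 1), (-1) ^ j * ((x + 1).choose (i + 1 + j) : ℚ) * B j =
        ∑ j ∈ Finset.range (n + 1), (-1) ^ j * (x.choose (i + 1 + j) : ℚ) * B j +
        ∑ j ∈ Finset.range (n + 1), (-1) ^ j * (x.choose (i + j) : ℚ) * B j := by
      rw [← Finset.sum_add_distrib]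
      refine Finset.sum_congr rfl fun j _ => ?_
      rw [show i + 1 + j = (i + j) + 1 by ring, Nat.choose_succ_succ]
      push_cast; ring
    rw [h2, show 1 + (x + 1) = 1 + x + 1 by ring, pow_succ]
    linear_combination (-1 : ℚ) ^ i * (-1) * h1
  · intro x
    rw [Wn, run_zero, one_mul, pow_zero, one_mul, add_zero, hB]
    simp
  · intro x hx
    rw [Wn_zero_left n (1 + x) (by omega) (by omega), mul_zero, zero_sub, neg_eq_zero]
    apply Finset.sum_eq_zero
    intro j _
    rw [Nat.choose_eq_zero_of_lt (by omega)]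
    simp

end A

end Pool.Agent.V11175.Sh
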