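import Mathlib
import Pool.Agent.V11175.Sh16

/-!
# The numbers of the refined enumeration
-/

set_option autoImplicit false
set_option linter.dupNamespace false
set_option linter.unusedSectionVars false

namespace Pool.Agent.V11175.Sh

open List Finset

namespace A

open Sh MvPolynomial

section

variable (n : ℕ) (B : ℕ → ℚ)
    (hB : ∀ y, al (n + 1) (tt (1 + y) * run 1 n) = ∑ j ∈ Finset.range (n + 1), (-1) ^ j * (y.choose j : ℚ) * B j)

include hB

theorem rel (M : ℕ) (h1 : 2 * n + 1 ≤ M) (h2 : M ≤ 3 * n) :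
    ∑ j ∈ Finset.range (n + 1), (-1) ^ j * (M.choose (n + j) : ℚ) * B j = 0 := by
  rw [← Wn_values n B hB]
  obtain ⟨x, rfl⟩ : ∃ x, M = 2 * n + 1 + x := ⟨M - (2 * n + 1), by omega⟩
  rw [show 1 + (2 * n + 1 + x) = 2 * n + 2 + x by ring, Wn_zero_right n x (by omega), mul_zero]

/-- the normalised numbers -/
theorem closed (j : ℕ) (hj : j ≤ n) :
    B j * (n.factorial * (2 * n).factorial) = n.choose j * ((n + j).factorial * (2 * n - j).factorial) * B 0 := by
  set b : ℕ → ℚ := fun j => (-1) ^ j * B j / ((n + j).factorial * (2 * n - j).factorial) with hb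
  set Bp : Polynomial ℚ := ∑ j ∈ Finset.range (n + 1), Polynomial.C (b j) * Polynomial.X ^ (2 * n - j) with hBp
  have hco : ∀ i, i ≤ n → Bp.coeff (2 * n - i) = b i := by
    intro i hi
    rw [hBp, Polynomial.finsetSum_coeff]
    simp only [Polynomial.coeff_C_mul, Polynomial.coeff_X_pow]
    rw [Finset.sum_eq_single i]
    · rw [if_pos rfl, mul_one]
    · intro m hm hmi
      rw [Finset.mem_range] at hm
      rw [if_neg (by omega), mul_zero]
    · intro h; rw [Finset.mem_range] at h; omega
  have h1 : (Polynomial.X : Polynomial ℚ) ^ n ∣ Bp := by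
    rw [hBp]
    apply Finset.dvd_sum
    intro i hi
    rw [Finset.mem_range] at hi
    exact Dvd.dvd.mul_left (pow_dvd_pow _ (by omega)) _
  have h2 : (Polynomial.X : Polynomial ℚ) ^ n ∣ Bp.comp (Polynomial.X + 1) := by
    rw [Polynomial.X_pow_dvd_iff]
    intro t ht
    rw [hBp, ← Polynomial.coe_compRingHom_apply, map_sum, Polynomial.finsetSum_coeff]
    simp only [Polynomial.coe_compRingHom_apply]
    have hr := rel n B hB (3 * n - t) (by omega) (by omega)
    have h3 : ∀ i ∈ Finset.range (n + 1), ((Polynomial.C (b i) * Polynomial.X ^ (2 * n - i)).comp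
        (Polynomial.X + 1)).coeff t = (((3 * n - t).factorial : ℚ) * t.factorial)⁻¹ *
          ((-1) ^ i * ((3 * n - t).choose (n + i) : ℚ) * B i) := by
      intro i hi
      rw [Finset.mem_range] at hi
      rw [Polynomial.mul_comp, Polynomial.C_comp, Polynomial.X_pow_comp, Polynomial.coeff_C_mul,
        Polynomial.coeff_X_add_one_pow, Nat.cast_choose ℚ (show t ≤ 2 * n - i by omega),
        Nat.cast_choose ℚ (show n + i ≤ 3 * n - t by omega), show 3 * n - t - (n + i) = 2 * n - i - t by omega]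
      have e1 : ((3 * n - t).factorial : ℚ) ≠ 0 := by exact_mod_cast Nat.factorial_ne_zero _
      have e2 : (t.factorial : ℚ) ≠ 0 := by exact_mod_cast Nat.factorial_ne_zero _
      have e3 : ((n + i).factorial : ℚ) ≠ 0 := by exact_mod_cast Nat.factorial_ne_zero _
      have e4 : ((2 * n - i).factorial : ℚ) ≠ 0 := by exact_mod_cast Nat.factorial_ne_zero _
      have e5 : ((2 * n - i - t).factorial : ℚ) ≠ 0 := by exact_mod_cast Nat.factorial_ne_zero _
      simp only [hb]
      field_simp
    rw [Finset.sum_congr rfl h3, ← Finset.mul_sum, hr, mul_zero]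
  have h3 : (Polynomial.X - 1 : Polynomial ℚ) ^ n ∣ Bp := by
    have h := map_dvd (Polynomial.compRingHom (Polynomial.X - 1 : Polynomial ℚ)) h2
    rw [Polynomial.coe_compRingHom_apply, Polynomial.coe_compRingHom_apply, Polynomial.comp_assoc,
      Polynomial.X_pow_comp] at h
    simpa using h
  have hcop : IsCoprime ((Polynomial.X : Polynomial ℚ) ^ n) ((Polynomial.X - 1) ^ n) :=
    IsCoprime.pow ⟨1, -1, by ring⟩
  obtain ⟨q, hq⟩ := hcop.mul_dvd h1 h3
  have hdeg : Bp.natDegree ≤ 2 * n := by
    rw [hBp]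
    apply Polynomial.natDegree_sum_le_of_forall_le
    intro i _
    exact (Polynomial.natDegree_C_mul_X_pow_le _ _).trans (by omega)
  obtain ⟨c, hc⟩ : ∃ c, q = Polynomial.C c := by
    by_cases hq0 : q = 0
    · exact ⟨0, by rw [hq0, Polynomial.C_0]⟩
    · have hm : ((Polynomial.X - 1 : Polynomial ℚ) ^ n).Monic := by
        rw [← Polynomial.C_1]; exact (Polynomial.monic_X_sub_C 1).pow n
      have hd : ((Polynomial.X - 1 : Polynomial ℚ) ^ n).natDegree = n := by
        rw [← Polynomial.C_1, Polynomial.natDegree_pow, Polynomial.natDegree_X_sub_C, mul_one]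
      have hm2 : ((Polynomial.X : Polynomial ℚ) ^ n * (Polynomial.X - 1) ^ n).Monic :=
        (Polynomial.monic_X_pow n).mul hm
      have h5 : Bp.natDegree = (n + n) + q.natDegree := by
        rw [hq, hm2.natDegree_mul' hq0, (Polynomial.monic_X_pow n).natDegree_mul hm, hd,
          Polynomial.natDegree_X_pow]
      exact ⟨q.coeff 0, Polynomial.eq_C_of_natDegree_eq_zero (by omega)⟩
  have hcoef : ∀ i, i ≤ n → b i = c * ((-1) ^ i * (n.choose i : ℚ)) := by
    intro i hi
    rw [← hco i hi, hq, hc, mul_assoc, show 2 * n - i = (n - i) + n by omega, Polynomial.coeff_X_pow_mul,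
      Polynomial.coeff_mul_C, show (Polynomial.X - 1 : Polynomial ℚ) = Polynomial.X + Polynomial.C (-1) by
        rw [Polynomial.C_neg, Polynomial.C_1, sub_eq_add_neg], Polynomial.coeff_X_add_C_pow,
      show n - (n - i) = i by omega, Nat.choose_symm hi]
    ring
  have hj' := hcoef j hj
  have h0' := hcoef 0 (Nat.zero_le n)
  simp only [hb] at hj' h0'
  have e1 : (n.factorial : ℚ) ≠ 0 := by exact_mod_cast Nat.factorial_ne_zero _
  have e2 : ((2 * n).factorial : ℚ) ≠ 0 := by exact_mod_cast Nat.factorial_ne_zero _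
  have e3 : ((n + j).factorial : ℚ) ≠ 0 := by exact_mod_cast Nat.factorial_ne_zero _
  have e4 : ((2 * n - j).factorial : ℚ) ≠ 0 := by exact_mod_cast Nat.factorial_ne_zero _
  have e5 : ((-1 : ℚ)) ^ j ≠ 0 := pow_ne_zero _ (by norm_num)
  have e6 : ((-1 : ℚ)) ^ j * (-1) ^ j = 1 := by rw [← mul_pow]; simp
  rw [add_zero, Nat.sub_zero, pow_zero, one_mul, one_mul, Nat.choose_zero_right, Nat.cast_one, mul_one,
    div_eq_iff (mul_ne_zero e1 e2)] at h0'
  rw [div_eq_iff (mul_ne_zero e3 e4)] at hj'
  rw [h0']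
  have h6 : B j = (-1) ^ j * ((-1) ^ j * B j) := by rw [← mul_assoc, e6, one_mul]
  rw [h6, hj']
  linear_combination (c * (n.choose j : ℚ) * ((n + j).factorial * (2 * n - j).factorial) *
    (n.factorial * (2 * n).factorial)) * e6

end

end A

end Pool.Agent.V11175.Sh
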