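import Mathlib
import Pool.Agent.V11175.Sh15
import Pool.Agent.V11175.Sh17

/-!
# The values `T_k(n)` as rational multiples of `A_{n-1}`
-/

set_option autoImplicit false
set_option linter.dupNamespace false
set_option linter.unusedSectionVars false

namespace Pool.Agent.V11175.Sh

open List Finset

namespace A

open Sh MvPolynomial

/-- the values `α(n+1; 1 + y, 1, ..., n)` in terms of the refined numbers -/
def Trans : Prop := ∀ n y : ℕ, al (n + 1) (tt (1 + y) * run 1 n) =
  ∑ i ∈ Finset.range (n + 1), (-1) ^ i * (y.choose i : ℚ) * al n (run 1 (n - i) * run (n - i + 2) i)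

lemma Ur_closed (hX : Trans) (n j : ℕ) (hj : j ≤ n) : Ur 1 n j * (n.factorial * (2 * n).factorial) =
    n.choose j * ((n + j).factorial * (2 * n - j).factorial) * al n (run 1 n) := by
  have hB : ∀ y, al (n + 1) (tt (1 + y) * run 1 n) =
      ∑ j ∈ Finset.range (n + 1), (-1) ^ j * (y.choose j : ℚ) * Ur 1 n (n - j) := by
    intro x
    rw [hX]
    refine Finset.sum_congr rfl fun i hi => ?_
    rw [Finset.mem_range] at hi
    rw [Ur, show 1 + (n - i) + 1 = n - i + 2 by ring, show n - (n - i) = i by omega]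
  have h := closed n (fun j => Ur 1 n (n - j)) hB (n - j) (by omega)
  rw [show n - (n - j) = j by omega, show n + (n - j) = 2 * n - j by omega, show 2 * n - (n - j) = n + j by omega,
    Nat.choose_symm hj, Nat.sub_zero] at h
  rw [h, Ur, Nat.sub_self, run_zero, mul_one]
  ring

/-- `N (N - 1) ⋯ (N - j + 1) (N + 1) ⋯ (N + j)` at `N = X - 1` -/
noncomputable def pp (j : ℕ) : Polynomial ℚ :=
  (descPochhammer ℚ j).comp (Polynomial.C 1 * Polynomial.X + Polynomial.C (-1)) * ascPochhammer ℚ j

/-- `(2 N - c) ⋯ (2 N - c - r + 1)` at `N = X - 1` -/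
noncomputable def qq (c r : ℕ) : Polynomial ℚ :=
  (descPochhammer ℚ r).comp (Polynomial.C 2 * Polynomial.X + Polynomial.C (-2 - (c : ℚ)))

lemma pp_eval (j N : ℕ) : (pp j).eval ((N + 1 : ℕ) : ℚ) = N.descFactorial j * (N + 1).ascFactorial j := by
  rw [pp, Polynomial.eval_mul, Polynomial.eval_comp, Polynomial.eval_add, Polynomial.eval_mul, Polynomial.eval_C,
    Polynomial.eval_C, Polynomial.eval_X, ← Nat.cast_ascFactorial,
    show (1 : ℚ) * ((N + 1 : ℕ) : ℚ) + -1 = (N : ℚ) by push_cast; ring, descPochhammer_eval_eq_descFactorial]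

lemma qq_eval (c r N : ℕ) (h : c ≤ 2 * N) : (qq c r).eval ((N + 1 : ℕ) : ℚ) = (2 * N - c).descFactorial r := by
  rw [qq, Polynomial.eval_comp, Polynomial.eval_add, Polynomial.eval_mul, Polynomial.eval_C,
    Polynomial.eval_C, Polynomial.eval_X,
    show (2 : ℚ) * ((N + 1 : ℕ) : ℚ) + (-2 - (c : ℚ)) = ((2 * N - c : ℕ) : ℚ) by push_cast [Nat.cast_sub h]; ring,
    descPochhammer_eval_eq_descFactorial]

/-- the numerator -/
noncomputable def tm (r j : ℕ) : Polynomial ℚ := Polynomial.C ((j.factorial : ℚ)⁻¹) * (pp j * qq j (r - j))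

noncomputable def pnum (r : ℕ) : Polynomial ℚ := ∑ i ∈ Finset.range (r + 1), ∑ j ∈ Finset.range (i + 1), tm r j

lemma Ur_eq (hX : Trans) (r j N : ℕ) (hj : j ≤ r) (hr : r ≤ N) :
    Ur 1 N j * (qq 0 r).eval ((N + 1 : ℕ) : ℚ) = (tm r j).eval ((N + 1 : ℕ) : ℚ) * al N (run 1 N) := by
  have h := Ur_closed hX N j (by omega)
  rw [qq_eval 0 r N (by omega), tm, Polynomial.eval_mul, Polynomial.eval_mul, Polynomial.eval_C, pp_eval,
    qq_eval j (r - j) N (by omega), Nat.sub_zero]
  have e1 : ((2 * N).descFactorial r : ℚ) * (2 * N - r).factorial = (2 * N).factorial := by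
    exact_mod_cast (by rw [mul_comm]; exact Nat.factorial_mul_descFactorial (show r ≤ 2 * N by omega))
  have e2 : ((2 * N - j).descFactorial (r - j) : ℚ) * (2 * N - r).factorial = (2 * N - j).factorial := by
    have := Nat.factorial_mul_descFactorial (show r - j ≤ 2 * N - j by omega)
    rw [show 2 * N - j - (r - j) = 2 * N - r by omega] at this
    exact_mod_cast (by rw [mul_comm]; exact this)
  have e3 : (N.factorial : ℚ) * (N + 1).ascFactorial j = (N + j).factorial := by
    exact_mod_cast Nat.factorial_mul_ascFactorial N j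
  have e4 : (N.descFactorial j : ℚ) = j.factorial * N.choose j := by
    exact_mod_cast Nat.descFactorial_eq_factorial_mul_choose N j
  have f1 : (j.factorial : ℚ) ≠ 0 := by exact_mod_cast Nat.factorial_ne_zero _
  have f2 : ((2 * N - r).factorial : ℚ) ≠ 0 := by exact_mod_cast Nat.factorial_ne_zero _
  have f3 : (N.factorial : ℚ) ≠ 0 := by exact_mod_cast Nat.factorial_ne_zero _
  rw [← e1, ← e2, ← e3] at h
  rw [e4]
  have h' : (Ur 1 N j * ((2 * N).descFactorial r : ℚ)) * (N.factorial * (2 * N - r).factorial) =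
      ((N.choose j : ℚ) * (N + 1).ascFactorial j * (2 * N - j).descFactorial (r - j) * al N (run 1 N)) *
        (N.factorial * (2 * N - r).factorial) := by
    linear_combination h
  have h'' := mul_right_cancel₀ (mul_ne_zero f3 f2) h'
  rw [h'']
  field_simp

lemma natDegree_lin (a b : ℚ) (ha : a ≠ 0) : (Polynomial.C a * Polynomial.X + Polynomial.C b).natDegree = 1 :=
  Polynomial.natDegree_linear ha

lemma natDegree_qq (c r : ℕ) : (qq c r).natDegree = r := by
  rw [qq, Polynomial.natDegree_comp, descPochhammer_natDegree, natDegree_lin _ _ (by norm_num), mul_one]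

lemma qq_ne (c r : ℕ) : qq c r ≠ 0 := by
  intro h
  rw [qq, Polynomial.comp_eq_zero_iff] at h
  rcases h with h | h
  · exact (monic_descPochhammer ℚ r).ne_zero h
  · have h2 := congrArg Polynomial.natDegree h.2
    rw [natDegree_lin _ _ (by norm_num), Polynomial.natDegree_C] at h2
    exact one_ne_zero h2

lemma natDegree_pp (j : ℕ) : (pp j).natDegree = 2 * j ∧ pp j ≠ 0 := by
  have h1 : (descPochhammer ℚ j).comp (Polynomial.C 1 * Polynomial.X + Polynomial.C (-1)) ≠ 0 := by
    intro h
    rw [Polynomial.comp_eq_zero_iff] at h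
    rcases h with h | h
    · exact (monic_descPochhammer ℚ j).ne_zero h
    · have h2 := congrArg Polynomial.natDegree h.2
      rw [natDegree_lin _ _ (by norm_num), Polynomial.natDegree_C] at h2
      exact one_ne_zero h2
  have h2 : ascPochhammer ℚ j ≠ 0 := (monic_ascPochhammer ℚ j).ne_zero
  refine ⟨?_, mul_ne_zero h1 h2⟩
  rw [pp, Polynomial.natDegree_mul h1 h2, Polynomial.natDegree_comp, descPochhammer_natDegree,
    natDegree_lin _ _ (by norm_num), ascPochhammer_natDegree]
  ring

lemma natDegree_tm (r j : ℕ) (hj : j ≤ r) : (tm r j).natDegree = r + j := by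
  have f1 : ((j.factorial : ℚ)⁻¹) ≠ 0 := inv_ne_zero (by exact_mod_cast Nat.factorial_ne_zero _)
  rw [tm, Polynomial.natDegree_C_mul f1, Polynomial.natDegree_mul (natDegree_pp j).2 (qq_ne _ _),
    (natDegree_pp j).1, natDegree_qq]
  omega

lemma natDegree_pnum (r : ℕ) (hr : 1 ≤ r) : (pnum r).natDegree = 2 * r := by
  have h1 : pnum r = (∑ i ∈ Finset.range r, ∑ j ∈ Finset.range (i + 1), tm r j + ∑ j ∈ Finset.range r, tm r j) +
      tm r r := by
    rw [pnum, Finset.sum_range_succ, Finset.sum_range_succ (fun j => tm r j) r, add_assoc]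
  have h2 : (∑ i ∈ Finset.range r, ∑ j ∈ Finset.range (i + 1), tm r j + ∑ j ∈ Finset.range r, tm r j).natDegree ≤
      2 * r - 1 := by
    refine (Polynomial.natDegree_add_le _ _).trans (max_le ?_ ?_)
    · apply Polynomial.natDegree_sum_le_of_forall_le
      intro i hi
      apply Polynomial.natDegree_sum_le_of_forall_le
      intro j hj
      rw [Finset.mem_range] at hi hj
      rw [natDegree_tm r j (by omega)]
      omega
    · apply Polynomial.natDegree_sum_le_of_forall_le
      intro j hj
      rw [Finset.mem_range] at hj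
      rw [natDegree_tm r j (by omega)]
      omega
  rw [h1, Polynomial.natDegree_add_eq_right_of_natDegree_lt]
  · rw [natDegree_tm r r le_rfl]; ring
  · rw [natDegree_tm r r le_rfl]; omega

theorem al_Wr_eq (hX : Trans) (M r : ℕ) :
    (qq 0 r).eval ((r + M + 3 : ℕ) : ℚ) ≠ 0 ∧
    al (r + M + 4) (Wr M 1 r) = (pnum r).eval ((r + M + 3 : ℕ) : ℚ) / (qq 0 r).eval ((r + M + 3 : ℕ) : ℚ) *
      al (r + M + 2) (run 1 (r + M + 2)) := by
  have h0 : (qq 0 r).eval ((r + M + 3 : ℕ) : ℚ) ≠ 0 := by
    rw [show r + M + 3 = (r + M + 2) + 1 by ring, qq_eval 0 r _ (by omega), Nat.sub_zero]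
    have : (2 * (r + M + 2)).descFactorial r ≠ 0 := by
      rw [Ne, Nat.descFactorial_eq_zero_iff_lt]; omega
    exact_mod_cast this
  refine ⟨h0, ?_⟩
  rw [al_Wr, div_mul_eq_mul_div, eq_div_iff h0, pnum, Polynomial.eval_finsetSum, Finset.sum_mul, Finset.sum_mul]
  refine Finset.sum_congr rfl fun i hi => ?_
  rw [Polynomial.eval_finsetSum, Finset.sum_mul, Finset.sum_mul]
  refine Finset.sum_congr rfl fun j hj => ?_
  rw [Finset.mem_range] at hi hj
  have := Ur_eq hX r j (r + M + 2) (by omega) (by omega)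
  rw [show r + M + 2 + 1 = r + M + 3 by ring] at this
  exact this

end A

end Pool.Agent.V11175.Sh
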