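import Mathlib
import Pool.Agent.V11175.Sh12

/-!
# Spans of words and existence of reductions
-/

set_option autoImplicit false
set_option linter.dupNamespace false
set_option linter.unusedSectionVars false

namespace Pool.Agent.V11175.Sh

open List

namespace A

open Sh MvPolynomial

/-- integer combinations of the words of length `m` in letters `≥ L` -/
noncomputable def Sp (m L : ℕ) : AddSubgroup (A R) :=
  AddSubgroup.closure {w | ∃ l : List ℕ, l.length = m ∧ (∀ a ∈ l, L ≤ a) ∧ w = wordL l}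

lemma wordL_mem (l : List ℕ) (L : ℕ) (h : ∀ a ∈ l, L ≤ a) : wordL l ∈ Sp l.length L :=
  AddSubgroup.subset_closure ⟨l, rfl, h, rfl⟩

lemma wordL_mem' (l : List ℕ) (m L : ℕ) (hm : l.length = m) (h : ∀ a ∈ l, L ≤ a) : wordL l ∈ Sp m L :=
  AddSubgroup.subset_closure ⟨l, hm, h, rfl⟩

lemma Sp_mono (m : ℕ) {L L' : ℕ} (h : L ≤ L') : Sp m L' ≤ Sp m L := by
  apply AddSubgroup.closure_mono
  rintro w ⟨l, h1, h2, rfl⟩
  exact ⟨l, h1, fun a ha => h.trans (h2 a ha), rfl⟩

lemma Sp_mul_tt {m L x : ℕ} (hx : L ≤ x) {v : A R} (hv : v ∈ Sp m L) : v * tt x ∈ Sp (m + 1) L := by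
  refine AddSubgroup.closure_induction (p := fun v _ => v * tt x ∈ Sp (m + 1) L) ?_ ?_ ?_ ?_ hv
  · rintro v ⟨l, h1, h2, rfl⟩
    rw [← wordL_single, ← wordL_append]
    apply wordL_mem'
    · simp [h1]
    · intro a ha
      rw [List.mem_append] at ha
      rcases ha with ha | ha
      · exact h2 a ha
      · rw [List.mem_singleton] at ha; rw [ha]; exact hx
  · rw [zero_mul]; exact zero_mem _
  · intro a b _ _ ha hb; rw [add_mul]; exact add_mem ha hb
  · intro a _ ha; rw [neg_mul]; exact neg_mem ha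

lemma Sp_nat {m L : ℕ} {w : A R} (hw : w ∈ Sp m L) : Nat' w := by
  refine AddSubgroup.closure_induction (p := fun v _ => Nat' v) ?_ nat_zero (fun a b _ _ ha hb => ha.add hb)
    (fun a _ ha => ha.neg) hw
  rintro v ⟨l, -, -, rfl⟩
  induction l with
  | nil => exact nat_one
  | cons a l ih =>
    rw [wordL, List.map_cons, List.prod_cons]
    exact (nat_tt a).mul ih

lemma Sp_FA {m L : ℕ} {w : A R} (hw : w ∈ Sp m L) : FA (ap w) := by
  refine AddSubgroup.closure_induction (p := fun v _ => FA (ap v)) ?_ ?_ ?_ ?_ hw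
  · rintro v ⟨l, -, -, rfl⟩
    induction l with
    | nil => exact FA.one _
    | cons a l ih =>
      rw [wordL, List.map_cons, List.prod_cons]
      exact (FA.t _ _).mul ih
  · intro l x y l'; rw [Sh.zero_apply, Sh.zero_apply, neg_zero]
  · intro a b _ _ ha hb l x y l'
    rw [Sh.add_apply, Sh.add_apply, ha, hb]; ring
  · intro a _ ha l x y l'
    rw [Sh.neg_apply, Sh.neg_apply, ha]

/-- differences of letters -/
lemma exists_c (a b : ℕ) : ∃ s : Finset ℕ, ∃ ε : ℤ, (∀ x ∈ s, min a b ≤ x) ∧
    D (ε • ∑ x ∈ s, tt x : A R) = tt (b + 1) - tt (a + 1) := by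
  rcases le_total a b with h | h
  · rcases Nat.eq_or_lt_of_le h with h' | h'
    · subst h'
      exact ⟨∅, 1, by simp, by simp⟩
    · refine ⟨Finset.Icc (a + 1) b, 1, fun x hx => ?_, ?_⟩
      · rw [Finset.mem_Icc] at hx; omega
      · rw [one_smul, D_sum _ _ (by omega)]
  · rcases Nat.eq_or_lt_of_le h with h' | h'
    · subst h'
      exact ⟨∅, 1, by simp, by simp⟩
    · refine ⟨Finset.Icc (b + 1) a, -1, fun x hx => ?_, ?_⟩
      · rw [Finset.mem_Icc] at hx; omega
      · rw [neg_smul, one_smul, map_neg, D_sum _ _ (by omega)]; abel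

lemma d_right (w : A R) (a b : ℕ) : d (w * tt (a + 1) * tt b) =
    d (w * tt (a + 1)) * (tt (b + 1) - tt (a + 1 + 1)) + d (w * tt a) * D (tt (a + 1)) := by
  have hd : ∀ (u : A R) (c : ℕ), d (u * tt c) = d u * tt (c + 1) + sg u := by
    intro u c; rw [d_mul, S_tt, d_tt, mul_one]
  have hN := N (K := R) a
  have h1 : d (w * tt (a + 1) * tt (a + 1)) = d (w * tt a) * D (tt (a + 1)) := by
    have e : w * tt (a + 1) * tt (a + 1) = w * tt a * tt (a + 1) - w * tt a * tt a := by
      rw [mul_assoc, mul_assoc, mul_assoc, hN]; noncomm_ring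
    rw [e, map_sub, hd (w * tt a) (a + 1), hd (w * tt a) a, D_tt]
    noncomm_ring
  rw [← h1, hd (w * tt (a + 1)) b, hd (w * tt (a + 1)) (a + 1)]
  noncomm_ring

/-- existence of reductions -/
theorem ex_d (m : ℕ) : ∀ (L : ℕ) (w : A R), w ∈ Sp (m + 1) (L + m) → ∃ v ∈ Sp m L, d w = D v := by
  have red : ∀ m L : ℕ, (∀ l : List ℕ, l.length = m + 1 → (∀ a ∈ l, L + m ≤ a) →
      ∃ v ∈ Sp m L, d (wordL l) = D v) → ∀ w ∈ Sp (m + 1) (L + m), ∃ v ∈ Sp m L, d w = D v := by
    intro m L h w hw
    refine AddSubgroup.closure_induction (p := fun w _ => ∃ v ∈ Sp m L, d w = D v) ?_ ?_ ?_ ?_ hw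
    · rintro v ⟨l, h1, h2, rfl⟩
      exact h l h1 h2
    · exact ⟨0, zero_mem _, by rw [map_zero, map_zero]⟩
    · rintro a b _ _ ⟨u, hu, hu'⟩ ⟨v, hv, hv'⟩
      exact ⟨u + v, add_mem hu hv, by rw [map_add, map_add, hu', hv']⟩
    · rintro a _ ⟨u, hu, hu'⟩
      exact ⟨-u, neg_mem hu, by rw [map_neg, map_neg, hu']⟩
  induction m with
  | zero =>
    intro L w hw
    refine red 0 L (fun l h1 _ => ?_) w hw
    obtain ⟨a, rfl⟩ := List.length_eq_one_iff.1 h1
    refine ⟨1, ?_, ?_⟩
    · exact wordL_mem' [] 0 L rfl (by simp)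
    · rw [wordL_single, d_tt, map_one]
  | succ m ih =>
    intro L w hw
    refine red (m + 1) L (fun l h1 h2 => ?_) w hw
    obtain ⟨l', b, rfl⟩ := List.eq_nil_or_concat' l |>.resolve_left (by rintro rfl; simp at h1)
    obtain ⟨l'', a, rfl⟩ := List.eq_nil_or_concat' l' |>.resolve_left (by rintro rfl; simp at h1)
    have hb : L + (m + 1) ≤ b := h2 b (by simp)
    have ha : L + (m + 1) ≤ a := h2 a (by simp)
    have hl : l''.length = m := by simp at h1; omega
    obtain ⟨a', rfl⟩ : ∃ a', a = a' + 1 := ⟨a - 1, by omega⟩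
    obtain ⟨v1, hv1, e1⟩ := ih (L + 1) (wordL (l'' ++ [a' + 1])) (wordL_mem' _ _ _ (by simp [hl]) (by
      intro x hx
      have := h2 x (by simp only [List.mem_append, List.mem_singleton] at hx ⊢; tauto)
      omega))
    obtain ⟨v2, hv2, e2⟩ := ih L (wordL (l'' ++ [a'])) (wordL_mem' _ _ _ (by simp [hl]) (by
      intro x hx
      rw [List.mem_append, List.mem_singleton] at hx
      rcases hx with hx | hx
      · have := h2 x (by simp only [List.mem_append, List.mem_singleton]; tauto)
        omega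
      · omega))
    obtain ⟨s, ε, hs, hc⟩ := exists_c (a' + 1) b
    refine ⟨v1 * (ε • ∑ x ∈ s, tt x) + v2 * tt (a' + 1), ?_, ?_⟩
    · refine add_mem ?_ (Sp_mul_tt (by omega) hv2)
      rw [mul_smul_comm, Finset.mul_sum]
      refine AddSubgroup.zsmul_mem _ (AddSubgroup.sum_mem _ fun x hx => ?_) _
      have := hs x hx
      exact Sp_mul_tt (by omega) (Sp_mono m (by omega) hv1)
    · rw [wordL_append, wordL_append, wordL_single, wordL_single, d_right]
      rw [wordL_append, wordL_single] at e1 e2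
      rw [e1, e2, map_add, map_mul, map_mul, hc]

/-- shifting does not change the evaluation -/
theorem al_S (m : ℕ) (w : A R) (hw : Nat' w) (hF : FA (ap w)) : al m (S w) = al m w := by
  have h := coeff_mul_alt m w hw hF ((pts m).map (fun x => x)).prod
  rw [al, S, M_apply, h]
  have h1 : constantCoeff (((pts m).map (fun x => x)).prod) = (1 : ℚ) := by
    clear h
    induction m with
    | zero => simp [pts]
    | succ m ih =>
      rw [pts, List.map_cons, List.prod_cons, map_mul, ih]
      simp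
  rw [h1, one_mul]

lemma S_wordL (l : List ℕ) : S (wordL l) = wordL (l.map (fun a => a + 1)) := by
  induction l with
  | nil => exact map_one _
  | cons a l ih =>
    rw [wordL, List.map_cons, List.prod_cons, map_mul, S_tt]
    change tt (a + 1) * S (wordL l) = _
    rw [ih]
    rw [wordL, wordL, List.map_cons, List.map_cons, List.prod_cons]

lemma wordL_shift_mem (l : List ℕ) (s : ℕ) : wordL (l.map (fun a => a + s)) ∈ Sp l.length s := by
  apply wordL_mem'
  · simp
  · intro a ha
    rw [List.mem_map] at ha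
    obtain ⟨b, _, rfl⟩ := ha
    omega

/-- the evaluation is invariant under translation -/
theorem al_shift (l : List ℕ) (s : ℕ) : al l.length (wordL (l.map (fun a => a + s))) = al l.length (wordL l) := by
  induction s with
  | zero => simp
  | succ s ih =>
    have h := wordL_shift_mem l s
    rw [← ih, ← al_S l.length _ (Sp_nat h) (Sp_FA h), S_wordL, List.map_map]
    rfl

end A

end Pool.Agent.V11175.Sh
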