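import Pool.Agent.V11175.HadWill

/-!
# Orders 22 and 46
-/

set_option autoImplicit false

namespace Pool.Agent.V11175.Had

/-- a function on `ZMod 11` -/
def wa11 (g : ZMod 11) : ℤ := ([1, -1, 1, 1, -1, -1, -1, -1, 1, 1, -1] : List ℤ).getD g.val 0

/-- a function on `ZMod 11` -/
def wb11 (g : ZMod 11) : ℤ := ([1, 1, -1, 1, 1, -1, -1, 1, 1, -1, 1] : List ℤ).getD g.val 0

/-- a function on `ZMod 11` -/
def wc11 (g : ZMod 11) : ℤ := ([1, 1, -1, -1, -1, -1, -1, -1, -1, -1, 1] : List ℤ).getD g.val 0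

/-- a function on `ZMod 11` -/
def wd11 (g : ZMod 11) : ℤ := ([1, 1, -1, 1, -1, 1, 1, -1, 1, -1, 1] : List ℤ).getD g.val 0

theorem compl11 : Complementary wa11 wb11 wc11 wd11 := by
  unfold Complementary
  constructor
  · decide +kernel
  · decide +kernel

/-- a function on `ZMod 23` -/
def wa23 (g : ZMod 23) : ℤ := ([1, -1, 1, -1, -1, 1, 1, 1, 1, 1, -1, -1, -1, -1, 1, 1, 1, 1, 1, -1, -1, 1, -1] : List ℤ).getD g.val 0

/-- a function on `ZMod 23` -/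
def wb23 (g : ZMod 23) : ℤ := ([1, -1, 1, 1, 1, -1, -1, 1, 1, -1, 1, -1, -1, 1, -1, 1, 1, -1, -1, 1, 1, 1, -1] : List ℤ).getD g.val 0

/-- a function on `ZMod 23` -/
def wc23 (g : ZMod 23) : ℤ := ([1, -1, -1, 1, 1, -1, 1, -1, 1, -1, -1, -1, -1, -1, -1, 1, -1, 1, -1, 1, 1, -1, -1] : List ℤ).getD g.val 0

/-- a function on `ZMod 23` -/
def wd23 (g : ZMod 23) : ℤ := ([1, 1, 1, 1, 1, -1, 1, 1, -1, -1, -1, 1, 1, -1, -1, -1, 1, 1, -1, 1, 1, 1, 1] : List ℤ).getD g.val 0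

theorem compl23 : Complementary wa23 wb23 wc23 wd23 := by
  unfold Complementary
  constructor
  · decide +kernel
  · decide +kernel

end Pool.Agent.V11175.Had
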