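import Pool.Agent.V11175.Search32

/-!
# A Hadamard matrix of order 32

The Sylvester matrix with the signs of three quadruples of rows changed on eight columns each.
-/

set_option autoImplicit false

namespace Pool.Agent.V11175.Data32

open Finset Pool.Agent.V11175.Search32

/-- The rows, the ones of the binary expansion being the entries `-1`. -/
def rows : List ℕ := [0, 2863311530, 3435973836, 1717986918, 3537008760, 2021184210, 1010580540,
  2526451350, 4278255360, 1437226410, 869020620, 1771477350, 267390960, 2774181210, 3275539260,
  2573625750, 4294901760, 1431677610, 859032780, 3625658340, 252702960, 3827768280, 3789665460,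
  1263214110, 16776960, 2857719210, 2377216590, 2523502950, 2978827890, 1520805210, 1019462460,
  1721330070]

def row (i : ℕ) : ℕ := rows.getD i 0

def full : ℕ := 4294967295

/-- The matrix. -/
def H : Matrix (Fin 32) (Fin 32) ℤ := fun i j => if (row i).testBit j then -1 else 1

theorem H_sign (i j : Fin 32) : H i j = 1 ∨ H i j = -1 := by
  unfold H; split_ifs
  · right; rfl
  · left; rfl

theorem H_rows : ∀ i k : Fin 32, ∑ j, H i j * H k j = if i = k then 32 else 0 := by
  decide +kernel

theorem H_cols : ∀ j l : Fin 32, ∑ i, H i j * H i l = if j = l then 32 else 0 := by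
  decide +kernel

/-- The sets of the search: the columns where the rows `i` and `p` differ, and the other columns. -/
def E (p i : ℕ) : ℕ × ℕ := (row i ^^^ row p, row i ^^^ row p ^^^ full)

def L (p : Fin 32) : List (ℕ × ℕ) :=
  ((List.finRange 32).filter fun i => decide (i ≠ 0 ∧ i ≠ p)).map fun i : Fin 32 => E p i

def chk (p : Fin 32) : Bool := search (L p) 5 [row p] (4294967294 &&& (row p ^^^ full))

theorem chk_all : ∀ p : Fin 32, p ≠ 0 → chk p = false := by decide +kernel

theorem E_dis : ∀ p i : Fin 32, (E p i).1 &&& (E p i).2 = 0 := by decide +kernel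

/-! ### The translations of the columns -/

/-- The first column is constant; the translation by `w`. -/
def sh (w j : Fin 32) : Fin 32 := ⟨(j.val ^^^ w.val) % 32, Nat.mod_lt _ (by norm_num)⟩

def mv (x y w : ℕ) : ℕ :=
  if (row x).testBit w then (if (row y).testBit w then x ^^^ y else y)
  else (if (row y).testBit w then x else 0)

/-- The corresponding permutation of the rows. -/
def pm (w i : Fin 32) : Fin 32 :=
  ⟨(if i.val ∈ [4, 5, 22, 23] then i.val ^^^ mv 1 18 w
    else if i.val ∈ [11, 15, 27, 31] then i.val ^^^ mv 16 20 w
    else if i.val ∈ [19, 21, 26, 28] then i.val ^^^ mv 6 9 w else i.val) % 32,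
    Nat.mod_lt _ (by norm_num)⟩

theorem pm_zero : ∀ w : Fin 32, pm w 0 = 0 := by decide +kernel

theorem sh_self : ∀ w : Fin 32, sh w w = 0 := by decide +kernel

theorem trans : ∀ w i : Fin 32,
    (∀ j : Fin 32, (row i).testBit j = (row (pm w i)).testBit (sh w j)) ∨
    (∀ j : Fin 32, (row i).testBit j = !(row (pm w i)).testBit (sh w j)) := by decide +kernel

end Pool.Agent.V11175.Data32
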