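import Mathlib
import Pool.Agent.Helper99.RadCB

/-! Volume estimate for the determinant lower bound (MP_c6e1d2). -/

set_option autoImplicit false

namespace Pool.Agent.V11175.DL

open Finset Matrix

/-- Hadamard's inequality -/
theorem hadamard (d : ℕ) (M : Matrix (Fin d) (Fin d) ℝ) :
    |M.det| ≤ ∏ i, Real.sqrt (∑ j, M i j ^ 2) := by
  classical
  have : Fact (Module.finrank ℝ (EuclideanSpace ℝ (Fin d)) = d) := ⟨by simp⟩
  let b := EuclideanSpace.basisFun (Fin d) ℝ
  let o := b.toBasis.orientation
  let v : Fin d → EuclideanSpace ℝ (Fin d) := fun i => WithLp.toLp 2 (M i)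
  have h1 := o.abs_volumeForm_apply_le v
  rw [o.volumeForm_robust' b] at h1
  have h2 : b.toBasis.det v = M.det := by
    rw [Module.Basis.det_apply, ← Matrix.det_transpose]
    rfl
  rw [h2] at h1
  refine h1.trans (le_of_eq ?_)
  apply Finset.prod_congr rfl
  intro i _
  rw [EuclideanSpace.norm_eq]
  simp [v]

theorem hadamard_col {ι : Type*} [Fintype ι] [DecidableEq ι] (M : Matrix ι ι ℝ) :
    |M.det| ≤ ∏ i, Real.sqrt (∑ j, M j i ^ 2) := by
  let e := Fintype.equivFin ι
  have h := hadamard _ (Mᵀ.submatrix e.symm e.symm)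
  rw [Matrix.det_submatrix_equiv_self, Matrix.det_transpose] at h
  refine h.trans (le_of_eq ?_)
  rw [← Equiv.prod_comp e.symm (fun i => Real.sqrt (∑ j, M j i ^ 2))]
  apply Finset.prod_congr rfl
  intro i _
  congr 1
  rw [← Equiv.sum_comp e.symm (fun j => M j (e.symm i) ^ 2)]
  rfl

lemma sumsub {k : ℕ} (F : Finset (Fin k)) (I : Fintype {a // a ∈ F}) (f : Fin k → ℝ) :
    @Finset.sum {a // a ∈ F} ℝ _ (@Finset.univ _ I) (fun i => f i.1) = ∑ a ∈ F, f a := by
  have : I = Finset.Subtype.fintype F := Subsingleton.elim _ _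
  subst this
  exact Finset.sum_coe_sort F f

lemma prodsub {k : ℕ} (F : Finset (Fin k)) (I : Fintype {a // a ∈ F}) (f : Fin k → ℝ) :
    @Finset.prod {a // a ∈ F} ℝ _ (@Finset.univ _ I) (fun i => f i.1) = ∏ a ∈ F, f a := by
  have : I = Finset.Subtype.fintype F := Subsingleton.elim _ _
  subst this
  exact Finset.prod_coe_sort F f

theorem vol {k : ℕ} (B U : Matrix (Fin k) (Fin k) ℝ) (hU : Uᵀ * U = 1) (F : Finset (Fin k))
    (m : ℝ) (hm : ∀ f g : Fin (k - F.card) → Fin k, |(B.submatrix f g).det| ≤ m) :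
    |B.det| ≤ (∏ i ∈ F, Real.sqrt (∑ t, (B * U) t i ^ 2)) * (4 ^ k * m) := by
  classical
  set V := B * U with hV
  have hUdet : |U.det| = 1 := by
    have h := congrArg Matrix.det hU
    rw [Matrix.det_mul, Matrix.det_transpose, Matrix.det_one] at h
    have h2 : |U.det| * |U.det| = 1 := by rw [← abs_mul, h, abs_one]
    have h3 := abs_nonneg U.det
    nlinarith
  have hVdet : |V.det| = |B.det| := by rw [hV, Matrix.det_mul, abs_mul, hUdet, mul_one]
  let E := EuclideanSpace ℝ (Fin k)
  let v : Fin k → E := fun i => WithLp.toLp 2 (fun t => V t i)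
  let S : Submodule ℝ E := Submodule.span ℝ ((F.image v : Finset E) : Set E)
  have hS : Module.finrank ℝ S ≤ F.card :=
    (finrank_span_finset_le_card (R := ℝ) (F.image v)).trans Finset.card_image_le
  have hSp : Module.finrank ℝ S + Module.finrank ℝ Sᗮ = k := by
    have := Submodule.finrank_add_finrank_orthogonal S
    simpa [E] using this
  let w := stdOrthonormalBasis ℝ Sᗮ
  have hcard : Fintype.card {i // i ∉ F} = k - F.card := by
    rw [Fintype.card_subtype_compl, Fintype.card_fin]
    simp
  let ee : {i // i ∉ F} ≃ Fin (k - F.card) := Fintype.equivFinOfCardEq hcard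
  have hle : k - F.card ≤ Module.finrank ℝ Sᗮ := by omega
  let v' : Fin k → E := fun i => if h : i ∈ F then 0 else (w (Fin.castLE hle (ee ⟨i, h⟩)) : E)
  have hv' : Orthonormal ℝ (({i | i ∉ F} : Set (Fin k)).domRestrict v') := by
    have h1 : (({i | i ∉ F} : Set (Fin k)).domRestrict v') =
        fun i : {i | i ∉ F} => ((w (Fin.castLE hle (ee ⟨i.1, i.2⟩)) : Sᗮ) : E) := by
      funext i
      exact dif_neg i.2
    rw [h1]
    have h2 : Orthonormal ℝ (fun a : Fin (Module.finrank ℝ Sᗮ) => ((w a : Sᗮ) : E)) :=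
      w.orthonormal.comp_linearIsometry Sᗮ.subtypeₗᵢ
    refine h2.comp (fun i : {i | i ∉ F} => Fin.castLE hle (ee ⟨i.1, i.2⟩)) ?_
    intro i j hij
    have h3 := (Fin.castLE_injective hle) hij
    have h4 := ee.injective h3
    exact Subtype.ext (congrArg Subtype.val h4)
  obtain ⟨b, hb⟩ := Orthonormal.exists_orthonormalBasis_extension_of_card_eq
    (𝕜 := ℝ) (E := E) (by simp [E]) hv'
  let W : Matrix (Fin k) (Fin k) ℝ := Matrix.of fun a t => b a t
  have hin : ∀ x y : E, inner ℝ x y = ∑ t, x t * y t := by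
    intro x y
    rw [PiLp.inner_apply]
    apply Finset.sum_congr rfl
    intro t _
    simp [mul_comm]
  have hWW : W * Wᵀ = 1 := by
    ext a c
    rw [Matrix.mul_apply]
    have h1 : ∑ t, W a t * Wᵀ t c = inner ℝ (b a) (b c) := by
      rw [hin]; rfl
    rw [h1, orthonormal_iff_ite.1 b.orthonormal a c, Matrix.one_apply]
  have hWW' : Wᵀ * W = 1 := mul_eq_one_comm.1 hWW
  have hWdet : |W.det| = 1 := by
    have h := congrArg Matrix.det hWW
    rw [Matrix.det_mul, Matrix.det_transpose, Matrix.det_one] at h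
    have h2 : |W.det| * |W.det| = 1 := by rw [← abs_mul, h, abs_one]
    have h3 := abs_nonneg W.det
    nlinarith
  set N := W * V with hN
  have hNdet : |N.det| = |B.det| := by rw [hN, Matrix.det_mul, abs_mul, hWdet, one_mul, hVdet]
  have hNapp : ∀ a i, N a i = inner ℝ (b a) (v i) := by
    intro a i
    rw [hN, Matrix.mul_apply, hin]
    rfl
  have hzero : ∀ a, ¬ a ∈ F → ∀ i, i ∈ F → N a i = 0 := by
    intro a ha i hi
    rw [hNapp, hb a ha]
    have h1 : v' a ∈ Sᗮ := by
      simp only [v', dif_neg ha]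
      exact (w _).2
    have h2 : v i ∈ S := Submodule.subset_span (by
      simp only [Finset.coe_image]
      exact ⟨i, hi, rfl⟩)
    exact Submodule.inner_left_of_mem_orthogonal h2 h1
  have hdet := Matrix.twoBlockTriangular_det N (fun i => i ∈ F) hzero
  rw [← hNdet, hdet, abs_mul]
  have hcols : ∀ i, ∑ a, N a i ^ 2 = ∑ t, V t i ^ 2 := by
    intro i
    have h1 : Nᵀ * N = Vᵀ * V := by
      rw [hN, Matrix.transpose_mul, Matrix.mul_assoc, ← Matrix.mul_assoc Wᵀ, hWW', Matrix.one_mul]
    have h2 := congrFun (congrFun h1 i) i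
    simp only [Matrix.mul_apply, Matrix.transpose_apply] at h2
    simpa [sq] using h2
  apply mul_le_mul _ _ (abs_nonneg _) (Finset.prod_nonneg fun i _ => Real.sqrt_nonneg _)
  · refine (@hadamard_col _ (Subtype.fintype fun i => i ∈ F) _ _).trans ?_
    refine le_of_le_of_eq ?_ (prodsub F (Subtype.fintype fun i => i ∈ F)
      (fun i => Real.sqrt (∑ t, V t i ^ 2)))
    apply Finset.prod_le_prod
    · intro i _; exact Real.sqrt_nonneg _
    · intro i _
      apply Real.sqrt_le_sqrt
      rw [← hcols]
      refine (sumsub F (Subtype.fintype fun i => i ∈ F) (fun a => N a i.1 ^ 2)).le.trans ?_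
      exact Finset.sum_le_sum_of_subset_of_nonneg (Finset.subset_univ _)
          (fun _ _ _ => sq_nonneg _)
  · -- the second block
    let e : Fin (k - F.card) ≃ {a // ¬ a ∈ F} := ee.symm
    have h1 : (Matrix.toSquareBlockProp N fun i => ¬ i ∈ F).det =
        ((Matrix.of fun (a : Fin (k - F.card)) (t : Fin k) => W (e a) t) *
          (Matrix.of fun (t : Fin k) (i : Fin (k - F.card)) => V t (e i))).det := by
      rw [← Matrix.det_submatrix_equiv_self e]
      congr 1
    rw [h1]
    have hr : k - F.card ≤ k := Nat.sub_le _ _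
    obtain ⟨L, hL⟩ := Pool.Agent.Helper99.Rad.cauchy_binet_bound (k - F.card) k hr
      (Matrix.of fun (a : Fin (k - F.card)) (t : Fin k) => W (e a) t) (by
        intro a
        have h2 := congrFun (congrFun hWW (e a)) (e a)
        simp only [Matrix.mul_apply, Matrix.transpose_apply, Matrix.one_apply_eq] at h2
        simp only [Matrix.of_apply, sq]
        exact h2.le)
      (Matrix.of fun (t : Fin k) (i : Fin (k - F.card)) => V t (e i))
    refine hL.trans ?_
    obtain ⟨L', hL'⟩ := Pool.Agent.Helper99.Rad.cauchy_binet_bound (k - F.card) k hr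
      (Matrix.of fun (i : Fin (k - F.card)) (t : Fin k) => U t (e i)) (by
        intro a
        have h2 := congrFun (congrFun hU (e a)) (e a)
        simp only [Matrix.mul_apply, Matrix.transpose_apply, Matrix.one_apply_eq] at h2
        simp only [Matrix.of_apply, sq]
        exact h2.le)
      (Matrix.of fun (t : Fin k) (a : Fin (k - F.card)) => B (L a) t)
    have h3 : ((Matrix.of fun (t : Fin k) (i : Fin (k - F.card)) => V t (e i)).submatrix L id).det =
        ((Matrix.of fun (i : Fin (k - F.card)) (t : Fin k) => U t (e i)) *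
          (Matrix.of fun (t : Fin k) (a : Fin (k - F.card)) => B (L a) t)).det := by
      rw [← Matrix.det_transpose]
      congr 1
      ext i a
      simp [hV, Matrix.mul_apply, mul_comm]
    rw [h3]
    have h4 : ((Matrix.of fun (t : Fin k) (a : Fin (k - F.card)) => B (L a) t).submatrix L' id).det =
        (B.submatrix L L').det := by
      rw [← Matrix.det_transpose]
      congr 1
    rw [h4] at hL'
    have h5 := hm L L'
    have h6 : (0 : ℝ) ≤ 2 ^ k := by positivity
    calc _ ≤ 2 ^ k * (2 ^ k * |(B.submatrix L L').det|) := mul_le_mul_of_nonneg_left hL' h6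
      _ ≤ 2 ^ k * (2 ^ k * m) := by gcongr
      _ = 4 ^ k * m := by
        rw [show (4 : ℝ) = 2 * 2 by norm_num, mul_pow]; ring

end Pool.Agent.V11175.DL
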