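import Mathlib
import Pool.Agent.W702.Two.Barrier

/-! Restricted invertibility for projections of small corank, from the two-paving theorem. -/

set_option autoImplicit false

namespace Pool.Agent.V11175.DL

open Finset Matrix

/-- **Restricted invertibility** (from the two-paving theorem `Pool.Agent.W702.Two.pave2`). -/
theorem ri {k : ℕ} (Q : Matrix (Fin k) (Fin k) ℝ) (hs : Qᵀ = Q) (hQ : Q * Q = Q)
    (htr : 16 * Q.trace ≤ k) :
    ∃ T : Finset (Fin k), (k : ℝ) ≤ 4 * (T.card : ℝ) ∧
      ∀ z : Fin k → ℝ, (∀ i, i ∉ T → z i = 0) →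
        ∑ i, ∑ j, z i * Q i j * z j ≤ (1 - 25 / 432) * ∑ i, z i ^ 2 := by
  classical
  have hsym : ∀ i j, Q i j = Q j i := fun i j => by
    have := congrFun (congrFun hs j) i
    simpa using this
  have hdiag : ∀ i, Q i i = ∑ j, Q i j ^ 2 := by
    intro i
    have := congrFun (congrFun hQ i) i
    rw [Matrix.mul_apply] at this
    rw [← this]
    apply Finset.sum_congr rfl
    intro j _
    rw [hsym j i]; ring
  have hd0 : ∀ i, 0 ≤ Q i i := fun i => by rw [hdiag]; exact Finset.sum_nonneg fun j _ => sq_nonneg _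
  have hd1 : ∀ i, Q i i ≤ 1 := by
    intro i
    have h1 : Q i i ^ 2 ≤ Q i i := by
      conv_rhs => rw [hdiag]
      exact Finset.single_le_sum (f := fun j => Q i j ^ 2) (fun j _ => sq_nonneg _) (Finset.mem_univ i)
    nlinarith [hd0 i]
  set J : Finset (Fin k) := Finset.univ.filter fun i => Q i i ≤ 1 / 8 with hJ
  have hJcard : (k : ℝ) ≤ 2 * (J.card : ℝ) := by
    have h1 : ∑ i ∈ Finset.univ.filter (fun i => ¬ Q i i ≤ 1 / 8), (1 / 8 : ℝ) ≤ Q.trace := by
      unfold Matrix.trace
      refine (Finset.sum_le_sum (g := fun i => Q i i) ?_).trans ?_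
      · intro i hi
        simp only [Finset.mem_filter, Finset.mem_univ, true_and, not_le] at hi
        exact hi.le
      · exact Finset.sum_le_sum_of_subset_of_nonneg (Finset.subset_univ _) (fun i _ _ => hd0 i)
    rw [Finset.sum_const, nsmul_eq_mul] at h1
    have h2 : J.card + (Finset.univ.filter (fun i => ¬ Q i i ≤ 1 / 8)).card = k := by
      have := Finset.card_filter_add_card_filter_not (s := (Finset.univ : Finset (Fin k)))
        (fun i => Q i i ≤ 1 / 8)
      simpa [hJ] using this
    have h3 : (J.card : ℝ) + ((Finset.univ.filter (fun i => ¬ Q i i ≤ 1 / 8)).card : ℝ) = k := by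
      exact_mod_cast h2
    linarith
  -- weights
  let w : Fin k × Fin 8 → ℝ := fun x => if x.1 ∈ J then (if x.2 = 0 then 1 else 0) else 1 / Real.sqrt 8
  have hs8 : (1 / Real.sqrt 8) ^ 2 = 1 / 8 := by
    rw [div_pow, one_pow, Real.sq_sqrt (by norm_num)]
  have hw1 : ∀ i, ∑ b, w (i, b) ^ 2 = 1 := by
    intro i
    by_cases hi : i ∈ J
    · simp [w, hi]
    · simp only [w, hi, if_false, hs8]
      simp
  let Q' : Matrix (Fin k × Fin 8) (Fin k × Fin 8) ℂ :=
    Matrix.of fun x y => ((w x * Q x.1 y.1 * w y : ℝ) : ℂ)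
  have hH : Q'.IsHermitian := by
    ext x y
    simp only [Q', Matrix.conjTranspose_apply, Matrix.of_apply]
    rw [Complex.star_def, Complex.conj_ofReal, hsym y.1 x.1]
    congr 1; ring
  have hQQ : Q' * Q' = Q' := by
    ext x y
    simp only [Q', Matrix.mul_apply, Matrix.of_apply]
    have h1 : ∀ z : Fin k × Fin 8, ((w x * Q x.1 z.1 * w z : ℝ) : ℂ) * ((w z * Q z.1 y.1 * w y : ℝ) : ℂ) =
        ((w x * w y * (Q x.1 z.1 * Q z.1 y.1) * w z ^ 2 : ℝ) : ℂ) := by
      intro z; push_cast; ring
    rw [Finset.sum_congr rfl (fun z _ => h1 z), ← Complex.ofReal_sum]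
    congr 1
    rw [Fintype.sum_prod_type]
    have h2 : ∀ l : Fin k, ∑ b : Fin 8, w x * w y * (Q x.1 l * Q l y.1) * w (l, b) ^ 2 =
        w x * w y * (Q x.1 l * Q l y.1) := by
      intro l
      rw [← Finset.mul_sum, hw1, mul_one]
    rw [Finset.sum_congr rfl (fun l _ => h2 l), ← Finset.mul_sum]
    have h3 := congrFun (congrFun hQ x.1) y.1
    rw [Matrix.mul_apply] at h3
    rw [h3]; ring
  let a : Fin k × Fin 8 → ℝ := fun x => w x ^ 2 * Q x.1 x.1
  obtain ⟨σ, hσ⟩ := Pool.Agent.W702.Two.pave2 (α := 1 / 8) (by norm_num) (by norm_num) hH hQQ a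
    (by
      intro x
      simp only [Q', Matrix.of_apply, a]
      congr 1; ring)
    (fun x => mul_nonneg (sq_nonneg _) (hd0 _))
    (by
      intro x
      simp only [a, w]
      by_cases hx : x.1 ∈ J
      · have h1 : Q x.1 x.1 ≤ 1 / 8 := by
          simpa [hJ] using hx
        by_cases hb : x.2 = 0
        · simp [hx, hb]; linarith
        · simp [hx, hb]
      · rw [if_neg hx, hs8]
        have := hd1 x.1
        linarith)
  have hJ2 : ∃ c : Fin 2, (J.card : ℝ) ≤ 2 * ((J.filter fun j => σ (j, 0) = c).card : ℝ) := by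
    by_contra hno
    push Not at hno
    have h0 := hno 0
    have h1 := hno 1
    have h2 : J.card = (J.filter fun j => σ (j, 0) = 0).card + (J.filter fun j => σ (j, 0) = 1).card := by
      rw [← Finset.card_filter_add_card_filter_not (s := J) (fun j => σ (j, 0) = 0)]
      congr 2
      ext j
      simp only [Finset.mem_filter, and_congr_right_iff]
      intro _
      have := (σ (j, 0)).isLt
      omega
    have h3 : (J.card : ℝ) = ((J.filter fun j => σ (j, 0) = 0).card : ℝ) +
        ((J.filter fun j => σ (j, 0) = 1).card : ℝ) := by exact_mod_cast h2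
    linarith
  obtain ⟨c, hc⟩ := hJ2
  refine ⟨J.filter fun j => σ (j, 0) = c, by linarith, ?_⟩
  intro z hz
  have h := hσ c (fun x => if x.2 = 0 then (z x.1 : ℂ) else 0) (by
    intro x hx
    by_cases hb : x.2 = 0
    · have hxx : x = (x.1, 0) := by ext <;> simp [hb]
      have : x.1 ∉ J.filter fun j => σ (j, 0) = c := by
        intro hmem
        rw [Finset.mem_filter] at hmem
        rw [hxx] at hx
        exact hx hmem.2
      simp [hb, hz x.1 this]
    · simp [hb])
  have hzJ : ∀ i, z i ≠ 0 → w (i, 0) = 1 := by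
    intro i hi
    have : i ∈ J.filter fun j => σ (j, 0) = c := by
      by_contra hno
      exact hi (hz i hno)
    rw [Finset.mem_filter] at this
    simp [w, this.1]
  have e1 : (star (fun x : Fin k × Fin 8 => if x.2 = 0 then (z x.1 : ℂ) else 0) ⬝ᵥ
      (Q' *ᵥ fun x : Fin k × Fin 8 => if x.2 = 0 then (z x.1 : ℂ) else 0)).re =
      ∑ i, ∑ j, z i * Q i j * z j := by
    let ξ : Fin k × Fin 8 → ℝ := fun x => if x.2 = 0 then z x.1 else 0
    have hξ : (fun x : Fin k × Fin 8 => if x.2 = 0 then (z x.1 : ℂ) else 0) = fun x => (ξ x : ℂ) := by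
      funext x
      simp only [ξ]
      split_ifs <;> simp
    rw [hξ]
    have h1 : (star (fun x => (ξ x : ℂ)) ⬝ᵥ (Q' *ᵥ fun x => (ξ x : ℂ))) =
        ((∑ x, ∑ y, ξ x * (w x * Q x.1 y.1 * w y) * ξ y : ℝ) : ℂ) := by
      simp only [dotProduct, Matrix.mulVec, Pi.star_apply, Q', Matrix.of_apply]
      rw [Complex.ofReal_sum]
      apply Finset.sum_congr rfl
      intro x _
      rw [Complex.ofReal_sum, Finset.mul_sum]
      apply Finset.sum_congr rfl
      intro y _
      rw [Complex.star_def, Complex.conj_ofReal]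
      push_cast; ring
    rw [h1, Complex.ofReal_re, Fintype.sum_prod_type]
    apply Finset.sum_congr rfl
    intro i _
    have h2 : ∀ b : Fin 8, ∑ y : Fin k × Fin 8, ξ (i, b) * (w (i, b) * Q (i, b).1 y.1 * w y) * ξ y =
        if b = 0 then ∑ j, z i * Q i j * z j else 0 := by
      intro b
      by_cases hb : b = 0
      · subst hb
        rw [if_pos rfl, Fintype.sum_prod_type]
        apply Finset.sum_congr rfl
        intro j _
        have h3 : ∀ b' : Fin 8, ξ (i, 0) * (w (i, 0) * Q i j * w (j, b')) * ξ (j, b') =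
            if b' = 0 then z i * Q i j * z j else 0 := by
          intro b'
          by_cases hb' : b' = 0
          · subst hb'
            simp only [ξ, if_true]
            by_cases h4 : z i = 0
            · simp [h4]
            · by_cases h5 : z j = 0
              · simp [h5]
              · rw [hzJ i h4, hzJ j h5]; simp
          · simp [ξ, hb']
        rw [Finset.sum_congr rfl (fun b' _ => h3 b')]
        simp
      · rw [if_neg hb]
        apply Finset.sum_eq_zero
        intro y _
        simp [ξ, hb]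
    rw [Finset.sum_congr rfl (fun b _ => h2 b)]
    simp
  have e2 : ∑ x : Fin k × Fin 8, ‖(if x.2 = 0 then (z x.1 : ℂ) else 0)‖ ^ 2 = ∑ i, z i ^ 2 := by
    rw [Fintype.sum_prod_type]
    apply Finset.sum_congr rfl
    intro i _
    have : ∀ b : Fin 8, ‖(if ((i, b) : Fin k × Fin 8).2 = 0 then (z ((i, b) : Fin k × Fin 8).1 : ℂ) else 0)‖ ^ 2 =
        if b = 0 then z i ^ 2 else 0 := by
      intro b
      by_cases hb : b = 0
      · simp [hb]
      · simp [hb]
    rw [Finset.sum_congr rfl (fun b _ => this b)]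
    simp
  rw [e1, e2] at h
  have h2 : (1 - (1 - 3 * (1 / 8 : ℝ)) ^ 2 / (6 * (1 + 1 / 8))) = 1 - 25 / 432 := by norm_num
  rw [h2] at h
  exact h

end Pool.Agent.V11175.DL
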