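import Mathlib

/-! Linear algebra for the determinant lower bound: spectral form, log-det maximiser. -/

set_option autoImplicit false

namespace Pool.Agent.V11175.DL

open Finset Matrix

variable {k : ℕ}

/-- quadratic form -/
def qf (X : Matrix (Fin k) (Fin k) ℝ) (z : Fin k → ℝ) : ℝ := ∑ i, ∑ j, z i * X i j * z j

lemma spec (M : Matrix (Fin k) (Fin k) ℝ) (hM : ∀ i j, M i j = M j i) :
    ∃ (U : Matrix (Fin k) (Fin k) ℝ) (μ : Fin k → ℝ), Uᵀ * U = 1 ∧ U * Uᵀ = 1 ∧
      M = U * diagonal μ * Uᵀ := by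
  have hH : M.IsHermitian := by
    ext i j
    simp [Matrix.conjTranspose_apply, hM j i]
  have h1 : (hH.eigenvectorUnitary : Matrix (Fin k) (Fin k) ℝ)ᵀ *
      (hH.eigenvectorUnitary : Matrix (Fin k) (Fin k) ℝ) = 1 := by
    have := Unitary.coe_star_mul_self hH.eigenvectorUnitary
    rw [Matrix.star_eq_conjTranspose, Matrix.conjTranspose_eq_transpose_of_trivial] at this
    exact this
  refine ⟨(hH.eigenvectorUnitary : Matrix (Fin k) (Fin k) ℝ), hH.eigenvalues, h1,
    mul_eq_one_comm.1 h1, ?_⟩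
  · have h := hH.spectral_theorem
    rw [Unitary.conjStarAlgAut_apply] at h
    rw [Matrix.star_eq_conjTranspose, Matrix.conjTranspose_eq_transpose_of_trivial] at h
    exact h

lemma qf_diag (U : Matrix (Fin k) (Fin k) ℝ) (μ z : Fin k → ℝ) :
    qf (U * diagonal μ * Uᵀ) z = ∑ l, μ l * (∑ i, U i l * z i) ^ 2 := by
  unfold qf
  have h : ∀ i j, z i * (U * diagonal μ * Uᵀ) i j * z j =
      ∑ l, μ l * ((U i l * z i) * (U j l * z j)) := by
    intro i j
    rw [Matrix.mul_apply, Finset.mul_sum, Finset.sum_mul]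
    apply Finset.sum_congr rfl
    intro l _
    rw [Matrix.mul_diagonal, Matrix.transpose_apply]
    ring
  simp only [h]
  have h2 : ∀ i, ∑ j, ∑ l, μ l * ((U i l * z i) * (U j l * z j)) =
      ∑ l, ∑ j, μ l * ((U i l * z i) * (U j l * z j)) := fun i => Finset.sum_comm
  simp only [h2]
  rw [Finset.sum_comm]
  apply Finset.sum_congr rfl
  intro l _
  rw [sq, Finset.sum_mul_sum, Finset.mul_sum]
  apply Finset.sum_congr rfl
  intro i _
  rw [Finset.mul_sum]

lemma qf_one (z : Fin k → ℝ) : qf (1 : Matrix (Fin k) (Fin k) ℝ) z = ∑ i, z i ^ 2 := by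
  unfold qf
  apply Finset.sum_congr rfl
  intro i _
  simp [Matrix.one_apply, sq]

lemma qf_add (X Y : Matrix (Fin k) (Fin k) ℝ) (z : Fin k → ℝ) :
    qf (X + Y) z = qf X z + qf Y z := by
  unfold qf
  rw [← Finset.sum_add_distrib]
  apply Finset.sum_congr rfl
  intro i _
  rw [← Finset.sum_add_distrib]
  apply Finset.sum_congr rfl
  intro j _
  simp [Matrix.add_apply]; ring

lemma qf_smul (c : ℝ) (X : Matrix (Fin k) (Fin k) ℝ) (z : Fin k → ℝ) :
    qf (c • X) z = c * qf X z := by
  unfold qf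
  rw [Finset.mul_sum]
  apply Finset.sum_congr rfl
  intro i _
  rw [Finset.mul_sum]
  apply Finset.sum_congr rfl
  intro j _
  simp [Matrix.smul_apply]; ring

lemma norm_eq {U : Matrix (Fin k) (Fin k) ℝ} (h : U * Uᵀ = 1) (z : Fin k → ℝ) :
    ∑ l, (∑ i, U i l * z i) ^ 2 = ∑ i, z i ^ 2 := by
  have h1 := qf_diag U (fun _ => 1) z
  have h2 : U * diagonal (fun _ => (1 : ℝ)) * Uᵀ = 1 := by
    rw [Matrix.diagonal_one, Matrix.mul_one, h]
  rw [h2, qf_one] at h1
  simpa using h1.symm

/-- the trace of a perturbation with no increase of the determinant -/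
lemma trace_nonpos (G : Matrix (Fin k) (Fin k) ℝ)
    (h : ∀ t : ℝ, 0 < t → t ≤ 1 → (1 + t • G).det ≤ 1) : G.trace ≤ 0 := by
  by_contra hpos
  push Not at hpos
  -- det (1 + t G) = 1 + tr G t + q(t) t²
  have hc : Continuous fun t : ℝ => G.trace +
      ((det (1 + (Polynomial.X : Polynomial ℝ) • G.map Polynomial.C)).divX.divX.eval t) * t := by
    fun_prop
  have h0 : (0 : ℝ) < G.trace +
      ((det (1 + (Polynomial.X : Polynomial ℝ) • G.map Polynomial.C)).divX.divX.eval 0) * 0 := by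
    simpa using hpos
  have hev := hc.continuousAt.eventually (lt_mem_nhds h0)
  rw [Metric.eventually_nhds_iff] at hev
  obtain ⟨e, he, hev⟩ := hev
  set t := min (e / 2) 1 with ht
  have ht0 : 0 < t := by positivity
  have ht1 : t ≤ 1 := min_le_right _ _
  have hte : t < e := lt_of_le_of_lt (min_le_left _ _) (by linarith)
  have h1 := hev (y := t) (by rw [Real.dist_eq, sub_zero, abs_of_pos ht0]; exact hte)
  have h2 := h t ht0 ht1
  rw [Matrix.det_one_add_smul] at h2
  nlinarith [mul_pos ht0 h1]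

/-- AM-GM in the form needed -/
lemma amgm {ι : Type*} (F : Finset ι) (s : ι → ℝ) (hs : ∀ i ∈ F, 0 ≤ s i) (c : ℝ) (hc : 0 < c)
    (h : ∑ i ∈ F, s i ≤ (F.card : ℝ) * c) : ∏ i ∈ F, s i ≤ c ^ F.card := by
  have h1 : ∏ i ∈ F, (s i / c) ≤ ∏ i ∈ F, Real.exp (s i / c - 1) := by
    apply Finset.prod_le_prod
    · intro i hi; exact div_nonneg (hs i hi) hc.le
    · intro i hi
      have := Real.add_one_le_exp (s i / c - 1)
      linarith
  rw [← Real.exp_sum, Finset.prod_div_distrib, Finset.prod_const, Finset.sum_sub_distrib,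
    ← Finset.sum_div] at h1
  have h2 : Real.exp ((∑ i ∈ F, s i) / c - ∑ i ∈ F, (1 : ℝ)) ≤ 1 := by
    rw [Real.exp_le_one_iff]
    simp only [Finset.sum_const, nsmul_eq_mul, mul_one]
    rw [sub_nonpos, div_le_iff₀ hc]
    exact h
  have h3 := h1.trans h2
  rwa [div_le_one (by positivity)] at h3

/-- The convex body of admissible Gram matrices. -/
def K0 (B : Matrix (Fin k) (Fin k) ℝ) (lam : ℝ) : Set (Matrix (Fin k) (Fin k) ℝ) :=
  {X | (∀ i j, X i j = X j i) ∧ (∀ z : Fin k → ℝ, 0 ≤ qf X z) ∧ (∀ i, X i i ≤ 1) ∧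
    ∀ i, qf X (B i) ≤ lam ^ 2}

lemma K0_compact (B : Matrix (Fin k) (Fin k) ℝ) (lam : ℝ) : IsCompact (K0 B lam) := by
  have hcomp : IsCompact (Set.pi Set.univ fun _ : Fin k => Set.pi Set.univ fun _ : Fin k =>
      Set.Icc (-1 : ℝ) 1) :=
    isCompact_univ_pi fun _ => isCompact_univ_pi fun _ => isCompact_Icc
  refine IsCompact.of_isClosed_subset (s := Set.pi Set.univ fun _ : Fin k =>
    Set.pi Set.univ fun _ : Fin k => Set.Icc (-1 : ℝ) 1) hcomp ?_ ?_
  · have he : ∀ i j : Fin k, Continuous fun X : Matrix (Fin k) (Fin k) ℝ => X i j :=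
      fun i j => continuous_id.matrix_elem i j
    have hq : ∀ z : Fin k → ℝ, Continuous fun X : Matrix (Fin k) (Fin k) ℝ => qf X z := by
      intro z
      unfold qf
      exact continuous_finsetSum _ fun i _ => continuous_finsetSum _ fun j _ =>
        (continuous_const.mul (he i j)).mul continuous_const
    unfold K0
    simp only [Set.ofPred_and, Set.ofPred_forall]
    refine IsClosed.inter (isClosed_iInter fun i => isClosed_iInter fun j =>
      isClosed_eq (he i j) (he j i)) (IsClosed.inter (isClosed_iInter fun z =>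
      isClosed_le continuous_const (hq z)) (IsClosed.inter (isClosed_iInter fun i =>
      isClosed_le (he i i) continuous_const) (isClosed_iInter fun i =>
      isClosed_le (hq _) continuous_const)))
  · rintro X ⟨hsym, hpos, hdiag, -⟩
    simp only [Set.mem_pi, Set.mem_univ, true_implies, Set.mem_Icc]
    intro i j
    -- test vectors e_i ± e_j
    have key : ∀ s : ℝ, qf X (fun a => (if a = i then 1 else 0) + s * (if a = j then 1 else 0)) =
        X i i + s * X i j + s * X j i + s ^ 2 * X j j := by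
      intro s
      unfold qf
      simp only [add_mul, mul_add, Finset.sum_add_distrib, ite_mul, mul_ite, one_mul, mul_one,
        zero_mul, mul_zero, Finset.sum_ite_eq', Finset.mem_univ, if_true]
      ring
    have h1 := hpos (fun a => (if a = i then 1 else 0) + 1 * (if a = j then 1 else 0))
    have h2 := hpos (fun a => (if a = i then 1 else 0) + (-1) * (if a = j then 1 else 0))
    rw [key] at h1 h2
    have h3 := hdiag i
    have h4 := hdiag j
    have h5 := hsym j i
    constructor <;> nlinarith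

lemma K0_convex (B : Matrix (Fin k) (Fin k) ℝ) (lam : ℝ) {X Z : Matrix (Fin k) (Fin k) ℝ}
    (hX : X ∈ K0 B lam) (hZ : Z ∈ K0 B lam) {t : ℝ} (h0 : 0 ≤ t) (h1 : t ≤ 1) :
    X + t • (Z - X) ∈ K0 B lam := by
  have e : X + t • (Z - X) = (1 - t) • X + t • Z := by
    rw [smul_sub, sub_smul, one_smul]; abel
  rw [e]
  obtain ⟨a1, a2, a3, a4⟩ := hX
  obtain ⟨b1, b2, b3, b4⟩ := hZ
  have ht : 0 ≤ 1 - t := by linarith
  refine ⟨fun i j => ?_, fun z => ?_, fun i => ?_, fun i => ?_⟩
  · simp [Matrix.add_apply, Matrix.smul_apply, a1 i j, b1 i j]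
  · rw [qf_add, qf_smul, qf_smul]
    exact add_nonneg (mul_nonneg ht (a2 z)) (mul_nonneg h0 (b2 z))
  · simp only [Matrix.add_apply, Matrix.smul_apply, smul_eq_mul]
    nlinarith [a3 i, b3 i]
  · rw [qf_add, qf_smul, qf_smul]
    nlinarith [a4 i, b4 i]

end Pool.Agent.V11175.DL
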