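import Mathlib
import Pool.Agent.V11175.DL1
import Pool.Agent.V11175.DL2
import Pool.Agent.V11175.DL3

/-! The determinant lower bound is at most a constant times the hereditary partial vector discrepancy. -/

set_option autoImplicit false

namespace Pool.Agent.V11175.DL

open Finset Matrix

variable {k : ℕ}

/-- Gram matrix -/
def gram {d : ℕ} (v : Fin k → EuclideanSpace ℝ (Fin d)) : Matrix (Fin k) (Fin k) ℝ :=
  Matrix.of fun a b => ∑ r, v a r * v b r

lemma gram_qf {d : ℕ} (v : Fin k → EuclideanSpace ℝ (Fin d)) (z : Fin k → ℝ) :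
    qf (gram v) z = ∑ r, (∑ a, z a * v a r) ^ 2 := by
  unfold qf gram
  have h : ∀ i j, z i * (Matrix.of fun a b => ∑ r, v a r * v b r) i j * z j =
      ∑ r, (z i * v i r) * (z j * v j r) := by
    intro i j
    rw [Matrix.of_apply, Finset.mul_sum, Finset.sum_mul]
    apply Finset.sum_congr rfl
    intro r _; ring
  simp only [h]
  have h2 : ∀ i, ∑ j, ∑ r, (z i * v i r) * (z j * v j r) =
      ∑ r, ∑ j, (z i * v i r) * (z j * v j r) := fun i => Finset.sum_comm
  simp only [h2]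
  rw [Finset.sum_comm]
  apply Finset.sum_congr rfl
  intro r _
  rw [sq, Finset.sum_mul_sum]

lemma norm_comb {d : ℕ} (v : Fin k → EuclideanSpace ℝ (Fin d)) (z : Fin k → ℝ) :
    ‖∑ a, z a • v a‖ ^ 2 = ∑ r, (∑ a, z a * v a r) ^ 2 := by
  rw [EuclideanSpace.norm_sq_eq]
  apply Finset.sum_congr rfl
  intro r _
  rw [Real.norm_eq_abs, sq_abs]
  congr 1
  simp

lemma gram_mem (B : Matrix (Fin k) (Fin k) ℝ) (lam : ℝ) {d : ℕ}
    (v : Fin k → EuclideanSpace ℝ (Fin d)) (h1 : ∀ i, ‖∑ a, B i a • v a‖ ^ 2 ≤ lam ^ 2)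
    (h2 : ∀ a, ‖v a‖ ^ 2 ≤ 1) : gram v ∈ K0 B lam := by
  refine ⟨fun i j => ?_, fun z => ?_, fun i => ?_, fun i => ?_⟩
  · simp only [gram, Matrix.of_apply]
    exact Finset.sum_congr rfl fun r _ => mul_comm _ _
  · rw [gram_qf]; exact Finset.sum_nonneg fun r _ => sq_nonneg _
  · have := h2 i
    rw [EuclideanSpace.norm_sq_eq] at this
    simp only [gram, Matrix.of_apply]
    simpa [sq] using this
  · rw [gram_qf, ← norm_comb]; exact h1 i

lemma trace_conj {U : Matrix (Fin k) (Fin k) ℝ} (h : Uᵀ * U = 1) (d : Fin k → ℝ) :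
    (U * diagonal d * Uᵀ).trace = ∑ l, d l := by
  rw [Matrix.trace_mul_comm, ← Matrix.mul_assoc, h, Matrix.one_mul, Matrix.trace_diagonal]

lemma conj_mul {U : Matrix (Fin k) (Fin k) ℝ} (h : Uᵀ * U = 1) (d e : Fin k → ℝ) :
    (U * diagonal d * Uᵀ) * (U * diagonal e * Uᵀ) = U * diagonal (fun l => d l * e l) * Uᵀ := by
  calc _ = U * diagonal d * (Uᵀ * U) * diagonal e * Uᵀ := by simp only [Matrix.mul_assoc]
    _ = U * (diagonal d * diagonal e) * Uᵀ := by rw [h, Matrix.mul_one]; simp only [Matrix.mul_assoc]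
    _ = _ := by rw [Matrix.diagonal_mul_diagonal]

lemma kkt (B : Matrix (Fin k) (Fin k) ℝ) (lam ε : ℝ) (hε : 0 < ε) :
    ∃ (X U : Matrix (Fin k) (Fin k) ℝ) (μ : Fin k → ℝ), X ∈ K0 B lam ∧ Uᵀ * U = 1 ∧ U * Uᵀ = 1 ∧
      X = U * diagonal μ * Uᵀ ∧ (∀ l, 0 ≤ μ l) ∧
      ∀ Z ∈ K0 B lam, (U * diagonal (fun l => 1 / (ε + μ l)) * Uᵀ * Z).trace ≤ k := by
  have h0 : (0 : Matrix (Fin k) (Fin k) ℝ) ∈ K0 B lam := by
    refine ⟨fun i j => rfl, fun z => ?_, fun i => ?_, fun i => ?_⟩
    · simp [qf]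
    · simp
    · simp [qf, sq_nonneg]
  obtain ⟨X, hX, hmax⟩ := (K0_compact B lam).exists_isMaxOn ⟨0, h0⟩
    (f := fun Y : Matrix (Fin k) (Fin k) ℝ => (ε • (1 : Matrix (Fin k) (Fin k) ℝ) + Y).det)
    (by
      apply Continuous.continuousOn
      exact (continuous_const.add continuous_id).matrix_det)
  obtain ⟨U, μ, hU1, hU2, hXU⟩ := spec X hX.1
  have hμ : ∀ l, 0 ≤ μ l := by
    intro l
    have h1 := hX.2.1 (fun i => U i l)
    rw [hXU, qf_diag] at h1
    have h2 : ∀ l', (∑ i, U i l' * U i l) = if l' = l then 1 else 0 := by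
      intro l'
      have := congrFun (congrFun hU1 l') l
      rw [Matrix.mul_apply, Matrix.one_apply] at this
      simpa using this
    simp only [h2] at h1
    simpa using h1
  refine ⟨X, U, μ, hX, hU1, hU2, hXU, hμ, ?_⟩
  intro Z hZ
  have hone : ε • (1 : Matrix (Fin k) (Fin k) ℝ) = U * diagonal (fun _ => ε) * Uᵀ := by
    have : diagonal (fun _ : Fin k => ε) = ε • (1 : Matrix (Fin k) (Fin k) ℝ) := by
      rw [Matrix.smul_one_eq_diagonal]
    rw [this, Matrix.mul_smul, Matrix.mul_one, Matrix.smul_mul, hU2]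
  have hM : ε • (1 : Matrix (Fin k) (Fin k) ℝ) + X = U * diagonal (fun l => ε + μ l) * Uᵀ := by
    rw [hone, hXU, ← Matrix.add_mul, ← Matrix.mul_add, Matrix.diagonal_add]
  have hpos : ∀ l, 0 < ε + μ l := fun l => by linarith [hμ l]
  have hinv : (ε • (1 : Matrix (Fin k) (Fin k) ℝ) + X) *
      (U * diagonal (fun l => 1 / (ε + μ l)) * Uᵀ) = 1 := by
    rw [hM, conj_mul hU1]
    have : (fun l => (ε + μ l) * (1 / (ε + μ l))) = fun _ => (1 : ℝ) := by
      funext l
      have := (hpos l).ne'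
      field_simp
    rw [this, Matrix.diagonal_one, Matrix.mul_one, hU2]
  have hdet : 0 < (ε • (1 : Matrix (Fin k) (Fin k) ℝ) + X).det := by
    rw [hM, Matrix.det_mul, Matrix.det_mul, Matrix.det_transpose, Matrix.det_diagonal]
    have h1 : U.det * U.det = 1 := by
      have := congrArg Matrix.det hU1
      rwa [Matrix.det_mul, Matrix.det_transpose, Matrix.det_one] at this
    have h2 : U.det * (∏ i, (ε + μ i)) * U.det = (∏ i, (ε + μ i)) * (U.det * U.det) := by ring
    rw [h2, h1, mul_one]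
    exact Finset.prod_pos fun l _ => hpos l
  set Minv := U * diagonal (fun l => 1 / (ε + μ l)) * Uᵀ with hMinv
  have hG : (Minv * (Z - X)).trace ≤ 0 := by
    apply trace_nonpos
    intro t ht0 ht1
    have h1 := hmax (K0_convex B lam hX hZ ht0.le ht1)
    simp only [Set.mem_ofPred_eq] at h1
    have h2 : ε • (1 : Matrix (Fin k) (Fin k) ℝ) + (X + t • (Z - X)) =
        (ε • (1 : Matrix (Fin k) (Fin k) ℝ) + X) * (1 + t • (Minv * (Z - X))) := by
      rw [Matrix.mul_add, Matrix.mul_one, Matrix.mul_smul, ← Matrix.mul_assoc, hinv, Matrix.one_mul,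
        add_assoc]
    rw [h2, Matrix.det_mul] at h1
    by_contra hno
    push Not at hno
    nlinarith
  rw [Matrix.mul_sub, Matrix.trace_sub] at hG
  have hX2 : (Minv * X).trace ≤ k := by
    rw [hMinv, hXU, conj_mul hU1, trace_conj hU1]
    calc ∑ l, 1 / (ε + μ l) * μ l ≤ ∑ l : Fin k, (1 : ℝ) := by
          apply Finset.sum_le_sum
          intro l _
          rw [one_div, inv_mul_le_iff₀ (hpos l)]
          linarith
      _ = k := by simp
  linarith

/-- The main estimate for a square matrix. -/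
theorem core (hk : 0 < k) (B : Matrix (Fin k) (Fin k) ℝ) (lam D : ℝ) (hlam : 0 < lam) (hD : 0 < D)
    (hdet : |B.det| = D ^ k)
    (hmin : ∀ (r : ℕ) (f g : Fin r → Fin k), |(B.submatrix f g).det| ≤ D ^ r)
    (hfeas : ∀ T : Finset (Fin k), ∃ (d : ℕ) (v : Fin k → EuclideanSpace ℝ (Fin d)),
      (∀ i, ‖∑ a, B i a • v a‖ ^ 2 ≤ lam ^ 2) ∧ (T.card : ℝ) / 2 ≤ ∑ a, ‖v a‖ ^ 2 ∧
      (∀ a, ‖v a‖ ^ 2 ≤ 1) ∧ ∀ a, a ∉ T → v a = 0) :
    D ≤ 4 ^ 16 * 95 * lam := by
  obtain ⟨δ, hδ⟩ : ∃ δ : ℝ, δ = 25 / 6912 := ⟨_, rfl⟩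
  have hδ0 : 0 < δ := by rw [hδ]; norm_num
  obtain ⟨X, U, μ, hX, hU1, hU2, hXU, hμ, hK⟩ := kkt B lam (δ / 2) (by positivity)
  set F : Finset (Fin k) := Finset.univ.filter fun l => δ ≤ δ / 2 + μ l with hF
  -- many large eigenvalues
  have hFcard : (k : ℝ) ≤ 16 * (F.card : ℝ) := by
    by_contra hno
    push Not at hno
    set Q : Matrix (Fin k) (Fin k) ℝ := U * diagonal (fun l => if l ∈ F then (1 : ℝ) else 0) * Uᵀ with hQ
    have hQs : Qᵀ = Q := by
      rw [hQ, Matrix.transpose_mul, Matrix.transpose_mul, Matrix.transpose_transpose,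
        Matrix.diagonal_transpose, Matrix.mul_assoc]
    have hQQ : Q * Q = Q := by
      rw [hQ, conj_mul hU1]
      congr 2
      congr 1
      funext l
      split_ifs <;> simp
    have hQt : 16 * Q.trace ≤ k := by
      rw [hQ, trace_conj hU1]
      have : ∑ l, (if l ∈ F then (1 : ℝ) else 0) = F.card := by simp
      rw [this]; linarith
    obtain ⟨T, hT, hTq⟩ := ri Q hQs hQQ hQt
    obtain ⟨d, v, hv1, hv2, hv3, hv4⟩ := hfeas T
    have hZ := gram_mem B lam v hv1 hv3
    have h1 := hK _ hZ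
    -- the trace as a sum of quadratic forms
    have h2 : (U * diagonal (fun l => 1 / (δ / 2 + μ l)) * Uᵀ * gram v).trace =
        ∑ r : Fin d, qf (U * diagonal (fun l => 1 / (δ / 2 + μ l)) * Uᵀ) (fun a => v a r) := by
      unfold qf Matrix.trace
      have e : ∀ i, (U * diagonal (fun l => 1 / (δ / 2 + μ l)) * Uᵀ * gram v).diag i =
          ∑ r : Fin d, ∑ j, v i r * (U * diagonal (fun l => 1 / (δ / 2 + μ l)) * Uᵀ) i j * v j r := by
        intro i
        rw [Matrix.diag_apply, Matrix.mul_apply, Finset.sum_comm]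
        apply Finset.sum_congr rfl
        intro j _
        simp only [gram, Matrix.of_apply]
        rw [Finset.mul_sum]
        apply Finset.sum_congr rfl
        intro r _
        ring
      rw [Finset.sum_congr rfl (fun i _ => e i), Finset.sum_comm]
    rw [h2] at h1
    have h3 : ∀ r : Fin d, 16 * ∑ a, (v a r) ^ 2 ≤
        qf (U * diagonal (fun l => 1 / (δ / 2 + μ l)) * Uᵀ) (fun a => v a r) := by
      intro r
      rw [qf_diag]
      have q1 := hTq (fun a => v a r) (by intro a ha; simp [hv4 a ha])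
      have q2 : ∑ i, ∑ j, v i r * Q i j * v j r =
          ∑ l, (if l ∈ F then (1 : ℝ) else 0) * (∑ i, U i l * v i r) ^ 2 := by
        have := qf_diag U (fun l => if l ∈ F then (1 : ℝ) else 0) (fun a => v a r)
        rw [← this]; rfl
      rw [q2] at q1
      have q3 := norm_eq hU2 (fun a => v a r)
      have q4 : ∑ l, (1 - (if l ∈ F then (1 : ℝ) else 0)) * (∑ i, U i l * v i r) ^ 2 =
          ∑ i, v i r ^ 2 - ∑ l, (if l ∈ F then (1 : ℝ) else 0) * (∑ i, U i l * v i r) ^ 2 := by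
        rw [← q3, ← Finset.sum_sub_distrib]
        apply Finset.sum_congr rfl
        intro l _; ring
      have q5 : (1 / δ) * ∑ l, (1 - (if l ∈ F then (1 : ℝ) else 0)) * (∑ i, U i l * v i r) ^ 2 ≤
          ∑ l, 1 / (δ / 2 + μ l) * (∑ i, U i l * v i r) ^ 2 := by
        rw [Finset.mul_sum]
        apply Finset.sum_le_sum
        intro l _
        have hp : 0 < δ / 2 + μ l := by linarith [hμ l]
        by_cases hl : l ∈ F
        · rw [if_pos hl, sub_self, zero_mul, mul_zero]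
          positivity
        · rw [if_neg hl, sub_zero, one_mul]
          have : δ / 2 + μ l < δ := by
            by_contra h; push Not at h
            exact hl (by rw [hF, Finset.mem_filter]; exact ⟨Finset.mem_univ _, h⟩)
          have : 1 / δ ≤ 1 / (δ / 2 + μ l) := one_div_le_one_div_of_le hp this.le
          exact mul_le_mul_of_nonneg_right this (sq_nonneg _)
      have q6 : (25 / 432 : ℝ) * ∑ i, v i r ^ 2 ≤
          ∑ l, (1 - (if l ∈ F then (1 : ℝ) else 0)) * (∑ i, U i l * v i r) ^ 2 := by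
        rw [q4]; linarith
      have q7 : (1 / δ) * ((25 / 432 : ℝ) * ∑ i, v i r ^ 2) = 16 * ∑ a, (v a r) ^ 2 := by
        rw [hδ]; ring
      rw [← q7]
      exact (mul_le_mul_of_nonneg_left q6 (by positivity)).trans q5
    have h4 := Finset.sum_le_sum (s := (Finset.univ : Finset (Fin d))) (fun r _ => h3 r)
    rw [← Finset.mul_sum, Finset.sum_comm] at h4
    have h5 : ∀ a, ∑ r : Fin d, (v a r) ^ 2 = ‖v a‖ ^ 2 := by
      intro a
      rw [EuclideanSpace.norm_sq_eq]
      simp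
    simp only [h5] at h4
    have hk' : (0 : ℝ) < k := by exact_mod_cast hk
    linarith
  -- the sum of the squared lengths
  have hs : ∑ l ∈ F, ∑ t, (B * U) t l ^ 2 ≤ (F.card : ℝ) * (95 * lam) ^ 2 := by
    have h1 : ∀ i, ∑ l, μ l * ((B * U) i l) ^ 2 ≤ lam ^ 2 := by
      intro i
      have h2 := hX.2.2.2 i
      rw [hXU, qf_diag] at h2
      refine le_trans (le_of_eq ?_) h2
      apply Finset.sum_congr rfl
      intro l _
      rw [Matrix.mul_apply]
      congr 2
      exact Finset.sum_congr rfl fun a _ => mul_comm _ _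
    have h3 := Finset.sum_le_sum (s := (Finset.univ : Finset (Fin k))) (fun i _ => h1 i)
    rw [Finset.sum_const, Finset.card_univ, Fintype.card_fin, nsmul_eq_mul, Finset.sum_comm] at h3
    have h4 : ∀ l, ∑ i, μ l * ((B * U) i l) ^ 2 = μ l * ∑ i, ((B * U) i l) ^ 2 :=
      fun l => (Finset.mul_sum _ _ _).symm
    simp only [h4] at h3
    have h5 : ∑ l ∈ F, δ / 2 * ∑ i, ((B * U) i l) ^ 2 ≤ ∑ l, μ l * ∑ i, ((B * U) i l) ^ 2 := by
      refine (Finset.sum_le_sum (g := fun l => μ l * ∑ i, ((B * U) i l) ^ 2) ?_).trans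
        (Finset.sum_le_sum_of_subset_of_nonneg (Finset.subset_univ _) ?_)
      · intro l hl
        rw [hF, Finset.mem_filter] at hl
        have : δ / 2 ≤ μ l := by linarith [hl.2]
        exact mul_le_mul_of_nonneg_right this (Finset.sum_nonneg fun i _ => sq_nonneg _)
      · intro l _ _
        exact mul_nonneg (hμ l) (Finset.sum_nonneg fun i _ => sq_nonneg _)
    rw [← Finset.mul_sum] at h5
    have h6 : δ / 2 * ∑ l ∈ F, ∑ t, (B * U) t l ^ 2 ≤ 16 * (F.card : ℝ) * lam ^ 2 := by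
      have : (k : ℝ) * lam ^ 2 ≤ 16 * (F.card : ℝ) * lam ^ 2 := by gcongr
      linarith
    rw [hδ] at h6
    have h7 : 0 ≤ (F.card : ℝ) * lam ^ 2 := by positivity
    nlinarith
  have hprod : ∏ l ∈ F, Real.sqrt (∑ t, (B * U) t l ^ 2) ≤ (95 * lam) ^ F.card := by
    have h1 := amgm F (fun l => ∑ t, (B * U) t l ^ 2)
      (fun l _ => Finset.sum_nonneg fun i _ => sq_nonneg _) ((95 * lam) ^ 2) (by positivity) hs
    have h2 : (∏ l ∈ F, Real.sqrt (∑ t, (B * U) t l ^ 2)) ^ 2 ≤ ((95 * lam) ^ F.card) ^ 2 := by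
      rw [← Finset.prod_pow]
      refine le_trans (le_of_eq ?_) (h1.trans (le_of_eq ?_))
      · apply Finset.prod_congr rfl
        intro l _
        rw [Real.sq_sqrt (Finset.sum_nonneg fun i _ => sq_nonneg _)]
      · rw [← pow_mul, ← pow_mul, mul_comm 2 F.card]
    exact le_of_sq_le_sq h2 (by positivity)
  have hvol := vol B U hU1 F (D ^ (k - F.card)) (fun f g => hmin _ f g)
  rw [hdet] at hvol
  have hFk : F.card ≤ k := by
    have := Finset.card_le_univ F
    simpa using this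
  have h1 : D ^ k ≤ (95 * lam) ^ F.card * (4 ^ k * D ^ (k - F.card)) :=
    hvol.trans (mul_le_mul_of_nonneg_right hprod (by positivity))
  have h2 : D ^ k = D ^ F.card * D ^ (k - F.card) := by
    rw [← pow_add]; congr 1; omega
  rw [h2] at h1
  have h3 : D ^ F.card ≤ (95 * lam) ^ F.card * 4 ^ k := by
    have hp : 0 < D ^ (k - F.card) := by positivity
    have : D ^ F.card * D ^ (k - F.card) ≤ ((95 * lam) ^ F.card * 4 ^ k) * D ^ (k - F.card) := by
      linarith
    exact le_of_mul_le_mul_right this hp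
  have h4 : (4 : ℝ) ^ k ≤ (4 ^ 16) ^ F.card := by
    rw [← pow_mul]
    apply pow_le_pow_right₀ (by norm_num)
    have : (k : ℝ) ≤ ((16 * F.card : ℕ) : ℝ) := by push_cast; exact hFcard
    exact_mod_cast this
  have h5 : D ^ F.card ≤ (4 ^ 16 * 95 * lam) ^ F.card := by
    calc D ^ F.card ≤ (95 * lam) ^ F.card * 4 ^ k := h3
      _ ≤ (95 * lam) ^ F.card * (4 ^ 16) ^ F.card := by gcongr
      _ = _ := by rw [← mul_pow]; congr 1; ring
  have h6 : F.card ≠ 0 := by
    intro h
    rw [h] at hFcard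
    have : (0 : ℝ) < k := by exact_mod_cast hk
    simp at hFcard
    linarith
  exact le_of_pow_le_pow_left₀ h6 (by positivity) h5

end Pool.Agent.V11175.DL
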