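import Mathlib
import Pool.Agent.H442R2.EHI.PntErr
import Pool.Agent.H343R2.EH.Psi
import Pool.Agent.H343R2.EH.Primes

/-!
Primes in progressions with very small modulus just below a given number: for all `A K`, if `x` is
large and `q ≤ (log x)^K`, every reduced class modulo `q` has a prime in
`(x - x / (log x)^A, x]`.
-/

set_option autoImplicit false

open Finset

namespace Pool.Agent.V11175.PH

open Pool.Agent.H442R2.EHI

lemma ev_log (k : ℕ) (c : ℝ) : ∃ x0 : ℕ, ∀ x : ℕ, x0 ≤ x → c * Real.log x ^ k ≤ √x := by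
  have h1 : (fun x : ℝ => Real.log x ^ (k : ℝ)) =o[Filter.atTop] fun x : ℝ => x ^ (1 / 2 : ℝ) :=
    isLittleO_log_rpow_rpow_atTop (k : ℝ) (by norm_num)
  have h2 : (fun x : ℝ => c * Real.log x ^ (k : ℝ)) =o[Filter.atTop] fun x : ℝ => x ^ (1 / 2 : ℝ) :=
    h1.const_mul_left c
  have h3 := (h2.comp_tendsto (tendsto_natCast_atTop_atTop (R := ℝ))).def (c := 1) one_pos
  rw [Filter.eventually_atTop] at h3
  obtain ⟨x0, hx0⟩ := h3
  refine ⟨x0, fun x hx => ?_⟩
  have h4 := hx0 x hx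
  simp only [Function.comp, one_mul, Real.rpow_natCast] at h4
  have h5 : ‖(x : ℝ) ^ (1 / 2 : ℝ)‖ = √x := by
    rw [Real.sqrt_eq_rpow, Real.norm_of_nonneg (by positivity)]
  rw [h5] at h4
  exact (le_abs_self _).trans h4

lemma ev_L (c : ℝ) : ∃ x0 : ℕ, ∀ x : ℕ, x0 ≤ x → c ≤ Real.log x := by
  have h := (Real.tendsto_log_atTop.comp
    (tendsto_natCast_atTop_atTop (R := ℝ))).eventually_ge_atTop c
  rw [Filter.eventually_atTop] at h
  obtain ⟨x0, hx0⟩ := h
  exact ⟨x0, fun x hx => hx0 x hx⟩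

/-- Siegel-Walfisz for a single modulus and class, from the Bombieri-Vinogradov theorem of the
library -/
lemma sw (U K : ℕ) : ∃ y0 : ℕ, ∀ y : ℕ, y0 ≤ y → ∀ q : ℕ, 1 ≤ q → (q : ℝ) ≤ Real.log y ^ K →
    ∀ c : ℕ, c < q → c.Coprime q →
    |H343E.piAP y q c - H343E.pi1 y / (Nat.totient q : ℝ)| ≤ y / Real.log y ^ U := by
  obtain ⟨B, x0, h0⟩ := H343E.primes_of U (H343E.unsmoothed (U + 2))
  obtain ⟨x1, h1⟩ := ev_log (2 * K + B) 1
  obtain ⟨x2, h2⟩ := ev_L 1
  refine ⟨max (max x0 x1) (max x2 1), fun y hy q hq hqy c hc hcop => ?_⟩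
  have hy0 : x0 ≤ y := le_trans (le_trans (le_max_left _ _) (le_max_left _ _)) hy
  have hy1 : x1 ≤ y := le_trans (le_trans (le_max_right _ _) (le_max_left _ _)) hy
  have hy2 : x2 ≤ y := le_trans (le_trans (le_max_left _ _) (le_max_right _ _)) hy
  have hy3 : 1 ≤ y := le_trans (le_trans (le_max_right _ _) (le_max_right _ _)) hy
  have hyR : (1 : ℝ) ≤ y := by exact_mod_cast hy3
  have hL := h2 y hy2
  have hL0 : 0 < Real.log y := by linarith
  have hA := h1 y hy1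
  rw [one_mul, pow_add, pow_mul'] at hA
  have hsq : √(y : ℝ) ≤ y := by
    rw [Real.sqrt_le_left (by positivity)]
    nlinarith
  have hq1 : (1 : ℝ) ≤ q := by exact_mod_cast hq
  have hD2 : (q : ℝ) ^ 2 ≤ 1 * y / Real.log y ^ B := by
    rw [le_div_iff₀ (by positivity), one_mul]
    refine le_trans ?_ (hA.trans hsq)
    gcongr
  have hD1 : (q : ℝ) ≤ y / Real.log y ^ B := by
    rw [one_mul] at hD2
    refine le_trans ?_ hD2
    nlinarith
  have h4 := h0 y hy0 1 le_rfl q hD1 hD2 (fun q' => if q' = q then {c} else ∅)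
    ⟨fun q' a ha => by
      split_ifs at ha with hh
      · rw [mem_singleton] at ha
        rw [ha, hh]
        exact ⟨hc, hcop⟩
      · simp at ha, fun q' => by
      split_ifs <;> simp⟩
  rw [one_mul] at h4
  refine le_trans ?_ h4
  have h5 := single_le_sum (f := fun q' => ∑ a ∈ (if q' = q then ({c} : Finset ℕ) else ∅),
    |H343E.piAP y q' a - H343E.pi1 y / (Nat.totient q' : ℝ)|)
    (s := Icc 1 q) (fun i _ => sum_nonneg (fun _ _ => abs_nonneg _)) (mem_Icc.2 ⟨hq, le_rfl⟩)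
  refine le_trans (le_of_eq ?_) h5
  simp

lemma lis_diff (y x : ℕ) (hy : 1 ≤ y) (hyx : y ≤ x) :
    ((x : ℝ) - y) / Real.log x ≤ lis x - lis y := by
  have key : ∀ X : ℕ, x ≤ X → ((x : ℝ) - y) / Real.log X ≤ lis x - lis y := by
    induction x, hyx using Nat.le_induction with
    | base => intro X _; simp
    | succ k hk ih =>
      intro X hX
      have h1 := ih X (by omega)
      rw [PntErrAux.lis_succ k (by omega)]
      have h2 : 0 < Real.log ((k + 1 : ℕ) : ℝ) := Real.log_pos (by exact_mod_cast (by omega : 1 < k + 1))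
      have h3 : Real.log ((k + 1 : ℕ) : ℝ) ≤ Real.log X :=
        Real.log_le_log (by positivity) (by exact_mod_cast hX)
      have h4 : 1 / Real.log X ≤ 1 / Real.log ((k + 1 : ℕ) : ℝ) := one_div_le_one_div_of_le h2 h3
      have h5 : (((k + 1 : ℕ) : ℝ) - y) / Real.log X = ((k : ℝ) - y) / Real.log X + 1 / Real.log X := by
        push_cast; ring
      rw [h5]
      linarith
  exact key x le_rfl

/-- primes in a reduced class just below `x` -/
theorem prime_ap (A K : ℕ) : ∃ x0 : ℕ, ∀ x : ℕ, x0 ≤ x → ∀ q : ℕ, 1 ≤ q →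
    (q : ℝ) ≤ Real.log x ^ K → ∀ c : ℕ, c < q → c.Coprime q →
    ∃ p : ℕ, p.Prime ∧ p ≡ c [MOD q] ∧ (x : ℝ) - x / Real.log x ^ (A + 1) ≤ p ∧ p ≤ x := by
  obtain ⟨U, hU⟩ : ∃ U : ℕ, U = A + K + 3 := ⟨_, rfl⟩
  obtain ⟨y1, h1⟩ := sw U (K + 1)
  obtain ⟨C, h2⟩ := pnt_err U
  obtain ⟨x3, h3⟩ := ev_L ((1 + |C|) * (1 + 2 ^ U) + 2 + 2 * 2 ^ K)
  refine ⟨max (max (y1 ^ 2) 16) x3, fun x hx q hq hqx c hc hcop => ?_⟩
  have hxy1 : y1 ^ 2 ≤ x := le_trans (le_trans (le_max_left _ _) (le_max_left _ _)) hx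
  have hx16 : 16 ≤ x := le_trans (le_trans (le_max_right _ _) (le_max_left _ _)) hx
  have hx3 : x3 ≤ x := le_trans (le_max_right _ _) hx
  have hL := h3 x hx3
  set L := Real.log x with hLdef
  have h2U : (0 : ℝ) < 2 ^ U := by positivity
  have h2K : (1 : ℝ) ≤ 2 ^ K := one_le_pow₀ (by norm_num)
  have hC0 : 0 ≤ |C| := abs_nonneg C
  have hM0 : 1 ≤ (1 + |C|) * (1 + 2 ^ U) := by nlinarith [mul_nonneg hC0 h2U.le]
  have hL4 : 4 ≤ L := by linarith
  have hL0 : 0 < L := by linarith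
  have hL1 : 1 ≤ L := by linarith
  have hxR : (16 : ℝ) ≤ x := by exact_mod_cast hx16
  have hx0 : (0 : ℝ) < x := by linarith
  have hLA : L ≤ L ^ (A + 1) := by
    calc L = L ^ 1 := (pow_one L).symm
      _ ≤ L ^ (A + 1) := pow_le_pow_right₀ hL1 (by omega)
  have hLA0 : 0 < L ^ (A + 1) := by positivity
  have hxA : (x : ℝ) / L ^ (A + 1) ≤ x / 4 := by
    apply div_le_div_of_nonneg_left hx0.le (by norm_num) (by linarith)
  set y : ℕ := ⌊(x : ℝ) - x / L ^ (A + 1)⌋₊ with hy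
  have hy1 : (y : ℝ) ≤ x - x / L ^ (A + 1) := Nat.floor_le (by linarith)
  have hy2 : (x : ℝ) - x / L ^ (A + 1) < y + 1 := Nat.lt_floor_add_one _
  have hyx' : (y : ℝ) ≤ x := by
    have : 0 < (x : ℝ) / L ^ (A + 1) := by positivity
    linarith
  have hyx : y ≤ x := by exact_mod_cast hyx'
  have hyhalf : (x : ℝ) / 2 ≤ y := by linarith
  have hsx : √(x : ℝ) * √(x : ℝ) = x := Real.mul_self_sqrt hx0.le
  have hsx4 : 4 ≤ √(x : ℝ) := by
    rw [show (4 : ℝ) = √16 by rw [show (16 : ℝ) = 4 ^ 2 by norm_num]; exact (Real.sqrt_sq (by norm_num)).symm]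
    exact Real.sqrt_le_sqrt hxR
  have hysq : √(x : ℝ) ≤ y := by nlinarith
  have hyy1 : y1 ≤ y := by
    have : (y1 : ℝ) ≤ √(x : ℝ) := by
      apply Real.le_sqrt_of_sq_le
      exact_mod_cast hxy1
    exact_mod_cast this.trans hysq
  have hyR4 : (4 : ℝ) ≤ y := hsx4.trans hysq
  have hy0 : (0 : ℝ) < y := by linarith
  have hyN : 4 ≤ y := by exact_mod_cast hyR4
  have hly : L / 2 ≤ Real.log y := by
    have : Real.log (√(x : ℝ)) = L / 2 := by rw [Real.log_sqrt hx0.le]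
    rw [← this]
    exact Real.log_le_log (by linarith) hysq
  have hly0 : 0 < Real.log y := by linarith
  have hlyK : 2 ^ K ≤ Real.log y := by linarith
  have hqy : (q : ℝ) ≤ Real.log y ^ (K + 1) := by
    calc (q : ℝ) ≤ L ^ K := hqx
      _ ≤ (2 * Real.log y) ^ K := pow_le_pow_left₀ hL0.le (by linarith) K
      _ = 2 ^ K * Real.log y ^ K := by rw [mul_pow]
      _ ≤ Real.log y * Real.log y ^ K := by gcongr
      _ = Real.log y ^ (K + 1) := by rw [pow_succ]; ring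
  have hxU : (y : ℝ) / Real.log y ^ U ≤ 2 ^ U * (x / L ^ U) := by
    calc (y : ℝ) / Real.log y ^ U ≤ x / (L / 2) ^ U := by gcongr
      _ = 2 ^ U * (x / L ^ U) := by rw [div_pow]; field_simp
  have hqx' : (q : ℝ) ≤ L ^ (K + 1) := hqx.trans (pow_le_pow_right₀ hL1 (Nat.le_succ K))
  have hxge : y1 ≤ x := hyy1.trans hyx
  have e1 := (abs_le.1 (h1 x hxge q hq hqx' c hc hcop)).1
  have e2 := (abs_le.1 (h1 y hyy1 q hq hqy c hc hcop)).2
  have e3 := (abs_le.1 (h2 x (by omega))).1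
  have e4 := (abs_le.1 (h2 y (by omega))).2
  have e5 := lis_diff y x (by omega) hyx
  rw [← hLdef] at e1 e3 e5
  change _ ≤ H343E.pi1 x - lis x at e3
  change H343E.pi1 y - lis y ≤ _ at e4
  set E := (x : ℝ) / L ^ U with hE
  have hE0 : 0 < E := by positivity
  set Q : ℝ := (Nat.totient q : ℝ) with hQ
  have hQ1 : 1 ≤ Q := by
    rw [hQ]; exact_mod_cast Nat.totient_pos.2 (by omega)
  have hQ2 : Q ≤ L ^ K := by
    refine le_trans ?_ hqx
    rw [hQ]; exact_mod_cast Nat.totient_le q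
  have hQ0 : 0 < Q := by linarith
  have e3' : lis x - |C| * E ≤ H343E.pi1 x := by
    have : C * x / L ^ U ≤ |C| * E := by
      rw [mul_div_assoc]
      exact mul_le_mul_of_nonneg_right (le_abs_self C) hE0.le
    linarith
  have e4' : H343E.pi1 y ≤ lis y + |C| * (2 ^ U * E) := by
    have : C * y / Real.log y ^ U ≤ |C| * (2 ^ U * E) := by
      rw [mul_div_assoc]
      calc C * (y / Real.log y ^ U) ≤ |C| * (y / Real.log y ^ U) :=
            mul_le_mul_of_nonneg_right (le_abs_self C) (by positivity)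
        _ ≤ |C| * (2 ^ U * E) := mul_le_mul_of_nonneg_left hxU hC0
    linarith
  have e6 : (x : ℝ) / L ^ (A + 2) ≤ lis x - lis y := by
    refine le_trans ?_ e5
    rw [show A + 2 = (A + 1) + 1 by rfl, pow_succ, ← div_div]
    exact div_le_div_of_nonneg_right (by linarith) hL0.le
  have e7 : (H343E.pi1 x - H343E.pi1 y) / Q ≥
      (x : ℝ) / L ^ (A + 2) / L ^ K - |C| * (1 + 2 ^ U) * E := by
    have h8 : (x : ℝ) / L ^ (A + 2) - |C| * (1 + 2 ^ U) * E ≤ H343E.pi1 x - H343E.pi1 y := by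
      nlinarith
    have h9 : ((x : ℝ) / L ^ (A + 2) - |C| * (1 + 2 ^ U) * E) / Q ≤
        (H343E.pi1 x - H343E.pi1 y) / Q := div_le_div_of_nonneg_right h8 hQ0.le
    have h10 : (x : ℝ) / L ^ (A + 2) / L ^ K ≤ (x : ℝ) / L ^ (A + 2) / Q :=
      div_le_div_of_nonneg_left (by positivity) hQ0 hQ2
    have h11 : |C| * (1 + 2 ^ U) * E / Q ≤ |C| * (1 + 2 ^ U) * E :=
      div_le_self (by positivity) hQ1
    rw [sub_div] at h9
    linarith
  have e8 : (x : ℝ) / L ^ (A + 2) / L ^ K = L * E := by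
    rw [hE, hU, div_div, ← pow_add]
    rw [show A + K + 3 = (A + 2 + K) + 1 by ring, pow_succ L (A + 2 + K)]
    field_simp
  have e9 : H343E.piAP y q c < H343E.piAP x q c := by
    have h12 : H343E.piAP x q c ≥ H343E.pi1 x / Q - E := by linarith
    have h13 : H343E.piAP y q c ≤ H343E.pi1 y / Q + 2 ^ U * E := by linarith
    have h14 : (H343E.pi1 x - H343E.pi1 y) / Q = H343E.pi1 x / Q - H343E.pi1 y / Q := sub_div _ _ _
    rw [e8] at e7
    have h15 : (1 + |C|) * (1 + 2 ^ U) * E < L * E := mul_lt_mul_of_pos_right (by linarith) hE0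
    nlinarith
  by_contra hcon
  push Not at hcon
  apply absurd e9
  rw [not_lt]
  unfold H343E.piAP
  have hsub : (Icc 1 x).filter (fun p => p.Prime ∧ p ≡ c [MOD q]) ⊆
      (Icc 1 y).filter (fun p => p.Prime ∧ p ≡ c [MOD q]) := by
    intro p hp
    rw [mem_filter, mem_Icc] at hp ⊢
    obtain ⟨⟨hp1, hp2⟩, hp3, hp4⟩ := hp
    refine ⟨⟨hp1, ?_⟩, hp3, hp4⟩
    by_contra hlt
    push Not at hlt
    have h16 : (y : ℝ) + 1 ≤ p := by exact_mod_cast hlt
    have h17 := hcon p hp3 hp4 (by linarith)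
    omega
  exact_mod_cast card_le_card hsub

end Pool.Agent.V11175.PH
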