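import Mathlib
import Pool.Agent.W851.Had.Tower

/-!
Every large `n` has a power of two `2 ^ t`, with `2 ^ 2 ^ t ≤ n`, all of whose multiples up to `n`
are orders of Hadamard matrices.
-/

set_option autoImplicit false

namespace Pool.Agent.V11175.PH

open Pool.Agent.H108R3.Had Pool.Agent.W851.Had

lemma tow_mono_succ (n : ℕ) : tow n < tow (n + 1) := by
  rw [tow_succ]; exact Nat.lt_two_pow_self

lemma tow_mono {m n : ℕ} (h : m ≤ n) : tow m ≤ tow n :=
  monotone_nat_of_le_succ (fun k => (tow_mono_succ k).le) h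

lemma le_tow (n : ℕ) : n + 1 ≤ tow n := by
  induction n with
  | zero => simp [tow_zero]
  | succ n ih => have := tow_mono_succ n; omega

lemma pow_le_tow_step (C j : ℕ) (hC : 2 ≤ C) (h : C ^ (j + 4) ≤ tow j) :
    C ^ (j + 1 + 4) ≤ tow (j + 1) := by
  rw [tow_succ]
  have hm : 16 ≤ C ^ (j + 4) := by
    calc 16 = 2 ^ 4 := by norm_num
      _ ≤ C ^ 4 := Nat.pow_le_pow_left hC 4
      _ ≤ C ^ (j + 4) := Nat.pow_le_pow_right (by omega) (by omega)
  have hCm : C ≤ C ^ (j + 4) := Nat.le_self_pow (by omega) C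
  have hsq : ∀ m : ℕ, 4 ≤ m → m * m ≤ 2 ^ m := by
    intro m hm
    induction m, hm using Nat.le_induction with
    | base => norm_num
    | succ k hk ih =>
      rw [pow_succ]
      nlinarith
  calc C ^ (j + 1 + 4) = C ^ (j + 4) * C := by ring
    _ ≤ C ^ (j + 4) * C ^ (j + 4) := Nat.mul_le_mul_left _ hCm
    _ ≤ 2 ^ C ^ (j + 4) := hsq _ (by omega)
    _ ≤ 2 ^ tow j := Nat.pow_le_pow_right (by norm_num) h

lemma exists_base (C : ℕ) : ∃ j : ℕ, C ^ (j + 4) ≤ tow j := by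
  refine ⟨2 * C + 12, ?_⟩
  have h1 : 2 * C + 11 ≤ tow (2 * C + 10) := le_tow _
  rw [show 2 * C + 12 = (2 * C + 10) + 1 + 1 by ring, tow_succ, tow_succ]
  have h2 : ∀ m : ℕ, m + 1 ≤ 2 ^ m := fun m => Nat.lt_two_pow_self
  have h3 : C * (2 * C + 16) ≤ 2 ^ (2 * C + 11) := by
    have h4 := h2 C
    calc C * (2 * C + 16) ≤ 2 ^ C * (2048 * 2 ^ C) := Nat.mul_le_mul (by omega) (by omega)
      _ = 2 ^ (2 * C + 11) := by rw [pow_add, two_mul, pow_add]; ring
  calc C ^ (2 * C + 10 + 1 + 1 + 4) ≤ (2 ^ C) ^ (2 * C + 16) :=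
        Nat.pow_le_pow_left (Nat.lt_two_pow_self).le _
    _ = 2 ^ (C * (2 * C + 16)) := by rw [← pow_mul]
    _ ≤ 2 ^ 2 ^ tow (2 * C + 10) := by
        apply Nat.pow_le_pow_right (by norm_num)
        exact h3.trans (Nat.pow_le_pow_right (by norm_num) h1)

/-- the orders `2 ^ t * q ≤ n`, with `2 ^ 2 ^ t ≤ n` -/
theorem many_orders : ∃ n0 : ℕ, ∀ n : ℕ, n0 ≤ n → ∃ t : ℕ, 2 ≤ t ∧ 2 ^ 2 ^ t ≤ n ∧
    ∀ q : ℕ, 2 ^ t * q ≤ n → HasHad (2 ^ t * q) := by
  obtain ⟨C, hC, hmain⟩ := main_had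
  obtain ⟨j0, hj0⟩ := exists_base C
  have hj : ∀ j, j0 ≤ j → C ^ (j + 4) ≤ tow j := by
    intro j hj
    induction j, hj using Nat.le_induction with
    | base => exact hj0
    | succ k hk ih => exact pow_le_tow_step C k hC ih
  refine ⟨tow (j0 + 2) + 1, fun n hn => ?_⟩
  have hex : ∃ k, n ≤ tow k := ⟨n, by have := le_tow n; omega⟩
  classical
  obtain ⟨k, hk, hkm⟩ : ∃ k, n ≤ tow k ∧ ∀ m, m < k → tow m < n :=
    ⟨Nat.find hex, Nat.find_spec hex, fun m hm => not_le.1 (Nat.find_min hex hm)⟩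
  have hk3 : j0 + 3 ≤ k := by
    by_contra hlt
    push Not at hlt
    have : tow k ≤ tow (j0 + 2) := tow_mono (by omega)
    omega
  obtain ⟨j, rfl⟩ : ∃ j, k = j + 3 := ⟨k - 3, by omega⟩
  have h1 : tow (j + 2) < n := hkm _ (by omega)
  have h2 := hj j (by omega)
  refine ⟨C ^ (j + 4), ?_, ?_, ?_⟩
  · calc 2 ≤ C := hC
      _ ≤ C ^ (j + 4) := Nat.le_self_pow (by omega) C
  · refine le_trans ?_ h1.le
    rw [tow_succ, tow_succ]
    exact Nat.pow_le_pow_right (by norm_num) (Nat.pow_le_pow_right (by norm_num) h2)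
  · intro q hq
    apply hmain (j + 3) q _ _ le_rfl
    refine le_trans ?_ (hq.trans hk)
    exact Nat.le_mul_of_pos_left q (by positivity)

end Pool.Agent.V11175.PH
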