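import Mathlib
import Pool.Agent.V11175.PH1
import Pool.Agent.V11175.PH2
import Pool.Agent.W69.HH.Paley

/-!
Every large `n` divisible by four is a sum of two almost equal orders of Hadamard matrices, and
the matrices obtained from this.
-/

set_option autoImplicit false

namespace Pool.Agent.V11175.PH

open Finset Matrix Pool.Agent.H108R3.Had

/-- every large multiple `n` of four is `a + (a + s)` with `a`, `a + s` orders of Hadamard
matrices and `s ≤ n / (log n) ^ A` -/
theorem two_orders (A : ℕ) : ∃ n0 : ℕ, ∀ n : ℕ, n0 ≤ n → 4 ∣ n →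
    ∃ a s : ℕ, n = a + (a + s) ∧ s ≤ a ∧ (s : ℝ) ≤ n / Real.log n ^ A / 3 ∧ HasHad a ∧
      HasHad (a + s) := by
  obtain ⟨n1, hn1⟩ := many_orders
  obtain ⟨x0, hx0⟩ := prime_ap A 2
  obtain ⟨n2, hn2⟩ := ev_L (6 * 2 ^ (A + 3) + 8)
  obtain ⟨n3, hn3⟩ := ev_log A 6
  refine ⟨max (max n1 (2 * x0 + 16)) (max n2 n3), fun n hn h4 => ?_⟩
  have g1 : n1 ≤ n := le_trans (le_trans (le_max_left _ _) (le_max_left _ _)) hn
  have g2 : 2 * x0 + 16 ≤ n := le_trans (le_trans (le_max_right _ _) (le_max_left _ _)) hn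
  have g3 : n2 ≤ n := le_trans (le_trans (le_max_left _ _) (le_max_right _ _)) hn
  have g4 : n3 ≤ n := le_trans (le_trans (le_max_right _ _) (le_max_right _ _)) hn
  obtain ⟨t, ht2, htn, hord⟩ := hn1 n g1
  have hL := hn2 n g3
  have hS := hn3 n g4
  set L := Real.log n with hLdef
  have h2A : (0 : ℝ) < 2 ^ (A + 3) := by positivity
  have hL8 : 8 ≤ L := by linarith
  have hL0 : 0 < L := by linarith
  obtain ⟨m, hm⟩ := h4
  -- `x = n / 2 - 1`
  obtain ⟨x, hx⟩ : ∃ x : ℕ, n = 2 * (x + 1) := ⟨2 * m - 1, by omega⟩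
  have hxx0 : x0 ≤ x := by omega
  have hnR : (n : ℝ) = 2 * (x + 1) := by rw [hx]; push_cast; ring
  have hn0 : (0 : ℝ) < n := by rw [hnR]; positivity
  have hx7 : (7 : ℝ) ≤ x := by exact_mod_cast (by omega : 7 ≤ x)
  have hxpos : (0 : ℝ) < x := by linarith
  -- the logarithm of `x`
  have hlx1 : Real.log x ≤ L := Real.log_le_log hxpos (by linarith)
  have hlx2 : L / 2 ≤ Real.log x := by
    have h1 : Real.log (√(n : ℝ)) = L / 2 := by rw [Real.log_sqrt hn0.le]
    rw [← h1]
    apply Real.log_le_log (by positivity)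
    have h2 : √(n : ℝ) * √(n : ℝ) = n := Real.mul_self_sqrt hn0.le
    have h3 : 4 ≤ √(n : ℝ) := by
      rw [show (4 : ℝ) = √16 by
        rw [show (16 : ℝ) = 4 ^ 2 by norm_num]; exact (Real.sqrt_sq (by norm_num)).symm]
      exact Real.sqrt_le_sqrt (by linarith)
    nlinarith
  have hlx0 : 0 < Real.log x := by linarith
  -- the modulus is small
  have hq : ((2 ^ t : ℕ) : ℝ) ≤ Real.log x ^ 2 := by
    have h1 : ((2 ^ t : ℕ) : ℝ) * Real.log 2 ≤ L := by
      have h2 : ((2 ^ 2 ^ t : ℕ) : ℝ) ≤ n := by exact_mod_cast htn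
      have h3 := Real.log_le_log (by positivity) h2
      rwa [Nat.cast_pow, Real.log_pow, Nat.cast_ofNat] at h3
    have h4 : (1 : ℝ) / 2 ≤ Real.log 2 := by
      have := Real.log_two_gt_d9
      linarith
    have h5 : ((2 ^ t : ℕ) : ℝ) ≤ 2 * L := by
      have h6 : (0 : ℝ) ≤ ((2 ^ t : ℕ) : ℝ) := by positivity
      nlinarith
    nlinarith
  have hc1 : (n - 1) % 2 ^ t < 2 ^ t := Nat.mod_lt _ (by positivity)
  have h4t : 4 ∣ 2 ^ t := by
    rw [show (4 : ℕ) = 2 ^ 2 by norm_num]
    exact pow_dvd_pow 2 ht2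
  have hcmod : (n - 1) % 2 ^ t ≡ n - 1 [MOD 2 ^ t] := Nat.mod_modEq _ _
  have hc4 : (n - 1) % 2 ^ t % 4 = 3 := by
    rw [Nat.mod_mod_of_dvd _ h4t]
    omega
  have hc2 : Nat.Coprime ((n - 1) % 2 ^ t) (2 ^ t) := by
    apply Nat.Coprime.pow_right
    rw [Nat.coprime_two_right, Nat.odd_iff]
    omega
  obtain ⟨p, hp, hpc, hp1, hp2⟩ := hx0 x hxx0 (2 ^ t) (Nat.one_le_two_pow) hq _ hc1 hc2
  have hpn : p ≡ n - 1 [MOD 2 ^ t] := hpc.trans hcmod
  have hp4 : p % 4 = 3 := by
    have h1 : p ≡ n - 1 [MOD 4] := hpn.of_dvd h4t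
    have h2 : p % 4 = (n - 1) % 4 := h1
    omega
  have : Fact p.Prime := ⟨hp⟩
  have hH1 : HasHad (p + 1) := Pool.Agent.W69.HH.paley hp4
  have hdvd : 2 ^ t ∣ n - (p + 1) := by
    have h1 : p + 1 ≡ n [MOD 2 ^ t] := by
      have h2 := hpn.add_right 1
      rwa [show n - 1 + 1 = n by omega] at h2
    exact (Nat.modEq_iff_dvd' (by omega)).1 h1
  obtain ⟨q, hqe⟩ := hdvd
  have hH2 : HasHad (n - (p + 1)) := by
    rw [hqe]
    apply hord
    omega
  -- the size
  have hb : (x : ℝ) / Real.log x ^ (A + 1) ≤ n / L ^ A / 6 := by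
    have h1 : (L / 2) ^ (A + 1) ≤ Real.log x ^ (A + 1) := by gcongr
    have h2 : (x : ℝ) / Real.log x ^ (A + 1) ≤ n / (L / 2) ^ (A + 1) := by
      gcongr
      linarith
    refine h2.trans ?_
    rw [div_div, div_le_div_iff₀ (by positivity) (by positivity)]
    have h3 : L ^ A * 6 ≤ (L / 2) ^ (A + 1) := by
      rw [div_pow, le_div_iff₀ (by positivity), pow_succ L A, mul_assoc]
      have h4 : 6 * (2 : ℝ) ^ (A + 1) ≤ L := by
        have : (2 : ℝ) ^ (A + 1) ≤ 2 ^ (A + 3) := pow_le_pow_right₀ (by norm_num) (by omega)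
        linarith
      exact mul_le_mul_of_nonneg_left h4 (by positivity)
    exact mul_le_mul_of_nonneg_left h3 hn0.le
  obtain ⟨s, hs⟩ : ∃ s : ℕ, n = (p + 1) + ((p + 1) + s) := ⟨n - 2 * (p + 1), by omega⟩
  have hsR : (s : ℝ) = n - 2 * (p + 1) := by
    rw [hs]; push_cast; ring
  have hsx : (s : ℝ) ≤ n / L ^ A / 3 := by
    rw [hsR]
    have : n / L ^ A / 3 = 2 * (n / L ^ A / 6) := by ring
    rw [this]
    linarith
  refine ⟨p + 1, s, hs, ?_, hsx, hH1, ?_⟩
  · have h1 : (1 : ℝ) ≤ L ^ A := one_le_pow₀ (by linarith)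
    have h2 : (n : ℝ) / L ^ A ≤ n := div_le_self hn0.le h1
    have h3 : (s : ℝ) ≤ (p + 1 : ℕ) := by push_cast; linarith
    exact_mod_cast h3
  · rwa [show n - (p + 1) = p + 1 + s by omega] at hH2

/-- the sign `1` or `-1` -/
def sg (e : Bool) : ℤ := if e then 1 else -1

lemma sg_cases (e : Bool) : sg e = 1 ∨ sg e = -1 := by cases e <;> simp [sg]

lemma sg_mul (e : Bool) : sg e * sg e = 1 := by cases e <;> simp [sg]

lemma sg_mul' {e e' : Bool} (h : e ≠ e') : sg e * sg e' = -1 := by
  cases e <;> cases e' <;> simp_all [sg]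

section glue

variable {a s : ℕ} (P : Matrix (Fin a) (Fin a) ℤ) (Q : Matrix (Fin (a + s)) (Fin (a + s)) ℤ)
  (hs : s ≤ a)

/-- the rows `[P i | ± Q i]` and `[P k | Q (a + k)]` -/
def glue : (Fin a × Bool) ⊕ Fin s → Fin a ⊕ Fin (a + s) → ℤ
  | Sum.inl (i, _), Sum.inl c => P i c
  | Sum.inl (i, e), Sum.inr c => sg e * Q (Fin.castAdd s i) c
  | Sum.inr k, Sum.inl c => P (Fin.castLE hs k) c
  | Sum.inr k, Sum.inr c => Q (Fin.natAdd a k) c

/-- inner product of two rows -/
def ip (x y : (Fin a × Bool) ⊕ Fin s) : ℤ := ∑ c, glue P Q hs x c * glue P Q hs y c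

variable {P Q}

lemma glue_sign (hP : ∀ i j, P i j = 1 ∨ P i j = -1) (hQ : ∀ i j, Q i j = 1 ∨ Q i j = -1)
    (x : (Fin a × Bool) ⊕ Fin s) (c : Fin a ⊕ Fin (a + s)) :
    glue P Q hs x c = 1 ∨ glue P Q hs x c = -1 := by
  rcases x with ⟨i, e⟩ | k <;> rcases c with c | c <;> simp only [glue]
  · exact hP _ _
  · rcases hQ (Fin.castAdd s i) c with h | h <;> rcases sg_cases e with h' | h' <;>
      simp [h, h']
  · exact hP _ _
  · exact hQ _ _

variable (hP : P * P.transpose = (a : ℤ) • (1 : Matrix (Fin a) (Fin a) ℤ))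
  (hQ : Q * Q.transpose = ((a + s : ℕ) : ℤ) • (1 : Matrix (Fin (a + s)) (Fin (a + s)) ℤ))

include hP in
lemma sumP (i j : Fin a) : ∑ c, P i c * P j c = if i = j then (a : ℤ) else 0 := by
  have h := congrFun (congrFun hP i) j
  rw [Matrix.mul_apply, Matrix.smul_apply, Matrix.one_apply] at h
  simp only [Matrix.transpose_apply] at h
  rw [h]
  split_ifs <;> simp

include hQ in
lemma sumQ (i j : Fin (a + s)) : ∑ c, Q i c * Q j c = if i = j then ((a : ℤ) + s) else 0 := by
  have h := congrFun (congrFun hQ i) j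
  rw [Matrix.mul_apply, Matrix.smul_apply, Matrix.one_apply] at h
  simp only [Matrix.transpose_apply] at h
  rw [h]
  split_ifs <;> simp

include hP hQ in
lemma ip_ll (i j : Fin a) (e f : Bool) : ip P Q hs (Sum.inl (i, e)) (Sum.inl (j, f)) =
    if i = j then (a : ℤ) + sg e * sg f * ((a : ℤ) + s) else 0 := by
  unfold ip
  rw [Fintype.sum_sum_type]
  simp only [glue]
  have h1 : ∑ c, sg e * Q (Fin.castAdd s i) c * (sg f * Q (Fin.castAdd s j) c) =
      sg e * sg f * ∑ c, Q (Fin.castAdd s i) c * Q (Fin.castAdd s j) c := by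
    rw [mul_sum]
    exact sum_congr rfl fun c _ => by ring
  rw [h1, sumP hP, sumQ hQ]
  by_cases h : i = j
  · subst h; simp
  · rw [if_neg h, if_neg h, if_neg (fun h' => h (Fin.castAdd_injective _ _ h'))]
    simp

include hP hQ in
lemma ip_lr (i : Fin a) (e : Bool) (k : Fin s) : ip P Q hs (Sum.inl (i, e)) (Sum.inr k) =
    if i = Fin.castLE hs k then (a : ℤ) else 0 := by
  unfold ip
  rw [Fintype.sum_sum_type]
  simp only [glue]
  have h1 : ∑ c, sg e * Q (Fin.castAdd s i) c * Q (Fin.natAdd a k) c =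
      sg e * ∑ c, Q (Fin.castAdd s i) c * Q (Fin.natAdd a k) c := by
    rw [mul_sum]
    exact sum_congr rfl fun c _ => by ring
  have h2 : Fin.castAdd s i ≠ Fin.natAdd a k := by
    intro h
    have := congrArg Fin.val h
    simp only [Fin.val_castAdd, Fin.val_natAdd] at this
    omega
  rw [h1, sumP hP, sumQ hQ, if_neg h2]
  simp

include hP hQ in
lemma ip_rr (k l : Fin s) (h : k ≠ l) : ip P Q hs (Sum.inr k) (Sum.inr l) = 0 := by
  unfold ip
  rw [Fintype.sum_sum_type]
  simp only [glue]
  have h1 : Fin.castLE hs k ≠ Fin.castLE hs l := fun h' => h (Fin.castLE_injective hs h')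
  have h2 : Fin.natAdd a k ≠ Fin.natAdd a l := fun h' => h (Fin.natAdd_injective _ _ h')
  rw [sumP hP, sumQ hQ, if_neg h1, if_neg h2]
  simp

lemma ip_comm (x y : (Fin a × Bool) ⊕ Fin s) : ip P Q hs x y = ip P Q hs y x := by
  unfold ip
  exact sum_congr rfl fun c _ => mul_comm _ _

/-- the rows which are not orthogonal to `x` -/
def bad (P : Matrix (Fin a) (Fin a) ℤ) (Q : Matrix (Fin (a + s)) (Fin (a + s)) ℤ) (hs : s ≤ a)
    (x : (Fin a × Bool) ⊕ Fin s) : Finset ((Fin a × Bool) ⊕ Fin s) :=
  univ.filter fun y => y ≠ x ∧ ip P Q hs x y ≠ 0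

include hP hQ in
lemma bad_two (x : (Fin a × Bool) ⊕ Fin s) : (bad P Q hs x).card ≤ 2 := by
  classical
  rcases x with ⟨i, e⟩ | k
  · by_cases hi : (i : ℕ) < s
    · have hsub : bad P Q hs (Sum.inl (i, e)) ⊆ {Sum.inl (i, !e), Sum.inr ⟨i, hi⟩} := by
        intro y hy
        rw [bad, mem_filter] at hy
        obtain ⟨-, hne, hip⟩ := hy
        rcases y with ⟨j, f⟩ | l
        · rw [ip_ll hs hP hQ] at hip
          have hij : i = j := by
            by_contra h
            exact hip (if_neg h)
          subst hij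
          have hef : f = !e := by
            by_contra h
            apply hne
            have : f = e := by
              cases e <;> cases f <;> simp_all
            rw [this]
          rw [hef]
          simp
        · rw [ip_lr hs hP hQ] at hip
          have hil : i = Fin.castLE hs l := by
            by_contra h
            exact hip (if_neg h)
          have : l = ⟨i, hi⟩ := by
            apply Fin.ext
            have h' := congrArg Fin.val hil
            simp only [Fin.val_castLE] at h'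
            exact h'.symm
          rw [this]; simp
      exact (card_le_card hsub).trans (card_le_two)
    · have hsub : bad P Q hs (Sum.inl (i, e)) ⊆ {Sum.inl (i, !e)} := by
        intro y hy
        rw [bad, mem_filter] at hy
        obtain ⟨-, hne, hip⟩ := hy
        rcases y with ⟨j, f⟩ | l
        · rw [ip_ll hs hP hQ] at hip
          have hij : i = j := by
            by_contra h
            exact hip (if_neg h)
          subst hij
          have hef : f = !e := by
            by_contra h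
            apply hne
            have : f = e := by
              cases e <;> cases f <;> simp_all
            rw [this]
          rw [hef]
          simp
        · rw [ip_lr hs hP hQ] at hip
          have hil : i = Fin.castLE hs l := by
            by_contra h
            exact hip (if_neg h)
          exfalso
          apply hi
          rw [hil]
          simp
      exact (card_le_card hsub).trans (by simp)
  · have hsub : bad P Q hs (Sum.inr k) ⊆
        {Sum.inl (Fin.castLE hs k, true), Sum.inl (Fin.castLE hs k, false)} := by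
      intro y hy
      rw [bad, mem_filter] at hy
      obtain ⟨-, hne, hip⟩ := hy
      rcases y with ⟨j, f⟩ | l
      · rw [ip_comm, ip_lr hs hP hQ] at hip
        have hij : j = Fin.castLE hs k := by
          by_contra h
          exact hip (if_neg h)
        subst hij
        cases f <;> simp
      · exfalso
        apply hip
        apply ip_rr hs hP hQ
        intro h
        exact hne (by rw [h])
    exact (card_le_card hsub).trans (card_le_two)

include hP hQ in
/-- the rows which are in a pair -/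
lemma bad_one (i : Fin a) (e : Bool) (hi : s ≤ (i : ℕ)) :
    (bad P Q hs (Sum.inl (i, e))).card ≤ 1 ∧
    ∀ y, y ≠ Sum.inl (i, e) → |ip P Q hs (Sum.inl (i, e)) y| ≤ s := by
  classical
  have key : ∀ y, y ≠ Sum.inl (i, e) → ip P Q hs (Sum.inl (i, e)) y ≠ 0 →
      y = Sum.inl (i, !e) ∧ ip P Q hs (Sum.inl (i, e)) y = - s := by
    intro y hne hip
    rcases y with ⟨j, f⟩ | l
    · rw [ip_ll hs hP hQ] at hip ⊢
      have hij : i = j := by
        by_contra h
        exact hip (if_neg h)
      subst hij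
      have hfe : e ≠ f := by
        intro h
        exact hne (by rw [h])
      have hef : f = !e := by
        cases e <;> cases f <;> simp_all
      refine ⟨by rw [hef], ?_⟩
      rw [if_pos rfl, sg_mul' hfe]
      ring
    · rw [ip_lr hs hP hQ] at hip
      have hil : i = Fin.castLE hs l := by
        by_contra h
        exact hip (if_neg h)
      exfalso
      have := congrArg Fin.val hil
      simp only [Fin.val_castLE] at this
      omega
  constructor
  · have hsub : bad P Q hs (Sum.inl (i, e)) ⊆ {Sum.inl (i, !e)} := by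
      intro y hy
      rw [bad, mem_filter] at hy
      rw [mem_singleton]
      exact (key y hy.2.1 hy.2.2).1
    exact (card_le_card hsub).trans (by simp)
  · intro y hne
    by_cases h0 : ip P Q hs (Sum.inl (i, e)) y = 0
    · rw [h0]; simp
    · rw [(key y hne h0).2]
      simp

end glue

end Pool.Agent.V11175.PH
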