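import Mathlib
import Pool.Agent.V11175.PH3

/-!
Sign matrices of every large order divisible by four, all of whose rows are orthogonal to all but
at most two other rows.
-/

set_option autoImplicit false

namespace Pool.Agent.V11175.PH

open Finset Matrix Pool.Agent.H108R3.Had

/-- transport of the glued matrix to `Fin n` -/
theorem build {a s n : ℕ} (hn : n = a + (a + s)) (hs : s ≤ a) (ha : HasHad a)
    (hb : HasHad (a + s)) :
    ∃ H : Matrix (Fin n) (Fin n) ℤ, (∀ i j, H i j = 1 ∨ H i j = -1) ∧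
      (∀ i, (univ.filter fun j => j ≠ i ∧ (H * H.transpose) i j ≠ 0).card ≤ 2) ∧
      (∃ R : Finset (Fin n), R.card = a ∧
        ∀ i ∈ R, ∀ j ∈ R, i ≠ j → (H * H.transpose) i j = 0) ∧
      (∃ T : Finset (Fin n), T.card = 3 * s ∧ ∀ i, i ∉ T →
        (univ.filter fun j => j ≠ i ∧ (H * H.transpose) i j ≠ 0).card ≤ 1 ∧
        ∀ j, j ≠ i → |(H * H.transpose) i j| ≤ s) := by
  classical
  obtain ⟨P, hP1, hP2⟩ := ha
  obtain ⟨Q, hQ1, hQ2⟩ := hb
  have c1 : Fintype.card ((Fin a × Bool) ⊕ Fin s) = n := by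
    simp only [Fintype.card_sum, Fintype.card_prod, Fintype.card_fin, Fintype.card_bool]
    omega
  have c2 : Fintype.card (Fin a ⊕ Fin (a + s)) = n := by
    simp only [Fintype.card_sum, Fintype.card_fin]
    omega
  let eR : (Fin a × Bool) ⊕ Fin s ≃ Fin n := Fintype.equivFinOfCardEq c1
  let eC : Fin a ⊕ Fin (a + s) ≃ Fin n := Fintype.equivFinOfCardEq c2
  let H : Matrix (Fin n) (Fin n) ℤ := fun i j => glue P Q hs (eR.symm i) (eC.symm j)
  have hip : ∀ i j, (H * H.transpose) i j = ip P Q hs (eR.symm i) (eR.symm j) := by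
    intro i j
    rw [Matrix.mul_apply]
    simp only [Matrix.transpose_apply]
    unfold ip
    exact Equiv.sum_comp eC.symm
      (fun c => glue P Q hs (eR.symm i) c * glue P Q hs (eR.symm j) c)
  have hcard : ∀ i, (univ.filter fun j => j ≠ i ∧ (H * H.transpose) i j ≠ 0).card =
      (bad P Q hs (eR.symm i)).card := by
    intro i
    apply card_bij (fun j _ => eR.symm j)
    · intro j hj
      rw [mem_filter, hip] at hj
      rw [bad, mem_filter]
      exact ⟨mem_univ _, fun h => hj.2.1 (eR.symm.injective h), hj.2.2⟩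
    · intro j _ j' _ h
      exact eR.symm.injective h
    · intro y hy
      rw [bad, mem_filter] at hy
      refine ⟨eR y, ?_, eR.symm_apply_apply y⟩
      rw [mem_filter, hip, eR.symm_apply_apply]
      refine ⟨mem_univ _, ?_, hy.2.2⟩
      intro h
      apply hy.2.1
      rw [← h, eR.symm_apply_apply]
  refine ⟨H, fun i j => glue_sign hs hP1 hQ1 _ _, ?_, ?_, ?_⟩
  · intro i
    rw [hcard]
    exact bad_two hs hP2 hQ2 _
  · have hinj : Function.Injective (fun i : Fin a => eR (Sum.inl (i, true))) := by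
      intro i j h
      have h' := eR.injective h
      have h2 := Sum.inl.inj h'
      exact congrArg Prod.fst h2
    refine ⟨(univ : Finset (Fin a)).image (fun i => eR (Sum.inl (i, true))), ?_, ?_⟩
    · rw [card_image_of_injective _ hinj, card_univ, Fintype.card_fin]
    · intro i hi j hj hij
      rw [mem_image] at hi hj
      obtain ⟨i', -, rfl⟩ := hi
      obtain ⟨j', -, rfl⟩ := hj
      rw [hip, eR.symm_apply_apply, eR.symm_apply_apply, ip_ll hs hP2 hQ2, if_neg]
      intro h
      exact hij (by rw [h])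
  · -- the rows of the pairs with index below `s` and the additional rows
    let f1 : Fin s × Bool → (Fin a × Bool) ⊕ Fin s := fun x => Sum.inl (Fin.castLE hs x.1, x.2)
    let f2 : Fin s → (Fin a × Bool) ⊕ Fin s := fun k => Sum.inr k
    have hf1 : Function.Injective f1 := by
      intro x y h
      have h2 := Sum.inl.inj h
      exact Prod.ext (Fin.castLE_injective hs (Prod.mk.inj h2).1) (Prod.mk.inj h2).2
    have hf2 : Function.Injective f2 := Sum.inr_injective
    let T' : Finset ((Fin a × Bool) ⊕ Fin s) :=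
      ((univ : Finset (Fin s × Bool)).image f1) ∪ ((univ : Finset (Fin s)).image f2)
    have hT' : T'.card = 3 * s := by
      rw [card_union_of_disjoint, card_image_of_injective _ hf1, card_image_of_injective _ hf2,
        card_univ, card_univ, Fintype.card_prod, Fintype.card_fin, Fintype.card_bool]
      · ring
      · rw [disjoint_left]
        intro x hx hx'
        rw [mem_image] at hx hx'
        obtain ⟨y, -, rfl⟩ := hx
        obtain ⟨z, -, hz⟩ := hx'
        simp [f1, f2] at hz
    refine ⟨T'.map eR.toEmbedding, by rw [card_map, hT'], ?_⟩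
    intro i hi
    have hi' : eR.symm i ∉ T' := by
      intro h
      apply hi
      rw [mem_map]
      exact ⟨eR.symm i, h, by simp⟩
    rcases hx : eR.symm i with ⟨i', e⟩ | k
    · have hle : s ≤ (i' : ℕ) := by
        by_contra hlt
        push Not at hlt
        apply hi'
        rw [hx, mem_union, mem_image]
        left
        exact ⟨(⟨i', hlt⟩, e), mem_univ _, by simp [f1]⟩
      have h1 := bad_one hs hP2 hQ2 i' e hle
      refine ⟨by rw [hcard, hx]; exact h1.1, ?_⟩
      intro j hj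
      rw [hip, hx]
      apply h1.2
      intro h
      apply hj
      apply eR.symm.injective
      rw [h, hx]
    · exfalso
      apply hi'
      rw [hx, mem_union, mem_image, mem_image]
      right
      exact ⟨k, mem_univ _, rfl⟩

theorem nearly (A : ℕ) : ∃ n₀ : ℕ, ∀ n : ℕ, n₀ ≤ n → 4 ∣ n →
    ∃ H : Matrix (Fin n) (Fin n) ℤ, (∀ i j, H i j = 1 ∨ H i j = -1) ∧
      (∀ i, (univ.filter fun j => j ≠ i ∧ (H * H.transpose) i j ≠ 0).card ≤ 2) ∧
      (∃ R : Finset (Fin n), (n : ℝ) / 2 - n / Real.log n ^ A ≤ R.card ∧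
        ∀ i ∈ R, ∀ j ∈ R, i ≠ j → (H * H.transpose) i j = 0) ∧
      (∃ T : Finset (Fin n), (T.card : ℝ) ≤ n / Real.log n ^ A ∧ ∀ i, i ∉ T →
        (univ.filter fun j => j ≠ i ∧ (H * H.transpose) i j ≠ 0).card ≤ 1 ∧
        ∀ j, j ≠ i → |(((H * H.transpose) i j : ℤ) : ℝ)| ≤ n / Real.log n ^ A) := by
  obtain ⟨n0, h0⟩ := two_orders A
  refine ⟨n0, fun n hn h4 => ?_⟩
  obtain ⟨a, s, hns, hs, hsR, ha, hb⟩ := h0 n hn h4
  obtain ⟨H, h1, h2, ⟨R, hR1, hR2⟩, ⟨T, hT1, hT2⟩⟩ := build hns hs ha hb
  have hs0 : (0 : ℝ) ≤ s := Nat.cast_nonneg s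
  have hE : (s : ℝ) * 3 ≤ n / Real.log n ^ A := by linarith
  refine ⟨H, h1, h2, ⟨R, ?_, hR2⟩, ⟨T, ?_, fun i hi => ⟨(hT2 i hi).1, fun j hj => ?_⟩⟩⟩
  · rw [hR1]
    have : (n : ℝ) = a + (a + s) := by exact_mod_cast hns
    linarith
  · rw [hT1]
    push_cast
    linarith
  · have h3 := (hT2 i hi).2 j hj
    have h4 : |(((H * H.transpose) i j : ℤ) : ℝ)| ≤ (s : ℝ) := by exact_mod_cast h3
    linarith

end Pool.Agent.V11175.PH
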