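import Mathlib
import Pool.Agent.V11175.PH1
import Pool.Agent.V11175.PH2
import Pool.Agent.W69.HH.Paley

/-!
Hadamard orders `a` such that `|a - m|` is a Hadamard order, too.
-/

set_option autoImplicit false

namespace Pool.Agent.V11175.PH

open Finset Pool.Agent.H108R3.Had Pool.Agent.W851.Had
open Pool.Agent.H442R2.EHI

lemma exists_base5 (C : ℕ) (hC : 2 ≤ C) : ∃ j : ℕ, C ^ (j + 5) ≤ tow j := by
  obtain ⟨j, hj⟩ := exists_base (C ^ 2)
  refine ⟨j, le_trans ?_ hj⟩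
  rw [← pow_mul]
  exact Nat.pow_le_pow_right (by omega) (by omega)

lemma pow_le_tow_step5 (C j : ℕ) (hC : 2 ≤ C) (h : C ^ (j + 5) ≤ tow j) :
    C ^ (j + 1 + 5) ≤ tow (j + 1) := by
  rw [tow_succ]
  have hm : 16 ≤ C ^ (j + 5) := by
    calc 16 = 2 ^ 4 := by norm_num
      _ ≤ C ^ 4 := Nat.pow_le_pow_left hC 4
      _ ≤ C ^ (j + 5) := Nat.pow_le_pow_right (by omega) (by omega)
  have hCm : C ≤ C ^ (j + 5) := Nat.le_self_pow (by omega) C
  have hsq : ∀ m : ℕ, 4 ≤ m → m * m ≤ 2 ^ m := by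
    intro m hm
    induction m, hm using Nat.le_induction with
    | base => norm_num
    | succ k hk ih =>
      rw [pow_succ]
      nlinarith
  calc C ^ (j + 1 + 5) = C ^ (j + 5) * C := by ring
    _ ≤ C ^ (j + 5) * C ^ (j + 5) := Nat.mul_le_mul_left _ hCm
    _ ≤ 2 ^ C ^ (j + 5) := hsq _ (by omega)
    _ ≤ 2 ^ tow j := Nat.pow_le_pow_right (by norm_num) h

/-- the orders `2 ^ t * q ≤ 2 n`, with `2 ^ 2 ^ t ≤ n` and `t + 2 ≤ C ^ (k + 1)` if `n ≤ tow k` -/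
theorem many_orders5 : ∃ C n0 : ℕ, ∀ k n : ℕ, n0 ≤ n → n ≤ tow k → ∃ t : ℕ, 2 ≤ t ∧
    t + 2 ≤ C ^ (k + 1) ∧ 2 ^ 2 ^ t ≤ n ∧ ∀ q : ℕ, 2 ^ t * q ≤ 2 * n → HasHad (2 ^ t * q) := by
  obtain ⟨C, hC, hmain⟩ := main_had
  obtain ⟨j0, hj0⟩ := exists_base5 C hC
  have hj : ∀ j, j0 ≤ j → C ^ (j + 5) ≤ tow j := by
    intro j hj
    induction j, hj using Nat.le_induction with
    | base => exact hj0
    | succ k hk ih => exact pow_le_tow_step5 C k hC ih
  refine ⟨2 * C ^ 2, tow (j0 + 2) + 1, fun k0 n hn hk0 => ?_⟩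
  have hex : ∃ k, n ≤ tow k := ⟨k0, hk0⟩
  classical
  obtain ⟨k, hk, hkm⟩ : ∃ k, n ≤ tow k ∧ ∀ m, m < k → tow m < n :=
    ⟨Nat.find hex, Nat.find_spec hex, fun m hm => not_le.1 (Nat.find_min hex hm)⟩
  have hkk0 : k ≤ k0 := by
    by_contra hlt
    push Not at hlt
    have := hkm k0 hlt
    omega
  have hk3 : j0 + 3 ≤ k := by
    by_contra hlt
    push Not at hlt
    have : tow k ≤ tow (j0 + 2) := tow_mono (by omega)
    omega
  obtain ⟨j, rfl⟩ : ∃ j, k = j + 3 := ⟨k - 3, by omega⟩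
  have h1 : tow (j + 2) < n := hkm _ (by omega)
  have h2 := hj j (by omega)
  have hC1 : 2 ≤ C ^ (j + 5) := by
    calc 2 ≤ C := hC
      _ ≤ C ^ (j + 5) := Nat.le_self_pow (by omega) C
  refine ⟨C ^ (j + 5), hC1, ?_, ?_, ?_⟩
  · calc C ^ (j + 5) + 2 ≤ 2 * C ^ (j + 5) := by omega
      _ ≤ 2 * C ^ (2 * (k0 + 1)) :=
          Nat.mul_le_mul_left _ (Nat.pow_le_pow_right (by omega) (by omega))
      _ ≤ 2 ^ (k0 + 1) * C ^ (2 * (k0 + 1)) :=
          Nat.mul_le_mul_right _ (Nat.le_self_pow (by omega) 2)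
      _ = (2 * C ^ 2) ^ (k0 + 1) := by rw [mul_pow, ← pow_mul]
  · refine le_trans ?_ h1.le
    rw [tow_succ, tow_succ]
    exact Nat.pow_le_pow_right (by norm_num) (Nat.pow_le_pow_right (by norm_num) h2)
  · intro q hq
    apply hmain (j + 4) q _ _ le_rfl
    have h3 : q ≤ 2 ^ C ^ (j + 5) * q := Nat.le_mul_of_pos_left q (by positivity)
    have h4 : 2 * n ≤ tow (j + 4) := by
      rw [tow_succ]
      have h5 : 1 ≤ tow (j + 3) := tow_pos _
      have h6 : 2 * tow (j + 3) ≤ 2 ^ tow (j + 3) := by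
        obtain ⟨b, hb⟩ : ∃ b, tow (j + 3) = b + 1 := ⟨tow (j + 3) - 1, by omega⟩
        rw [hb, pow_succ]
        have : b + 1 ≤ 2 ^ b := Nat.lt_two_pow_self
        omega
      omega
    omega

/-- many primes in a reduced class to a very small modulus -/
theorem prime_count : ∃ y0 : ℕ, ∀ y : ℕ, y0 ≤ y → ∀ q : ℕ, 1 ≤ q →
    (q : ℝ) ≤ Real.log y ^ 2 → ∀ c : ℕ, c < q → c.Coprime q →
    (y : ℝ) / (2 * q * Real.log y) + 2 ≤ H343E.piAP y q c := by
  obtain ⟨y1, h1⟩ := sw 4 2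
  obtain ⟨C, h2⟩ := pnt_err 4
  obtain ⟨y2, h3⟩ := ev_L (4 * (1 + |C|) + 4)
  obtain ⟨y3, h4⟩ := ev_log 3 12
  refine ⟨max (max y1 16) (max y2 y3), fun y hy q hq hqy c hc hcop => ?_⟩
  have g1 : y1 ≤ y := le_trans (le_trans (le_max_left _ _) (le_max_left _ _)) hy
  have g2 : 16 ≤ y := le_trans (le_trans (le_max_right _ _) (le_max_left _ _)) hy
  have g3 : y2 ≤ y := le_trans (le_trans (le_max_left _ _) (le_max_right _ _)) hy
  have g4 : y3 ≤ y := le_trans (le_trans (le_max_right _ _) (le_max_right _ _)) hy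
  have hL := h3 y g3
  have hS := h4 y g4
  have e1 := (abs_le.1 (h1 y g1 q hq hqy c hc hcop)).1
  have e2 := (abs_le.1 (h2 y (by omega))).1
  have e3 := lis_diff 1 y le_rfl (by omega)
  have e4 : lis 1 = 0 := by unfold lis; simp
  rw [e4, sub_zero] at e3
  change _ ≤ H343E.pi1 y - lis y at e2
  set L := Real.log y with hLdef
  have hC0 : 0 ≤ |C| := abs_nonneg C
  have hL4 : 4 ≤ L := by linarith
  have hL0 : 0 < L := by linarith
  have hyR : (16 : ℝ) ≤ y := by exact_mod_cast g2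
  have hy0 : (0 : ℝ) < y := by linarith
  have hqR : (1 : ℝ) ≤ q := by exact_mod_cast hq
  have hq0 : (0 : ℝ) < q := by linarith
  set Q : ℝ := (Nat.totient q : ℝ) with hQ
  have hQ1 : 1 ≤ Q := by
    rw [hQ]; exact_mod_cast Nat.totient_pos.2 (by omega)
  have hQ2 : Q ≤ q := by
    rw [hQ]; exact_mod_cast Nat.totient_le q
  have hQ0 : 0 < Q := by linarith
  set E := (y : ℝ) / L ^ 4 with hE
  have hE0 : 0 < E := by positivity
  have hCE : C * y / L ^ 4 ≤ |C| * E := by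
    rw [mul_div_assoc]
    exact mul_le_mul_of_nonneg_right (le_abs_self C) hE0.le
  have h5 : ((y : ℝ) - 1) / L - |C| * E ≤ H343E.pi1 y := by
    have : ((1 : ℕ) : ℝ) = 1 := Nat.cast_one
    rw [this] at e3
    linarith
  have h6 : (((y : ℝ) - 1) / L - |C| * E) / Q ≤ H343E.pi1 y / Q :=
    div_le_div_of_nonneg_right h5 hQ0.le
  have h7 : ((y : ℝ) - 1) / L / q ≤ ((y : ℝ) - 1) / L / Q :=
    div_le_div_of_nonneg_left (div_nonneg (by linarith) hL0.le) hQ0 hQ2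
  have h8 : |C| * E / Q ≤ |C| * E := div_le_self (by positivity) hQ1
  rw [sub_div] at h6
  have h9 : ((y : ℝ) - 1) / L / q - (1 + |C|) * E ≤ H343E.piAP y q c := by linarith
  -- comparison
  have hsq : √(y : ℝ) * √(y : ℝ) = y := Real.mul_self_sqrt hy0.le
  have hs1 : 4 ≤ √(y : ℝ) := by
    rw [show (4 : ℝ) = √16 by
      rw [show (16 : ℝ) = 4 ^ 2 by norm_num]; exact (Real.sqrt_sq (by norm_num)).symm]
    exact Real.sqrt_le_sqrt hyR
  have h10 : 12 * L ^ 3 ≤ y := by nlinarith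
  have h11 : (1 + |C|) * E ≤ y / (4 * q * L) := by
    rw [hE, ← mul_div_assoc, div_le_div_iff₀ (by positivity) (by positivity)]
    have h12 : 4 * (1 + |C|) * q ≤ L ^ 3 := by
      calc 4 * (1 + |C|) * q ≤ L * L ^ 2 := by
            apply mul_le_mul (by linarith) hqy hq0.le hL0.le
        _ = L ^ 3 := by ring
    calc (1 + |C|) * y * (4 * q * L) = y * L * (4 * (1 + |C|) * q) := by ring
      _ ≤ y * L * L ^ 3 := mul_le_mul_of_nonneg_left h12 (by positivity)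
      _ = y * L ^ 4 := by ring
  have h13 : ((y : ℝ) - 1) / L / q = y / (q * L) - 1 / (q * L) := by
    field_simp
  have h14 : (y : ℝ) / (q * L) = y / (2 * q * L) + y / (4 * q * L) + y / (4 * q * L) := by
    field_simp
    ring
  have h15 : 1 / (q * L) + 2 ≤ (y : ℝ) / (4 * q * L) := by
    have hqL : 0 < (q : ℝ) * L := by positivity
    have h16 : (1 : ℝ) / (q * L) ≤ 1 := by
      rw [div_le_one hqL]
      nlinarith
    have h17 : (3 : ℝ) ≤ y / (4 * q * L) := by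
      rw [le_div_iff₀ (by positivity)]
      calc 3 * (4 * (q : ℝ) * L) = 12 * (q * L) := by ring
        _ ≤ 12 * (L ^ 2 * L) := by gcongr
        _ = 12 * L ^ 3 := by ring
        _ ≤ y := h10
    linarith
  linarith

/-- order of a Hadamard matrix -/
def IsHadamardOrder (n : ℕ) : Prop :=
  0 < n ∧ ∃ H : Matrix (Fin n) (Fin n) ℤ, (∀ i j, H i j = 1 ∨ H i j = -1) ∧
    H * H.transpose = (n : ℤ) • (1 : Matrix (Fin n) (Fin n) ℤ)

open Classical in
theorem pairs : ∃ C x₀ : ℕ, ∀ k x : ℕ, x₀ ≤ x → x ≤ tow k → ∀ m : ℤ, 4 ∣ m → |m| ≤ x →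
    (x : ℝ) / (2 ^ C ^ (k + 1) * Real.log x) ≤
      (((Icc 1 x).filter fun a => IsHadamardOrder a ∧
        IsHadamardOrder ((a : ℤ) - m).natAbs).card : ℝ) := by
  obtain ⟨C, n0, hord⟩ := many_orders5
  obtain ⟨y0, hy0⟩ := prime_count
  obtain ⟨x2, hx2⟩ := ev_L 16
  refine ⟨C, max (max n0 (y0 + 1)) (max x2 16), fun k x hx hxk m h4 hm => ?_⟩
  have g1 : n0 ≤ x := le_trans (le_trans (le_max_left _ _) (le_max_left _ _)) hx
  have g2 : y0 + 1 ≤ x := le_trans (le_trans (le_max_right _ _) (le_max_left _ _)) hx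
  have g3 : x2 ≤ x := le_trans (le_trans (le_max_left _ _) (le_max_right _ _)) hx
  have g4 : 16 ≤ x := le_trans (le_trans (le_max_right _ _) (le_max_right _ _)) hx
  obtain ⟨t, ht2, htC, htn, hH⟩ := hord k x g1 hxk
  have hL := hx2 x g3
  set L := Real.log x with hLdef
  have hL0 : 0 < L := by linarith
  obtain ⟨y, rfl⟩ : ∃ y, x = y + 1 := ⟨x - 1, by omega⟩
  have hyR : (15 : ℝ) ≤ y := by exact_mod_cast (by omega : 15 ≤ y)
  have hypos : (0 : ℝ) < y := by linarith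
  have hxR : ((y + 1 : ℕ) : ℝ) = (y : ℝ) + 1 := by push_cast; ring
  have hx0 : (0 : ℝ) < ((y + 1 : ℕ) : ℝ) := by positivity
  have hly1 : Real.log y ≤ L := Real.log_le_log hypos (by rw [hxR]; linarith)
  have hly2 : L / 2 ≤ Real.log y := by
    have h1 : Real.log (√((y + 1 : ℕ) : ℝ)) = L / 2 := by rw [Real.log_sqrt hx0.le]
    rw [← h1]
    apply Real.log_le_log (by positivity)
    have h2 : √((y + 1 : ℕ) : ℝ) * √((y + 1 : ℕ) : ℝ) = ((y + 1 : ℕ) : ℝ) := Real.mul_self_sqrt hx0.le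
    have h3 : 4 ≤ √((y + 1 : ℕ) : ℝ) := by
      rw [show (4 : ℝ) = √16 by
        rw [show (16 : ℝ) = 4 ^ 2 by norm_num]; exact (Real.sqrt_sq (by norm_num)).symm]
      exact Real.sqrt_le_sqrt (by exact_mod_cast g4)
    have h5 : ((y + 1 : ℕ) : ℝ) ≤ 2 * y := by rw [hxR]; linarith
    nlinarith
  have hly0 : 0 < Real.log y := by linarith
  have hq : ((2 ^ t : ℕ) : ℝ) ≤ Real.log y ^ 2 := by
    have h1 : ((2 ^ t : ℕ) : ℝ) * Real.log 2 ≤ L := by
      have h2 : ((2 ^ 2 ^ t : ℕ) : ℝ) ≤ ((y + 1 : ℕ) : ℝ) := by exact_mod_cast htn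
      have h3 := Real.log_le_log (by positivity) h2
      rwa [Nat.cast_pow, Real.log_pow, Nat.cast_ofNat] at h3
    have h4 : (1 : ℝ) / 2 ≤ Real.log 2 := by
      have := Real.log_two_gt_d9
      linarith
    have h5 : ((2 ^ t : ℕ) : ℝ) ≤ 2 * L := by
      have h6 : (0 : ℝ) ≤ ((2 ^ t : ℕ) : ℝ) := by positivity
      nlinarith
    nlinarith
  -- the residue class
  have hq0 : (0 : ℤ) < ((2 ^ t : ℕ) : ℤ) := by positivity
  have h4t : (4 : ℤ) ∣ ((2 ^ t : ℕ) : ℤ) := by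
    have : (4 : ℕ) ∣ 2 ^ t := by
      rw [show (4 : ℕ) = 2 ^ 2 by norm_num]
      exact pow_dvd_pow 2 ht2
    exact_mod_cast this
  have hc0 : 0 ≤ (m - 1) % ((2 ^ t : ℕ) : ℤ) := Int.emod_nonneg _ hq0.ne'
  have hc1 : (m - 1) % ((2 ^ t : ℕ) : ℤ) < ((2 ^ t : ℕ) : ℤ) := Int.emod_lt_of_pos _ hq0
  obtain ⟨c, hc⟩ := Int.eq_ofNat_of_zero_le hc0
  have hcq : c < 2 ^ t := by
    rw [hc] at hc1
    exact_mod_cast hc1
  have hcm : ((2 ^ t : ℕ) : ℤ) ∣ (m - 1) - (c : ℤ) := by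
    rw [← Int.emod_emod_of_dvd (m - 1) (dvd_refl ((2 ^ t : ℕ) : ℤ))] at hc
    have := Int.dvd_self_sub_emod (x := m - 1) (m := ((2 ^ t : ℕ) : ℤ))
    rw [Int.emod_emod_of_dvd _ (dvd_refl _)] at hc
    rwa [hc] at this
  have hc4 : c % 4 = 3 := by
    have h1 : (4 : ℤ) ∣ (m - 1) - (c : ℤ) := h4t.trans hcm
    omega
  have hc2 : Nat.Coprime c (2 ^ t) := by
    apply Nat.Coprime.pow_right
    rw [Nat.coprime_two_right, Nat.odd_iff]
    omega
  have hcount := hy0 y (by omega) (2 ^ t) Nat.one_le_two_pow hq c hcq hc2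
  -- the injection
  set S := (Icc 1 y).filter (fun p => p.Prime ∧ p ≡ c [MOD 2 ^ t]) with hS
  set T := (Icc 1 (y + 1)).filter fun a => IsHadamardOrder a ∧
        IsHadamardOrder ((a : ℤ) - m).natAbs with hT
  have hST : S.card ≤ T.card + 1 := by
    have hsub : S.image (fun p => p + 1) ⊆ insert m.toNat T := by
      intro a ha
      rw [mem_image] at ha
      obtain ⟨p, hp, rfl⟩ := ha
      rw [hS, mem_filter, mem_Icc] at hp
      obtain ⟨⟨hp1, hp2⟩, hp3, hp4⟩ := hp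
      rw [mem_insert]
      by_cases hpm : ((p + 1 : ℕ) : ℤ) = m
      · left
        rw [← hpm]
        rfl
      · right
        rw [hT, mem_filter, mem_Icc]
        have hpc : ((2 ^ t : ℕ) : ℤ) ∣ (p : ℤ) - c := by
          have := (Nat.modEq_iff_dvd.1 hp4.symm)
          exact this
        have hp44 : p % 4 = 3 := by
          have h1 : (4 : ℤ) ∣ (p : ℤ) - c := h4t.trans hpc
          omega
        have : Fact p.Prime := ⟨hp3⟩
        have hd : ((2 ^ t : ℕ) : ℤ) ∣ ((p + 1 : ℕ) : ℤ) - m := by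
          have h1 := dvd_sub hpc hcm
          have h2 : ((p + 1 : ℕ) : ℤ) - m = (p : ℤ) - c - (m - 1 - c) := by push_cast; ring
          rw [h2]
          exact h1
        obtain ⟨r, hr⟩ := Int.natAbs_dvd_natAbs.2 hd
        rw [Int.natAbs_natCast] at hr
        refine ⟨⟨by omega, by omega⟩, ⟨by omega, Pool.Agent.W69.HH.paley hp44⟩, ?_, ?_⟩
        · have : ((p + 1 : ℕ) : ℤ) - m ≠ 0 := sub_ne_zero.2 hpm
          omega
        · rw [hr]
          apply hH r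
          rw [← hr]
          have hm' := abs_le.1 hm
          push_cast at hm'
          omega
    have h1 := card_le_card hsub
    rw [card_image_of_injective _ (fun a b h => by simpa using h)] at h1
    exact h1.trans (card_insert_le _ _)
  have hS2 : H343E.piAP y (2 ^ t) c = (S.card : ℝ) := rfl
  rw [hS2] at hcount
  have hST' : (S.card : ℝ) ≤ T.card + 1 := by exact_mod_cast hST
  have hfin : ((y + 1 : ℕ) : ℝ) / (2 ^ C ^ (k + 1) * L) ≤
      (y : ℝ) / (2 * ((2 ^ t : ℕ) : ℝ) * Real.log y) := by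
    have h1 : ((y + 1 : ℕ) : ℝ) ≤ 2 * y := by rw [hxR]; linarith
    have h2 : (4 : ℝ) * 2 ^ t ≤ 2 ^ C ^ (k + 1) := by
      calc (4 : ℝ) * 2 ^ t = 2 ^ (t + 2) := by rw [pow_add]; ring
        _ ≤ 2 ^ C ^ (k + 1) := pow_le_pow_right₀ (by norm_num) htC
    rw [div_le_div_iff₀ (by positivity) (by positivity)]
    push_cast
    calc ((y : ℝ) + 1) * (2 * 2 ^ t * Real.log y) ≤ (2 * y) * (2 * 2 ^ t * L) := by
          apply mul_le_mul (by linarith) _ (by positivity) (by positivity)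
          exact mul_le_mul_of_nonneg_left hly1 (by positivity)
      _ = y * (4 * 2 ^ t * L) := by ring
      _ ≤ y * (2 ^ C ^ (k + 1) * L) := by
          apply mul_le_mul_of_nonneg_left _ hypos.le
          exact mul_le_mul_of_nonneg_right h2 hL0.le
  linarith

end Pool.Agent.V11175.PH
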