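import Mathlib

/-!
# Skew-symmetric linear `(2,p,p)`-AONT exist for all odd primes

Index the rows and columns by the elements of `Z/p`, with `0` as the first index. The matrix with entries
`j / (j - i)` for `i, j` nonzero and distinct, ones in the rest of the first row and column and zeros on
the diagonal is the desired one, with `τ = 1`. Its core is a circulant matrix over the multiplicative
group with eigenvalues `-1, 1, 2, ..., p - 2`.
-/

set_option autoImplicit false

namespace Pool.Agent.V11175.AllOddPrimes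

open Finset Matrix

/-- A linear `(2,s,p)`-AONT: an invertible `s × s` matrix over `Z/p` all of whose `2 × 2` submatrices
(two distinct rows, two distinct columns) are invertible. -/
def IsLinearAONT2 {s p : ℕ} (M : Matrix (Fin s) (Fin s) (ZMod p)) : Prop :=
  IsUnit M.det ∧ ∀ i i' j j' : Fin s, i ≠ i' → j ≠ j' →
    IsUnit (M i j * M i' j' - M i j' * M i' j)

/-- The matrix `M` is a skew-symmetric linear `(2,p,p)`-AONT: it is a linear `(2,p,p)`-AONT in type `p`
standard form (zero diagonal, all other entries of the first row and of the first column equal to `1`),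
and for some `τ` one has `M i j + M j i = τ` for all distinct indices `i, j` other than the first one. -/
def IsSkewAONT {p : ℕ} (M : Matrix (Fin p) (Fin p) (ZMod p)) : Prop :=
  IsLinearAONT2 M ∧ (∀ i, M i i = 0) ∧
    (∀ i j : Fin p, i ≠ j → (i : ℕ) = 0 ∨ (j : ℕ) = 0 → M i j = 1) ∧
    ∃ τ : ZMod p, ∀ i j : Fin p, (i : ℕ) ≠ 0 → (j : ℕ) ≠ 0 → i ≠ j → M i j + M j i = τ

variable {p : ℕ} [Fact p.Prime]

/-- the matrix indexed by field elements -/
def N (i j : ZMod p) : ZMod p := if i = j then 0 else if i = 0 ∨ j = 0 then 1 else j * (j - i)⁻¹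

theorem N_ne {i j : ZMod p} (hi : i ≠ 0) (hj : j ≠ 0) : N i j = j * (j - i)⁻¹ := by
  unfold N
  by_cases h : i = j
  · subst h; simp
  · simp [h, hi, hj]

theorem N_diag (i : ZMod p) : N i i = 0 := by simp [N]

theorem N_zero_left {j : ZMod p} (hj : j ≠ 0) : N 0 j = 1 := by simp [N, hj.symm]

theorem N_zero_right {i : ZMod p} (hi : i ≠ 0) : N i 0 = 1 := by simp [N, hi]

theorem N_nonzero {i j : ZMod p} (h : i ≠ j) : N i j ≠ 0 := by
  unfold N
  rw [if_neg h]
  split_ifs with h1
  · exact one_ne_zero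
  · push Not at h1
    exact mul_ne_zero h1.2 (inv_ne_zero (sub_ne_zero.2 h.symm))

theorem minor {i i' j j' : ZMod p} (hi : i ≠ i') (hj : j ≠ j') :
    N i j * N i' j' - N i j' * N i' j ≠ 0 := by
  -- diagonal cases
  by_cases h1 : i = j
  · subst h1
    have h2 := N_nonzero (p := p) hj
    have h3 := N_nonzero (p := p) hi.symm
    rw [N_diag, zero_mul, zero_sub]
    exact neg_ne_zero.2 (mul_ne_zero h2 h3)
  by_cases h2 : i' = j'
  · subst h2
    rw [N_diag, mul_zero, zero_sub]
    exact neg_ne_zero.2 (mul_ne_zero (N_nonzero hi) (N_nonzero hj.symm))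
  by_cases h3 : i = j'
  · subst h3
    rw [N_diag, zero_mul, sub_zero]
    exact mul_ne_zero (N_nonzero h1) (N_nonzero h2)
  by_cases h4 : i' = j
  · subst h4
    rw [N_diag, mul_zero, sub_zero]
    exact mul_ne_zero (N_nonzero h1) (N_nonzero h2)
  -- now all four entries are off-diagonal
  have s1 : j - i ≠ 0 := sub_ne_zero.2 (Ne.symm h1)
  have s2 : j' - i' ≠ 0 := sub_ne_zero.2 (Ne.symm h2)
  have s3 : j' - i ≠ 0 := sub_ne_zero.2 (Ne.symm h3)
  have s4 : j - i' ≠ 0 := sub_ne_zero.2 (Ne.symm h4)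
  have si : i - i' ≠ 0 := sub_ne_zero.2 hi
  have sj : j - j' ≠ 0 := sub_ne_zero.2 hj
  by_cases i0 : i = 0
  · subst i0
    have hi'0 : i' ≠ 0 := hi.symm
    have hj0 : j ≠ 0 := fun h => h1 h.symm
    have hj'0 : j' ≠ 0 := fun h => h3 h.symm
    rw [N_zero_left hj0, N_zero_left hj'0, N_ne hi'0 hj'0, N_ne hi'0 hj0]
    intro h
    have : (j - j') * i' = 0 := by
      field_simp at h
      linear_combination h
    rcases mul_eq_zero.1 this with h' | h'
    · exact sj h'
    · exact hi'0 h'
  by_cases i'0 : i' = 0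
  · subst i'0
    have hj0 : j ≠ 0 := fun h => h4 h.symm
    have hj'0 : j' ≠ 0 := fun h => h2 h.symm
    rw [N_zero_left hj0, N_zero_left hj'0, N_ne i0 hj'0, N_ne i0 hj0]
    intro h
    have : (j - j') * i = 0 := by
      field_simp at h
      linear_combination -h
    rcases mul_eq_zero.1 this with h' | h'
    · exact sj h'
    · exact i0 h'
  by_cases j0 : j = 0
  · subst j0
    have hj'0 : j' ≠ 0 := hj.symm
    rw [N_zero_right i0, N_zero_right i'0, N_ne i0 hj'0, N_ne i'0 hj'0]
    intro h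
    have : (i - i') * j' = 0 := by
      field_simp at h
      linear_combination -h
    rcases mul_eq_zero.1 this with h' | h'
    · exact si h'
    · exact hj'0 h'
  by_cases j'0 : j' = 0
  · subst j'0
    rw [N_zero_right i0, N_zero_right i'0, N_ne i0 j0, N_ne i'0 j0]
    intro h
    have : (i - i') * j = 0 := by
      field_simp at h
      linear_combination h
    rcases mul_eq_zero.1 this with h' | h'
    · exact si h'
    · exact j0 h'
  rw [N_ne i0 j0, N_ne i'0 j'0, N_ne i0 j'0, N_ne i'0 j0]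
  intro h
  have : (j * j') * ((i - i') * (j - j')) = 0 := by
    field_simp at h
    linear_combination -h
  rcases mul_eq_zero.1 this with h' | h'
  · rcases mul_eq_zero.1 h' with h'' | h''
    · exact j0 h''
    · exact j'0 h''
  · rcases mul_eq_zero.1 h' with h'' | h''
    · exact si h''
    · exact sj h''

/-- eigenvalues of the core -/
def L (b : ℕ) : ZMod p := ∑ y ∈ univ.erase (0 : ZMod p), y ^ b * (1 - y)⁻¹

theorem sum_pow_erase {b : ℕ} (hb : 1 ≤ b) (hb' : b < p - 1) :
    ∑ y ∈ univ.erase (0 : ZMod p), y ^ b = 0 := by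
  have h1 : ∑ y : ZMod p, y ^ b = 0 := by
    apply FiniteField.sum_pow_lt_card_sub_one
    rw [ZMod.card]; exact hb'
  rw [← Finset.add_sum_erase univ (fun y : ZMod p => y ^ b) (mem_univ 0)] at h1
  simpa [Nat.pos_iff_ne_zero.1 hb] using h1

theorem card_erase : ((univ.erase (0 : ZMod p)).card : ZMod p) = -1 := by
  rw [Finset.card_erase_of_mem (mem_univ _), Finset.card_univ, ZMod.card,
    Nat.cast_sub (Fact.out : p.Prime).one_le]
  simp

theorem L_rec (b : ℕ) : (L b : ZMod p) - L (b + 1) = ∑ y ∈ univ.erase (0 : ZMod p), y ^ b - 1 := by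
  unfold L
  rw [← Finset.sum_sub_distrib]
  have h1 : (1 : ZMod p) ∈ univ.erase (0 : ZMod p) := by simp
  rw [← Finset.add_sum_erase _ _ h1, ← Finset.add_sum_erase _ (fun y : ZMod p => y ^ b) h1]
  simp only [sub_self, _root_.inv_zero, mul_zero, one_pow, zero_add]
  rw [add_sub_cancel_left]
  apply Finset.sum_congr rfl
  intro y hy
  have hy1 : (1 : ZMod p) - y ≠ 0 := sub_ne_zero.2 (Finset.ne_of_mem_erase hy).symm
  field_simp
  ring

theorem L_zero (hp : p ≠ 2) : (L 0 : ZMod p) = -1 := by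
  have hp3 : 2 < p := lt_of_le_of_ne (Fact.out : p.Prime).two_le hp.symm
  have h0 : ∑ z : ZMod p, z⁻¹ = 0 := by
    have h1 : ∑ z : ZMod p, z⁻¹ = ∑ z : ZMod p, z := by
      apply Fintype.sum_equiv (Equiv.inv (ZMod p))
      intro z; simp
    rw [h1]
    have h2 : ∑ z : ZMod p, z ^ 1 = 0 := by
      apply FiniteField.sum_pow_lt_card_sub_one
      rw [ZMod.card]; omega
    simpa using h2
  have h3 : ∑ y : ZMod p, (1 - y)⁻¹ = 0 := by
    rw [← h0]
    exact Fintype.sum_equiv (Equiv.subLeft 1) _ _ (fun y => rfl)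
  unfold L
  rw [← Finset.add_sum_erase _ _ (mem_univ (0 : ZMod p))] at h3
  simp only [pow_zero, one_mul]
  simp only [sub_zero, inv_one] at h3
  linear_combination h3

theorem L_one (hp : p ≠ 2) : (L 1 : ZMod p) = 1 := by
  have h1 := L_rec (p := p) 0
  rw [L_zero hp] at h1
  simp only [pow_zero, Finset.sum_const, nsmul_eq_mul, mul_one, zero_add] at h1
  rw [card_erase] at h1
  linear_combination -h1

theorem L_eq (hp : p ≠ 2) (b : ℕ) (hb : 1 ≤ b) (hb' : b ≤ p - 1) : (L b : ZMod p) = b := by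
  induction b, hb using Nat.le_induction with
  | base => rw [L_one hp]; simp
  | succ b hb ih =>
    have h1 := L_rec (p := p) b
    rw [sum_pow_erase hb (by omega), ih (by omega)] at h1
    push_cast
    linear_combination -h1

theorem core_sum (b : ℕ) {j : ZMod p} (hj : j ≠ 0) :
    ∑ i ∈ univ.erase (0 : ZMod p), i ^ b * (j * (j - i)⁻¹) = j ^ b * L b := by
  unfold L
  rw [Finset.mul_sum]
  symm
  refine Finset.sum_bij (fun y _ => y * j) ?_ ?_ ?_ ?_
  · intro y hy
    rw [Finset.mem_erase] at hy ⊢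
    exact ⟨mul_ne_zero hy.1 hj, mem_univ _⟩
  · intro y _ z _ h
    exact mul_right_cancel₀ hj h
  · intro i hi
    rw [Finset.mem_erase] at hi
    refine ⟨i * j⁻¹, ?_, ?_⟩
    · rw [Finset.mem_erase]
      exact ⟨mul_ne_zero hi.1 (inv_ne_zero hj), mem_univ _⟩
    · rw [mul_assoc, inv_mul_cancel₀ hj, mul_one]
  · intro y _
    have : j - y * j = j * (1 - y) := by ring
    rw [this, mul_inv, mul_pow]
    field_simp

theorem ker_trivial (hp : p ≠ 2) (w : ZMod p → ZMod p) (hw : ∀ i, ∑ j, N i j * w j = 0) :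
    w = 0 := by
  have hp3 : 2 < p := lt_of_le_of_ne (Fact.out : p.Prime).two_le hp.symm
  -- the first equation
  have e0 : ∑ j ∈ univ.erase (0 : ZMod p), w j = 0 := by
    have h1 := hw 0
    rw [← Finset.add_sum_erase _ _ (mem_univ (0 : ZMod p)), N_diag, zero_mul, zero_add] at h1
    refine Eq.trans ?_ h1
    apply Finset.sum_congr rfl
    intro j hj
    rw [N_zero_left (Finset.ne_of_mem_erase hj), one_mul]
  -- the other equations
  have ei : ∀ i : ZMod p, i ≠ 0 →
      w 0 + ∑ j ∈ univ.erase (0 : ZMod p), (j * (j - i)⁻¹) * w j = 0 := by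
    intro i hi
    have h1 := hw i
    rw [← Finset.add_sum_erase _ _ (mem_univ (0 : ZMod p)), N_zero_right hi, one_mul] at h1
    refine Eq.trans ?_ h1
    congr 1
    apply Finset.sum_congr rfl
    intro j hj
    rw [N_ne hi (Finset.ne_of_mem_erase hj)]
  -- Fourier transform
  have eb : ∀ b : ℕ, w 0 * ∑ i ∈ univ.erase (0 : ZMod p), i ^ b +
      L b * ∑ j ∈ univ.erase (0 : ZMod p), j ^ b * w j = 0 := by
    intro b
    have h1 : ∑ i ∈ univ.erase (0 : ZMod p), i ^ b *
        (w 0 + ∑ j ∈ univ.erase (0 : ZMod p), (j * (j - i)⁻¹) * w j) = 0 := by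
      apply Finset.sum_eq_zero
      intro i hi
      rw [ei i (Finset.ne_of_mem_erase hi), mul_zero]
    refine Eq.trans ?_ h1
    simp only [mul_add, Finset.sum_add_distrib, Finset.mul_sum]
    congr 1
    · apply Finset.sum_congr rfl
      intro i _; ring
    · rw [Finset.sum_comm]
      apply Finset.sum_congr rfl
      intro j hj
      have h2 := core_sum b (Finset.ne_of_mem_erase hj)
      have h3 : ∑ i ∈ univ.erase (0 : ZMod p), i ^ b * (j * (j - i)⁻¹ * w j)
          = (∑ i ∈ univ.erase (0 : ZMod p), i ^ b * (j * (j - i)⁻¹)) * w j := by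
        rw [Finset.sum_mul]
        apply Finset.sum_congr rfl
        intro i _; ring
      rw [h3, h2]
      ring
  have w0 : w 0 = 0 := by
    have h1 := eb 0
    simp only [pow_zero, one_mul, Finset.sum_const, nsmul_eq_mul, mul_one] at h1
    rw [card_erase, e0] at h1
    linear_combination -h1
  have hhat : ∀ b : ℕ, b < p - 1 → ∑ j ∈ univ.erase (0 : ZMod p), j ^ b * w j = 0 := by
    intro b hb
    rcases Nat.eq_zero_or_pos b with rfl | hb0
    · simpa using e0
    · have h1 := eb b
      rw [w0, zero_mul, zero_add, L_eq hp b hb0 hb.le] at h1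
      rcases mul_eq_zero.1 h1 with h2 | h2
      · rw [ZMod.natCast_eq_zero_iff] at h2
        have := Nat.le_of_dvd hb0 h2
        omega
      · exact h2
  funext k
  by_cases hk : k = 0
  · rw [hk, w0]; rfl
  · have h1 : ∑ b ∈ range (p - 1), (k⁻¹) ^ b *
        ∑ j ∈ univ.erase (0 : ZMod p), j ^ b * w j = 0 := by
      apply Finset.sum_eq_zero
      intro b hb
      rw [hhat b (Finset.mem_range.1 hb), mul_zero]
    have h2 : ∑ b ∈ range (p - 1), (k⁻¹) ^ b *
        ∑ j ∈ univ.erase (0 : ZMod p), j ^ b * w j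
        = ∑ j ∈ univ.erase (0 : ZMod p), (∑ b ∈ range (p - 1), (k⁻¹ * j) ^ b) * w j := by
      simp only [Finset.mul_sum, Finset.sum_mul]
      rw [Finset.sum_comm]
      apply Finset.sum_congr rfl
      intro j _
      apply Finset.sum_congr rfl
      intro b _
      rw [mul_pow]; ring
    rw [h2] at h1
    have hkm : k ∈ univ.erase (0 : ZMod p) := by simp [hk]
    rw [← Finset.add_sum_erase _ _ hkm] at h1
    have h3 : ∑ j ∈ (univ.erase (0 : ZMod p)).erase k,
        (∑ b ∈ range (p - 1), (k⁻¹ * j) ^ b) * w j = 0 := by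
      apply Finset.sum_eq_zero
      intro j hj
      have hjk : j ≠ k := Finset.ne_of_mem_erase hj
      have hj0 : j ≠ 0 := Finset.ne_of_mem_erase (Finset.mem_of_mem_erase hj)
      have hne : k⁻¹ * j ≠ 1 := by
        intro h
        apply hjk
        field_simp at h
        exact h
      have hgeom := geom_sum_mul (k⁻¹ * j) (p - 1)
      rw [ZMod.pow_card_sub_one_eq_one (mul_ne_zero (inv_ne_zero hk) hj0), sub_self] at hgeom
      rcases mul_eq_zero.1 hgeom with h | h
      · rw [h, zero_mul]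
      · exact absurd (sub_eq_zero.1 h) hne
    rw [h3, add_zero, inv_mul_cancel₀ hk] at h1
    simp only [one_pow, Finset.sum_const, Finset.card_range, nsmul_eq_mul, mul_one] at h1
    rw [Nat.cast_sub (Fact.out : p.Prime).one_le] at h1
    simp only [CharP.cast_eq_zero, Nat.cast_one, zero_sub, neg_mul, one_mul, neg_eq_zero] at h1
    rw [h1]; rfl

theorem det_ne_zero (hp : p ≠ 2) : (Matrix.of (fun i j : ZMod p => N i j)).det ≠ 0 := by
  intro h
  obtain ⟨w, hw, hw2⟩ := Matrix.exists_mulVec_eq_zero_iff.2 h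
  apply hw
  apply ker_trivial hp
  intro i
  have := congrFun hw2 i
  simpa [Matrix.mulVec, dotProduct] using this

/-- the matrix indexed by `Fin p` -/
def M (p : ℕ) [Fact p.Prime] : Matrix (Fin p) (Fin p) (ZMod p) :=
  fun i j => N ((i : ℕ) : ZMod p) ((j : ℕ) : ZMod p)

theorem cast_inj {i j : Fin p} (h : ((i : ℕ) : ZMod p) = ((j : ℕ) : ZMod p)) : i = j := by
  have h1 := congrArg ZMod.val h
  rw [ZMod.val_natCast_of_lt i.isLt, ZMod.val_natCast_of_lt j.isLt] at h1
  exact Fin.ext h1

noncomputable def eqv (p : ℕ) [Fact p.Prime] : Fin p ≃ ZMod p :=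
  Equiv.ofBijective (fun i : Fin p => ((i : ℕ) : ZMod p)) (by
    rw [Fintype.bijective_iff_injective_and_card]
    refine ⟨fun i j h => cast_inj h, ?_⟩
    rw [Fintype.card_fin, ZMod.card])

theorem isSkew (hp : p ≠ 2) : IsSkewAONT (M p) := by
  have hcast : ∀ i : Fin p, (i : ℕ) ≠ 0 → ((i : ℕ) : ZMod p) ≠ 0 := by
    intro i hi h
    rw [ZMod.natCast_eq_zero_iff] at h
    have := Nat.le_of_dvd (Nat.pos_of_ne_zero hi) h
    have := i.isLt
    omega
  refine ⟨⟨?_, ?_⟩, ?_, ?_, 1, ?_⟩
  · rw [isUnit_iff_ne_zero]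
    have h1 : M p = (Matrix.of (fun i j : ZMod p => N i j)).submatrix (eqv p) (eqv p) := rfl
    rw [h1, Matrix.det_submatrix_equiv_self]
    exact det_ne_zero hp
  · intro i i' j j' hi hj
    rw [isUnit_iff_ne_zero]
    exact minor (fun h => hi (cast_inj h)) (fun h => hj (cast_inj h))
  · intro i
    exact N_diag _
  · intro i j hij h
    have hne : ((i : ℕ) : ZMod p) ≠ ((j : ℕ) : ZMod p) := fun h => hij (cast_inj h)
    unfold M N
    rw [if_neg hne, if_pos]
    rcases h with h | h
    · left; rw [h]; simp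
    · right; rw [h]; simp
  · intro i j hi hj hij
    have hne : ((i : ℕ) : ZMod p) ≠ ((j : ℕ) : ZMod p) := fun h => hij (cast_inj h)
    unfold M
    rw [N_ne (hcast i hi) (hcast j hj), N_ne (hcast j hj) (hcast i hi)]
    have h1 : ((j : ℕ) : ZMod p) - (i : ℕ) ≠ 0 := sub_ne_zero.2 hne.symm
    have h2 : ((i : ℕ) : ZMod p) - (j : ℕ) = -(((j : ℕ) : ZMod p) - (i : ℕ)) := by ring
    rw [h2, inv_neg]
    field_simp
    ring

/-- For every odd prime `p` there is a skew-symmetric linear `(2,p,p)`-AONT; in particular such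
matrices exist for infinitely many primes. -/
theorem result :
    (∀ p : ℕ, p.Prime → p ≠ 2 → ∃ M : Matrix (Fin p) (Fin p) (ZMod p), IsSkewAONT M) ∧
    {p : ℕ | p.Prime ∧ ∃ M : Matrix (Fin p) (Fin p) (ZMod p), IsSkewAONT M}.Infinite := by
  have h : ∀ p : ℕ, p.Prime → p ≠ 2 → ∃ M : Matrix (Fin p) (Fin p) (ZMod p), IsSkewAONT M := by
    intro p hp hp2
    have : Fact p.Prime := ⟨hp⟩
    exact ⟨M p, isSkew hp2⟩
  refine ⟨h, ?_⟩
  rw [Set.infinite_iff_exists_gt]
  intro a
  obtain ⟨q, hq, hqp⟩ := Nat.exists_infinite_primes (a + 3)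
  exact ⟨q, ⟨hqp, h q hqp (by omega)⟩, by omega⟩

end Pool.Agent.V11175.AllOddPrimes
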