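import Mathlib

/-!
# Row sums of signed Hadamard matrices of order 32

If a Hadamard matrix of order `32` has nonnegative row sums and the sum of all row sums but that of row `s`
is at least `169`, then it has a `7 × 7` block of a special shape, `s` being one of its last six rows.
-/

set_option autoImplicit false

namespace Pool.Agent.V11175.Excess32

open Finset

theorem sign_sq {x : ℤ} (h : x = 1 ∨ x = -1) : x * x = 1 := by rcases h with h | h <;> rw [h] <;> rfl

/-- The row sums of a matrix with orthogonal rows of signs, order `32`, are even and congruent mod `4`. -/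
theorem cong (G : Fin 32 → Fin 32 → ℤ) (hG : ∀ i j, G i j = 1 ∨ G i j = -1)
    (hr : ∀ i k, i ≠ k → ∑ j, G i j * G k j = 0) :
    (∀ i, ∃ m : ℤ, ∑ j, G i j = 4 * m) ∨ (∀ i, ∃ m : ℤ, ∑ j, G i j = 4 * m + 2) := by
  have hev : ∀ i, ∃ m : ℤ, ∑ j, G i j = 2 * m := by
    intro i
    have : ∀ j, ∃ m : ℤ, G i j = 1 + 2 * m := by
      intro j
      rcases hG i j with h | h
      · exact ⟨0, by rw [h]; norm_num⟩
      · exact ⟨-1, by rw [h]; norm_num⟩
    choose m hm using this
    refine ⟨16 + ∑ j, m j, ?_⟩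
    rw [Finset.sum_congr rfl (fun j _ => hm j), Finset.sum_add_distrib, ← Finset.mul_sum]
    simp
    ring
  have hd : ∀ i k, ∃ m : ℤ, ∑ j, G i j = ∑ j, G k j + 4 * m := by
    intro i k
    by_cases hik : i = k
    · exact ⟨0, by rw [hik]; ring⟩
    have : ∀ j, ∃ m : ℤ, G i j = G k j + (1 - G i j * G k j) + 4 * m := by
      intro j
      rcases hG i j with h | h <;> rcases hG k j with h' | h' <;> rw [h, h']
      · exact ⟨0, by norm_num⟩
      · exact ⟨0, by norm_num⟩
      · exact ⟨-1, by norm_num⟩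
      · exact ⟨0, by norm_num⟩
    choose m hm using this
    refine ⟨8 + ∑ j, m j, ?_⟩
    rw [Finset.sum_congr rfl (fun j _ => hm j), Finset.sum_add_distrib, Finset.sum_add_distrib,
      Finset.sum_sub_distrib, hr i k hik, ← Finset.mul_sum]
    simp
    ring
  obtain ⟨m0, hm0⟩ := hev 0
  rcases Int.emod_two_eq_zero_or_one m0 with h | h
  · left
    intro i
    obtain ⟨m, hm⟩ := hd i 0
    exact ⟨m0 / 2 + m, by omega⟩
  · right
    intro i
    obtain ⟨m, hm⟩ := hd i 0
    exact ⟨m0 / 2 + m, by omega⟩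

/-- Moment identities. -/
theorem mom (G : Fin 32 → Fin 32 → ℤ) (hG : ∀ i j, G i j = 1 ∨ G i j = -1)
    (hr : ∀ i k, i ≠ k → ∑ j, G i j * G k j = 0) (i : Fin 32) :
    ∑ j, G i j * ∑ k, G k j = 32 := by
  have h1 : ∑ j, G i j * ∑ k, G k j = ∑ k, ∑ j, G i j * G k j := by
    rw [Finset.sum_comm]
    exact Finset.sum_congr rfl (fun j _ => by rw [Finset.mul_sum])
  rw [h1, Finset.sum_eq_single i]
  · rw [Finset.sum_congr rfl (fun j _ => sign_sq (hG i j))]
    simp
  · intro k _ hk
    exact hr i k (Ne.symm hk)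
  · intro h; exact absurd (Finset.mem_univ _) h

theorem mom2 (G : Fin 32 → Fin 32 → ℤ) (hG : ∀ i j, G i j = 1 ∨ G i j = -1)
    (hr : ∀ i k, i ≠ k → ∑ j, G i j * G k j = 0) :
    ∑ j, (∑ k, G k j) * ∑ k, G k j = 1024 := by
  have h1 : ∑ j, (∑ k, G k j) * ∑ k, G k j = ∑ i, ∑ j, G i j * ∑ k, G k j := by
    rw [Finset.sum_comm]
    exact Finset.sum_congr rfl (fun j _ => by rw [Finset.sum_mul])
  rw [h1, Finset.sum_congr rfl (fun i _ => mom G hG hr i)]
  simp

/-- If all row sums are `0` mod `4`, their total is at most `168`. -/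
theorem class_zero (z : Fin 32 → ℤ) (h2 : ∑ i, z i * z i = 1024) (h4 : ∀ i, ∃ m : ℤ, z i = 4 * m) :
    ∑ i, z i ≤ 168 := by
  have h : ∀ i, 0 ≤ (z i - 4) * (z i - 8) := by
    intro i
    obtain ⟨m, hm⟩ := h4 i
    rcases le_or_gt (z i) 4 with h | h
    · exact mul_nonneg_of_nonpos_of_nonpos (by omega) (by omega)
    · exact mul_nonneg (by omega) (by omega)
  have hs : 0 ≤ ∑ i, (z i - 4) * (z i - 8) := Finset.sum_nonneg (fun i _ => h i)
  have he : ∑ i, (z i - 4) * (z i - 8) = ∑ i, z i * z i - 12 * ∑ i, z i + 1024 := by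
    rw [Finset.mul_sum, ← Finset.sum_sub_distrib]
    have : (1024 : ℤ) = ∑ _i : Fin 32, 32 := by simp
    rw [this, ← Finset.sum_add_distrib]
    exact Finset.sum_congr rfl (fun i _ => by ring)
  rw [he, h2] at hs
  choose m hm using h4
  have : ∑ i, z i = 4 * ∑ i, m i := by
    rw [Finset.mul_sum]; exact Finset.sum_congr rfl (fun i _ => hm i)
  omega

/-- The reduced variables: `z = 6 - 4 y`. -/
theorem class_two (z : Fin 32 → ℤ) (h2 : ∑ i, z i * z i = 1024)
    (h4 : ∀ i, ∃ m : ℤ, z i = 4 * m + 2) (ht : 169 ≤ ∑ i, z i) :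
    ∃ y : Fin 32 → ℤ, (∀ i, z i = 6 - 4 * y i) ∧
      ((∑ i, z i = 176 ∧ ∑ i, y i = 4) ∨ (∑ i, z i = 172 ∧ ∑ i, y i = 5 ∧
        ∃ p, (y p = -1 ∨ y p = 2) ∧ ∀ i, i ≠ p → y i = 0 ∨ y i = 1)) := by
  choose m hm using h4
  refine ⟨fun i => 1 - m i, fun i => by rw [hm i]; ring, ?_⟩
  have hsum : ∑ i, z i = 192 - 4 * ∑ i, (1 - m i) := by
    have : (192 : ℤ) = ∑ _i : Fin 32, 6 := by simp
    rw [this, Finset.mul_sum, ← Finset.sum_sub_distrib]
    exact Finset.sum_congr rfl (fun i _ => by rw [hm i]; ring)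
  have hsq : ∑ i, z i * z i = 1152 - 48 * ∑ i, (1 - m i) + 16 * ∑ i, (1 - m i) * (1 - m i) := by
    have : (1152 : ℤ) = ∑ _i : Fin 32, 36 := by simp
    rw [this, Finset.mul_sum, Finset.mul_sum, ← Finset.sum_sub_distrib, ← Finset.sum_add_distrib]
    exact Finset.sum_congr rfl (fun i _ => by rw [hm i]; ring)
  have hnn : ∀ i, 0 ≤ (1 - m i) * (1 - m i) - (1 - m i) := by
    intro i
    rcases le_or_gt (1 - m i) 0 with h | h
    · nlinarith
    · nlinarith
  have hdiff : ∑ i, ((1 - m i) * (1 - m i) - (1 - m i))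
      = ∑ i, (1 - m i) * (1 - m i) - ∑ i, (1 - m i) := Finset.sum_sub_distrib _ _
  have hge : 0 ≤ ∑ i, ((1 - m i) * (1 - m i) - (1 - m i)) := Finset.sum_nonneg (fun i _ => hnn i)
  set Y := ∑ i, (1 - m i) with hY
  set Y2 := ∑ i, (1 - m i) * (1 - m i) with hY2
  have h5 : Y = 4 ∨ Y = 5 := by omega
  rcases h5 with h5 | h5
  · left; omega
  · right
    refine ⟨by omega, by omega, ?_⟩
    have htwo : ∑ i, ((1 - m i) * (1 - m i) - (1 - m i)) = 2 := by omega
    -- each term is even and nonnegative; exactly one is `2`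
    have hex : ∃ p, (1 - m p) * (1 - m p) - (1 - m p) ≠ 0 := by
      by_contra hcon
      push Not at hcon
      rw [Finset.sum_eq_zero (fun i _ => hcon i)] at htwo
      omega
    obtain ⟨p, hp⟩ := hex
    have hsplit := Finset.add_sum_erase Finset.univ
      (fun i => (1 - m i) * (1 - m i) - (1 - m i)) (Finset.mem_univ p)
    have hrest : 0 ≤ ∑ i ∈ Finset.univ.erase p, ((1 - m i) * (1 - m i) - (1 - m i)) :=
      Finset.sum_nonneg (fun i _ => hnn i)
    have heven : ∀ x : ℤ, x * x - x ≠ 0 → 0 ≤ x * x - x → 2 ≤ x * x - x := by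
      intro x h1 h2
      have h3 : x ≠ 0 := by rintro rfl; exact h1 (by ring)
      have h4 : x ≠ 1 := by rintro rfl; exact h1 (by ring)
      rcases lt_or_gt_of_ne h3 with h5 | h5
      · nlinarith
      · have : 2 ≤ x := by omega
        nlinarith
    have hp2 := heven _ hp (hnn p)
    rw [htwo] at hsplit
    refine ⟨p, ?_, ?_⟩
    · have h6 : (1 - m p) * (1 - m p) - (1 - m p) = 2 := by omega
      have h7 : (1 - m p + 1) * (1 - m p - 2) = 0 := by linarith [h6, mul_comm (1 - m p) (1 - m p)]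
      rcases mul_eq_zero.1 h7 with h8 | h8
      · left; show 1 - m p = -1; omega
      · right; show 1 - m p = 2; omega
    · intro i hi
      have h6 : ∑ i ∈ Finset.univ.erase p, ((1 - m i) * (1 - m i) - (1 - m i)) = 0 := by omega
      have h7 := (Finset.sum_eq_zero_iff_of_nonneg (fun i _ => hnn i)).1 h6 i
        (Finset.mem_erase.2 ⟨hi, Finset.mem_univ _⟩)
      have h8 : (1 - m i) * ((1 - m i) - 1) = 0 := by linarith [h7]
      rcases mul_eq_zero.1 h8 with h9 | h9
      · left; exact h9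
      · right; show 1 - m i = 1; omega

/-- Sums of signs. -/
theorem sum_le_card (C : Finset (Fin 32)) (g : Fin 32 → ℤ) (hg : ∀ j, g j = 1 ∨ g j = -1) :
    ∑ j ∈ C, g j ≤ C.card := by
  calc ∑ j ∈ C, g j ≤ ∑ _j ∈ C, (1 : ℤ) :=
        Finset.sum_le_sum (fun j _ => by rcases hg j with h | h <;> rw [h] <;> norm_num)
    _ = C.card := by simp

theorem all_one (C : Finset (Fin 32)) (g : Fin 32 → ℤ) (hg : ∀ j, g j = 1 ∨ g j = -1)
    (h : ∑ j ∈ C, g j = C.card) : ∀ j ∈ C, g j = 1 := by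
  have h1 : ∑ j ∈ C, (1 - g j) = 0 := by
    rw [Finset.sum_sub_distrib, h]; simp
  intro j hj
  have h2 := (Finset.sum_eq_zero_iff_of_nonneg (fun j _ => by
    rcases hg j with h | h <;> rw [h] <;> norm_num)).1 h1 j hj
  omega

/-- A sum `∑ g u` with `u = 1` on `C`, `-1` at `q ∉ C` and `0` elsewhere. -/
theorem sum_split (g u : Fin 32 → ℤ) (q : Fin 32) (hq : u q = -1)
    (h : ∀ i, i ≠ q → u i = 0 ∨ u i = 1) :
    ∑ j, g j * u j = ∑ j ∈ univ.filter (fun j => u j = 1), g j - g q := by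
  rw [Finset.sum_filter, ← Finset.add_sum_erase _ _ (Finset.mem_univ q),
    ← Finset.add_sum_erase univ (fun j => if u j = 1 then g j else 0) (Finset.mem_univ q), hq]
  simp only [show ¬ ((-1 : ℤ) = 1) by norm_num, if_false]
  have : ∑ x ∈ univ.erase q, g x * u x = ∑ x ∈ univ.erase q, if u x = 1 then g x else 0 := by
    apply Finset.sum_congr rfl
    intro x hx
    rcases h x (Finset.ne_of_mem_erase hx) with h1 | h1 <;> rw [h1] <;> simp
  rw [this]
  ring

/-- The main step. -/
theorem core (G : Fin 32 → Fin 32 → ℤ) (hG : ∀ i j, G i j = 1 ∨ G i j = -1)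
    (hr : ∀ i k, i ≠ k → ∑ j, G i j * G k j = 0) (hc : ∀ j l, j ≠ l → ∑ i, G i j * G i l = 0)
    (s : Fin 32) (hz : ∀ i, 0 ≤ ∑ j, G i j) (ht : 169 ≤ ∑ i ∈ univ.erase s, ∑ j, G i j) :
    ∃ (p q : Fin 32) (R C : Finset (Fin 32)), s ∈ R ∧ R.card = 6 ∧ C.card = 6 ∧ p ∉ R ∧ q ∉ C ∧
      G p q = -1 ∧ (∀ j ∈ C, G p j = 1) ∧ (∀ i ∈ R, G i q = 1) ∧
      (∀ i ∈ R, ∑ j ∈ C, G i j = -4) ∧ (∀ j ∈ C, ∑ i ∈ R, G i j = -4) := by
  have hsplit := Finset.add_sum_erase Finset.univ (fun i => ∑ j, G i j) (Finset.mem_univ s)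
  have hzs := hz s
  have htot : 169 ≤ ∑ i, ∑ j, G i j := by omega
  have hcomm : ∑ i, ∑ j, G i j = ∑ j, ∑ i, G i j := Finset.sum_comm
  -- rows
  have hrow2 : ∑ i, (∑ j, G i j) * ∑ j, G i j = 1024 :=
    mom2 (fun j i => G i j) (fun j i => hG i j) (fun j l h => hc j l h)
  have hcol2 : ∑ j, (∑ i, G i j) * ∑ i, G i j = 1024 := mom2 G hG hr
  rcases cong G hG hr with h0 | h2
  · have := class_zero (fun i => ∑ j, G i j) hrow2 h0
    omega
  rcases cong (fun j i => G i j) (fun j i => hG i j) (fun j l h => hc j l h) with h0' | h2'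
  · have := class_zero (fun j => ∑ i, G i j) hcol2 h0'
    omega
  obtain ⟨y, hy, hycase⟩ := class_two (fun i => ∑ j, G i j) hrow2 h2 htot
  obtain ⟨u, hu, hucase⟩ := class_two (fun j => ∑ i, G i j) hcol2 h2' (by omega)
  have hrowid : ∀ i, ∑ j, G i j * u j = 1 - 6 * y i := by
    intro i
    have h1 := mom G hG hr i
    have h3 : ∑ j, G i j * ∑ k, G k j = 6 * ∑ j, G i j - 4 * ∑ j, G i j * u j := by
      rw [Finset.mul_sum, Finset.mul_sum, ← Finset.sum_sub_distrib]
      exact Finset.sum_congr rfl (fun j _ => by rw [hu j]; ring)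
    rw [h3, hy i] at h1
    omega
  have hcolid : ∀ j, ∑ i, G i j * y i = 1 - 6 * u j := by
    intro j
    have h1 := mom (fun j i => G i j) (fun j i => hG i j) (fun j l h => hc j l h) j
    have h3 : ∑ i, G i j * ∑ l, G i l = 6 * ∑ i, G i j - 4 * ∑ i, G i j * y i := by
      rw [Finset.mul_sum, Finset.mul_sum, ← Finset.sum_sub_distrib]
      exact Finset.sum_congr rfl (fun i _ => by rw [hy i]; ring)
    rw [h3, hu j] at h1
    omega
  -- parity
  have hpar : ∃ m : ℤ, ∑ j, G 0 j * u j = ∑ j, u j + 2 * m := by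
    have : ∀ j, ∃ m : ℤ, G 0 j * u j = u j + 2 * m := by
      intro j
      rcases hG 0 j with h | h <;> rw [h]
      · exact ⟨0, by ring⟩
      · exact ⟨-u j, by ring⟩
    choose m hm using this
    refine ⟨∑ j, m j, ?_⟩
    rw [Finset.mul_sum, ← Finset.sum_add_distrib]
    exact Finset.sum_congr rfl (fun j _ => hm j)
  obtain ⟨mp, hmp⟩ := hpar
  rw [hrowid 0] at hmp
  rcases hucase with ⟨hu1, hu2⟩ | ⟨hu1, hu2, q, hq, hqr⟩
  · omega
  rcases hycase with ⟨hy1, hy2⟩ | ⟨hy1, hy2, p, hp, hpr⟩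
  · omega
  have hyp : y p = -1 := by
    rcases hp with hp | hp
    · exact hp
    · have := hz p; rw [hy p, hp] at this; omega
  -- the column exceptional value
  have huq : u q = -1 := by
    rcases hq with hq | hq
    · exact hq
    · exfalso
      have h1 := hrowid p
      rw [hyp] at h1
      have h3 : ∑ j, G p j * u j ≤ ∑ j, u j := by
        apply Finset.sum_le_sum
        intro j _
        have h0 : 0 ≤ u j := by
          by_cases hjq : j = q
          · rw [hjq, hq]; norm_num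
          · rcases hqr j hjq with h | h <;> rw [h]; norm_num
        rcases hG p j with h | h <;> rw [h] <;> omega
      omega
  have hsy : y s = 1 := by
    have h1 := hy s
    have h3 : 0 ≤ ∑ j, G s j := hz s
    omega
  have hcardu : ((univ.filter fun j => u j = 1).card : ℤ) = 6 := by
    have := sum_split (fun _ => 1) u q huq hqr
    simp only [one_mul] at this
    rw [hu2] at this
    simp at this
    omega
  have hcardy : ((univ.filter fun j => y j = 1).card : ℤ) = 6 := by
    have := sum_split (fun _ => 1) y p hyp hpr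
    simp only [one_mul] at this
    rw [hy2] at this
    simp at this
    omega
  have hrowp := hrowid p
  rw [sum_split (fun j => G p j) u q huq hqr, hyp] at hrowp
  have hple := sum_le_card (univ.filter fun j => u j = 1) (fun j => G p j) (fun j => hG p j)
  have hGpq : G p q = -1 := by
    rcases hG p q with h | h
    · omega
    · exact h
  have hcolq := hcolid q
  rw [sum_split (fun i => G i q) y p hyp hpr, huq] at hcolq
  refine ⟨p, q, univ.filter (fun j => y j = 1), univ.filter (fun j => u j = 1), ?_, ?_, ?_, ?_, ?_,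
    hGpq, ?_, ?_, ?_, ?_⟩
  · simp [hsy]
  · exact_mod_cast hcardy
  · exact_mod_cast hcardu
  · simp [hyp]
  · simp [huq]
  · intro j hj
    exact all_one _ (fun j => G p j) (fun j => hG p j) (by rw [hcardu]; omega) j hj
  · intro i hi
    exact all_one _ (fun i => G i q) (fun i => hG i q) (by rw [hcardy]; omega) i hi
  · intro i hi
    have h1 := hrowid i
    rw [sum_split (fun j => G i j) u q huq hqr] at h1
    have h3 : G i q = 1 :=
      all_one _ (fun i => G i q) (fun i => hG i q) (by rw [hcardy]; omega) i hi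
    have h5 : y i = 1 := (Finset.mem_filter.1 hi).2
    rw [h3, h5] at h1
    omega
  · intro j hj
    have h1 := hcolid j
    rw [sum_split (fun i => G i j) y p hyp hpr] at h1
    have h3 : G p j = 1 :=
      all_one _ (fun j => G p j) (fun j => hG p j) (by rw [hcardu]; omega) j hj
    have h5 : u j = 1 := (Finset.mem_filter.1 hj).2
    rw [h3, h5] at h1
    omega

end Pool.Agent.V11175.Excess32
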