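import Mathlib

/-!
# The Berge extremal function of `1 × C₄` has order at least `m ^ (5/2)`

Take three disjoint copies of the plane over the field with `p` elements as rows, and as columns all
triples `{x, y, z}`, one element from each copy, whose sum lies on the parabola `{(t, t²)}`. The link of
every vertex is free of four-cycles since the parabola is a Sidon set. There are `p ^ 5` columns.
-/

set_option autoImplicit false

namespace Pool.Agent.V11175.FiveHalves

open Finset Filter Asymptotics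

/-- A (0,1)-matrix is simple if it has no two equal columns. -/
def IsSimple {m n : ℕ} (A : Matrix (Fin m) (Fin n) Bool) : Prop :=
  Function.Injective fun j : Fin n => fun i : Fin m => A i j

/-- `A` has `F` as a Berge hypergraph: for some choice of distinct rows and distinct columns of `A`, in
any order, the submatrix has a `1` wherever `F` has a `1`. -/
def BergeContains {k l m n : ℕ} (F : Matrix (Fin k) (Fin l) Bool) (A : Matrix (Fin m) (Fin n) Bool) :
    Prop :=
  ∃ (r : Fin k ↪ Fin m) (c : Fin l ↪ Fin n), ∀ i j, F i j = true → A (r i) (c j) = true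

/-- `Bh(m, F)`: the maximum number of columns of an `m`-rowed simple matrix without `F` as a Berge
hypergraph. -/
noncomputable def Bh {k l : ℕ} (m : ℕ) (F : Matrix (Fin k) (Fin l) Bool) : ℕ :=
  sSup {n : ℕ | ∃ A : Matrix (Fin m) (Fin n) Bool, IsSimple A ∧ ¬ BergeContains F A}

/-- The `5 × 4` matrix `1 × C₄ = 1 × I₂ × I₂`. -/
def F : Matrix (Fin 5) (Fin 4) Bool :=
  !![true, true, true, true;
    true, true, false, false;
    false, false, true, true;
    true, false, true, false;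
    false, true, false, true]

theorem bdd {k l : ℕ} (m : ℕ) (F : Matrix (Fin k) (Fin l) Bool) :
    BddAbove {n : ℕ | ∃ A : Matrix (Fin m) (Fin n) Bool, IsSimple A ∧ ¬ BergeContains F A} := by
  refine ⟨2 ^ m, ?_⟩
  rintro n ⟨A, hA, -⟩
  have := Fintype.card_le_of_injective _ hA
  simpa using this

theorem sidon {p : ℕ} [Fact p.Prime] (hp : p ≠ 2) (t₁ t₂ t₃ t₄ : ZMod p) (h1 : t₁ + t₄ = t₂ + t₃)
    (h2 : t₁ ^ 2 + t₄ ^ 2 = t₂ ^ 2 + t₃ ^ 2) : t₁ = t₂ ∨ t₁ = t₃ := by
  have h4 : t₄ = t₂ + t₃ - t₁ := by linear_combination h1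
  subst h4
  have h3 : (2 : ZMod p) * ((t₁ - t₂) * (t₁ - t₃)) = 0 := by linear_combination h2
  have h5 : (2 : ZMod p) ≠ 0 := by
    intro h
    have h6 : ((2 : ℕ) : ZMod p) = 0 := by exact_mod_cast h
    rw [ZMod.natCast_eq_zero_iff] at h6
    have := (Nat.prime_dvd_prime_iff_eq Fact.out Nat.prime_two).1 h6
    exact hp this
  rcases mul_eq_zero.1 h3 with h | h
  · exact absurd h h5
  · rcases mul_eq_zero.1 h with h | h
    · left; exact sub_eq_zero.1 h
    · right; exact sub_eq_zero.1 h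

/-- the value of a point: its part as an integer and its coordinates -/
theorem construction (p m : ℕ) [Fact p.Prime] (hp : p ≠ 2) (hm : 3 * p ^ 2 ≤ m) :
    ∃ A : Matrix (Fin m) (Fin (p ^ 5)) Bool, IsSimple A ∧ ¬ BergeContains F A := by
  classical
  -- embedding of the points
  have hcard : Fintype.card (Fin 3 × (ZMod p × ZMod p)) ≤ Fintype.card (Fin m) := by
    simp only [Fintype.card_prod, Fintype.card_fin, ZMod.card]
    calc 3 * (p * p) = 3 * p ^ 2 := by ring
      _ ≤ m := hm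
  obtain ⟨ι⟩ := Function.Embedding.nonempty_of_card_le hcard
  -- columns
  have hcard2 : Fintype.card ((ZMod p × ZMod p) × (ZMod p × ZMod p) × ZMod p) = p ^ 5 := by
    simp only [Fintype.card_prod, ZMod.card]
    ring
  have eqv : Fin (p ^ 5) ≃ (ZMod p × ZMod p) × (ZMod p × ZMod p) × ZMod p :=
    (Fintype.equivFinOfCardEq hcard2).symm
  set X : Fin (p ^ 5) → ZMod p × ZMod p := fun j => (eqv j).1 with hX
  set Y : Fin (p ^ 5) → ZMod p × ZMod p := fun j => (eqv j).2.1 with hY
  set t : Fin (p ^ 5) → ZMod p := fun j => (eqv j).2.2 with ht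
  set Z : Fin (p ^ 5) → ZMod p × ZMod p := fun j => (t j, t j ^ 2) - X j - Y j with hZ
  set col : Fin (p ^ 5) → Finset (Fin m) := fun j => {ι (0, X j), ι (1, Y j), ι (2, Z j)} with hcol
  -- the inverse of ι
  set e : Fin m → ℤ × (ZMod p × ZMod p) := fun i =>
    if h : ∃ q, ι q = i then (((h.choose.1 : ℕ) : ℤ), h.choose.2) else 0 with he
  have heι : ∀ q : Fin 3 × (ZMod p × ZMod p), e (ι q) = (((q.1 : ℕ) : ℤ), q.2) := by
    intro q
    have hex : ∃ q', ι q' = ι q := ⟨q, rfl⟩
    have hch : hex.choose = q := ι.injective hex.choose_spec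
    rw [he]
    simp only
    rw [dif_pos hex, hch]
  have einj : ∀ i j : Fin m, (∃ q, ι q = i) → (∃ q, ι q = j) → e i = e j → i = j := by
    rintro i j ⟨q, rfl⟩ ⟨q', rfl⟩ h
    rw [heι, heι] at h
    have h1 := congrArg Prod.fst h
    have h2 := congrArg Prod.snd h
    simp only at h1 h2
    have h3 : q.1 = q'.1 := Fin.ext (by exact_mod_cast h1)
    rw [Prod.ext h3 h2]
  have hn01 : ∀ j, ι (0, X j) ≠ ι (1, Y j) := by
    intro j h
    have h' : (0 : Fin 3) = 1 := congrArg Prod.fst (ι.injective h)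
    exact absurd h' (by decide)
  have hn02 : ∀ j, ι (0, X j) ≠ ι (2, Z j) := by
    intro j h
    have h' : (0 : Fin 3) = 2 := congrArg Prod.fst (ι.injective h)
    exact absurd h' (by decide)
  have hn12 : ∀ j, ι (1, Y j) ≠ ι (2, Z j) := by
    intro j h
    have h' : (1 : Fin 3) = 2 := congrArg Prod.fst (ι.injective h)
    exact absurd h' (by decide)
  have hcolcard : ∀ j, (col j).card = 3 := by
    intro j
    rw [hcol]
    exact Finset.card_eq_three.2 ⟨_, _, _, hn01 j, hn02 j, hn12 j, rfl⟩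
  have hcolsum : ∀ j, ∑ i ∈ col j, e i = ((3 : ℤ), (t j, t j ^ 2)) := by
    intro j
    rw [hcol]
    simp only
    rw [Finset.sum_insert (by simp [hn01 j, hn02 j]), Finset.sum_insert (by simp [hn12 j]),
      Finset.sum_singleton, heι, heι, heι]
    have : X j + (Y j + Z j) = (t j, t j ^ 2) := by rw [hZ]; simp only; abel
    simp only [Prod.mk_add_mk, this]
    norm_num
  refine ⟨fun i j => decide (i ∈ col j), ?_, ?_⟩
  · -- simple
    intro j j' h
    have h1 : col j = col j' := by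
      ext i
      have := congrFun h i
      simpa using this
    have h0 : ∀ k k' : Fin 3, ∀ v v', ι (k, v) = ι (k', v') → k = k' ∧ v = v' := by
      intro k k' v v' h
      have := ι.injective h
      exact ⟨congrArg Prod.fst this, congrArg Prod.snd this⟩
    have hx : X j = X j' := by
      have : ι (0, X j) ∈ col j' := by rw [← h1, hcol]; simp
      rw [hcol] at this
      simp only [Finset.mem_insert, Finset.mem_singleton] at this
      rcases this with h | h | h
      · exact (h0 _ _ _ _ h).2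
      · exact absurd (h0 _ _ _ _ h).1 (by decide)
      · exact absurd (h0 _ _ _ _ h).1 (by decide)
    have hy : Y j = Y j' := by
      have : ι (1, Y j) ∈ col j' := by rw [← h1, hcol]; simp
      rw [hcol] at this
      simp only [Finset.mem_insert, Finset.mem_singleton] at this
      rcases this with h | h | h
      · exact absurd (h0 _ _ _ _ h).1 (by decide)
      · exact (h0 _ _ _ _ h).2
      · exact absurd (h0 _ _ _ _ h).1 (by decide)
    have htt : t j = t j' := by
      have h2 := hcolsum j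
      rw [h1, hcolsum j'] at h2
      have := congrArg (fun q => q.2.1) h2
      exact this.symm
    apply eqv.injective
    exact Prod.ext hx (Prod.ext hy htt)
  · -- no Berge copy
    rintro ⟨r, c, hrc⟩
    have hin : ∀ i j, F i j = true → r i ∈ col (c j) := by
      intro i j h
      simpa using hrc i j h
    have hcoleq : ∀ (i₁ i₂ : Fin 5) (j : Fin 4), i₁ ≠ i₂ → i₁ ≠ 0 → i₂ ≠ 0 → F 0 j = true →
        F i₁ j = true → F i₂ j = true → col (c j) = {r 0, r i₁, r i₂} := by
      intro i₁ i₂ j h12 h10 h20 f0 f1 f2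
      symm
      apply Finset.eq_of_subset_of_card_le
      · intro x hx
        simp only [Finset.mem_insert, Finset.mem_singleton] at hx
        rcases hx with rfl | rfl | rfl
        · exact hin _ _ f0
        · exact hin _ _ f1
        · exact hin _ _ f2
      · rw [hcolcard]
        apply le_of_eq
        symm
        exact Finset.card_eq_three.2 ⟨_, _, _, fun h => h10 (r.injective h).symm,
          fun h => h20 (r.injective h).symm, fun h => h12 (r.injective h), rfl⟩
    have hsum : ∀ (i₁ i₂ : Fin 5) (j : Fin 4), i₁ ≠ i₂ → i₁ ≠ 0 → i₂ ≠ 0 → F 0 j = true →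
        F i₁ j = true → F i₂ j = true →
        e (r 0) + (e (r i₁) + e (r i₂)) = ((3 : ℤ), (t (c j), t (c j) ^ 2)) := by
      intro i₁ i₂ j h12 h10 h20 f0 f1 f2
      rw [← hcolsum (c j), hcoleq i₁ i₂ j h12 h10 h20 f0 f1 f2, Finset.sum_insert, Finset.sum_insert,
        Finset.sum_singleton]
      · simp only [Finset.mem_singleton]
        exact fun h => h12 (r.injective h)
      · simp only [Finset.mem_insert, Finset.mem_singleton, not_or]
        exact ⟨fun h => h10 (r.injective h).symm, fun h => h20 (r.injective h).symm⟩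
    have s0 := hsum 1 3 0 (by decide) (by decide) (by decide) rfl rfl rfl
    have s1 := hsum 1 4 1 (by decide) (by decide) (by decide) rfl rfl rfl
    have s2 := hsum 2 3 2 (by decide) (by decide) (by decide) rfl rfl rfl
    have s3 := hsum 2 4 3 (by decide) (by decide) (by decide) rfl rfl rfl
    have hrange : ∀ i j, F i j = true → ∃ q, ι q = r i := by
      intro i j h
      have := hin i j h
      rw [hcol] at this
      simp only [Finset.mem_insert, Finset.mem_singleton] at this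
      rcases this with h | h | h
      · exact ⟨_, h.symm⟩
      · exact ⟨_, h.symm⟩
      · exact ⟨_, h.symm⟩
    have q1 := hrange 1 0 rfl
    have q2 := hrange 2 2 rfl
    have q3 := hrange 3 0 rfl
    have q4 := hrange 4 1 rfl
    -- the Sidon property
    have hs : ((3 : ℤ), (t (c 0), t (c 0) ^ 2)) + ((3 : ℤ), (t (c 3), t (c 3) ^ 2))
        = ((3 : ℤ), (t (c 1), t (c 1) ^ 2)) + ((3 : ℤ), (t (c 2), t (c 2) ^ 2)) := by
      rw [← s0, ← s1, ← s2, ← s3]; abel
    have hs1 := congrArg (fun q => q.2.1) hs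
    have hs2 := congrArg (fun q => q.2.2) hs
    simp only [Prod.mk_add_mk] at hs1 hs2
    rcases sidon hp _ _ _ _ hs1 hs2 with h | h
    · -- columns 0 and 1 have the same sum
      have h1 : e (r 0) + (e (r 1) + e (r 3)) = e (r 0) + (e (r 1) + e (r 4)) := by
        rw [s0, s1, h]
      have h2 : e (r 3) = e (r 4) := add_left_cancel (add_left_cancel h1)
      exact absurd (r.injective (einj _ _ q3 q4 h2)) (by decide)
    · have h1 : e (r 0) + (e (r 1) + e (r 3)) = e (r 0) + (e (r 2) + e (r 3)) := by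
        rw [s0, s2, h]
      have h2 : e (r 1) = e (r 2) := add_right_cancel (add_left_cancel h1)
      exact absurd (r.injective (einj _ _ q1 q2 h2)) (by decide)

theorem Bh_lower (m : ℕ) (hm : 48 ≤ m) : (m : ℝ) ^ (5 / 2 : ℝ) / 12 ^ (5 / 2 : ℝ) ≤ (Bh m F : ℝ) := by
  set k : ℕ := Nat.sqrt (m / 12) with hk
  have h1 : k * k ≤ m / 12 := Nat.sqrt_le _
  have h2 : m / 12 < (k + 1) * (k + 1) := Nat.lt_succ_sqrt _
  have hk2 : 2 ≤ k := by
    rw [hk, Nat.le_sqrt]
    omega
  obtain ⟨p, hp, hkp, hpk⟩ := Nat.exists_prime_lt_and_le_two_mul k (by omega)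
  have : Fact p.Prime := ⟨hp⟩
  have hm3 : 3 * p ^ 2 ≤ m := by
    have h3 : p ^ 2 ≤ (2 * k) ^ 2 := Nat.pow_le_pow_left hpk 2
    have h4 : 12 * (k * k) ≤ m := by omega
    nlinarith
  obtain ⟨A, hA, hA'⟩ := construction p m (by omega) hm3
  have h5 : p ^ 5 ≤ Bh m F := le_csSup (bdd m F) ⟨A, hA, hA'⟩
  have h6 : (p : ℝ) ^ 5 ≤ Bh m F := by exact_mod_cast h5
  refine le_trans ?_ h6
  have h7 : m < 12 * p ^ 2 := by
    have : m / 12 < p * p := lt_of_lt_of_le h2 (Nat.mul_le_mul hkp hkp)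
    have := (Nat.div_lt_iff_lt_mul (by norm_num)).1 this
    nlinarith
  have h8 : (m : ℝ) / 12 ≤ (p : ℝ) ^ 2 := by
    have : (m : ℝ) < 12 * (p : ℝ) ^ 2 := by exact_mod_cast h7
    linarith
  rw [← Real.div_rpow (by positivity) (by norm_num)]
  calc ((m : ℝ) / 12) ^ (5 / 2 : ℝ) ≤ ((p : ℝ) ^ 2) ^ (5 / 2 : ℝ) :=
        Real.rpow_le_rpow (by positivity) h8 (by norm_num)
    _ = (p : ℝ) ^ 5 := by
        rw [← Real.rpow_natCast, ← Real.rpow_natCast, ← Real.rpow_mul (by positivity)]
        norm_num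

/-- The Berge extremal function of `1 × C₄` is at least a constant times `m ^ (5/2)`, and hence it is not
of order `m ^ 2`. -/
theorem result :
    (∃ c : ℝ, 0 < c ∧ ∀ m : ℕ, 48 ≤ m → c * (m : ℝ) ^ (5 / 2 : ℝ) ≤ (Bh m F : ℝ)) ∧
    ¬ ((fun m : ℕ => (Bh m F : ℝ)) =Θ[atTop] fun m : ℕ => (m : ℝ) ^ 2) := by
  have hlow : ∀ m : ℕ, 48 ≤ m → (1 / 12 ^ (5 / 2 : ℝ)) * (m : ℝ) ^ (5 / 2 : ℝ) ≤ (Bh m F : ℝ) := by
    intro m hm
    have := Bh_lower m hm
    rw [one_div, mul_comm, ← div_eq_mul_inv]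
    exact this
  refine ⟨⟨1 / 12 ^ (5 / 2 : ℝ), by positivity, hlow⟩, ?_⟩
  intro hΘ
  obtain ⟨C, hC⟩ := hΘ.1.bound
  rw [Filter.eventually_atTop] at hC
  obtain ⟨M, hM⟩ := hC
  -- choose a large m
  obtain ⟨m, hm⟩ := exists_nat_gt (max (max (48 : ℝ) M) ((C * 12 ^ (5 / 2 : ℝ)) ^ 2))
  have hm1 : (48 : ℝ) < m := lt_of_le_of_lt ((le_max_left _ _).trans (le_max_left _ _)) hm
  have hm2 : (M : ℝ) < m := lt_of_le_of_lt ((le_max_right _ _).trans (le_max_left _ _)) hm
  have hm3 : (C * 12 ^ (5 / 2 : ℝ)) ^ 2 < (m : ℝ) := lt_of_le_of_lt (le_max_right _ _) hm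
  have h48 : 48 ≤ m := by exact_mod_cast hm1.le
  have hMm : M ≤ m := by exact_mod_cast hm2.le
  have h1 := hM m hMm
  have h2 := hlow m h48
  rw [Real.norm_of_nonneg (by positivity), Real.norm_of_nonneg (by positivity)] at h1
  have hmpos : (0 : ℝ) < m := by linarith
  have h3 : (m : ℝ) ^ (5 / 2 : ℝ) = (m : ℝ) ^ 2 * √(m : ℝ) := by
    rw [Real.sqrt_eq_rpow, ← Real.rpow_natCast, ← Real.rpow_add hmpos]
    norm_num
  have h4 : (1 / 12 ^ (5 / 2 : ℝ)) * ((m : ℝ) ^ 2 * √(m : ℝ)) ≤ C * (m : ℝ) ^ 2 := by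
    rw [← h3]; exact h2.trans h1
  have h12 : (0 : ℝ) < 12 ^ (5 / 2 : ℝ) := by positivity
  have h5 : √(m : ℝ) ≤ C * 12 ^ (5 / 2 : ℝ) := by
    have h6 : (m : ℝ) ^ 2 * √(m : ℝ) ≤ (m : ℝ) ^ 2 * (C * 12 ^ (5 / 2 : ℝ)) := by
      have h7 := mul_le_mul_of_nonneg_left h4 h12.le
      calc (m : ℝ) ^ 2 * √(m : ℝ) = 12 ^ (5 / 2 : ℝ) * (1 / 12 ^ (5 / 2 : ℝ) * ((m : ℝ) ^ 2 * √(m : ℝ))) := by
            field_simp
        _ ≤ 12 ^ (5 / 2 : ℝ) * (C * (m : ℝ) ^ 2) := h7
        _ = (m : ℝ) ^ 2 * (C * 12 ^ (5 / 2 : ℝ)) := by ring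
    exact le_of_mul_le_mul_left h6 (by positivity)
  have h8 : (m : ℝ) ≤ (C * 12 ^ (5 / 2 : ℝ)) ^ 2 := by
    calc (m : ℝ) = √(m : ℝ) ^ 2 := (Real.sq_sqrt hmpos.le).symm
      _ ≤ _ := pow_le_pow_left₀ (Real.sqrt_nonneg _) h5 2
  linarith

end Pool.Agent.V11175.FiveHalves
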