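import Mathlib

/-!
# The code and the graph used for arrays on one group of coordinates
-/

set_option autoImplicit false

namespace Pool.Agent.V11175.Had

/-- the parity of the first `m` bits of `Z` -/
def par (Z : ℕ) : ℕ → Bool
  | 0 => false
  | m + 1 => Bool.xor (par Z m) (Z.testBit m)

lemma par_xor (X Y m : ℕ) : par (X ^^^ Y) m = Bool.xor (par X m) (par Y m) := by
  induction m with
  | zero => rfl
  | succ m ih =>
    simp only [par, ih, Nat.testBit_xor]
    generalize par X m = a
    generalize par Y m = b
    generalize X.testBit m = c
    generalize Y.testBit m = d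
    cases a <;> cases b <;> cases c <;> cases d <;> rfl

lemma par_zero (Z m : ℕ) (h : ∀ i, i < m → Z.testBit i = false) : par Z m = false := by
  induction m with
  | zero => rfl
  | succ m ih =>
    simp only [par]
    rw [ih (fun i hi => h i (by omega)), h m (by omega)]
    rfl

lemma par_single (Z m j : ℕ) (hj : j < m) (h : ∀ i, i < m → i ≠ j → Z.testBit i = false) :
    par Z m = Z.testBit j := by
  induction m with
  | zero => omega
  | succ m ih =>
    simp only [par]
    by_cases hjm : j = m
    · subst hjm
      rw [par_zero Z j (fun i hi => h i (by omega) (by omega))]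
      simp
    · rw [ih (by omega) (fun i hi hij => h i (by omega) hij), h m (by omega) (fun h' => hjm h'.symm)]
      simp

lemma par_all (Z m : ℕ) (h : ∀ i, i < m → Z.testBit i = true) : par Z m = decide (m % 2 = 1) := by
  induction m with
  | zero => rfl
  | succ m ih =>
    simp only [par]
    rw [ih (fun i hi => h i (by omega)), h m (by omega)]
    rcases Nat.mod_two_eq_zero_or_one m with h' | h'
    · have : (m + 1) % 2 = 1 := by omega
      simp [h', this]
    · have : (m + 1) % 2 = 0 := by omega
      simp [h', this]

lemma par_all' (Z m : ℕ) (h0 : Z.testBit 0 = false) (h : ∀ i, i < m + 1 → 1 ≤ i → Z.testBit i = true) :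
    par Z (m + 1) = decide (m % 2 = 1) := by
  induction m with
  | zero => simp [par, h0]
  | succ m ih =>
    rw [par, ih (fun i hi => h i (by omega)), h (m + 1) (by omega) (by omega)]
    rcases Nat.mod_two_eq_zero_or_one m with h' | h'
    · have : (m + 1) % 2 = 1 := by omega
      simp [h', this]
    · have : (m + 1) % 2 = 0 := by omega
      simp [h', this]

/-- the value of the bit carried by the coordinate `q` for the class `c` -/
def code (N c q : ℕ) : Bool := if q + 1 < N then c.testBit q else if q + 1 = N then par c (N - 1) else false

lemma code_xor (N X Y q : ℕ) : code N (X ^^^ Y) q = Bool.xor (code N X q) (code N Y q) := by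
  unfold code
  split_ifs
  · exact Nat.testBit_xor ..
  · exact par_xor _ _ _
  · rfl

lemma code_N (N c : ℕ) : code N c N = false := by
  unfold code
  rw [if_neg (by omega), if_neg (by omega)]

lemma code_N1 (N c : ℕ) : code N c (N + 1) = false := by
  unfold code
  rw [if_neg (by omega), if_neg (by omega)]

/-- the edges of the graph, oriented -/
def kp (N p q : ℕ) : Bool :=
  decide (p < N ∧ ((q = N ∧ (N % 2 = 1 ∨ p ≠ 0)) ∨ (q = N + 1 ∧ N % 2 = 0 ∧ p = 0)))

/-- the edges of the graph -/
def ke (N p q : ℕ) : Bool := kp N p q || kp N q p

lemma ke_comm (N p q : ℕ) : ke N p q = ke N q p := by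
  unfold ke
  exact Bool.or_comm _ _

lemma ke_carrier_N (N l : ℕ) (hl : l < N) : ke N l N = decide (N % 2 = 1 ∨ l ≠ 0) := by
  unfold ke kp
  by_cases h : N % 2 = 1 ∨ l ≠ 0
  · simp [hl, h]
  · simp [hl, h]

lemma ke_carrier_N1 (N l : ℕ) (hl : l < N) : ke N l (N + 1) = decide (N % 2 = 0 ∧ l = 0) := by
  unfold ke kp
  by_cases h : N % 2 = 0 ∧ l = 0
  · have h0 : 0 < N := by omega
    simp [h, h0]
  · simp [hl, h]

lemma ke_N_N1 (N : ℕ) : ke N N (N + 1) = false := by
  unfold ke kp
  simp

lemma zero_of_bits (N Z : ℕ) (hZ : Z < 2 ^ (N - 1)) (h : ∀ i, i + 1 < N → Z.testBit i = false) : Z = 0 := by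
  apply Nat.eq_of_testBit_eq
  intro i
  rw [Nat.zero_testBit]
  rcases lt_or_ge i (N - 1) with hi | hi
  · exact h i (by omega)
  · exact Nat.testBit_lt_two_pow (lt_of_lt_of_le hZ (Nat.pow_le_pow_right (by norm_num) hi))

lemma code_H1 (N : ℕ) (hN : 2 ≤ N) (Z c : ℕ) (hZ : Z < 2 ^ (N - 1)) (l : ℕ) (hl : l < N + 2) (w : Bool)
    (h : ∀ q, q < N + 2 → q ≠ l → Bool.xor (code N Z q) (ke N l q && w) = false) :
    Z = 0 ∧ (w = false ∨ code N c l = false) := by
  have cb : ∀ i, i + 1 < N → code N Z i = Z.testBit i := by
    intro i hi
    unfold code
    rw [if_pos hi]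
  have cp : code N Z (N - 1) = par Z (N - 1) := by
    unfold code
    rw [if_neg (by omega), if_pos (by omega)]
  rcases lt_or_ge l N with hlN | hlN
  · have hw : w = false := by
      have h1 := h N (by omega) (by omega)
      have h2 := h (N + 1) (by omega) (by omega)
      rw [code_N, ke_carrier_N N l hlN] at h1
      rw [code_N1, ke_carrier_N1 N l hlN] at h2
      by_cases h3 : N % 2 = 1 ∨ l ≠ 0
      · simpa [h3] using h1
      · have h4 : N % 2 = 0 ∧ l = 0 := by omega
        simpa [h4] using h2
    refine ⟨?_, Or.inl hw⟩
    subst hw
    simp only [Bool.and_false, Bool.xor_false] at h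
    apply zero_of_bits N Z hZ
    intro i hi
    by_cases hil : i = l
    · subst hil
      have h5 := h (N - 1) (by omega) (by omega)
      rw [cp, par_single Z (N - 1) i (by omega)] at h5
      · exact h5
      · intro j hj hji
        rw [← cb j (by omega)]
        exact h j (by omega) hji
    · rw [← cb i hi]
      exact h i (by omega) hil
  · rcases Nat.eq_or_lt_of_le hlN with hlN' | hlN'
    · subst hlN'
      refine ⟨?_, Or.inr (code_N N c)⟩
      have hk : ∀ q, q < N → Bool.xor (code N Z q) (decide (N % 2 = 1 ∨ q ≠ 0) && w) = false := by
        intro q hq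
        have := h q (by omega) (by omega)
        rwa [ke_comm, ke_carrier_N N q hq] at this
      cases w with
      | false =>
        simp only [Bool.and_false, Bool.xor_false] at hk
        apply zero_of_bits N Z hZ
        intro i hi
        rw [← cb i hi]
        exact hk i (by omega)
      | true =>
        exfalso
        simp only [Bool.and_true] at hk
        rcases Nat.mod_two_eq_zero_or_one N with hpar | hpar
        · have h0 : Z.testBit 0 = false := by
            by_cases hN2 : 0 + 1 < N
            · have := hk 0 (by omega)
              rw [cb 0 hN2] at this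
              simpa [hpar] using this
            · omega
          have h1 : ∀ i, i < N → 1 ≤ i → code N Z i = true := by
            intro i hi hi1
            have := hk i hi
            have hne : i ≠ 0 := by omega
            simpa [hne] using this
          obtain ⟨m, hm⟩ : ∃ m, N - 1 = m + 1 := ⟨N - 2, by omega⟩
          have h2 := par_all' Z m h0 (fun i hi hi1 => by
            rw [← cb i (by omega)]
            exact h1 i (by omega) hi1)
          have h3 := h1 (N - 1) (by omega) (by omega)
          rw [cp, hm, h2] at h3
          have : m % 2 = 1 := by simpa using h3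
          omega
        · have h1 : ∀ i, i < N → code N Z i = true := by
            intro i hi
            have := hk i hi
            simpa [hpar] using this
          have h2 := par_all Z (N - 1) (fun i hi => by
            rw [← cb i (by omega)]
            exact h1 i (by omega))
          have h3 := h1 (N - 1) (by omega)
          rw [cp, h2] at h3
          have : (N - 1) % 2 = 1 := by simpa using h3
          omega
    · have hl1 : l = N + 1 := by omega
      subst hl1
      refine ⟨?_, Or.inr (code_N1 N c)⟩
      have hk : ∀ q, q < N → Bool.xor (code N Z q) (decide (N % 2 = 0 ∧ q = 0) && w) = false := by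
        intro q hq
        have := h q (by omega) (by omega)
        rwa [ke_comm, ke_carrier_N1 N q hq] at this
      have h1 : ∀ i, i < N → 1 ≤ i → code N Z i = false := by
        intro i hi hi1
        have := hk i hi
        have hne : i ≠ 0 := by omega
        simpa [hne] using this
      apply zero_of_bits N Z hZ
      intro i hi
      by_cases hi0 : i = 0
      · subst hi0
        have h5 := h1 (N - 1) (by omega) (by omega)
        rw [cp, par_single Z (N - 1) 0 (by omega)] at h5
        · exact h5
        · intro j hj hji
          rw [← cb j (by omega)]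
          exact h1 j (by omega) (by omega)
      · rw [← cb i hi]
        exact h1 i (by omega) (by omega)

lemma code_H2 (N : ℕ) (hN : 2 ≤ N) (Z : ℕ) (l : ℕ) (hl : l < N + 2) (w : Bool) :
    ∃ q, q < N + 2 ∧ q ≠ l ∧ Bool.xor (code N Z q) (ke N l q && w) = false := by
  rcases lt_or_ge l N with hlN | hlN
  · by_cases h : N % 2 = 0 ∧ l = 0
    · refine ⟨N, by omega, by omega, ?_⟩
      rw [code_N, ke_carrier_N N l hlN]
      have : ¬ (N % 2 = 1 ∨ l ≠ 0) := by omega
      simp [this]
    · refine ⟨N + 1, by omega, by omega, ?_⟩
      rw [code_N1, ke_carrier_N1 N l hlN]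
      simp [h]
  · rcases Nat.eq_or_lt_of_le hlN with hlN' | hlN'
    · refine ⟨N + 1, by omega, by omega, ?_⟩
      rw [code_N1, ← hlN', ke_N_N1]
      simp
    · refine ⟨N, by omega, by omega, ?_⟩
      have hl1 : l = N + 1 := by omega
      rw [code_N, hl1, ke_comm, ke_N_N1]
      simp

end Pool.Agent.V11175.Had
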