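import Pool.Agent.V11175.HadCode

/-!
# The code and the graph, second version (even dimension)
-/

set_option autoImplicit false

namespace Pool.Agent.V11175.Had

/-- the value of the bit carried by the coordinate `q` for the class `c` -/
def code2 (M c q : ℕ) : Bool :=
  if q + 1 < M then c.testBit q else if q + 1 = M then par c (M - 1) else if q = M then false
  else c.testBit (M - 1)

lemma code2_xor (M X Y q : ℕ) : code2 M (X ^^^ Y) q = Bool.xor (code2 M X q) (code2 M Y q) := by
  unfold code2
  split_ifs
  · exact Nat.testBit_xor ..
  · exact par_xor _ _ _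
  · rfl
  · exact Nat.testBit_xor ..

/-- the edges of the graph -/
def ke2 (M p q : ℕ) : Bool :=
  decide ((p < M ∧ q = M + 1) ∨ (p = M ∧ q = M + 2) ∨ (q < M ∧ p = M + 1) ∨ (q = M ∧ p = M + 2))

lemma ke2_comm (M p q : ℕ) : ke2 M p q = ke2 M q p := by
  unfold ke2
  congr 1
  apply propext
  constructor <;> (intro h; omega)

lemma ke2_false (M p q : ℕ) (h : ¬ ((p < M ∧ q = M + 1) ∨ (p = M ∧ q = M + 2) ∨ (q < M ∧ p = M + 1) ∨
    (q = M ∧ p = M + 2))) : ke2 M p q = false := by
  unfold ke2
  simpa using h

lemma ke2_true (M p q : ℕ) (h : (p < M ∧ q = M + 1) ∨ (p = M ∧ q = M + 2) ∨ (q < M ∧ p = M + 1) ∨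
    (q = M ∧ p = M + 2)) : ke2 M p q = true := by
  unfold ke2
  simpa using h

lemma code2_b (M c : ℕ) : code2 M c M = false := by
  unfold code2
  rw [if_neg (by omega), if_neg (by omega), if_pos rfl]

lemma code2_e (M c q : ℕ) (hq : M < q) : code2 M c q = c.testBit (M - 1) := by
  unfold code2
  rw [if_neg (by omega), if_neg (by omega), if_neg (by omega)]

lemma code2_a (M c q : ℕ) (hq : q + 1 < M) : code2 M c q = c.testBit q := by
  unfold code2
  rw [if_pos hq]

lemma code2_p (M c : ℕ) (hM : 1 ≤ M) : code2 M c (M - 1) = par c (M - 1) := by
  unfold code2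
  rw [if_neg (by omega), if_pos (by omega)]

lemma zero_of_bits2 (M Z : ℕ) (hZ : Z < 2 ^ M) (h : ∀ i, i + 1 < M → Z.testBit i = false)
    (h' : Z.testBit (M - 1) = false) : Z = 0 := by
  apply Nat.eq_of_testBit_eq
  intro i
  rw [Nat.zero_testBit]
  rcases lt_or_ge i M with hi | hi
  · by_cases hi' : i + 1 < M
    · exact h i hi'
    · rw [show i = M - 1 by omega]; exact h'
  · exact Nat.testBit_lt_two_pow (lt_of_lt_of_le hZ (Nat.pow_le_pow_right (by norm_num) hi))

lemma not_all (M Z : ℕ) (hM : M % 2 = 1) : ¬ ∀ q, q < M → code2 M Z q = true := by
  intro h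
  have h2 := par_all Z (M - 1) (fun i hi => by
    rw [← code2_a M Z i (by omega)]
    exact h i (by omega))
  have h3 := h (M - 1) (by omega)
  rw [code2_p M Z (by omega), h2] at h3
  have : (M - 1) % 2 = 1 := by simpa using h3
  omega

lemma code2_H1 (M : ℕ) (hM : M % 2 = 1) (Z : ℕ) (hZ : Z < 2 ^ M) (l : ℕ) (hl : l < M + 3) (w : Bool)
    (h : ∀ q, q < M + 3 → q ≠ l → Bool.xor (code2 M Z q) (ke2 M l q && w) = false) :
    Z = 0 ∧ w = false := by
  rcases lt_or_ge l M with hlM | hlM
  · have hb : Z.testBit (M - 1) = false := by
      have := h (M + 2) (by omega) (by omega)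
      rw [code2_e M Z _ (by omega), ke2_false M l _ (by omega)] at this
      simpa using this
    have hw : w = false := by
      have := h (M + 1) (by omega) (by omega)
      rw [code2_e M Z _ (by omega), ke2_true M l _ (by omega), hb] at this
      simpa using this
    refine ⟨?_, hw⟩
    have hc : ∀ q, q < M → q ≠ l → code2 M Z q = false := by
      intro q hq hql
      have := h q (by omega) hql
      rw [hw] at this
      simpa using this
    apply zero_of_bits2 M Z hZ _ hb
    intro i hi
    by_cases hil : i = l
    · subst hil
      have h5 := hc (M - 1) (by omega) (by omega)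
      rw [code2_p M Z (by omega), par_single Z (M - 1) i (by omega)] at h5
      · exact h5
      · intro j hj hji
        rw [← code2_a M Z j (by omega)]
        exact hc j (by omega) hji
    · rw [← code2_a M Z i hi]
      exact hc i (by omega) hil
  · by_cases h1 : l = M
    · subst h1
      have hb : Z.testBit (l - 1) = false := by
        have := h (l + 1) (by omega) (by omega)
        rw [code2_e l Z _ (by omega), ke2_false l l _ (by omega)] at this
        simpa using this
      have hw : w = false := by
        have := h (l + 2) (by omega) (by omega)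
        rw [code2_e l Z _ (by omega), ke2_true l l _ (by omega), hb] at this
        simpa using this
      refine ⟨zero_of_bits2 l Z hZ (fun i hi => ?_) hb, hw⟩
      have := h i (by omega) (by omega)
      rw [code2_a l Z i hi, hw] at this
      simpa using this
    · by_cases h2 : l = M + 1
      · subst h2
        have hb : Z.testBit (M - 1) = false := by
          have := h (M + 2) (by omega) (by omega)
          rw [code2_e M Z _ (by omega), ke2_false M _ _ (by omega)] at this
          simpa using this
        have hc : ∀ q, q < M → code2 M Z q = w := by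
          intro q hq
          have := h q (by omega) (by omega)
          rw [ke2_true M _ _ (by omega)] at this
          revert this
          cases code2 M Z q <;> cases w <;> simp
        have hw : w = false := by
          by_contra hw
          have hw' : w = true := by simpa using hw
          exact not_all M Z hM (fun q hq => by rw [hc q hq, hw'])
        refine ⟨zero_of_bits2 M Z hZ (fun i hi => ?_) hb, hw⟩
        rw [← code2_a M Z i hi, hc i (by omega), hw]
      · have h3 : l = M + 2 := by omega
        subst h3
        have hb : Z.testBit (M - 1) = false := by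
          have := h (M + 1) (by omega) (by omega)
          rw [code2_e M Z _ (by omega), ke2_false M _ _ (by omega)] at this
          simpa using this
        have hw : w = false := by
          have := h M (by omega) (by omega)
          rw [code2_b, ke2_true M _ _ (by omega)] at this
          simpa using this
        refine ⟨zero_of_bits2 M Z hZ (fun i hi => ?_) hb, hw⟩
        have := h i (by omega) (by omega)
        rw [code2_a M Z i hi, hw] at this
        simpa using this

lemma code2_H2 (M : ℕ) (hM : M % 2 = 1) (Z : ℕ) (l : ℕ) (hl : l < M + 3) (w : Bool) :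
    ∃ q, q < M + 3 ∧ q ≠ l ∧ Bool.xor (code2 M Z q) (ke2 M l q && w) = false := by
  have hex : ∃ q, q < M ∧ code2 M Z q = false := by
    by_contra hcon
    push Not at hcon
    exact not_all M Z hM (fun q hq => by simpa using hcon q hq)
  by_cases h1 : l < M ∨ l = M + 1
  · refine ⟨M, by omega, by omega, ?_⟩
    rw [code2_b, ke2_false M l M (by omega)]
    simp
  · obtain ⟨q, hq, hc⟩ := hex
    refine ⟨q, by omega, by omega, ?_⟩
    rw [hc, ke2_false M l q (by omega)]
    simp

end Pool.Agent.V11175.Had
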