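import Mathlib

/-!
# Golay pairs of length a power of two in a cyclic group, and a partition of a cyclic group of order `2 t`
into `2 m` signed intervals with vanishing total autocorrelation, when `t` is a sum of `m` powers of two
-/

set_option autoImplicit false
set_option linter.unusedSectionVars false

namespace Pool.Agent.V11175.Had

open Finset

variable {V : Type} [AddCommGroup V] [Fintype V] [DecidableEq V]

/-- the Golay pair of length `2 ^ b`, placed at the multiples `0, ..., 2 ^ b - 1` of `e` -/
def gXY (e : V) : ℕ → (V → ℤ) × (V → ℤ)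
  | 0 => (fun w => if w = 0 then 1 else 0, fun w => if w = 0 then 1 else 0)
  | b + 1 => (fun w => (gXY e b).1 w + (gXY e b).2 (w - (2 ^ b) • e),
      fun w => (gXY e b).1 w - (gXY e b).2 (w - (2 ^ b) • e))

lemma sum_shift (f : V → V → ℤ) (h c : V) :
    ∑ w, f (w - c) (w + h - c) = ∑ w, f w (w + h) := by
  rw [← Equiv.sum_comp (Equiv.addRight c) (fun w => f (w - c) (w + h - c))]
  apply Finset.sum_congr rfl
  intro w _
  simp only [Equiv.coe_addRight, add_sub_cancel_right]
  congr 1
  abel

lemma gXY_ac (e : V) (b : ℕ) (h : V) (hh : h ≠ 0) :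
    (∑ w, (gXY e b).1 w * (gXY e b).1 (w + h)) + (∑ w, (gXY e b).2 w * (gXY e b).2 (w + h)) = 0 := by
  induction b with
  | zero =>
    have : ∀ w : V, (if w = 0 then (1 : ℤ) else 0) * (if w + h = 0 then 1 else 0) = 0 := by
      intro w
      by_cases hw : w = 0
      · subst hw
        rw [zero_add, if_neg hh, mul_zero]
      · rw [if_neg hw, zero_mul]
    simp only [gXY]
    rw [Finset.sum_congr rfl (fun w _ => this w)]
    simp
  | succ b ih =>
    simp only [gXY]
    have h1 : (∑ w, (gXY e b).2 (w - (2 ^ b) • e) * (gXY e b).2 (w + h - (2 ^ b) • e)) =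
        ∑ w, (gXY e b).2 w * (gXY e b).2 (w + h) :=
      sum_shift (fun x y => (gXY e b).2 x * (gXY e b).2 y) h ((2 ^ b) • e)
    rw [← Finset.sum_add_distrib]
    have h2 : ∀ w : V,
        (((gXY e b).1 w + (gXY e b).2 (w - (2 ^ b) • e)) *
          ((gXY e b).1 (w + h) + (gXY e b).2 (w + h - (2 ^ b) • e)) +
        ((gXY e b).1 w - (gXY e b).2 (w - (2 ^ b) • e)) *
          ((gXY e b).1 (w + h) - (gXY e b).2 (w + h - (2 ^ b) • e))) =
        2 * ((gXY e b).1 w * (gXY e b).1 (w + h)) +
        2 * ((gXY e b).2 (w - (2 ^ b) • e) * (gXY e b).2 (w + h - (2 ^ b) • e)) := by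
      intro w; ring
    rw [Finset.sum_congr rfl (fun w _ => h2 w), Finset.sum_add_distrib, ← Finset.mul_sum, ← Finset.mul_sum, h1]
    linarith

/-- `f` takes the values `±1` on the multiples `a, ..., a + L - 1` of `e` and vanishes on the others -/
def Supp (e : V) (v : ℕ) (a L : ℕ) (f : V → ℤ) : Prop :=
  ∀ p, p < v → ((a ≤ p → p < a + L → (f (p • e) = 1 ∨ f (p • e) = -1)) ∧
    ((p < a ∨ a + L ≤ p) → f (p • e) = 0))

lemma supp_shift (e : V) (v : ℕ) (hv : v • e = 0) (L : ℕ) (f : V → ℤ) (hf : Supp e v 0 L f) (a : ℕ)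
    (ha : a + L ≤ v) : Supp e v a L (fun w => f (w - a • e)) := by
  intro p hp
  by_cases hpa : a ≤ p
  · have h1 : p • e - a • e = (p - a) • e := by
      rw [sub_eq_iff_eq_add, ← add_nsmul]
      congr 1
      omega
    have h2 := hf (p - a) (by omega)
    dsimp only
    rw [h1]
    refine ⟨fun _ h => h2.1 (by omega) (by omega), fun h => h2.2 (by omega)⟩
  · have h1 : p • e - a • e = (p + v - a) • e := by
      rw [sub_eq_iff_eq_add, ← add_nsmul, show p + v - a + a = p + v by omega, add_nsmul, hv, add_zero]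
    have h2 := hf (p + v - a) (by omega)
    dsimp only
    rw [h1]
    refine ⟨fun h _ => absurd h hpa, fun h => h2.2 (by omega)⟩

lemma gXY_supp (e : V) (v : ℕ) (hv : v • e = 0) (hinj : ∀ p, p < v → p • e = 0 → p = 0) (b : ℕ)
    (hb : 2 ^ b ≤ v) : Supp e v 0 (2 ^ b) (gXY e b).1 ∧ Supp e v 0 (2 ^ b) (gXY e b).2 := by
  induction b with
  | zero =>
    have : Supp e v 0 (2 ^ 0) (fun w : V => if w = 0 then (1 : ℤ) else 0) := by
      intro p hp
      constructor
      · intro _ h
        have : p = 0 := by simpa using h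
        subst this
        simp
      · intro h
        have hp0 : p ≠ 0 := by
          rcases h with h | h
          · omega
          · simp at h; omega
        dsimp only
        rw [if_neg (fun h0 => hp0 (hinj p hp h0))]
    exact ⟨this, this⟩
  | succ b ih =>
    have hb' : 2 ^ b + 2 ^ b ≤ v := by
      rw [pow_succ] at hb; omega
    obtain ⟨h1, h2⟩ := ih (by omega)
    have h3 := supp_shift e v hv (2 ^ b) _ h2 (2 ^ b) hb'
    constructor
    · intro p hp
      obtain ⟨a1, a2⟩ := h1 p hp
      obtain ⟨c1, c2⟩ := h3 p hp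
      dsimp only at c1 c2
      simp only [gXY]
      rw [pow_succ]
      constructor
      · intro _ hlt
        rcases lt_or_ge p (2 ^ b) with h | h
        · rw [c2 (Or.inl h), add_zero]
          exact a1 (Nat.zero_le _) (by omega)
        · rw [a2 (Or.inr (by omega)), zero_add]
          exact c1 h (by omega)
      · intro h
        rw [a2 (by omega), c2 (by omega), add_zero]
    · intro p hp
      obtain ⟨a1, a2⟩ := h1 p hp
      obtain ⟨c1, c2⟩ := h3 p hp
      dsimp only at c1 c2
      simp only [gXY]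
      rw [pow_succ]
      constructor
      · intro _ hlt
        rcases lt_or_ge p (2 ^ b) with h | h
        · rw [c2 (Or.inl h), sub_zero]
          exact a1 (Nat.zero_le _) (by omega)
        · rw [a2 (Or.inr (by omega)), zero_sub]
          rcases c1 h (by omega) with h' | h' <;> rw [h'] <;> simp
      · intro h
        rw [a2 (by omega), c2 (by omega), sub_zero]

/-- the signed intervals belonging to a list of exponents, starting at the multiple `a` -/
def fam (e : V) : List ℕ → ℕ → ℕ → V → ℤ
  | [], _, _, _ => 0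
  | b :: _, a, 0, w => (gXY e b).1 (w - a • e)
  | b :: _, a, 1, w => (gXY e b).2 (w - (a + 2 ^ b) • e)
  | b :: L, a, s + 2, w => fam e L (a + 2 ^ b + 2 ^ b) s w

/-- twice the sum of the powers of two of a list of exponents -/
def tot : List ℕ → ℕ
  | [] => 0
  | b :: L => 2 ^ b + 2 ^ b + tot L

lemma fam_ac (e : V) (L : List ℕ) (a : ℕ) (h : V) (hh : h ≠ 0) :
    ∑ s ∈ range (2 * L.length), ∑ w, fam e L a s w * fam e L a s (w + h) = 0 := by
  induction L generalizing a with
  | nil => simp
  | cons b L ih =>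
    have : 2 * (b :: L).length = 2 * L.length + 1 + 1 := by simp; ring
    rw [this, Finset.sum_range_succ', Finset.sum_range_succ']
    have h1 : (∑ w, fam e (b :: L) a 0 w * fam e (b :: L) a 0 (w + h)) =
        ∑ w, (gXY e b).1 w * (gXY e b).1 (w + h) := by
      simp only [fam]
      exact sum_shift (fun x y => (gXY e b).1 x * (gXY e b).1 y) h (a • e)
    have h2 : (∑ w, fam e (b :: L) a (0 + 1) w * fam e (b :: L) a (0 + 1) (w + h)) =
        ∑ w, (gXY e b).2 w * (gXY e b).2 (w + h) := by
      simp only [fam, zero_add]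
      exact sum_shift (fun x y => (gXY e b).2 x * (gXY e b).2 y) h ((a + 2 ^ b) • e)
    have h3 : (∑ s ∈ range (2 * L.length), ∑ w, fam e (b :: L) a (s + 1 + 1) w * fam e (b :: L) a (s + 1 + 1) (w + h)) = 0 := by
      have := ih (a + 2 ^ b + 2 ^ b)
      rw [← this]
      rfl
    rw [h1, h2, h3, zero_add, add_comm]
    exact gXY_ac e b h hh

lemma fam_cover (e : V) (v : ℕ) (hv : v • e = 0) (hinj : ∀ p, p < v → p • e = 0 → p = 0)
    (L : List ℕ) (a : ℕ) (ha : a + tot L ≤ v) (p : ℕ) (hp : p < v) :
    (a ≤ p → p < a + tot L → ∃ s, s < 2 * L.length ∧ (fam e L a s (p • e) = 1 ∨ fam e L a s (p • e) = -1) ∧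
      ∀ s', s' ≠ s → fam e L a s' (p • e) = 0) ∧
    ((p < a ∨ a + tot L ≤ p) → ∀ s, fam e L a s (p • e) = 0) := by
  induction L generalizing a with
  | nil =>
    constructor
    · intro h1 h2
      simp [tot] at h2
      omega
    · intro _ s
      simp [fam]
  | cons b L ih =>
    simp only [tot] at ha ⊢
    have hb : 2 ^ b ≤ v := by omega
    have hpos : 0 < 2 ^ b := by positivity
    obtain ⟨hX, hY⟩ := gXY_supp e v hv hinj b hb
    have hX' := supp_shift e v hv (2 ^ b) _ hX a (by omega) p hp
    have hY' := supp_shift e v hv (2 ^ b) _ hY (a + 2 ^ b) (by omega) p hp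
    have ih' := ih (a + 2 ^ b + 2 ^ b) (by omega)
    dsimp only at hX' hY'
    have f0 : fam e (b :: L) a 0 (p • e) = (gXY e b).1 (p • e - a • e) := rfl
    have f1 : fam e (b :: L) a 1 (p • e) = (gXY e b).2 (p • e - (a + 2 ^ b) • e) := rfl
    have f2 : ∀ s, fam e (b :: L) a (s + 2) (p • e) = fam e L (a + 2 ^ b + 2 ^ b) s (p • e) := fun s => rfl
    constructor
    · intro h1 h2
      rcases lt_or_ge p (a + 2 ^ b) with hA | hA
      · refine ⟨0, by simp, ?_, ?_⟩
        · rw [f0]; exact hX'.1 h1 hA
        · intro s' hs'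
          match s', hs' with
          | 0, h => exact absurd rfl h
          | 1, _ => rw [f1]; exact hY'.2 (Or.inl hA)
          | s + 2, _ => rw [f2]; exact ih'.2 (Or.inl (by omega)) s
      · rcases lt_or_ge p (a + 2 ^ b + 2 ^ b) with hB | hB
        · refine ⟨1, by simp; omega, ?_, ?_⟩
          · rw [f1]; exact hY'.1 hA hB
          · intro s' hs'
            match s', hs' with
            | 0, _ => rw [f0]; exact hX'.2 (Or.inr hA)
            | 1, h => exact absurd rfl h
            | s + 2, _ => rw [f2]; exact ih'.2 (Or.inl (by omega)) s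
        · obtain ⟨s, hs, h3, h4⟩ := ih'.1 hB (by omega)
          refine ⟨s + 2, by simp; omega, ?_, ?_⟩
          · rw [f2]; exact h3
          · intro s' hs'
            match s', hs' with
            | 0, _ => rw [f0]; exact hX'.2 (Or.inr hA)
            | 1, _ => rw [f1]; exact hY'.2 (Or.inr hB)
            | s' + 2, h => rw [f2]; exact h4 s' (fun h' => h (by rw [h']))
    · intro h s
      match s with
      | 0 => rw [f0]; exact hX'.2 (by omega)
      | 1 => rw [f1]; exact hY'.2 (by omega)
      | s + 2 => rw [f2]; exact ih'.2 (by omega) s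

end Pool.Agent.V11175.Had
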