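import Pool.Agent.V11175.HadGolay

/-!
# Interleaved Golay pairs in the cyclic group of order `2 t`
-/

set_option autoImplicit false
set_option linter.unusedSectionVars false

namespace Pool.Agent.V11175.Had

open Finset

section gen
variable {V : Type} [AddCommGroup V] [Fintype V] [DecidableEq V]

lemma gXY_off (E : V) (b : ℕ) (w : V) (hw : ∀ j : ℕ, w ≠ j • E) :
    (gXY E b).1 w = 0 ∧ (gXY E b).2 w = 0 := by
  induction b generalizing w with
  | zero =>
    have h0 : w ≠ 0 := by simpa using hw 0
    simp [gXY, h0]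
  | succ b ih =>
    have h1 := ih w hw
    have h2 := ih (w - (2 ^ b) • E) (by
      intro j h
      apply hw (j + 2 ^ b)
      rw [add_nsmul, ← h]
      abel)
    simp only [gXY]
    rw [h1.1, h2.2]
    simp

/-- the members belonging to a list of exponents -/
def gfam (g : ℕ → V → ℤ) (E : V) : List ℕ → ℕ → ℕ → V → ℤ
  | [], _, _, _ => 0
  | b :: _, a, 0, w => g b (w - a • E)
  | b :: L, a, k + 1, w => gfam g E L (a + 2 ^ b) k w

/-- the sum of the powers of two of a list of exponents -/
def sm : List ℕ → ℕ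
  | [] => 0
  | b :: L => 2 ^ b + sm L

lemma gfam_off (g : ℕ → V → ℤ) (E : V) (hg : ∀ b w, (∀ j : ℕ, w ≠ j • E) → g b w = 0)
    (L : List ℕ) (a k : ℕ) (w : V) (hw : ∀ j : ℕ, w ≠ j • E) : gfam g E L a k w = 0 := by
  induction L generalizing a k with
  | nil => rfl
  | cons b L ih =>
    cases k with
    | zero =>
      show g b (w - a • E) = 0
      apply hg
      intro j h
      apply hw (j + a)
      rw [add_nsmul, ← h]
      abel
    | succ k => exact ih (a + 2 ^ b) k

lemma gfam_cover (g : ℕ → V → ℤ) (E : V) (v : ℕ) (hv : v • E = 0)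
    (hg : ∀ b, 2 ^ b ≤ v → Supp E v 0 (2 ^ b) (g b))
    (L : List ℕ) (a : ℕ) (ha : a + sm L ≤ v) (p : ℕ) (hp : p < v) :
    (a ≤ p → p < a + sm L → ∃ s, s < L.length ∧ (gfam g E L a s (p • E) = 1 ∨ gfam g E L a s (p • E) = -1) ∧
      ∀ s', s' ≠ s → gfam g E L a s' (p • E) = 0) ∧
    ((p < a ∨ a + sm L ≤ p) → ∀ s, gfam g E L a s (p • E) = 0) := by
  induction L generalizing a with
  | nil =>
    constructor
    · intro h1 h2
      simp [sm] at h2
      omega
    · intro _ s
      rfl
  | cons b L ih =>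
    simp only [sm] at ha ⊢
    have hpos : 0 < 2 ^ b := by positivity
    have hX := supp_shift E v hv (2 ^ b) _ (hg b (by omega)) a (by omega) p hp
    have ih' := ih (a + 2 ^ b) (by omega)
    dsimp only at hX
    have f0 : gfam g E (b :: L) a 0 (p • E) = g b (p • E - a • E) := rfl
    have f2 : ∀ s, gfam g E (b :: L) a (s + 1) (p • E) = gfam g E L (a + 2 ^ b) s (p • E) := fun s => rfl
    constructor
    · intro h1 h2
      rcases lt_or_ge p (a + 2 ^ b) with hA | hA
      · refine ⟨0, by simp, ?_, ?_⟩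
        · rw [f0]; exact hX.1 h1 hA
        · intro s' hs'
          match s', hs' with
          | 0, h => exact absurd rfl h
          | s + 1, _ => rw [f2]; exact ih'.2 (Or.inl (by omega)) s
      · obtain ⟨s, hs, h3, h4⟩ := ih'.1 hA (by omega)
        refine ⟨s + 1, by simp; omega, ?_, ?_⟩
        · rw [f2]; exact h3
        · intro s' hs'
          match s', hs' with
          | 0, _ => rw [f0]; exact hX.2 (Or.inr hA)
          | s' + 1, h => rw [f2]; exact h4 s' (fun h' => h (by rw [h']))
    · intro h s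
      match s with
      | 0 => rw [f0]; exact hX.2 (by omega)
      | s + 1 => rw [f2]; exact ih'.2 (by omega) s

lemma gfam_ac (E c : V) (L : List ℕ) (a : ℕ) (h : V) (hh : h ≠ 0) :
    ∑ k ∈ range L.length, ((∑ w, gfam (fun b => (gXY E b).1) E L a k w * gfam (fun b => (gXY E b).1) E L a k (w + h)) +
      (∑ w, gfam (fun b => (gXY E b).2) E L a k (w - c) * gfam (fun b => (gXY E b).2) E L a k (w + h - c))) = 0 := by
  induction L generalizing a with
  | nil => simp
  | cons b L ih =>
    rw [List.length_cons, Finset.sum_range_succ']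
    have h3 := ih (a + 2 ^ b)
    have h1 : (∑ w, gfam (fun b => (gXY E b).1) E (b :: L) a 0 w * gfam (fun b => (gXY E b).1) E (b :: L) a 0 (w + h)) =
        ∑ w, (gXY E b).1 w * (gXY E b).1 (w + h) :=
      sum_shift (fun x y => (gXY E b).1 x * (gXY E b).1 y) h (a • E)
    have h2 : (∑ w, gfam (fun b => (gXY E b).2) E (b :: L) a 0 (w - c) * gfam (fun b => (gXY E b).2) E (b :: L) a 0 (w + h - c)) =
        ∑ w, (gXY E b).2 w * (gXY E b).2 (w + h) := by
      refine Eq.trans (sum_shift (fun x y => gfam (fun b => (gXY E b).2) E (b :: L) a 0 x *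
        gfam (fun b => (gXY E b).2) E (b :: L) a 0 y) h c) ?_
      exact sum_shift (fun x y => (gXY E b).2 x * (gXY E b).2 y) h (a • E)
    rw [h1, h2, gXY_ac E b h hh, add_zero]
    exact h3
end gen

/-- the parity of an element of the cyclic group of order `2 t` -/
def alp (t : ℕ) (w : ZMod (2 * t)) : Bool := decide (w.val % 2 = 1)

lemma alp_add (t : ℕ) [NeZero (2 * t)] (x z : ZMod (2 * t)) :
    alp t (x + z) = Bool.xor (alp t x) (alp t z) := by
  unfold alp
  rw [ZMod.val_add, Nat.mod_mod_of_dvd _ (Dvd.intro t rfl)]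
  have h : (x.val + z.val) % 2 = (x.val % 2 + z.val % 2) % 2 := Nat.add_mod _ _ _
  rw [h]
  rcases Nat.mod_two_eq_zero_or_one x.val with h1 | h1 <;>
    rcases Nat.mod_two_eq_zero_or_one z.val with h2 | h2 <;> simp [h1, h2]

lemma val_nsmul (t : ℕ) [NeZero (2 * t)] (j : ℕ) : alp t (j • (2 • (1 : ZMod (2 * t)))) = false := by
  unfold alp
  rw [← mul_nsmul', nsmul_one, ZMod.val_natCast, Nat.mod_mod_of_dvd _ (Dvd.intro t rfl)]
  have : j * 2 % 2 = 0 := by omega
  simp [this]

lemma val_nsmul' (t : ℕ) [NeZero (2 * t)] (j : ℕ) : alp t (j • (2 • (1 : ZMod (2 * t))) + 1) = true := by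
  unfold alp
  rw [← mul_nsmul', nsmul_one]
  have : ((j * 2 : ℕ) : ZMod (2 * t)) + 1 = ((j * 2 + 1 : ℕ) : ZMod (2 * t)) := by push_cast; ring
  rw [this, ZMod.val_natCast, Nat.mod_mod_of_dvd _ (Dvd.intro t rfl)]
  have : (j * 2 + 1) % 2 = 1 := by omega
  simp [this]

theorem classes2 (t : ℕ) (ht : 1 ≤ t) (L : List ℕ) (hL : sm L = t) :
    ∃ (cls : ZMod (2 * t) → ℕ) (sg : ZMod (2 * t) → ℤ), (∀ w, cls w < L.length) ∧ (∀ w, sg w * sg w = 1) ∧
      ∀ x x' : ZMod (2 * t), x ≠ x' → alp t x = alp t x' → ∀ [Fintype (ZMod (2 * t))],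
        ∑ z, sg (x + z) * sg (x' + z) *
        (if cls (x + z) = cls (x' + z) then (1 : ℤ) else 0) = 0 := by
  have inst : NeZero (2 * t) := ⟨by omega⟩
  set E : ZMod (2 * t) := 2 • (1 : ZMod (2 * t)) with hE
  have hv : t • E = 0 := by
    rw [hE, ← mul_nsmul', nsmul_one, mul_comm]
    exact ZMod.natCast_self _
  have hinj : ∀ p, p < t → p • E = 0 → p = 0 := by
    intro p hp h
    rw [hE, ← mul_nsmul', nsmul_one, ZMod.natCast_eq_zero_iff] at h
    have := Nat.eq_zero_of_dvd_of_lt h (by omega)
    omega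
  have g1 : ∀ b w, (∀ j : ℕ, w ≠ j • E) → (fun b => (gXY E b).1) b w = 0 := fun b w h => (gXY_off E b w h).1
  have g2 : ∀ b w, (∀ j : ℕ, w ≠ j • E) → (fun b => (gXY E b).2) b w = 0 := fun b w h => (gXY_off E b w h).2
  have s1 : ∀ b, 2 ^ b ≤ t → Supp E t 0 (2 ^ b) ((fun b => (gXY E b).1) b) := fun b h => (gXY_supp E t hv hinj b h).1
  have s2 : ∀ b, 2 ^ b ≤ t → Supp E t 0 (2 ^ b) ((fun b => (gXY E b).2) b) := fun b h => (gXY_supp E t hv hinj b h).2
  set fX : ℕ → ZMod (2 * t) → ℤ := fun k w => gfam (fun b => (gXY E b).1) E L 0 k w with hfX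
  set fY : ℕ → ZMod (2 * t) → ℤ := fun k w => gfam (fun b => (gXY E b).2) E L 0 k (w - 1) with hfY
  have offX : ∀ k w, alp t w = true → fX k w = 0 := by
    intro k w hw
    apply gfam_off _ E g1
    intro j h
    rw [h, val_nsmul] at hw
    exact absurd hw (by simp)
  have offY : ∀ k w, alp t w = false → fY k w = 0 := by
    intro k w hw
    apply gfam_off _ E g2
    intro j h
    have : w = j • E + 1 := by rw [← h]; ring
    rw [this, val_nsmul'] at hw
    exact absurd hw (by simp)
  have hc : ∀ w : ZMod (2 * t), ∃ k, k < L.length ∧ (fX k w + fY k w = 1 ∨ fX k w + fY k w = -1) ∧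
      ∀ k', k' ≠ k → fX k' w + fY k' w = 0 := by
    intro w
    have hwlt := ZMod.val_lt w
    cases hw : alp t w with
    | false =>
      have hw2 : w.val % 2 = 0 := by
        unfold alp at hw
        simpa using hw
      have hwE : w = (w.val / 2) • E := by
        rw [hE, ← mul_nsmul', nsmul_one]
        conv_lhs => rw [← ZMod.natCast_zmod_val w]
        congr 1
        omega
      obtain ⟨k, hk, h1, h2⟩ := (gfam_cover _ E t hv s1 L 0 (by omega) (w.val / 2) (by omega)).1
        (Nat.zero_le _) (by omega)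
      rw [← hwE] at h1
      refine ⟨k, hk, ?_, ?_⟩
      · rw [offY k w hw, add_zero]
        exact h1
      · intro k' hk'
        have := h2 k' hk'
        rw [← hwE] at this
        rw [offY k' w hw, add_zero]
        exact this
    | true =>
      have hw2 : w.val % 2 = 1 := by
        unfold alp at hw
        simpa using hw
      have hwE : w - 1 = (w.val / 2) • E := by
        rw [hE, ← mul_nsmul', nsmul_one, sub_eq_iff_eq_add]
        conv_lhs => rw [← ZMod.natCast_zmod_val w]
        have : ((w.val / 2 * 2 : ℕ) : ZMod (2 * t)) + 1 = ((w.val / 2 * 2 + 1 : ℕ) : ZMod (2 * t)) := by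
          push_cast; ring
        rw [this]
        congr 1
        omega
      obtain ⟨k, hk, h1, h2⟩ := (gfam_cover _ E t hv s2 L 0 (by omega) (w.val / 2) (by omega)).1
        (Nat.zero_le _) (by omega)
      rw [← hwE] at h1
      refine ⟨k, hk, ?_, ?_⟩
      · rw [offX k w hw, zero_add]
        exact h1
      · intro k' hk'
        have := h2 k' hk'
        rw [← hwE] at this
        rw [offX k' w hw, zero_add]
        exact this
  choose cls h1 h2 h3 using hc
  refine ⟨cls, fun w => fX (cls w) w + fY (cls w) w, h1, ?_, ?_⟩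
  · intro w
    dsimp only
    rcases h2 w with h | h <;> rw [h] <;> norm_num
  · intro x x' hx hal inst2
    have key : ∀ z : ZMod (2 * t), (fX (cls (x + z)) (x + z) + fY (cls (x + z)) (x + z)) *
        (fX (cls (x' + z)) (x' + z) + fY (cls (x' + z)) (x' + z)) *
        (if cls (x + z) = cls (x' + z) then (1 : ℤ) else 0) =
        ∑ k ∈ range L.length, (fX k (x + z) * fX k (x' + z) + fY k (x + z) * fY k (x' + z)) := by
      intro z
      have hpar : alp t (x + z) = alp t (x' + z) := by rw [alp_add, alp_add, hal]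
      have hk : ∀ k, fX k (x + z) * fX k (x' + z) + fY k (x + z) * fY k (x' + z) =
          (fX k (x + z) + fY k (x + z)) * (fX k (x' + z) + fY k (x' + z)) := by
        intro k
        cases hz : alp t (x + z) with
        | false =>
          rw [offY k (x + z) hz, offY k (x' + z) (by rw [← hpar]; exact hz)]
          ring
        | true =>
          rw [offX k (x + z) hz, offX k (x' + z) (by rw [← hpar]; exact hz)]
          ring
      rw [Finset.sum_congr rfl (fun k _ => hk k), Finset.sum_eq_single (cls (x + z))]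
      · by_cases hcl : cls (x + z) = cls (x' + z)
        · rw [if_pos hcl, mul_one, ← hcl]
        · rw [if_neg hcl, mul_zero, h3 (x' + z) _ hcl, mul_zero]
      · intro s _ hs
        rw [h3 (x + z) s hs, zero_mul]
      · intro h
        exact absurd (Finset.mem_range.mpr (h1 _)) h
    dsimp only
    rw [Finset.sum_congr rfl (fun z _ => key z), Finset.sum_comm]
    have hne : x' - x ≠ 0 := sub_ne_zero.mpr (Ne.symm hx)
    rw [← gfam_ac E 1 L 0 (x' - x) hne]
    apply Finset.sum_congr rfl
    intro k _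
    rw [Finset.sum_add_distrib]
    congr 1
    · rw [← Equiv.sum_comp (Equiv.addLeft x) (fun w => gfam (fun b => (gXY E b).1) E L 0 k w *
        gfam (fun b => (gXY E b).1) E L 0 k (w + (x' - x)))]
      apply Finset.sum_congr rfl
      intro z _
      simp only [Equiv.coe_addLeft, hfX]
      congr 2
      abel
    · rw [← Equiv.sum_comp (Equiv.addLeft x) (fun w => gfam (fun b => (gXY E b).2) E L 0 k (w - 1) *
        gfam (fun b => (gXY E b).2) E L 0 k (w + (x' - x) - 1))]
      apply Finset.sum_congr rfl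
      intro z _
      simp only [Equiv.coe_addLeft, hfY]
      congr 2
      abel

end Pool.Agent.V11175.Had
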