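import Pool.Agent.V11175.HadPair

/-!
# Arrays on two groups of coordinates
-/

set_option autoImplicit false
set_option linter.unusedSectionVars false

namespace Pool.Agent.V11175.Had

open Finset

variable {V : Type} [AddCommGroup V] [Fintype V] [DecidableEq V]
variable {I J : Type} [Fintype I] [DecidableEq I] [Fintype J] [DecidableEq J]

/-- averaging over a free coordinate -/
lemma free_sum (j0 : J) (S : (J → V) → V) (hS : ∀ j a, S (j + Pi.single j0 a) = S j + a)
    (W : V → ℤ) (G : (J → V) → ℤ) (hG : ∀ j a, G (j + Pi.single j0 a) = G j) :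
    (Fintype.card V : ℤ) * ∑ j, W (S j) * G j = (∑ z, W z) * ∑ j, G j := by
  have h1 : ∀ a : V, ∑ j, W (S j) * G j = ∑ j, W (S j + a) * G j := by
    intro a
    rw [← Equiv.sum_comp (Equiv.addRight (Pi.single j0 a : J → V))]
    apply Finset.sum_congr rfl
    intro j _
    simp only [Equiv.coe_addRight]
    rw [hS, hG]
  calc (Fintype.card V : ℤ) * ∑ j, W (S j) * G j
      = ∑ a : V, ∑ j, W (S j) * G j := by simp
    _ = ∑ a : V, ∑ j, W (S j + a) * G j := Finset.sum_congr rfl (fun a _ => h1 a)
    _ = ∑ j, ∑ a : V, W (S j + a) * G j := Finset.sum_comm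
    _ = ∑ j, (∑ z, W z) * G j := by
        apply Finset.sum_congr rfl
        intro j _
        rw [← Finset.sum_mul]
        congr 1
        exact Equiv.sum_comp (Equiv.addLeft (S j)) W
    _ = (∑ z, W z) * ∑ j, G j := by rw [Finset.mul_sum]

/-- the product of the signs carried by the coordinates other than `j0` -/
def kr (s : V → J → Bool) (al : V → Bool) (j0 : J) (x : V) (j : J → V) : ℤ :=
  ∏ c, if c = j0 then 1 else mm (s x c) (al (j c))

/-- the array on two groups of coordinates -/
def ar2 (i0 : I) (j0 : J) (sg : V → ℤ) (s : V → J → Bool) (t : V → I → Bool) (al : V → Bool)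
    (i : I → V) (j : J → V) : ℤ :=
  sg (∑ c, i c) * sg (∑ c, j c) * (kr s al j0 (∑ c, i c) j * kr t al i0 (∑ c, j c) i)

lemma kr_sq (s : V → J → Bool) (al : V → Bool) (j0 : J) (x : V) (j : J → V) :
    kr s al j0 x j * kr s al j0 x j = 1 := by
  unfold kr
  rw [← Finset.prod_mul_distrib]
  apply Finset.prod_eq_one
  intro c _
  split_ifs
  · rfl
  · exact mm_sq _ _

lemma ar2_sq (i0 : I) (j0 : J) (sg : V → ℤ) (s : V → J → Bool) (t : V → I → Bool) (al : V → Bool)
    (hsg : ∀ x, sg x * sg x = 1) (i : I → V) (j : J → V) :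
    ar2 i0 j0 sg s t al i j * ar2 i0 j0 sg s t al i j = 1 := by
  unfold ar2
  have h1 := hsg (∑ c, i c)
  have h2 := hsg (∑ c, j c)
  have h3 := kr_sq s al j0 (∑ c, i c) j
  have h4 := kr_sq t al i0 (∑ c, j c) i
  generalize sg (∑ c, i c) = a at *
  generalize sg (∑ c, j c) = b at *
  generalize kr s al j0 (∑ c, i c) j = k at *
  generalize kr t al i0 (∑ c, j c) i = m at *
  calc a * b * (k * m) * (a * b * (k * m)) = (a * a) * (b * b) * ((k * k) * (m * m)) := by ring
    _ = 1 := by rw [h1, h2, h3, h4]; norm_num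

lemma ar2_swap (i0 : I) (j0 : J) (sg : V → ℤ) (s : V → J → Bool) (t : V → I → Bool) (al : V → Bool)
    (i : I → V) (j : J → V) : ar2 i0 j0 sg s t al i j = ar2 j0 i0 sg t s al j i := by
  unfold ar2; ring

lemma kr_upd (t : V → I → Bool) (al : V → Bool) (i0 : I) (y : V) (i : I → V) (d : I) (x x' : V) :
    kr t al i0 y (Function.update i d x) * kr t al i0 y (Function.update i d x') =
      if d = i0 then 1 else mm (t y d) (al x) * mm (t y d) (al x') := by
  unfold kr
  rw [← Finset.prod_mul_distrib]
  have : ∀ c ∈ (Finset.univ : Finset I),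
      ((if c = i0 then 1 else mm (t y c) (al (Function.update i d x c))) *
        (if c = i0 then 1 else mm (t y c) (al (Function.update i d x' c)))) =
      if c = d then (if d = i0 then 1 else mm (t y d) (al x) * mm (t y d) (al x')) else (1 : ℤ) := by
    intro c _
    by_cases hc : c = d
    · subst hc
      rw [Function.update_self, Function.update_self, if_pos rfl]
      split_ifs <;> simp
    · rw [Function.update_of_ne hc, Function.update_of_ne hc, if_neg hc]
      split_ifs
      · rfl
      · exact mm_sq _ _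
  rw [Finset.prod_congr rfl this, Finset.prod_ite_eq' Finset.univ d]
  simp

lemma kr_mul_sum (s : V → J → Bool) (al : V → Bool) (j0 : J)
    (hal : (∑ z : V, (if al z then (-1 : ℤ) else 1)) = 0) (X X' : V) :
    ∑ j : J → V, kr s al j0 X j * kr s al j0 X' j =
      if ∀ c, c ≠ j0 → s X c = s X' c then (Fintype.card V : ℤ) ^ Fintype.card J else 0 := by
  have h0 : ∀ j : J → V, kr s al j0 X j * kr s al j0 X' j =
      ∏ c, (fun (c : J) (z : V) => if c = j0 then (1 : ℤ) else mm (s X c) (al z) * mm (s X' c) (al z)) c (j c) := by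
    intro j
    unfold kr
    rw [← Finset.prod_mul_distrib]
    apply Finset.prod_congr rfl
    intro c _
    dsimp only
    split_ifs <;> simp
  rw [Finset.sum_congr rfl (fun j _ => h0 j)]
  have h := Finset.prod_univ_sum (fun _ : J => (Finset.univ : Finset V))
    (fun (c : J) (z : V) => if c = j0 then (1 : ℤ) else mm (s X c) (al z) * mm (s X' c) (al z))
  rw [Fintype.piFinset_univ] at h
  rw [← h]
  split_ifs with hs
  · have : ∀ c ∈ (Finset.univ : Finset J), (∑ z : V, if c = j0 then (1 : ℤ) else
        mm (s X c) (al z) * mm (s X' c) (al z)) = (Fintype.card V : ℤ) := by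
      intro c _
      by_cases hc : c = j0
      · simp [hc]
      · simp only [if_neg hc, hs c hc, mm_sq]
        simp
    rw [Finset.prod_congr rfl this]
    simp
  · push Not at hs
    obtain ⟨c, hc, hne⟩ := hs
    apply Finset.prod_eq_zero (Finset.mem_univ c)
    rw [← hal]
    apply Finset.sum_congr rfl
    intro z _
    rw [if_neg hc]
    cases h1 : s X c <;> cases h2 : s X' c <;> cases h3 : al z <;> simp_all [mm]

lemma kr_shift (s : V → J → Bool) (al : V → Bool) (j0 : J) (x a : V) (j : J → V) :
    kr s al j0 x (j + Pi.single j0 a) = kr s al j0 x j := by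
  unfold kr
  apply Finset.prod_congr rfl
  intro c _
  by_cases hc : c = j0
  · simp [hc]
  · rw [if_neg hc, if_neg hc, Pi.add_apply, Pi.single_eq_of_ne hc, add_zero]

theorem dir1 [Nontrivial I] (i0 : I) (j0 : J) (sg : V → ℤ) (s : V → J → Bool) (t : V → I → Bool)
    (al : V → Bool) (hsg : ∀ x, sg x * sg x = 1)
    (hal : (∑ z : V, (if al z then (-1 : ℤ) else 1)) = 0)
    (hA : ∀ x x' : V, x ≠ x' → ∑ z, sg (x + z) * sg (x' + z) *
      (if ∀ c, c ≠ j0 → s (x + z) c = s (x' + z) c then (1 : ℤ) else 0) = 0)
    (d : I) (x x' : V) (hx : x ≠ x') :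
    ∑ i : I → V, ∑ j : J → V,
      ar2 i0 j0 sg s t al (Function.update i d x) j * ar2 i0 j0 sg s t al (Function.update i d x') j = 0 := by
  have hcard : (Fintype.card V : ℤ) ≠ 0 := by
    have : 0 < Fintype.card V := Fintype.card_pos_iff.mpr ⟨x⟩
    exact_mod_cast this.ne'
  obtain ⟨e0, he0⟩ := exists_ne d
  set R : (I → V) → V := fun i => ∑ c ∈ Finset.univ \ {d}, i c with hR
  have hX : ∀ (i : I → V) (y : V), ∑ c, Function.update i d y c = y + R i := by
    intro i y
    rw [Finset.sum_update_of_mem (Finset.mem_univ d)]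
  have hRs : ∀ (i : I → V) (a : V), R (i + Pi.single e0 a) = R i + a := by
    intro i a
    simp only [hR, Pi.add_apply, Finset.sum_add_distrib]
    congr 1
    rw [Finset.sum_pi_single']
    simp [he0]
  set W : V → ℤ := fun y => if d = i0 then 1 else mm (t y d) (al x) * mm (t y d) (al x') with hW
  have hinner : ∀ i : I → V, (Fintype.card V : ℤ) * ∑ j : J → V,
      ar2 i0 j0 sg s t al (Function.update i d x) j * ar2 i0 j0 sg s t al (Function.update i d x') j =
      (∑ z, W z) * ((Fintype.card V : ℤ) ^ Fintype.card J * (sg (x + R i) * sg (x' + R i) *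
        (if ∀ c, c ≠ j0 → s (x + R i) c = s (x' + R i) c then (1 : ℤ) else 0))) := by
    intro i
    have h1 : ∀ j : J → V,
        ar2 i0 j0 sg s t al (Function.update i d x) j * ar2 i0 j0 sg s t al (Function.update i d x') j =
        (sg (x + R i) * sg (x' + R i)) *
          (W (∑ c, j c) * (kr s al j0 (x + R i) j * kr s al j0 (x' + R i) j)) := by
      intro j
      unfold ar2
      rw [hX, hX]
      have h2 := hsg (∑ c, j c)
      have h3 := kr_upd t al i0 (∑ c, j c) i d x x'
      rw [show W (∑ c, j c) = _ from h3.symm]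
      generalize sg (∑ c, j c) = b at *
      linear_combination (sg (x + R i) * sg (x' + R i) * kr s al j0 (x + R i) j * kr s al j0 (x' + R i) j *
        kr t al i0 (∑ c, j c) (Function.update i d x) * kr t al i0 (∑ c, j c) (Function.update i d x')) * h2
    rw [Finset.sum_congr rfl (fun j _ => h1 j), ← Finset.mul_sum]
    have h4 := free_sum (V := V) j0 (fun j : J → V => ∑ c, j c)
      (by
        intro j a
        simp only [Pi.add_apply, Finset.sum_add_distrib]
        congr 1
        rw [Finset.sum_pi_single']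
        simp)
      W (fun j => kr s al j0 (x + R i) j * kr s al j0 (x' + R i) j)
      (by
        intro j a
        simp only [kr_shift])
    rw [kr_mul_sum s al j0 hal] at h4
    split_ifs at h4 ⊢ with hs
    · linear_combination (sg (x + R i) * sg (x' + R i)) * h4
    · linear_combination (sg (x + R i) * sg (x' + R i)) * h4
  have h5 := free_sum (V := V) e0 R hRs
    (fun z => sg (x + z) * sg (x' + z) *
      (if ∀ c, c ≠ j0 → s (x + z) c = s (x' + z) c then (1 : ℤ) else 0)) (fun _ => (1 : ℤ))
    (fun _ _ => rfl)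
  rw [hA x x' hx, zero_mul] at h5
  have h6 : ∑ i : I → V, sg (x + R i) * sg (x' + R i) *
      (if ∀ c, c ≠ j0 → s (x + R i) c = s (x' + R i) c then (1 : ℤ) else 0) = 0 := by
    have := (mul_eq_zero.mp h5).resolve_left hcard
    simpa using this
  have h7 : (Fintype.card V : ℤ) * ∑ i : I → V, ∑ j : J → V,
      ar2 i0 j0 sg s t al (Function.update i d x) j * ar2 i0 j0 sg s t al (Function.update i d x') j = 0 := by
    rw [Finset.mul_sum, Finset.sum_congr rfl (fun i _ => hinner i), ← Finset.mul_sum, ← Finset.mul_sum, h6]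
    ring
  exact (mul_eq_zero.mp h7).resolve_left hcard

end Pool.Agent.V11175.Had
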