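import Mathlib

/-!
# Arrays that are products of pair characters
-/

set_option autoImplicit false

namespace Pool.Agent.V11175.Had

open Finset

/-- the sign `(-1)^{b c}` of two bits -/
def mm (b c : Bool) : ℤ := if b && c then -1 else 1

lemma mm_sq (b c : Bool) : mm b c * mm b c = 1 := by cases b <;> cases c <;> simp [mm]

lemma mm_comm (b c : Bool) : mm b c = mm c b := by cases b <;> cases c <;> simp [mm]

/-- the array `∏_{p < q} (-1)^{B_{pq}(i_p) B_{qp}(i_q)}` -/
def arr {n : ℕ} {V : Type} (B : Fin n → Fin n → V → Bool) (i : Fin n → V) : ℤ :=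
  ∏ p : Fin n, ∏ q : Fin n, if p < q then mm (B p q (i p)) (B q p (i q)) else 1

lemma arr_sq {n : ℕ} {V : Type} (B : Fin n → Fin n → V → Bool) (i : Fin n → V) :
    arr B i * arr B i = 1 := by
  unfold arr
  rw [← Finset.prod_mul_distrib]
  apply Finset.prod_eq_one
  intro p _
  rw [← Finset.prod_mul_distrib]
  apply Finset.prod_eq_one
  intro q _
  split_ifs
  · exact mm_sq _ _
  · rfl

/-- the factor of the coordinate `q` in the product of two parallel sections -/
def hh {n : ℕ} {V : Type} (B : Fin n → Fin n → V → Bool) (l : Fin n) (x y : V) (q : Fin n) (z : V) : ℤ :=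
  if q = l then 1 else mm (B l q x) (B q l z) * mm (B l q y) (B q l z)

lemma arr_mul {n : ℕ} {V : Type} (B : Fin n → Fin n → V → Bool) (l : Fin n) (x y : V)
    (i : Fin n → V) :
    arr B (Function.update i l x) * arr B (Function.update i l y) = ∏ q, hh B l x y q (i q) := by
  unfold arr
  rw [← Finset.prod_mul_distrib]
  have h1 : ∀ p : Fin n,
      (∏ q : Fin n, if p < q then mm (B p q (Function.update i l x p)) (B q p (Function.update i l x q)) else 1) *
      (∏ q : Fin n, if p < q then mm (B p q (Function.update i l y p)) (B q p (Function.update i l y q)) else 1)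
      = (∏ q : Fin n, (if p = l then (if l < q then hh B l x y q (i q) else 1) else 1)) *
        (∏ q : Fin n, (if q = l then (if p < l then hh B l x y p (i p) else 1) else 1)) := by
    intro p
    rw [← Finset.prod_mul_distrib, ← Finset.prod_mul_distrib]
    apply Finset.prod_congr rfl
    intro q _
    by_cases hp : p = l
    · subst hp
      by_cases hq : q = p
      · subst hq
        simp
      · rw [if_pos rfl, if_neg hq, Function.update_self, Function.update_self,
          Function.update_of_ne hq, Function.update_of_ne hq, mul_one]
        by_cases hlt : p < q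
        · simp only [if_pos hlt, hh, if_neg hq]
        · simp only [if_neg hlt, mul_one]
    · rw [if_neg hp, one_mul]
      by_cases hq : q = l
      · subst hq
        rw [if_pos rfl, Function.update_self, Function.update_self,
          Function.update_of_ne hp, Function.update_of_ne hp]
        by_cases hlt : p < q
        · simp only [if_pos hlt, hh, if_neg hp]
          rw [mm_comm, mm_comm (B p q (i p)) (B q p y)]
        · simp only [if_neg hlt, mul_one]
      · rw [if_neg hq, Function.update_of_ne hp, Function.update_of_ne hp,
          Function.update_of_ne hq, Function.update_of_ne hq]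
        split_ifs
        · exact mm_sq _ _
        · rfl
  rw [Finset.prod_congr rfl (fun p _ => h1 p), Finset.prod_mul_distrib]
  have h2 : (∏ p : Fin n, ∏ q : Fin n, (if p = l then (if l < q then hh B l x y q (i q) else 1) else 1))
      = ∏ q : Fin n, (if l < q then hh B l x y q (i q) else 1) := by
    rw [Finset.prod_comm]
    apply Finset.prod_congr rfl
    intro q _
    rw [Finset.prod_ite_eq' Finset.univ l]
    simp
  have h3 : (∏ p : Fin n, ∏ q : Fin n, (if q = l then (if p < l then hh B l x y p (i p) else 1) else 1))
      = ∏ p : Fin n, (if p < l then hh B l x y p (i p) else 1) := by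
    apply Finset.prod_congr rfl
    intro p _
    rw [Finset.prod_ite_eq' Finset.univ l]
    simp
  rw [h2, h3, ← Finset.prod_mul_distrib]
  apply Finset.prod_congr rfl
  intro q _
  rcases lt_trichotomy q l with h | h | h
  · rw [if_neg (not_lt.mpr h.le), if_pos h, one_mul]
  · subst h
    simp [hh]
  · rw [if_pos h, if_neg (not_lt.mpr h.le), mul_one]

/-- **Main lemma**: the array is Hadamard if all the bits are balanced and, for each direction `l`, any two
different elements are separated by one of the bits `B l q`. -/
theorem arr_sum {n : ℕ} {V : Type} [Fintype V] [DecidableEq V] (B : Fin n → Fin n → V → Bool)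
    (hbal : ∀ p q : Fin n, p ≠ q → (∑ z : V, (if B p q z then (-1 : ℤ) else 1)) = 0)
    (hinj : ∀ l : Fin n, ∀ x y : V, x ≠ y → ∃ q, q ≠ l ∧ B l q x ≠ B l q y)
    (l : Fin n) (x y : V) :
    (∑ i : Fin n → V, arr B (Function.update i l x) * arr B (Function.update i l y)) =
      if x = y then ((Fintype.card V : ℕ) : ℤ) ^ n else 0 := by
  split_ifs with hxy
  · subst hxy
    rw [Finset.sum_congr rfl (fun i _ => arr_sq B (Function.update i l x))]
    simp
  · obtain ⟨q, hq, hB⟩ := hinj l x y hxy
    rw [Finset.sum_congr rfl (fun i _ => arr_mul B l x y i)]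
    have h := Finset.prod_univ_sum (fun _ : Fin n => (Finset.univ : Finset V)) (fun q z => hh B l x y q z)
    rw [Fintype.piFinset_univ] at h
    rw [← h]
    apply Finset.prod_eq_zero (Finset.mem_univ q)
    rw [← hbal q l hq]
    apply Finset.sum_congr rfl
    intro z _
    simp only [hh, if_neg hq]
    cases h1 : B l q x <;> cases h2 : B l q y <;> cases h3 : B q l z <;> simp_all [mm]

end Pool.Agent.V11175.Had
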