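import Pool.Agent.V11175.HadGroup

/-!
# Arrays on one group of coordinates
-/

set_option autoImplicit false
set_option linter.unusedSectionVars false

namespace Pool.Agent.V11175.Had

open Finset

variable {V : Type} [AddCommGroup V] [Fintype V] [DecidableEq V] {n : ℕ}

/-- the array on one group of coordinates -/
def ar1 (sg : V → ℤ) (s : V → Fin n → Bool) (ka : Fin n → Fin n → Bool) (al : V → Bool)
    (i : Fin n → V) : ℤ :=
  sg (∑ c, i c) * (∏ c, mm (s (∑ c, i c) c) (al (i c))) * arr (fun p q z => ka p q && al z) i

/-- the sum of the coordinates other than `l` -/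
def rest (l : Fin n) (i : Fin n → V) : V := ∑ c ∈ Finset.univ \ {l}, i c

lemma sum_upd (l : Fin n) (i : Fin n → V) (y : V) : ∑ c, Function.update i l y c = y + rest l i := by
  unfold rest
  rw [Finset.sum_update_of_mem (Finset.mem_univ l)]

lemma rest_single (l e : Fin n) (he : e ≠ l) (i : Fin n → V) (a : V) :
    rest l (i + Pi.single e a) = rest l i + a := by
  unfold rest
  simp only [Pi.add_apply, Finset.sum_add_distrib]
  congr 1
  rw [Finset.sum_pi_single']
  simp [he]

lemma ar1_sq (sg : V → ℤ) (s : V → Fin n → Bool) (ka : Fin n → Fin n → Bool) (al : V → Bool)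
    (hsg : ∀ x, sg x * sg x = 1) (i : Fin n → V) : ar1 sg s ka al i * ar1 sg s ka al i = 1 := by
  unfold ar1
  have h1 := hsg (∑ c, i c)
  have h2 : (∏ c, mm (s (∑ c, i c) c) (al (i c))) * (∏ c, mm (s (∑ c, i c) c) (al (i c))) = 1 := by
    rw [← Finset.prod_mul_distrib]
    exact Finset.prod_eq_one (fun c _ => mm_sq _ _)
  have h3 := arr_sq (fun p q z => ka p q && al z) i
  generalize sg (∑ c, i c) = a at *
  generalize (∏ c, mm (s (∑ c, i c) c) (al (i c))) = b at *
  generalize arr (fun p q z => ka p q && al z) i = c at *
  calc a * b * c * (a * b * c) = (a * a) * (b * b) * (c * c) := by ring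
    _ = 1 := by rw [h1, h2, h3]; norm_num

/-- the exponent of the character of the coordinate `q` -/
def psi (s : V → Fin n → Bool) (ka : Fin n → Fin n → Bool) (l : Fin n) (X Y : V) (w : Bool) (q : Fin n) : Bool :=
  Bool.xor (Bool.xor (s X q) (s Y q)) (ka l q && w)

/-- the part depending on the sum of the other coordinates only -/
def Th (sg : V → ℤ) (s : V → Fin n → Bool) (al : V → Bool) (l : Fin n) (x y : V) (r : V) : ℤ :=
  sg (x + r) * sg (y + r) * (mm (s (x + r) l) (al x) * mm (s (y + r) l) (al y))

/-- the product of the characters -/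
def pr (al : V → Bool) (l : Fin n) (ps : Fin n → Bool) (i : Fin n → V) : ℤ :=
  ∏ q, if q = l then 1 else mm (ps q) (al (i q))

lemma prod_upd (s : V → Fin n → Bool) (al : V → Bool) (X : V) (l : Fin n) (i : Fin n → V) (x : V) :
    (∏ c, mm (s X c) (al (Function.update i l x c))) =
      mm (s X l) (al x) * ∏ c, (if c = l then 1 else mm (s X c) (al (i c))) := by
  have : ∀ c ∈ (Finset.univ : Finset (Fin n)), mm (s X c) (al (Function.update i l x c)) =
      (if c = l then mm (s X l) (al x) else 1) * (if c = l then 1 else mm (s X c) (al (i c))) := by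
    intro c _
    by_cases hc : c = l
    · subst hc
      simp
    · rw [Function.update_of_ne hc, if_neg hc, if_neg hc, one_mul]
  rw [Finset.prod_congr rfl this, Finset.prod_mul_distrib, Finset.prod_ite_eq' Finset.univ l]
  simp

lemma ar1_mul (sg : V → ℤ) (s : V → Fin n → Bool) (ka : Fin n → Fin n → Bool)
    (hka : ∀ p q, ka p q = ka q p) (al : V → Bool) (l : Fin n) (x y : V) (i : Fin n → V) :
    ar1 sg s ka al (Function.update i l x) * ar1 sg s ka al (Function.update i l y) =
      Th sg s al l x y (rest l i) *
        pr al l (psi s ka l (x + rest l i) (y + rest l i) (Bool.xor (al x) (al y))) i := by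
  unfold ar1
  rw [sum_upd, sum_upd, prod_upd, prod_upd]
  have h := arr_mul (fun p q z => ka p q && al z) l x y i
  have h2 : (∏ c, (if c = l then (1 : ℤ) else mm (s (x + rest l i) c) (al (i c)))) *
      (∏ c, (if c = l then (1 : ℤ) else mm (s (y + rest l i) c) (al (i c)))) *
      (∏ q, hh (fun p q z => ka p q && al z) l x y q (i q)) =
      pr al l (psi s ka l (x + rest l i) (y + rest l i) (Bool.xor (al x) (al y))) i := by
    unfold pr
    rw [← Finset.prod_mul_distrib, ← Finset.prod_mul_distrib]
    apply Finset.prod_congr rfl
    intro q _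
    by_cases hq : q = l
    · simp [hq, hh]
    · simp only [if_neg hq, hh, psi, hka q l]
      generalize s (x + rest l i) q = a
      generalize s (y + rest l i) q = b
      generalize ka l q = c
      generalize al (i q) = d
      generalize al x = e
      generalize al y = f
      cases a <;> cases b <;> cases c <;> cases d <;> cases e <;> cases f <;> simp [mm]
  rw [← h2, ← h]
  unfold Th
  ring

lemma pr_vanish (al : V → Bool) (hal : (∑ z : V, (if al z then (-1 : ℤ) else 1)) = 0)
    (l q0 q1 : Fin n) (h0 : q0 ≠ l) (h1 : q1 ≠ l) (ps : Fin n → Bool) (hq0 : ps q0 = false)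
    (hq1 : ps q1 = true) (r : V) :
    ∑ i : Fin n → V, (if rest l i = r then pr al l ps i else 0) = 0 := by
  have h01 : q0 ≠ q1 := by
    intro h
    rw [h, hq1] at hq0
    exact absurd hq0 (by simp)
  have hcard : (Fintype.card V : ℤ) ≠ 0 := by
    have : 0 < Fintype.card V := Fintype.card_pos_iff.mpr ⟨0⟩
    exact_mod_cast this.ne'
  have hrest : ∀ (i : Fin n → V) (a : V),
      rest l (i + (Pi.single q1 a + Pi.single q0 (-a))) = rest l i := by
    intro i a
    rw [← add_assoc, rest_single l q0 h0, rest_single l q1 h1]
    abel
  have hpr : ∀ (i : Fin n → V) (a : V),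
      pr al l ps (i + (Pi.single q1 a + Pi.single q0 (-a))) =
        (∏ q ∈ Finset.univ.erase q1, (if q = l then 1 else mm (ps q) (al (i q)))) *
          (if al (i q1 + a) then (-1 : ℤ) else 1) := by
    intro i a
    unfold pr
    rw [← Finset.prod_erase_mul Finset.univ _ (Finset.mem_univ q1)]
    congr 1
    · apply Finset.prod_congr rfl
      intro q hq
      have hq' : q ≠ q1 := (Finset.mem_erase.mp hq).1
      by_cases hl : q = l
      · rw [if_pos hl, if_pos hl]
      · rw [if_neg hl, if_neg hl]
        by_cases hqq : q = q0
        · subst hqq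
          rw [hq0]
          simp [mm]
        · simp [Pi.single_eq_of_ne hq', Pi.single_eq_of_ne hqq]
    · rw [if_neg h1, hq1]
      simp [Pi.single_eq_of_ne h01.symm, mm]
  have key : (Fintype.card V : ℤ) * ∑ i : Fin n → V, (if rest l i = r then pr al l ps i else 0) = 0 := by
    calc (Fintype.card V : ℤ) * ∑ i : Fin n → V, (if rest l i = r then pr al l ps i else 0)
        = ∑ a : V, ∑ i : Fin n → V, (if rest l i = r then pr al l ps i else 0) := by simp
      _ = ∑ a : V, ∑ i : Fin n → V, (if rest l i = r then
            (∏ q ∈ Finset.univ.erase q1, (if q = l then 1 else mm (ps q) (al (i q)))) *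
          (if al (i q1 + a) then (-1 : ℤ) else 1) else 0) := by
          apply Finset.sum_congr rfl
          intro a _
          refine Eq.trans (Equiv.sum_comp (Equiv.addRight ((Pi.single q1 a + Pi.single q0 (-a)) : Fin n → V))
            (fun i => if rest l i = r then pr al l ps i else 0)).symm ?_
          apply Finset.sum_congr rfl
          intro i _
          show (if rest l (i + (Pi.single q1 a + Pi.single q0 (-a))) = r then
            pr al l ps (i + (Pi.single q1 a + Pi.single q0 (-a))) else 0) = _
          rw [hrest, hpr]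
      _ = ∑ i : Fin n → V, ∑ a : V, (if rest l i = r then
            (∏ q ∈ Finset.univ.erase q1, (if q = l then 1 else mm (ps q) (al (i q)))) *
          (if al (i q1 + a) then (-1 : ℤ) else 1) else 0) := Finset.sum_comm
      _ = ∑ i : Fin n → V, 0 := by
          apply Finset.sum_congr rfl
          intro i _
          by_cases hr : rest l i = r
          · simp only [if_pos hr]
            rw [← Finset.mul_sum]
            have : ∑ a : V, (if al (i q1 + a) then (-1 : ℤ) else 1) = 0 := by
              rw [← hal]
              exact Equiv.sum_comp (Equiv.addLeft (i q1)) (fun z => if al z then (-1 : ℤ) else 1)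
            rw [this, mul_zero]
          · simp only [if_neg hr]
            simp
      _ = 0 := by simp
  exact (mul_eq_zero.mp key).resolve_left hcard

theorem single_group (sg : V → ℤ) (s : V → Fin n → Bool) (ka : Fin n → Fin n → Bool)
    (hka : ∀ p q, ka p q = ka q p) (al : V → Bool) (cls : V → ℕ)
    (hal : (∑ z : V, (if al z then (-1 : ℤ) else 1)) = 0) (hn : 2 ≤ n)
    (hac : ∀ x x' : V, x ≠ x' → ∑ z, sg (x + z) * sg (x' + z) *
        (if cls (x + z) = cls (x' + z) then (1 : ℤ) else 0) = 0)
    (H0 : ∀ X Y, cls X = cls Y → ∀ q, s X q = s Y q)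
    (H1 : ∀ l X Y w, (∀ q, q ≠ l → psi s ka l X Y w q = false) →
      cls X = cls Y ∧ (w = false ∨ s X l = false))
    (H2 : ∀ l X Y w, ∃ q, q ≠ l ∧ psi s ka l X Y w q = false)
    (l : Fin n) (x y : V) (hxy : x ≠ y) :
    ∑ i : Fin n → V, ar1 sg s ka al (Function.update i l x) * ar1 sg s ka al (Function.update i l y) = 0 := by
  set w := Bool.xor (al x) (al y) with hw
  have hne : ∃ e0 : Fin n, e0 ≠ l := by
    have : Nontrivial (Fin n) := Fin.nontrivial_iff_two_le.mpr hn
    exact exists_ne l
  obtain ⟨e0, he0⟩ := hne
  have h1 : ∀ i : Fin n → V,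
      ar1 sg s ka al (Function.update i l x) * ar1 sg s ka al (Function.update i l y) =
      ∑ r : V, Th sg s al l x y r * (if rest l i = r then pr al l (psi s ka l (x + r) (y + r) w) i else 0) := by
    intro i
    rw [ar1_mul sg s ka hka al l x y i, Finset.sum_eq_single (rest l i)]
    · rw [if_pos rfl]
    · intro r _ hr
      rw [if_neg (Ne.symm hr), mul_zero]
    · intro h
      exact absurd (Finset.mem_univ _) h
  rw [Finset.sum_congr rfl (fun i _ => h1 i), Finset.sum_comm]
  have hN : ∀ r : V, ∑ i : Fin n → V, (if rest l i = r then (1 : ℤ) else 0) =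
      ∑ i : Fin n → V, (if rest l i = 0 then (1 : ℤ) else 0) := by
    intro r
    refine Eq.trans (Equiv.sum_comp (Equiv.addRight (Pi.single e0 r : Fin n → V))
      (fun i => if rest l i = r then (1 : ℤ) else 0)).symm ?_
    apply Finset.sum_congr rfl
    intro i _
    show (if rest l (i + Pi.single e0 r) = r then (1 : ℤ) else 0) = _
    rw [rest_single l e0 he0]
    by_cases h : rest l i = 0
    · rw [if_pos h, if_pos (by rw [h, zero_add])]
    · rw [if_neg h, if_neg (fun h' => h (by simpa using h'))]
  have h2 : ∀ r : V, ∑ i : Fin n → V, Th sg s al l x y r *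
      (if rest l i = r then pr al l (psi s ka l (x + r) (y + r) w) i else 0) =
      (if ∀ q, q ≠ l → psi s ka l (x + r) (y + r) w q = false then Th sg s al l x y r else 0) *
        ∑ i : Fin n → V, (if rest l i = 0 then (1 : ℤ) else 0) := by
    intro r
    rw [← Finset.mul_sum]
    split_ifs with hg
    · rw [← hN r]
      congr 1
      apply Finset.sum_congr rfl
      intro i _
      have : pr al l (psi s ka l (x + r) (y + r) w) i = 1 := by
        unfold pr
        apply Finset.prod_eq_one
        intro q _
        by_cases hq : q = l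
        · rw [if_pos hq]
        · rw [if_neg hq, hg q hq]
          simp [mm]
      rw [this]
    · push Not at hg
      obtain ⟨q1, hq1, hb1⟩ := hg
      obtain ⟨q0, hq0, hb0⟩ := H2 l (x + r) (y + r) w
      rw [pr_vanish al hal l q0 q1 hq0 hq1 _ hb0 (by simpa using hb1) r]
      ring
  rw [Finset.sum_congr rfl (fun r _ => h2 r), ← Finset.sum_mul]
  have h3 : ∑ r : V, (if ∀ q, q ≠ l → psi s ka l (x + r) (y + r) w q = false then
      Th sg s al l x y r else 0) = 0 := by
    by_cases hk : ∃ q, q ≠ l ∧ (ka l q && w) = true
    · obtain ⟨q, hq, hkq⟩ := hk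
      apply Finset.sum_eq_zero
      intro r _
      rw [if_neg]
      intro hg
      obtain ⟨hc, _⟩ := H1 l (x + r) (y + r) w hg
      have := hg q hq
      unfold psi at this
      rw [H0 _ _ hc q, hkq] at this
      simp at this
    · refine Eq.trans ?_ (hac x y hxy)
      apply Finset.sum_congr rfl
      intro r _
      by_cases hc : cls (x + r) = cls (y + r)
      · have hg : ∀ q, q ≠ l → psi s ka l (x + r) (y + r) w q = false := by
          intro q hq
          unfold psi
          rw [H0 _ _ hc q]
          have : (ka l q && w) = false := by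
            by_contra h
            exact hk ⟨q, hq, by simpa using h⟩
          rw [this]
          simp
        rw [if_pos hg, if_pos hc, mul_one]
        obtain ⟨_, h5⟩ := H1 l (x + r) (y + r) w hg
        unfold Th
        rw [← H0 _ _ hc l]
        have : mm (s (x + r) l) (al x) * mm (s (x + r) l) (al y) = 1 := by
          rcases h5 with h5 | h5
          · have : al x = al y := by
              rw [hw] at h5
              revert h5
              cases al x <;> cases al y <;> simp
            rw [this]
            exact mm_sq _ _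
          · rw [h5]
            simp [mm]
        rw [this, mul_one]
      · rw [if_neg hc, mul_zero, if_neg]
        intro hg
        exact hc (H1 l (x + r) (y + r) w hg).1
  rw [h3, zero_mul]

end Pool.Agent.V11175.Had
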