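import Pool.Agent.V11175.HadSingle

/-!
# Arrays on one group of coordinates, second version
-/

set_option autoImplicit false
set_option linter.unusedSectionVars false

namespace Pool.Agent.V11175.Had

open Finset

variable {V : Type} [AddCommGroup V] [Fintype V] [DecidableEq V] {n : ℕ}

theorem single_group2 (sg : V → ℤ) (s : V → Fin n → Bool) (ka : Fin n → Fin n → Bool)
    (hka : ∀ p q, ka p q = ka q p) (al : V → Bool) (cls : V → ℕ)
    (hal : (∑ z : V, (if al z then (-1 : ℤ) else 1)) = 0) (hn : 2 ≤ n)
    (hac : ∀ x x' : V, x ≠ x' → al x = al x' → ∑ z, sg (x + z) * sg (x' + z) *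
        (if cls (x + z) = cls (x' + z) then (1 : ℤ) else 0) = 0)
    (H0 : ∀ X Y, cls X = cls Y → ∀ q, s X q = s Y q)
    (H1 : ∀ l X Y w, (∀ q, q ≠ l → psi s ka l X Y w q = false) →
      cls X = cls Y ∧ w = false)
    (H2 : ∀ l X Y w, ∃ q, q ≠ l ∧ psi s ka l X Y w q = false)
    (l : Fin n) (x y : V) (hxy : x ≠ y) :
    ∑ i : Fin n → V, ar1 sg s ka al (Function.update i l x) * ar1 sg s ka al (Function.update i l y) = 0 := by
  set w := Bool.xor (al x) (al y) with hw
  have hne : ∃ e0 : Fin n, e0 ≠ l := by
    have : Nontrivial (Fin n) := Fin.nontrivial_iff_two_le.mpr hn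
    exact exists_ne l
  obtain ⟨e0, he0⟩ := hne
  have h1 : ∀ i : Fin n → V,
      ar1 sg s ka al (Function.update i l x) * ar1 sg s ka al (Function.update i l y) =
      ∑ r : V, Th sg s al l x y r * (if rest l i = r then pr al l (psi s ka l (x + r) (y + r) w) i else 0) := by
    intro i
    rw [ar1_mul sg s ka hka al l x y i, Finset.sum_eq_single (rest l i)]
    · rw [if_pos rfl]
    · intro r _ hr
      rw [if_neg (Ne.symm hr), mul_zero]
    · intro h
      exact absurd (Finset.mem_univ _) h
  rw [Finset.sum_congr rfl (fun i _ => h1 i), Finset.sum_comm]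
  have hN : ∀ r : V, ∑ i : Fin n → V, (if rest l i = r then (1 : ℤ) else 0) =
      ∑ i : Fin n → V, (if rest l i = 0 then (1 : ℤ) else 0) := by
    intro r
    refine Eq.trans (Equiv.sum_comp (Equiv.addRight (Pi.single e0 r : Fin n → V))
      (fun i => if rest l i = r then (1 : ℤ) else 0)).symm ?_
    apply Finset.sum_congr rfl
    intro i _
    show (if rest l (i + Pi.single e0 r) = r then (1 : ℤ) else 0) = _
    rw [rest_single l e0 he0]
    by_cases h : rest l i = 0
    · rw [if_pos h, if_pos (by rw [h, zero_add])]
    · rw [if_neg h, if_neg (fun h' => h (by simpa using h'))]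
  have h2 : ∀ r : V, ∑ i : Fin n → V, Th sg s al l x y r *
      (if rest l i = r then pr al l (psi s ka l (x + r) (y + r) w) i else 0) =
      (if ∀ q, q ≠ l → psi s ka l (x + r) (y + r) w q = false then Th sg s al l x y r else 0) *
        ∑ i : Fin n → V, (if rest l i = 0 then (1 : ℤ) else 0) := by
    intro r
    rw [← Finset.mul_sum]
    split_ifs with hg
    · rw [← hN r]
      congr 1
      apply Finset.sum_congr rfl
      intro i _
      have : pr al l (psi s ka l (x + r) (y + r) w) i = 1 := by
        unfold pr
        apply Finset.prod_eq_one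
        intro q _
        by_cases hq : q = l
        · rw [if_pos hq]
        · rw [if_neg hq, hg q hq]
          simp [mm]
      rw [this]
    · push Not at hg
      obtain ⟨q1, hq1, hb1⟩ := hg
      obtain ⟨q0, hq0, hb0⟩ := H2 l (x + r) (y + r) w
      rw [pr_vanish al hal l q0 q1 hq0 hq1 _ hb0 (by simpa using hb1) r]
      ring
  rw [Finset.sum_congr rfl (fun r _ => h2 r), ← Finset.sum_mul]
  have h3 : ∑ r : V, (if ∀ q, q ≠ l → psi s ka l (x + r) (y + r) w q = false then
      Th sg s al l x y r else 0) = 0 := by
    cases hwv : w with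
    | true =>
      apply Finset.sum_eq_zero
      intro r _
      rw [if_neg]
      intro hg
      have := (H1 l (x + r) (y + r) true hg).2
      exact absurd this (by simp)
    | false =>
      have hal' : al x = al y := by
        rw [hw] at hwv
        revert hwv
        cases al x <;> cases al y <;> simp
      refine Eq.trans ?_ (hac x y hxy hal')
      apply Finset.sum_congr rfl
      intro r _
      by_cases hc : cls (x + r) = cls (y + r)
      · have hg : ∀ q, q ≠ l → psi s ka l (x + r) (y + r) false q = false := by
          intro q hq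
          unfold psi
          rw [H0 _ _ hc q]
          simp
        rw [if_pos hg, if_pos hc, mul_one]
        unfold Th
        rw [← H0 _ _ hc l, hal', mm_sq, mul_one]
      · rw [if_neg hc, mul_zero, if_neg]
        intro hg
        exact hc (H1 l (x + r) (y + r) false hg).1
  rw [h3, zero_mul]

end Pool.Agent.V11175.Had
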