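import Pool.Agent.V11175.HadPair

/-!
# `n`-dimensional Hadamard matrices of even order `v ≤ 2^(n-1)`
-/

set_option autoImplicit false

namespace Pool.Agent.V11175.Had

open Finset

/-- the `r`-th bit of the code of `x` -/
def cbit (n t : ℕ) (r : ℕ) (x : Fin (2 * t)) : Bool :=
  if r + 2 = n then decide (x.val % 2 = 1)
  else Bool.xor ((x.val / 2).testBit r) (decide (x.val % 2 = 1))

/-- the position at which the code of the coordinate `p` is paired with the coordinate `q` -/
def rho {n : ℕ} (p q : Fin n) : ℕ := if q.val + 1 = n then p.val else q.val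

/-- the partner of `x` -/
def flip (t : ℕ) (x : Fin (2 * t)) : Fin (2 * t) :=
  if h : x.val % 2 = 0 then ⟨x.val + 1, by have := x.2; omega⟩ else ⟨x.val - 1, by have := x.2; omega⟩

lemma flip_val (t : ℕ) (x : Fin (2 * t)) :
    (flip t x).val = if x.val % 2 = 0 then x.val + 1 else x.val - 1 := by
  unfold flip
  split_ifs <;> rfl

lemma cbit_flip (n t r : ℕ) (x : Fin (2 * t)) : cbit n t r (flip t x) = !(cbit n t r x) := by
  unfold cbit
  rw [flip_val]
  rcases Nat.mod_two_eq_zero_or_one x.val with h | h
  · have h1 : (x.val + 1) % 2 = 1 := by omega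
    have h2 : (x.val + 1) / 2 = x.val / 2 := by omega
    rw [if_pos h, h1, h2, h]
    split_ifs <;> simp
  · have h1 : (x.val - 1) % 2 = 0 := by omega
    have h2 : (x.val - 1) / 2 = x.val / 2 := by omega
    have h0 : ¬ x.val % 2 = 0 := by omega
    rw [if_neg h0, h1, h2, h]
    split_ifs <;> simp

lemma flip_flip (t : ℕ) (x : Fin (2 * t)) : flip t (flip t x) = x := by
  apply Fin.ext
  rw [flip_val, flip_val]
  split_ifs <;> omega

lemma flip_ne (t : ℕ) (x : Fin (2 * t)) : flip t x ≠ x := by
  intro h
  have := congrArg Fin.val h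
  rw [flip_val] at this
  split_ifs at this <;> omega

lemma cbit_bal (n t r : ℕ) : (∑ z : Fin (2 * t), (if cbit n t r z then (-1 : ℤ) else 1)) = 0 := by
  apply Finset.sum_involution (fun x _ => flip t x)
  · intro a _
    rw [cbit_flip]
    cases cbit n t r a <;> simp
  · intro a _ _
    exact flip_ne t a
  · intro a _
    exact Finset.mem_univ _
  · intro a _
    exact flip_flip t a

lemma cbit_sep (n t : ℕ) (hn : 2 ≤ n) (ht : t ≤ 2 ^ (n - 2)) (x y : Fin (2 * t)) (hxy : x ≠ y) :
    ∃ r, r + 1 < n ∧ cbit n t r x ≠ cbit n t r y := by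
  by_cases hp : x.val % 2 = y.val % 2
  · have hne : x.val / 2 ≠ y.val / 2 := by
      intro h
      apply hxy
      apply Fin.ext
      omega
    have hx : x.val / 2 < 2 ^ (n - 2) := by have := x.2; omega
    have hy : y.val / 2 < 2 ^ (n - 2) := by have := y.2; omega
    obtain ⟨r, hr⟩ : ∃ r, (x.val / 2).testBit r ≠ (y.val / 2).testBit r := by
      by_contra hcon
      push Not at hcon
      exact hne (Nat.eq_of_testBit_eq hcon)
    have hrn : r < n - 2 := by
      by_contra hge
      apply hr
      have h2 : 2 ^ (n - 2) ≤ 2 ^ r := Nat.pow_le_pow_right (by norm_num) (by omega)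
      rw [Nat.testBit_lt_two_pow (lt_of_lt_of_le hx h2), Nat.testBit_lt_two_pow (lt_of_lt_of_le hy h2)]
    refine ⟨r, by omega, ?_⟩
    unfold cbit
    rw [if_neg (by omega), if_neg (by omega), hp]
    intro h
    apply hr
    generalize (x.val / 2).testBit r = a at *
    generalize (y.val / 2).testBit r = b at *
    generalize decide (y.val % 2 = 1) = c at *
    revert h
    cases a <;> cases b <;> cases c <;> simp
  · refine ⟨n - 2, by omega, ?_⟩
    unfold cbit
    rw [if_pos (by omega), if_pos (by omega)]
    intro h
    apply hp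
    have := x.2
    by_cases h1 : x.val % 2 = 1 <;> by_cases h2 : y.val % 2 = 1
    · omega
    · simp [h1, h2] at h
    · simp [h1, h2] at h
    · omega

theorem small_order (n t : ℕ) (hn : 2 ≤ n) (ht : t ≤ 2 ^ (n - 2)) :
    ∃ A : (Fin n → Fin (2 * t)) → ℤ,
      (∀ i, A i = 1 ∨ A i = -1) ∧
      ∀ l : Fin n, ∀ x y : Fin (2 * t),
        (∑ i : Fin n → Fin (2 * t), A (Function.update i l x) * A (Function.update i l y)) =
          if x = y then ((2 * t : ℕ) : ℤ) ^ n else 0 := by
  refine ⟨arr (fun p q x => cbit n t (rho p q) x), ?_, ?_⟩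
  · intro i
    exact mul_self_eq_one_iff.mp (arr_sq _ i)
  · intro l x y
    have h := arr_sum (n := n) (V := Fin (2 * t)) (fun p q x => cbit n t (rho p q) x)
      (fun p q _ => cbit_bal n t (rho p q)) ?_ l x y
    · rw [h, Fintype.card_fin]
    · intro l x y hxy
      obtain ⟨r, hr, hb⟩ := cbit_sep n t hn ht x y hxy
      by_cases hl : r = l.val
      · refine ⟨⟨n - 1, by omega⟩, ?_, ?_⟩
        · intro h
          have := congrArg Fin.val h
          simp at this
          omega
        · have : rho l ⟨n - 1, by omega⟩ = r := by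
            unfold rho
            rw [if_pos (by simp; omega)]
            exact hl.symm
          simp only [this]
          exact hb
      · refine ⟨⟨r, by omega⟩, ?_, ?_⟩
        · intro h
          have := congrArg Fin.val h
          exact hl this
        · have : rho l ⟨r, by omega⟩ = r := by
            unfold rho
            rw [if_neg (by simp; omega)]
          simp only [this]
          exact hb

end Pool.Agent.V11175.Had
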