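import Pool.Agent.V11175.HadGroup
import Pool.Agent.V11175.HadGolay
import Pool.Agent.V11175.HadT1

/-!
# `n`-dimensional Hadamard matrices of order `2 t`, `t` a sum of few powers of two
-/

set_option autoImplicit false
set_option linter.unusedSectionVars false

namespace Pool.Agent.V11175.Had

open Finset

lemma classes {V : Type} [AddCommGroup V] [Fintype V] [DecidableEq V] (e : V) (v : ℕ) (hv : v • e = 0)
    (hinj : ∀ p, p < v → p • e = 0 → p = 0) (hsurj : ∀ w : V, ∃ p, p < v ∧ w = p • e)
    (L : List ℕ) (hL : tot L = v) :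
    ∃ (cls : V → ℕ) (sg : V → ℤ), (∀ w, cls w < 2 * L.length) ∧ (∀ w, sg w * sg w = 1) ∧
      ∀ x x' : V, x ≠ x' → ∑ z, sg (x + z) * sg (x' + z) *
        (if cls (x + z) = cls (x' + z) then (1 : ℤ) else 0) = 0 := by
  have hc : ∀ w : V, ∃ s, s < 2 * L.length ∧ (fam e L 0 s w = 1 ∨ fam e L 0 s w = -1) ∧
      ∀ s', s' ≠ s → fam e L 0 s' w = 0 := by
    intro w
    obtain ⟨p, hp, rfl⟩ := hsurj w
    exact (fam_cover e v hv hinj L 0 (by omega) p hp).1 (Nat.zero_le _) (by omega)
  choose cls h1 h2 h3 using hc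
  refine ⟨cls, fun w => fam e L 0 (cls w) w, h1, ?_, ?_⟩
  · intro w
    dsimp only
    rcases h2 w with h | h <;> rw [h] <;> norm_num
  · intro x x' hx
    have key : ∀ z : V, fam e L 0 (cls (x + z)) (x + z) * fam e L 0 (cls (x' + z)) (x' + z) *
        (if cls (x + z) = cls (x' + z) then (1 : ℤ) else 0) =
        ∑ s ∈ range (2 * L.length), fam e L 0 s (x + z) * fam e L 0 s (x' + z) := by
      intro z
      rw [Finset.sum_eq_single (cls (x + z))]
      · by_cases hcl : cls (x + z) = cls (x' + z)
        · rw [if_pos hcl, mul_one, ← hcl]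
        · rw [if_neg hcl, mul_zero, h3 (x' + z) _ hcl, mul_zero]
      · intro s _ hs
        rw [h3 (x + z) s hs, zero_mul]
      · intro h
        exact absurd (Finset.mem_range.mpr (h1 _)) h
    rw [Finset.sum_congr rfl (fun z _ => key z), Finset.sum_comm]
    have hne : x' - x ≠ 0 := sub_ne_zero.mpr (Ne.symm hx)
    rw [← fam_ac e L 0 (x' - x) hne]
    apply Finset.sum_congr rfl
    intro s _
    rw [← Equiv.sum_comp (Equiv.addLeft x) (fun w => fam e L 0 s w * fam e L 0 s (w + (x' - x)))]
    apply Finset.sum_congr rfl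
    intro z _
    simp only [Equiv.coe_addLeft]
    congr 2
    abel

section append
variable {V : Type} {g g' : ℕ}

lemma up1 (i : Fin g → V) (j : Fin g' → V) (d : Fin g) (x : V) :
    (fun c => Function.update (Fin.append i j) (Fin.castAdd g' d) x (Fin.castAdd g' c)) =
      Function.update i d x := by
  funext c
  by_cases hc : c = d
  · subst hc
    rw [Function.update_self, Function.update_self]
  · rw [Function.update_of_ne hc, Function.update_of_ne, Fin.append_left]
    intro h
    exact hc (Fin.castAdd_injective _ _ h)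

lemma up2 (i : Fin g → V) (j : Fin g' → V) (d : Fin g) (x : V) :
    (fun c => Function.update (Fin.append i j) (Fin.castAdd g' d) x (Fin.natAdd g c)) = j := by
  funext c
  rw [Function.update_of_ne, Fin.append_right]
  intro h
  have h1 := congrArg Fin.val h
  simp at h1
  have := d.2
  omega

lemma up3 (i : Fin g → V) (j : Fin g' → V) (d : Fin g') (x : V) :
    (fun c => Function.update (Fin.append i j) (Fin.natAdd g d) x (Fin.natAdd g c)) =
      Function.update j d x := by
  funext c
  by_cases hc : c = d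
  · subst hc
    rw [Function.update_self, Function.update_self]
  · rw [Function.update_of_ne hc, Function.update_of_ne, Fin.append_right]
    intro h
    apply hc
    have h1 := congrArg Fin.val h
    simp at h1
    exact Fin.ext h1

lemma up4 (i : Fin g → V) (j : Fin g' → V) (d : Fin g') (x : V) :
    (fun c => Function.update (Fin.append i j) (Fin.natAdd g d) x (Fin.castAdd g' c)) = i := by
  funext c
  rw [Function.update_of_ne, Fin.append_left]
  intro h
  have h1 := congrArg Fin.val h
  simp at h1
  have := c.2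
  omega
end append

theorem exists_group {V : Type} [AddCommGroup V] [Fintype V] [DecidableEq V] (K g' : ℕ) (hK : 1 ≤ K)
    (hg : K + 1 ≤ g') (al : V → Bool) (hal : (∑ z : V, (if al z then (-1 : ℤ) else 1)) = 0)
    (cls : V → ℕ) (sg : V → ℤ) (hcls : ∀ w, cls w < 2 ^ K) (hsg : ∀ w, sg w * sg w = 1)
    (hac : ∀ x x' : V, x ≠ x' → ∑ z, sg (x + z) * sg (x' + z) *
        (if cls (x + z) = cls (x' + z) then (1 : ℤ) else 0) = 0) :
    ∃ A : (Fin (K + 1 + g') → V) → ℤ,
      (∀ i, A i = 1 ∨ A i = -1) ∧
      ∀ l : Fin (K + 1 + g'), ∀ x y : V,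
        (∑ i : Fin (K + 1 + g') → V, A (Function.update i l x) * A (Function.update i l y)) =
          if x = y then ((Fintype.card V : ℕ) : ℤ) ^ (K + 1 + g') else 0 := by
  set s : V → Fin g' → Bool := fun x c => (cls x).testBit c.val with hs
  set t : V → Fin (K + 1) → Bool := fun x c => (cls x).testBit c.val with ht
  set i0 : Fin (K + 1) := ⟨K, by omega⟩ with hi0
  set j0 : Fin g' := ⟨K, by omega⟩ with hj0
  have bits : ∀ (m : ℕ) (hm : K + 1 ≤ m) (x y : V),
      (∀ c : Fin m, c ≠ ⟨K, by omega⟩ → (cls x).testBit c.val = (cls y).testBit c.val) ↔ cls x = cls y := by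
    intro m hm x y
    constructor
    · intro h
      apply Nat.eq_of_testBit_eq
      intro r
      rcases lt_or_ge r K with hr | hr
      · refine h ⟨r, by omega⟩ ?_
        intro h'
        have := congrArg Fin.val h'
        simp at this
        omega
      · have h2 : 2 ^ K ≤ 2 ^ r := Nat.pow_le_pow_right (by norm_num) hr
        rw [Nat.testBit_lt_two_pow (lt_of_lt_of_le (hcls x) h2),
          Nat.testBit_lt_two_pow (lt_of_lt_of_le (hcls y) h2)]
    · intro h c _
      rw [h]
  have : Nontrivial (Fin (K + 1)) := Fin.nontrivial_iff_two_le.mpr (by omega)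
  have : Nontrivial (Fin g') := Fin.nontrivial_iff_two_le.mpr (by omega)
  set A : (Fin (K + 1 + g') → V) → ℤ := fun w =>
    ar2 i0 j0 sg s t al (fun c => w (Fin.castAdd g' c)) (fun c => w (Fin.natAdd (K + 1) c)) with hA
  have hsq : ∀ w, A w * A w = 1 := fun w => ar2_sq i0 j0 sg s t al hsg _ _
  refine ⟨A, fun i => mul_self_eq_one_iff.mp (hsq i), ?_⟩
  intro l x y
  split_ifs with hxy
  · subst hxy
    rw [Finset.sum_congr rfl (fun i _ => hsq (Function.update i l x))]
    simp
  · rw [← Equiv.sum_comp (Fin.appendEquiv (α := V) (K + 1) g'), Fintype.sum_prod_type]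
    refine Fin.addCases (fun d => ?_) (fun d => ?_) l
    · refine Eq.trans ?_ (dir1 i0 j0 sg s t al hsg hal ?_ d x y hxy)
      swap
      · intro x x' hx
        refine Eq.trans ?_ (hac x x' hx)
        apply Finset.sum_congr rfl
        intro z _
        congr 1
        have hb := bits g' hg (x + z) (x' + z)
        by_cases hcl : cls (x + z) = cls (x' + z)
        · rw [if_pos hcl, if_pos (hb.mpr hcl)]
        · rw [if_neg hcl, if_neg (fun h => hcl (hb.mp h))]
      apply Finset.sum_congr rfl
      intro i _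
      apply Finset.sum_congr rfl
      intro j _
      have e1 : (Fin.appendEquiv (α := V) (K + 1) g') (i, j) = Fin.append i j := rfl
      rw [e1]
      simp only [hA]
      rw [up1, up1, up2, up2]
    · rw [Finset.sum_comm]
      refine Eq.trans ?_ (dir1 j0 i0 sg t s al hsg hal ?_ d x y hxy)
      swap
      · intro x x' hx
        refine Eq.trans ?_ (hac x x' hx)
        apply Finset.sum_congr rfl
        intro z _
        congr 1
        have hb := bits (K + 1) le_rfl (x + z) (x' + z)
        by_cases hcl : cls (x + z) = cls (x' + z)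
        · rw [if_pos hcl, if_pos (hb.mpr hcl)]
        · rw [if_neg hcl, if_neg (fun h => hcl (hb.mp h))]
      apply Finset.sum_congr rfl
      intro j _
      apply Finset.sum_congr rfl
      intro i _
      have e1 : (Fin.appendEquiv (α := V) (K + 1) g') (i, j) = Fin.append i j := rfl
      rw [e1]
      simp only [hA]
      rw [up3, up3, up4, up4, ar2_swap, ar2_swap i0 j0]

/-- transfer along a bijection -/
lemma transfer {V : Type} [Fintype V] [DecidableEq V] (n v : ℕ) (φ : Fin v ≃ V)
    (h : ∃ A : (Fin n → V) → ℤ, (∀ i, A i = 1 ∨ A i = -1) ∧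
      ∀ l : Fin n, ∀ x y : V,
        (∑ i : Fin n → V, A (Function.update i l x) * A (Function.update i l y)) =
          if x = y then ((Fintype.card V : ℕ) : ℤ) ^ n else 0) :
    ∃ A : (Fin n → Fin v) → ℤ, (∀ i, A i = 1 ∨ A i = -1) ∧
      ∀ l : Fin n, ∀ x y : Fin v,
        (∑ i : Fin n → Fin v, A (Function.update i l x) * A (Function.update i l y)) =
          if x = y then ((v : ℕ) : ℤ) ^ n else 0 := by
  obtain ⟨A, h1, h2⟩ := h
  refine ⟨fun i => A (fun c => φ (i c)), fun i => h1 _, ?_⟩
  intro l x y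
  have hc : Fintype.card V = v := by rw [← Fintype.card_congr φ, Fintype.card_fin]
  have h3 := h2 l (φ x) (φ y)
  rw [hc] at h3
  simp only [φ.injective.eq_iff] at h3
  rw [← h3, ← Equiv.sum_comp (Equiv.arrowCongr (Equiv.refl (Fin n)) φ)]
  apply Finset.sum_congr rfl
  intro i _
  have hu : ∀ z : Fin v, (fun c => φ (Function.update i l z c)) =
      Function.update ((Equiv.arrowCongr (Equiv.refl (Fin n)) φ) i) l (φ z) := by
    intro z
    funext c
    by_cases hc : c = l
    · subst hc
      simp
    · simp [Function.update_of_ne hc]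
  show A (fun c => φ (Function.update i l x c)) * A (fun c => φ (Function.update i l y c)) = _
  rw [hu, hu]

theorem few_powers (n K t : ℕ) (hK : 1 ≤ K) (hn : 2 * (K + 1) ≤ n) (ht : 1 ≤ t) (L : List ℕ)
    (hlen : 2 * L.length ≤ 2 ^ K) (hL : tot L = 2 * t) :
    ∃ A : (Fin n → Fin (2 * t)) → ℤ,
      (∀ i, A i = 1 ∨ A i = -1) ∧
      ∀ l : Fin n, ∀ x y : Fin (2 * t),
        (∑ i : Fin n → Fin (2 * t), A (Function.update i l x) * A (Function.update i l y)) =
          if x = y then ((2 * t : ℕ) : ℤ) ^ n else 0 := by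
  obtain ⟨g', rfl⟩ : ∃ g', n = K + 1 + g' := ⟨n - (K + 1), by omega⟩
  have : NeZero (2 * t) := ⟨by omega⟩
  set φ : Fin (2 * t) ≃ ZMod (2 * t) := (Fintype.equivFinOfCardEq (ZMod.card (2 * t))).symm with hφ
  apply transfer (V := ZMod (2 * t)) _ _ φ
  obtain ⟨cls, sg, h1, h2, h3⟩ := classes (V := ZMod (2 * t)) 1 (2 * t)
    (by rw [nsmul_one]; exact ZMod.natCast_self _)
    (by
      intro p hp h
      rw [nsmul_one, ZMod.natCast_eq_zero_iff] at h
      exact Nat.eq_zero_of_dvd_of_lt h hp)
    (fun w => ⟨w.val, ZMod.val_lt w, by rw [nsmul_one]; exact (ZMod.natCast_zmod_val w).symm⟩)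
    L hL
  refine exists_group K g' hK (by omega) (fun z => cbit 2 t 0 (φ.symm z)) ?_ cls sg
    (fun w => lt_of_lt_of_le (h1 w) hlen) h2 h3
  rw [← Equiv.sum_comp φ]
  simp only [Equiv.symm_apply_apply]
  exact cbit_bal 2 t 0

end Pool.Agent.V11175.Had
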