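import Pool.Agent.V11175.HadT2

/-!
# Products and binary expansions
-/

set_option autoImplicit false

namespace Pool.Agent.V11175.Had

open Finset

/-- there is an `n`-dimensional Hadamard matrix of order `v` -/
def HasHadamard (n v : ℕ) : Prop :=
  ∃ A : (Fin n → Fin v) → ℤ,
    (∀ i, A i = 1 ∨ A i = -1) ∧
    ∀ l : Fin n, ∀ x y : Fin v,
      (∑ i : Fin n → Fin v, A (Function.update i l x) * A (Function.update i l y)) =
        if x = y then (v : ℤ) ^ n else 0

lemma tensor (n v w : ℕ) (hv : HasHadamard n v) (hw : HasHadamard n w) : HasHadamard n (v * w) := by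
  obtain ⟨A, hA1, hA2⟩ := hv
  obtain ⟨B, hB1, hB2⟩ := hw
  apply transfer (V := Fin v × Fin w) n (v * w) finProdFinEquiv.symm
  refine ⟨fun i => A (fun c => (i c).1) * B (fun c => (i c).2), ?_, ?_⟩
  · intro i
    dsimp only
    rcases hA1 (fun c => (i c).1) with h | h <;> rcases hB1 (fun c => (i c).2) with h' | h' <;>
      rw [h, h'] <;> simp
  · intro l x y
    have hfst : ∀ (i : Fin n → Fin v × Fin w) (z : Fin v × Fin w),
        (fun c => (Function.update i l z c).1) = Function.update (fun c => (i c).1) l z.1 := by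
      intro i z
      funext c
      by_cases hc : c = l
      · subst hc; simp
      · simp [Function.update_of_ne hc]
    have hsnd : ∀ (i : Fin n → Fin v × Fin w) (z : Fin v × Fin w),
        (fun c => (Function.update i l z c).2) = Function.update (fun c => (i c).2) l z.2 := by
      intro i z
      funext c
      by_cases hc : c = l
      · subst hc; simp
      · simp [Function.update_of_ne hc]
    have h1 : ∀ i : Fin n → Fin v × Fin w,
        (A (fun c => (Function.update i l x c).1) * B (fun c => (Function.update i l x c).2)) *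
        (A (fun c => (Function.update i l y c).1) * B (fun c => (Function.update i l y c).2)) =
        (fun p : (Fin n → Fin v) × (Fin n → Fin w) =>
          (A (Function.update p.1 l x.1) * A (Function.update p.1 l y.1)) *
          (B (Function.update p.2 l x.2) * B (Function.update p.2 l y.2)))
          ((Equiv.arrowProdEquivProdArrow (Fin n) (fun _ => Fin v) (fun _ => Fin w)) i) := by
      intro i
      rw [hfst, hfst, hsnd, hsnd]
      simp only [Equiv.arrowProdEquivProdArrow, Equiv.coe_fn_mk]
      ring
    rw [Finset.sum_congr rfl (fun i _ => h1 i)]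
    refine Eq.trans (Equiv.sum_comp (Equiv.arrowProdEquivProdArrow (Fin n) (fun _ => Fin v) (fun _ => Fin w))
      (fun p : (Fin n → Fin v) × (Fin n → Fin w) =>
          (A (Function.update p.1 l x.1) * A (Function.update p.1 l y.1)) *
          (B (Function.update p.2 l x.2) * B (Function.update p.2 l y.2)))) ?_
    rw [Fintype.sum_prod_type]
    simp only
    rw [← Finset.sum_mul_sum, hA2, hB2, Fintype.card_prod, Fintype.card_fin, Fintype.card_fin]
    by_cases hx : x.1 = y.1
    · by_cases hy : x.2 = y.2
      · have : x = y := Prod.ext hx hy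
        rw [if_pos hx, if_pos hy, if_pos this]
        push_cast
        ring
      · have : x ≠ y := fun h => hy (by rw [h])
        rw [if_neg hy, if_neg this, mul_zero]
    · have : x ≠ y := fun h => hx (by rw [h])
      rw [if_neg hx, if_neg this, zero_mul]

lemma tot_eq (L : List ℕ) : tot L = 2 * (L.map (fun b => 2 ^ b)).sum := by
  induction L with
  | nil => simp [tot]
  | cons b L ih => simp only [tot, List.map_cons, List.sum_cons, ih]; ring

lemma sum_powers (n : ℕ) (hn : 4 ≤ n) (L : List ℕ) (hL : L ≠ []) (hlen : L.length ≤ 2 ^ (n / 2 - 2)) :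
    HasHadamard n (2 * (L.map (fun b => 2 ^ b)).sum) := by
  have hpos : 1 ≤ (L.map (fun b => 2 ^ b)).sum := by
    cases L with
    | nil => exact absurd rfl hL
    | cons b L =>
      simp only [List.map_cons, List.sum_cons]
      have : 0 < 2 ^ b := by positivity
      omega
  have h := few_powers n (n / 2 - 1) ((L.map (fun b => 2 ^ b)).sum) (by omega) (by omega) hpos L
    (by
      have : 2 ^ (n / 2 - 1) = 2 * 2 ^ (n / 2 - 2) := by
        rw [show n / 2 - 1 = (n / 2 - 2) + 1 by omega, pow_succ]; ring
      omega)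
    (tot_eq L)
  exact h

lemma small (n : ℕ) (hn : 4 ≤ n) (t : ℕ) (h : 2 * t ≤ 2 ^ (n - 1)) : HasHadamard n (2 * t) := by
  refine small_order n t (by omega) ?_
  obtain ⟨k, rfl⟩ : ∃ k, n = k + 2 := ⟨n - 2, by omega⟩
  have h2 : 2 ^ (k + 2 - 1) = 2 * 2 ^ k := by
    rw [show k + 2 - 1 = k + 1 by omega, pow_succ]; ring
  rw [h2] at h
  rw [show k + 2 - 2 = k by omega]
  omega

lemma binary (n : ℕ) (hn : 4 ≤ n) (t : ℕ) (ht : 1 ≤ t) (h : t < 2 ^ 2 ^ (n / 2 - 2)) :
    HasHadamard n (2 * t) := by
  have h1 := sum_powers n hn t.bitIndices ?_ ?_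
  · rwa [Nat.sum_map_two_pow_bitIndices] at h1
  · intro h0
    have := Nat.sum_map_two_pow_bitIndices t
    rw [h0] at this
    simp at this
    omega
  · have hs : t.bitIndices.toFinset ⊆ Finset.range (2 ^ (n / 2 - 2)) := by
      intro b hb
      rw [List.mem_toFinset] at hb
      rw [Finset.mem_range]
      have h2 := Nat.two_pow_le_of_mem_bitIndices hb
      exact (Nat.pow_lt_pow_iff_right (by norm_num)).mp (lt_of_le_of_lt h2 h)
    have hnd : t.bitIndices.Nodup := (Nat.bitIndices_sorted (n := t)).nodup
    have h3 := Finset.card_le_card hs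
    rw [List.toFinset_card_of_nodup hnd, Finset.card_range] at h3
    exact h3

theorem main (n : ℕ) (hn : 4 ≤ n) :
    (∀ ts : List ℕ, ts ≠ [] →
      (∀ t ∈ ts, 2 * t ≤ 2 ^ (n - 1) ∨
        ∃ L : List ℕ, L ≠ [] ∧ L.length ≤ 2 ^ (n / 2 - 2) ∧ t = (L.map (fun b => 2 ^ b)).sum) →
      HasHadamard n (ts.map (fun t => 2 * t)).prod) ∧
    (∀ t : ℕ, 1 ≤ t → t < 2 ^ 2 ^ (n / 2 - 2) → HasHadamard n (2 * t)) := by
  refine ⟨?_, fun t ht h => binary n hn t ht h⟩
  intro ts
  induction ts with
  | nil => intro h; exact absurd rfl h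
  | cons t ts ih =>
    intro _ h
    have ht : HasHadamard n (2 * t) := by
      rcases h t (by simp) with h1 | ⟨L, hL, hlen, rfl⟩
      · exact small n hn t h1
      · exact sum_powers n hn L hL hlen
    by_cases hts : ts = []
    · subst hts
      simpa using ht
    · rw [List.map_cons, List.prod_cons]
      exact tensor n _ _ ht (ih hts (fun t' ht' => h t' (by simp [ht'])))

end Pool.Agent.V11175.Had
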