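import Pool.Agent.V11175.HadSingle
import Pool.Agent.V11175.HadCode
import Pool.Agent.V11175.HadT3

/-!
# Hadamard matrices of dimension `n` and order `2 t`, `t` a sum of at most `2 ^ (n - 4)` powers of two
-/

set_option autoImplicit false

namespace Pool.Agent.V11175.Had

open Finset

theorem exists_single {V : Type} [AddCommGroup V] [Fintype V] [DecidableEq V] (N : ℕ) (hN : 2 ≤ N)
    (al : V → Bool) (hal : (∑ z : V, (if al z then (-1 : ℤ) else 1)) = 0)
    (cls : V → ℕ) (sg : V → ℤ) (hcls : ∀ w, cls w < 2 ^ (N - 1)) (hsg : ∀ w, sg w * sg w = 1)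
    (hac : ∀ x x' : V, x ≠ x' → ∑ z, sg (x + z) * sg (x' + z) *
        (if cls (x + z) = cls (x' + z) then (1 : ℤ) else 0) = 0) :
    ∃ A : (Fin (N + 2) → V) → ℤ,
      (∀ i, A i = 1 ∨ A i = -1) ∧
      ∀ l : Fin (N + 2), ∀ x y : V,
        (∑ i : Fin (N + 2) → V, A (Function.update i l x) * A (Function.update i l y)) =
          if x = y then ((Fintype.card V : ℕ) : ℤ) ^ (N + 2) else 0 := by
  set s : V → Fin (N + 2) → Bool := fun X q => code N (cls X) q.val with hs
  set ka : Fin (N + 2) → Fin (N + 2) → Bool := fun p q => ke N p.val q.val with hka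
  have hpsi : ∀ l X Y w q, psi s ka l X Y w q =
      Bool.xor (code N (cls X ^^^ cls Y) q.val) (ke N l.val q.val && w) := by
    intro l X Y w q
    rw [code_xor]
    rfl
  have hsq : ∀ i, ar1 sg s ka al i * ar1 sg s ka al i = 1 := fun i => ar1_sq sg s ka al hsg i
  refine ⟨ar1 sg s ka al, fun i => mul_self_eq_one_iff.mp (hsq i), ?_⟩
  intro l x y
  split_ifs with hxy
  · subst hxy
    rw [Finset.sum_congr rfl (fun i _ => hsq (Function.update i l x))]
    simp
  · refine single_group sg s ka (fun p q => ke_comm N p.val q.val) al cls hal (by omega) hac ?_ ?_ ?_ l x y hxy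
    · intro X Y h q
      simp only [hs, h]
    · intro l X Y w h
      have h1 := code_H1 N hN (cls X ^^^ cls Y) (cls X) (Nat.xor_lt_two_pow (hcls X) (hcls Y)) l.val l.2 w
        (by
          intro q hq hql
          have := h ⟨q, hq⟩ (fun h' => hql (congrArg Fin.val h'))
          rwa [hpsi] at this)
      refine ⟨?_, h1.2⟩
      exact Nat.xor_eq_zero_iff.mp h1.1
    · intro l X Y w
      obtain ⟨q, hq, hql, h1⟩ := code_H2 N hN (cls X ^^^ cls Y) l.val l.2 w
      refine ⟨⟨q, hq⟩, fun h' => hql (congrArg Fin.val h'), ?_⟩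
      rw [hpsi]
      exact h1

theorem few_powers' (n t : ℕ) (hn : 4 ≤ n) (ht : 1 ≤ t) (L : List ℕ)
    (hlen : 2 * L.length ≤ 2 ^ (n - 3)) (hL : tot L = 2 * t) : HasHadamard n (2 * t) := by
  obtain ⟨N, rfl⟩ : ∃ N, n = N + 2 := ⟨n - 2, by omega⟩
  have : NeZero (2 * t) := ⟨by omega⟩
  set φ : Fin (2 * t) ≃ ZMod (2 * t) := (Fintype.equivFinOfCardEq (ZMod.card (2 * t))).symm with hφ
  apply transfer (V := ZMod (2 * t)) _ _ φ
  obtain ⟨cls, sg, h1, h2, h3⟩ := classes (V := ZMod (2 * t)) 1 (2 * t)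
    (by rw [nsmul_one]; exact ZMod.natCast_self _)
    (by
      intro p hp h
      rw [nsmul_one, ZMod.natCast_eq_zero_iff] at h
      exact Nat.eq_zero_of_dvd_of_lt h hp)
    (fun w => ⟨w.val, ZMod.val_lt w, by rw [nsmul_one]; exact (ZMod.natCast_zmod_val w).symm⟩)
    L hL
  refine exists_single N (by omega) (fun z => cbit 2 t 0 (φ.symm z)) ?_ cls sg
    (fun w => lt_of_lt_of_le (h1 w) (by rwa [show N - 1 = N + 2 - 3 by omega])) h2 h3
  rw [← Equiv.sum_comp φ]
  simp only [Equiv.symm_apply_apply]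
  exact cbit_bal 2 t 0

lemma sum_powers' (n : ℕ) (hn : 4 ≤ n) (L : List ℕ) (hL : L ≠ []) (hlen : L.length ≤ 2 ^ (n - 4)) :
    HasHadamard n (2 * (L.map (fun b => 2 ^ b)).sum) := by
  have hpos : 1 ≤ (L.map (fun b => 2 ^ b)).sum := by
    cases L with
    | nil => exact absurd rfl hL
    | cons b L =>
      simp only [List.map_cons, List.sum_cons]
      have : 0 < 2 ^ b := by positivity
      omega
  exact few_powers' n ((L.map (fun b => 2 ^ b)).sum) hn hpos L
    (by
      have : 2 ^ (n - 3) = 2 * 2 ^ (n - 4) := by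
        rw [show n - 3 = (n - 4) + 1 by omega, pow_succ]; ring
      omega)
    (tot_eq L)

lemma binary' (n : ℕ) (hn : 4 ≤ n) (t : ℕ) (ht : 1 ≤ t) (h : t < 2 ^ 2 ^ (n - 4)) :
    HasHadamard n (2 * t) := by
  have h1 := sum_powers' n hn t.bitIndices ?_ ?_
  · rwa [Nat.sum_map_two_pow_bitIndices] at h1
  · intro h0
    have := Nat.sum_map_two_pow_bitIndices t
    rw [h0] at this
    simp at this
    omega
  · have hs : t.bitIndices.toFinset ⊆ Finset.range (2 ^ (n - 4)) := by
      intro b hb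
      rw [List.mem_toFinset] at hb
      rw [Finset.mem_range]
      have h2 := Nat.two_pow_le_of_mem_bitIndices hb
      exact (Nat.pow_lt_pow_iff_right (by norm_num)).mp (lt_of_le_of_lt h2 h)
    have hnd : t.bitIndices.Nodup := (Nat.bitIndices_sorted (n := t)).nodup
    have h3 := Finset.card_le_card hs
    rw [List.toFinset_card_of_nodup hnd, Finset.card_range] at h3
    exact h3

theorem main' (n : ℕ) (hn : 4 ≤ n) :
    (∀ ts : List ℕ, ts ≠ [] →
      (∀ t ∈ ts, t ≤ 2 ^ (n - 2) ∨
        ∃ L : List ℕ, L ≠ [] ∧ L.length ≤ 2 ^ (n - 4) ∧ t = (L.map (fun b => 2 ^ b)).sum) →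
      HasHadamard n (ts.map (fun t => 2 * t)).prod) ∧
    (∀ t : ℕ, 1 ≤ t → t < 2 ^ 2 ^ (n - 4) → HasHadamard n (2 * t)) := by
  refine ⟨?_, fun t ht h => binary' n hn t ht h⟩
  intro ts
  induction ts with
  | nil => intro h; exact absurd rfl h
  | cons t ts ih =>
    intro _ h
    have ht : HasHadamard n (2 * t) := by
      rcases h t (by simp) with h1 | ⟨L, hL, hlen, rfl⟩
      · exact small_order n t (by omega) h1
      · exact sum_powers' n hn L hL hlen
    by_cases hts : ts = []
    · subst hts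
      simpa using ht
    · rw [List.map_cons, List.prod_cons]
      exact tensor n _ _ ht (ih hts (fun t' ht' => h t' (by simp [ht'])))

end Pool.Agent.V11175.Had
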