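import Pool.Agent.V11175.HadT5

/-!
# Hadamard matrices of dimension `n ≥ 4` and order `2 t` from four complementary functions on a group of order `t`
-/

set_option autoImplicit false

namespace Pool.Agent.V11175.Had

open Finset

/-- four `±1` functions on a finite abelian group whose autocorrelations cancel -/
def Complementary {G : Type} [AddCommGroup G] [Fintype G] (A B C D : G → ℤ) : Prop :=
  (∀ g, (A g = 1 ∨ A g = -1) ∧ (B g = 1 ∨ B g = -1) ∧ (C g = 1 ∨ C g = -1) ∧ (D g = 1 ∨ D g = -1)) ∧
  ∀ h : G, h ≠ 0 → ∑ g, (A g * A (g + h) + B g * B (g + h) + C g * C (g + h) + D g * D (g + h)) = 0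

lemma half_term (a b a' b' : ℤ) (ha : a = 1 ∨ a = -1) (hb : b = 1 ∨ b = -1) (ha' : a' = 1 ∨ a' = -1)
    (hb' : b' = 1 ∨ b' = -1) :
    2 * (a * a' * (if (if a = b then 0 else 1) = (if a' = b' then (0 : ℕ) else 1) then (1 : ℤ) else 0)) =
      a * a' + b * b' := by
  rcases ha with rfl | rfl <;> rcases hb with rfl | rfl <;> rcases ha' with rfl | rfl <;>
    rcases hb' with rfl | rfl <;> norm_num

theorem will {G : Type} [AddCommGroup G] [Fintype G] [DecidableEq G] (A B C D : G → ℤ)
    (h : Complementary A B C D) (n : ℕ) (hn : 4 ≤ n) : HasHadamard n (2 * Fintype.card G) := by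
  obtain ⟨hv, hac⟩ := h
  set cls : G × ZMod 2 → ℕ := fun w => if w.2 = 0 then (if A w.1 = B w.1 then 0 else 1) else
    (if C w.1 = D w.1 then 0 else 1) with hcls
  set sg : G × ZMod 2 → ℤ := fun w => if w.2 = 0 then A w.1 else C w.1 with hsg
  set al : G × ZMod 2 → Bool := fun w => decide (w.2 = 1) with hal
  have e2 : ∀ e : ZMod 2, e = 0 ∨ e = 1 := by decide
  have h1 : ∀ w, cls w < 2 := by
    intro w
    simp only [hcls]
    split_ifs <;> norm_num
  have h2 : ∀ w, sg w * sg w = 1 := by
    intro w
    simp only [hsg]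
    split_ifs
    · rcases (hv w.1).1 with h | h <;> rw [h] <;> norm_num
    · rcases (hv w.1).2.2.1 with h | h <;> rw [h] <;> norm_num
  have h3 : ∀ x x' : G × ZMod 2, x ≠ x' → al x = al x' → ∑ z, sg (x + z) * sg (x' + z) *
        (if cls (x + z) = cls (x' + z) then (1 : ℤ) else 0) = 0 := by
    intro x x' hx hxx
    have hsnd : x.2 = x'.2 := by
      rcases e2 x.2 with h | h <;> rcases e2 x'.2 with h' | h'
      · rw [h, h']
      · simp [hal, h, h'] at hxx
      · simp [hal, h, h'] at hxx
      · rw [h, h']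
    have hfst : x'.1 - x.1 ≠ 0 := by
      intro h
      apply hx
      exact Prod.ext (sub_eq_zero.mp h).symm hsnd
    have key := hac (x'.1 - x.1) hfst
    have t0 : ∀ g : G, g + (x'.1 - x.1) = x'.1 + (g - x.1) := by intro g; abel
    suffices hs : 2 * ∑ z, sg (x + z) * sg (x' + z) *
        (if cls (x + z) = cls (x' + z) then (1 : ℤ) else 0) = 0 by omega
    refine Eq.trans ?_ key
    have p1 : ∀ (g : G) (e : ZMod 2), x + (-x + (g, e)) = (g, e) := by intro g e; abel
    have p2 : ∀ (g : G) (e : ZMod 2), x' + (-x + (g, e)) = (g + (x'.1 - x.1), e) := by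
      intro g e
      apply Prod.ext
      · simp only [Prod.fst_add, Prod.fst_neg]; abel
      · simp only [Prod.snd_add, Prod.snd_neg, hsnd]; abel
    have hF : ∀ (g : G) (e : ZMod 2), sg (x + (Equiv.addLeft (-x)) (g, e)) * sg (x' + (Equiv.addLeft (-x)) (g, e)) *
        (if cls (x + (Equiv.addLeft (-x)) (g, e)) = cls (x' + (Equiv.addLeft (-x)) (g, e)) then (1 : ℤ) else 0) =
        sg (g, e) * sg (g + (x'.1 - x.1), e) *
        (if cls (g, e) = cls (g + (x'.1 - x.1), e) then (1 : ℤ) else 0) := by
      intro g e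
      show sg (x + (-x + (g, e))) * sg (x' + (-x + (g, e))) *
        (if cls (x + (-x + (g, e))) = cls (x' + (-x + (g, e))) then (1 : ℤ) else 0) = _
      rw [p1, p2]
    rw [← Equiv.sum_comp (Equiv.addLeft (-x)) (fun z => sg (x + z) * sg (x' + z) *
        (if cls (x + z) = cls (x' + z) then (1 : ℤ) else 0)), Finset.mul_sum, Fintype.sum_prod_type]
    apply Finset.sum_congr rfl
    intro g _
    have hu : (Finset.univ : Finset (ZMod 2)) = {0, 1} := by decide
    rw [hu, Finset.sum_pair (by decide), hF, hF]
    have q0 := half_term (A g) (B g) (A (g + (x'.1 - x.1))) (B (g + (x'.1 - x.1)))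
      (hv _).1 (hv _).2.1 (hv _).1 (hv _).2.1
    have q1 := half_term (C g) (D g) (C (g + (x'.1 - x.1))) (D (g + (x'.1 - x.1)))
      (hv _).2.2.1 (hv _).2.2.2 (hv _).2.2.1 (hv _).2.2.2
    have z1 : ¬ ((1 : ZMod 2) = 0) := by decide
    simp only [hsg, hcls, if_true, if_neg z1]
    rw [q0, q1]
    ring
  have hbal : (∑ z : G × ZMod 2, (if al z then (-1 : ℤ) else 1)) = 0 := by
    rw [Fintype.sum_prod_type]
    apply Finset.sum_eq_zero
    intro g _
    have hu : (Finset.univ : Finset (ZMod 2)) = {0, 1} := by decide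
    rw [hu, Finset.sum_pair (by decide)]
    simp [hal]
  have hcard : Fintype.card (G × ZMod 2) = 2 * Fintype.card G := by
    rw [Fintype.card_prod, ZMod.card]; ring
  apply transfer (V := G × ZMod 2) _ _ ((Fintype.equivFinOfCardEq hcard).symm)
  rcases Nat.mod_two_eq_zero_or_one n with hpar | hpar
  · obtain ⟨M, rfl⟩ : ∃ M, n = M + 3 := ⟨n - 3, by omega⟩
    refine exists_single2 M (by omega) al hbal cls sg (fun w => ?_) h2 h3
    have : 2 ^ 1 ≤ 2 ^ M := Nat.pow_le_pow_right (by norm_num) (by omega)
    have := h1 w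
    omega
  · obtain ⟨N, rfl⟩ : ∃ N, n = N + 2 := ⟨n - 2, by omega⟩
    refine exists_single N (by omega) al hbal (fun w => 2 * cls w + (if al w then 1 else 0)) sg (fun w => ?_) h2 ?_
    · have : 2 ^ 2 ≤ 2 ^ (N - 1) := Nat.pow_le_pow_right (by norm_num) (by omega)
      have := h1 w
      split_ifs <;> omega
    · intro x x' hx
      have hadd : ∀ a b : G × ZMod 2, al (a + b) = Bool.xor (al a) (al b) := by
        intro a b
        have key2 : ∀ u v : ZMod 2, decide (u + v = 1) = Bool.xor (decide (u = 1)) (decide (v = 1)) := by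
          decide
        exact key2 a.2 b.2
      by_cases hxx : al x = al x'
      · refine Eq.trans ?_ (h3 x x' hx hxx)
        apply Finset.sum_congr rfl
        intro z _
        congr 1
        have : al (x + z) = al (x' + z) := by rw [hadd, hadd, hxx]
        rw [this]
        by_cases hc : cls (x + z) = cls (x' + z)
        · rw [if_pos hc, if_pos (by rw [hc])]
        · rw [if_neg hc, if_neg (by omega)]
      · apply Finset.sum_eq_zero
        intro z _
        rw [if_neg, mul_zero]
        intro hc
        have hne : al (x + z) ≠ al (x' + z) := by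
          rw [hadd, hadd]
          intro h
          apply hxx
          revert h
          cases al x <;> cases al x' <;> cases al z <;> simp
        cases ha : al (x + z) <;> cases hb : al (x' + z)
        · exact hne (by rw [ha, hb])
        · rw [ha, hb] at hc; simp at hc; omega
        · rw [ha, hb] at hc; simp at hc; omega
        · exact hne (by rw [ha, hb])

end Pool.Agent.V11175.Had
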