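import Mathlib

/-!
# A search for sets with private points

Sets are natural numbers read in binary. `search L k st unc` looks for `k` members of the list `L` of pairs
(set, complement) which have private points in `unc` and leave a point in every set of `st`.
-/

set_option autoImplicit false

namespace Pool.Agent.V11175.Search32

/-- Intersect all sets of a list with `ne`; fail if one becomes empty. -/
def cut (ne : ℕ) : List ℕ → List ℕ → (List ℕ → Bool) → Bool
  | [], acc, f => f acc
  | P :: Ps, acc, f => match P &&& ne with
    | 0 => false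
    | m + 1 => cut ne Ps ((m + 1) :: acc) f

/-- The search. -/
def search : List (ℕ × ℕ) → ℕ → List ℕ → ℕ → Bool
  | _, 0, _, _ => true
  | [], _ + 1, _, _ => false
  | e :: es, k + 1, st, unc =>
    search es (k + 1) st unc ||
      (match unc &&& e.1 with
       | 0 => false
       | a + 1 => match unc &&& e.2 with
         | 0 => (k == 0) && cut e.2 st [a + 1] (fun _ => true)
         | u + 1 =>
            if (decide (2 ≤ k) && ((u + 1) &&& u) == 0) then false else
            cut e.2 st [a + 1] (fun st' => search es k st' (u + 1)))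

/-- The selected sets have private points in `unc`. -/
def Good : List (ℕ × ℕ) → ℕ → Prop
  | [], _ => True
  | e :: sel, unc => (∃ j, unc.testBit j = true ∧ e.1.testBit j = true ∧
      ∀ e' ∈ sel, e'.2.testBit j = true) ∧ Good sel (unc &&& e.2)

theorem cut_eq (ne : ℕ) : ∀ (Ps acc : List ℕ) (f : List ℕ → Bool), (∀ P ∈ Ps, P &&& ne ≠ 0) →
    cut ne Ps acc f = f ((Ps.map fun P => P &&& ne).reverse ++ acc)
  | [], acc, f, _ => by simp [cut]
  | P :: Ps, acc, f, h => by
    obtain ⟨m, hm⟩ : ∃ m, P &&& ne = m + 1 :=
      ⟨(P &&& ne) - 1, by have := h P (List.mem_cons_self ..); omega⟩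
    have ih := cut_eq ne Ps ((m + 1) :: acc) f (fun P' hP' => h P' (List.mem_cons_of_mem _ hP'))
    simp only [cut, hm, ih, List.map_cons, List.reverse_cons, List.append_assoc,
      List.singleton_append]

theorem ne_zero_of_testBit {x j : ℕ} (h : x.testBit j = true) : x ≠ 0 := by
  rintro rfl
  simp at h

/-- Clearing the lowest bit of a number with two ones leaves a one. -/
theorem two_bits {u i j : ℕ} (hij : i ≠ j) (hi : (u + 1).testBit i = true)
    (hj : (u + 1).testBit j = true) : (u + 1) &&& u ≠ 0 := by
  wlog h : i < j generalizing i j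
  · exact this hij.symm hj hi (by omega)
  apply ne_zero_of_testBit (j := j)
  rw [Nat.testBit_and, hj, Bool.true_and]
  -- `u` and `u + 1` agree from bit `j` on
  have h1 : (u + 1) % 2 ^ j ≠ 0 := by
    intro h0
    have h2 : ((u + 1) % 2 ^ j).testBit i = true := by
      rw [Nat.testBit_mod_two_pow]; simp [h, hi]
    rw [h0] at h2
    simp at h2
  have h3 : u / 2 ^ j = (u + 1) / 2 ^ j := by
    have h4 := Nat.div_add_mod (u + 1) (2 ^ j)
    have h5 : (u + 1) % 2 ^ j < 2 ^ j := Nat.mod_lt _ (by positivity)
    have h6 : u = ((u + 1) % 2 ^ j - 1) + 2 ^ j * ((u + 1) / 2 ^ j) := by omega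
    conv_lhs => rw [h6]
    rw [Nat.add_mul_div_left _ _ (by positivity), Nat.div_eq_of_lt (by omega), Nat.zero_add]
  rw [Nat.testBit_eq_decide_div_mod_eq] at hj ⊢
  rw [h3]; exact hj

theorem search_zero (L : List (ℕ × ℕ)) (st : List ℕ) (unc : ℕ) : search L 0 st unc = true := by
  cases L <;> simp [search]

theorem search_sound : ∀ (L : List (ℕ × ℕ)) (k : ℕ) (st : List ℕ) (unc : ℕ) (sel : List (ℕ × ℕ)),
    sel.Sublist L → sel.length = k → (∀ e ∈ sel, e.1 &&& e.2 = 0) → Good sel unc →
    (∀ P ∈ st, ∃ j, P.testBit j = true ∧ ∀ e ∈ sel, e.2.testBit j = true) →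
    search L k st unc = true
  | L, 0, st, unc, _, _, _, _, _, _ => search_zero L st unc
  | [], k + 1, st, unc, sel, hsub, hlen, _, _, _ => by
    rw [List.sublist_nil.1 hsub] at hlen
    simp at hlen
  | e :: es, k + 1, st, unc, sel, hsub, hlen, hdis, hgood, hst => by
    rw [search, Bool.or_eq_true]
    cases hsub with
    | cons _ h => left; exact search_sound es (k + 1) st unc sel h hlen hdis hgood hst
    | @cons_cons sel' _ _ h =>
      right
      rw [List.length_cons] at hlen
      obtain ⟨⟨j1, hj1, hj1e, hj1s⟩, hgood'⟩ := hgood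
      obtain ⟨a, ha⟩ : ∃ a, unc &&& e.1 = a + 1 := by
        have : unc &&& e.1 ≠ 0 :=
          ne_zero_of_testBit (j := j1) (by rw [Nat.testBit_and, hj1, hj1e]; rfl)
        exact ⟨(unc &&& e.1) - 1, by omega⟩
      have hcutst : ∀ P ∈ st, P &&& e.2 ≠ 0 := by
        intro P hP
        obtain ⟨j, hj, hje⟩ := hst P hP
        exact ne_zero_of_testBit (j := j)
          (by rw [Nat.testBit_and, hj, hje e (List.mem_cons_self ..)]; rfl)
      simp only [ha]
      match hu : unc &&& e.2 with
      | 0 =>
        -- no further set
        match sel', hlen, hgood' with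
        | [], hlen, _ =>
          have hk : k = 0 := by simpa using hlen.symm
          simp only [hk, cut_eq _ _ _ _ hcutst]
          rfl
        | e2 :: _, _, hgood' =>
          exfalso
          obtain ⟨⟨j, hj, _⟩, _⟩ := hgood'
          exact ne_zero_of_testBit hj hu
      | u + 1 =>
        simp only
        rw [if_neg, cut_eq _ _ _ _ hcutst]
        · apply search_sound es k _ (u + 1) sel' h (by omega)
            (fun e' he' => hdis e' (List.mem_cons_of_mem _ he')) (by rw [hu] at hgood'; exact hgood')
          intro P hP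
          rw [List.mem_append, List.mem_reverse, List.mem_map, List.mem_singleton] at hP
          rcases hP with ⟨P', hP', rfl⟩ | rfl
          · obtain ⟨j, hj, hje⟩ := hst P' hP'
            refine ⟨j, ?_, fun e' he' => hje e' (List.mem_cons_of_mem _ he')⟩
            rw [Nat.testBit_and, hj, hje e (List.mem_cons_self ..)]; rfl
          · refine ⟨j1, ?_, hj1s⟩
            rw [← ha, Nat.testBit_and, hj1, hj1e]; rfl
        · intro hcon
          rw [Bool.and_eq_true, decide_eq_true_iff, beq_iff_eq] at hcon
          obtain ⟨hk2, h0⟩ := hcon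
          match sel', hlen, hgood', hdis with
          | [], hlen, _, _ => simp at hlen; omega
          | [_], hlen, _, _ => simp at hlen; omega
          | e2 :: e3 :: _, _, hgood', hdis =>
            obtain ⟨⟨j2, hj2, hj2e, _⟩, ⟨⟨j3, hj3, _, _⟩, _⟩⟩ := hgood'
            rw [Nat.testBit_and, Bool.and_eq_true] at hj3
            have hne : j2 ≠ j3 := by
              rintro rfl
              have h1 : (e2.1 &&& e2.2).testBit j2 = true := by
                rw [Nat.testBit_and, hj2e, hj3.2]; rfl
              rw [hdis e2 (List.mem_cons_of_mem _ (List.mem_cons_self ..))] at h1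
              simp at h1
            rw [hu] at hj2 hj3
            exact two_bits hne hj2 hj3.1 h0

end Pool.Agent.V11175.Search32
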